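import Pool.Agent.MP_655169_nt.Defs

set_option linter.unusedSectionVars false

namespace Pool.Agent.MP_655169_nt

open Polynomial Filter Topology

universe u

lemma amb2_cont {K : Type u} [NormedField K] (q : ℕ) (hq : 0 < q)
    (σ : K →+* K) (hσ : ∀ y, ‖σ y‖ = ‖y‖ ^ q) : Continuous σ := by
  refine continuous_of_continuousAt_zero σ ?_
  rw [ContinuousAt, map_zero, tendsto_zero_iff_norm_tendsto_zero]
  simp only [hσ]
  exact (continuous_norm.pow q).tendsto' 0 0 (by simp [hq.ne'])

lemma amb2_ultra {K : Type u} [NormedField K] [IsUltrametricDist K] :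
    IsUltrametricDist (UniformSpace.Completion K) := by
  refine ⟨fun x y z => ?_⟩
  refine UniformSpace.Completion.induction_on₃ x y z (isClosed_le (by fun_prop) (by fun_prop))
    fun a b c => ?_
  simp only [UniformSpace.Completion.dist_eq]
  exact IsUltrametricDist.dist_triangle_max a b c

/-- Passage to the completion. -/
theorem amb2 {K : Type u} [NormedField K] [IsUltrametricDist K] (q : ℕ) (hq : 0 < q)
    (σ : K →+* K) (hσ : ∀ y, ‖σ y‖ = ‖y‖ ^ q) :
    ∃ (L : Type u) (_ : NormedField L) (_ : IsUltrametricDist L) (_ : CompleteSpace L)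
      (φ : K →+* L) (τ : L →+* L), (∀ x, ‖φ x‖ = ‖x‖) ∧ (∀ x, τ (φ x) = φ (σ x)) ∧
        ∀ y, ‖τ y‖ = ‖y‖ ^ q := by
  have hc := amb2_cont q hq σ hσ
  refine ⟨UniformSpace.Completion K, inferInstance, amb2_ultra, inferInstance,
    UniformSpace.Completion.coeRingHom, UniformSpace.Completion.mapRingHom σ hc,
    fun x => UniformSpace.Completion.norm_coe x,
    fun x => UniformSpace.Completion.mapRingHom_coe hc x, fun y => ?_⟩
  refine UniformSpace.Completion.induction_on y
    (isClosed_eq (UniformSpace.Completion.continuous_map.norm) (continuous_norm.pow q)) fun a => ?_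
  rw [UniformSpace.Completion.mapRingHom_coe hc, UniformSpace.Completion.norm_coe,
    UniformSpace.Completion.norm_coe, hσ]

end Pool.Agent.MP_655169_nt
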