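import Pool.Agent.MP_655169_nt.Defs

set_option linter.unusedSectionVars false

namespace Pool.Agent.MP_655169_nt

open Polynomial Filter Topology

universe u

theorem amb3_lift {L Ω : Type*} [Field L] [Field Ω] [IsAlgClosed Ω] [i : Algebra L Ω]
    [Algebra.IsAlgebraic L Ω] (ψ : L →+* Ω) :
    ∃ τ : Ω →+* Ω, ∀ x, τ (algebraMap L Ω x) = ψ x := by
  let j : Algebra L Ω := ψ.toAlgebra
  let f := @IsAlgClosed.lift Ω _ _ L _ _ Ω _ _ i j _ _ _
  exact ⟨@AlgHom.toRingHom L Ω Ω _ _ _ i j f, fun x => @AlgHom.commutes L Ω Ω _ _ _ i j f x⟩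

/-- Passage to the algebraic closure. -/
theorem amb3 {L : Type u} [NontriviallyNormedField L] [IsUltrametricDist L] [CompleteSpace L]
    (q : ℕ) (hq : 0 < q) (σ : L →+* L) (hσ : ∀ y, ‖σ y‖ = ‖y‖ ^ q) :
    ∃ (Ω : Type u) (_ : NormedField Ω) (_ : IsUltrametricDist Ω) (_ : IsAlgClosed Ω)
      (φ : L →+* Ω) (τ : Ω →+* Ω), (∀ x, ‖φ x‖ = ‖x‖) ∧ (∀ x, τ (φ x) = φ (σ x)) ∧
        ∀ y, ‖τ y‖ = ‖y‖ ^ q := by
  obtain ⟨τ, hτ⟩ := amb3_lift ((algebraMap L (AlgebraicClosure L)).comp σ)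
  let _ : NormedField (AlgebraicClosure L) := spectralNorm.normedField L (AlgebraicClosure L)
  have hn : ∀ y : AlgebraicClosure L, ‖y‖ = spectralNorm L (AlgebraicClosure L) y := fun _ => rfl
  have hna : ∀ x y : AlgebraicClosure L, ‖x + y‖ ≤ max ‖x‖ ‖y‖ := isNonarchimedean_spectralNorm
  have hφ : ∀ x, ‖algebraMap L (AlgebraicClosure L) x‖ = ‖x‖ := spectralNorm_extends
  have hq' : (0 : ℝ) ≤ (q : ℝ)⁻¹ := by positivity
  let f : AbsoluteValue (AlgebraicClosure L) ℝ :=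
    { toFun := fun y => ‖τ y‖ ^ (q : ℝ)⁻¹
      map_mul' := fun x y => by
        rw [map_mul, norm_mul, Real.mul_rpow (norm_nonneg _) (norm_nonneg _)]
      nonneg' := fun x => by positivity
      eq_zero' := fun x => by
        rw [Real.rpow_eq_zero (norm_nonneg _) (by positivity), norm_eq_zero, map_eq_zero]
      add_le' := fun x y => by
        have h1 := Real.rpow_le_rpow (norm_nonneg _) (hna (τ x) (τ y)) hq'
        have h2 : 0 ≤ ‖τ x‖ ^ (q : ℝ)⁻¹ := by positivity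
        have h3 : 0 ≤ ‖τ y‖ ^ (q : ℝ)⁻¹ := by positivity
        rw [← map_add] at h1
        rcases max_choice ‖τ x‖ ‖τ y‖ with h | h <;> rw [h] at h1 <;> linarith }
  have hf : ∀ y, ‖τ y‖ ^ (q : ℝ)⁻¹ = ‖y‖ :=
    spectralNorm_unique_field_norm_ext (f := f) fun x => by
      change ‖τ _‖ ^ (q : ℝ)⁻¹ = _
      rw [hτ, RingHom.comp_apply, hφ, hσ, Real.pow_rpow_inv_natCast (norm_nonneg _) hq.ne']
  refine ⟨AlgebraicClosure L, inferInstance,
    IsUltrametricDist.isUltrametricDist_of_isNonarchimedean_norm hna, inferInstance,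
    algebraMap L _, τ, hφ, hτ, fun y => ?_⟩
  rw [← hf y, Real.rpow_inv_natCast_pow (norm_nonneg _) hq.ne']

end Pool.Agent.MP_655169_nt
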