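import Pool.Agent.MP_655169_nt.Amb1
import Pool.Agent.MP_655169_nt.Amb2
import Pool.Agent.MP_655169_nt.Amb3

namespace Pool.Agent.MP_655169_nt

open Polynomial Filter Topology

universe u

/-- The ambient data exist. -/
theorem amb {F : Type*} {C : Type u} [Field F] [Fintype F] [NormedField C] [IsUltrametricDist C]
    [Algebra F C] (θ : C) (hθ : 1 < ‖θ‖) :
    ∃ (Ω : Type u) (_ : NormedField Ω) (_ : IsUltrametricDist Ω) (_ : IsAlgClosed Ω)
      (_ : Algebra C Ω) (_ : Algebra F Ω) (_ : IsScalarTower F C Ω) (Z : Sit F C Ω), Z.θ = θ := by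
  have hq : 0 < qq F := Fintype.card_pos
  let fr : C →+* C := (FiniteField.frobeniusAlgHom F C).toRingHom
  have hfr : ∀ x, fr x = x ^ qq F := fun x => rfl
  obtain ⟨K, _, _, _, t, σ, g1, g2, g3, g4, g5⟩ := amb1 (qq F) hq fr hfr
  obtain ⟨L, iL, _, _, φ, τ, p1, p2, p3⟩ := amb2 (qq F) hq σ g5
  have hK : 1 < ‖φ (algebraMap C K θ)‖ := by
    have := g1 (Polynomial.C θ) 0
    simp only [coeff_C_zero, aeval_C] at this
    rw [p1]
    exact hθ.trans_le this
  let : NontriviallyNormedField L := { iL with non_trivial := ⟨_, hK⟩ }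
  obtain ⟨Ω, iΩ, _, _, ψ, υ, r1, r2, r3⟩ := amb3 (qq F) hq τ p3
  let aC : Algebra C Ω := ((ψ.comp φ).comp (algebraMap C K)).toAlgebra
  let aF : Algebra F Ω := ((algebraMap C Ω).comp (algebraMap F C)).toAlgebra
  have tw : IsScalarTower F C Ω := IsScalarTower.of_algebraMap_eq fun _ => rfl
  have key : ∀ H : C[X], aeval (ψ (φ t)) H = ψ (φ (aeval t H)) := by
    intro H
    have := Polynomial.hom_eval₂ H (algebraMap C K) (ψ.comp φ) t
    simp only [RingHom.comp_apply] at this
    rw [aeval_def, aeval_def, this]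
    rfl
  refine ⟨Ω, iΩ, inferInstance, inferInstance, aC, aF, tw,
    { θ := θ, hθ := hθ, fr := fr, fr_eq := hfr, t := ψ (φ t), σ := υ, gauss_le := ?_,
      gauss_ge := ?_, σ_c := ?_, σ_t := ?_, σ_norm := r3, compl := ?_ }, rfl⟩
  · intro H j
    rw [key, r1, p1]
    exact g1 H j
  · intro H
    rw [key, r1, p1]
    exact g2 H
  · intro c
    change υ (ψ (φ (algebraMap C K c))) = ψ (φ (algebraMap C K (c ^ qq F)))
    rw [r2, p2, g3]
  · rw [r2, p2, g4]
  · intro v hv hc
    have hiso : Isometry ψ := AddMonoidHomClass.isometry_of_norm ψ r1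
    have : ∀ n, ∃ w : L, ψ w = v n := by
      intro n
      obtain ⟨a, b, e⟩ := hv n
      exact ⟨φ (aeval t a) / φ (aeval t b), by rw [e, key, key, map_div₀]⟩
    choose w hw using this
    have hcw : CauchySeq w := by
      rw [Metric.cauchySeq_iff] at hc ⊢
      intro ε hε
      obtain ⟨N, hN⟩ := hc ε hε
      exact ⟨N, fun a ha b hb => by rw [← hiso.dist_eq, hw, hw]; exact hN a ha b hb⟩
    obtain ⟨y, hy⟩ := cauchySeq_tendsto_of_complete hcw
    refine ⟨ψ y, ?_⟩
    have := (hiso.continuous.tendsto y).comp hy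
    simpa [Function.comp_def, hw] using this

end Pool.Agent.MP_655169_nt
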