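import Pool.Agent.MP_655169_nt.Defs

set_option linter.unusedSectionVars false

namespace Pool.Agent.MP_655169_nt

open Polynomial Filter Topology

universe u

/-- A nonarchimedean absolute value on a domain extends to the fraction field. -/
theorem amb1_ext {R K : Type*} [CommRing R] [IsDomain R] [Field K] [Algebra R K]
    [IsFractionRing R K] (G : R → ℝ) (h0 : ∀ a, 0 ≤ G a) (hz : ∀ a, G a = 0 ↔ a = 0)
    (hm : ∀ a b, G (a * b) = G a * G b) (hna : IsNonarchimedean G) :
    ∃ v : AbsoluteValue K ℝ, IsNonarchimedean v ∧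
      ∀ a b : R, v (algebraMap R K a / algebraMap R K b) = G a / G b := by
  choose nu de hde hnd using fun z : K => IsFractionRing.div_surjective R z
  have inj : Function.Injective (algebraMap R K) := IsFractionRing.injective R K
  have hpos : ∀ b : R, b ≠ 0 → 0 < G b := fun b hb =>
    lt_of_le_of_ne (h0 b) fun h => hb ((hz b).1 h.symm)
  have hne : ∀ b : R, b ≠ 0 → algebraMap R K b ≠ 0 := fun b hb =>
    (map_ne_zero_iff _ inj).2 hb
  have hG0 : G 0 = 0 := (hz 0).2 rfl
  let w : K → ℝ := fun z => G (nu z) / G (de z)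
  have hw0 : ∀ z, 0 ≤ w z := fun z => div_nonneg (h0 _) (h0 _)
  have hd : ∀ z, de z ≠ 0 := fun z => nonZeroDivisors.ne_zero (hde z)
  have key : ∀ a b : R, b ≠ 0 → w (algebraMap R K a / algebraMap R K b) = G a / G b := by
    intro a b hb
    set z := algebraMap R K a / algebraMap R K b with hzdef
    have h1 := (hnd z).trans hzdef
    rw [div_eq_div_iff (hne _ (hd z)) (hne _ hb), ← map_mul, ← map_mul] at h1
    have h2 := congrArg G (inj h1)
    rw [hm, hm] at h2
    simp only [w]
    rw [div_eq_div_iff (hpos _ (hd z)).ne' (hpos _ hb).ne', h2]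
  have hna' : IsNonarchimedean w := by
    intro x y
    have hx := hpos _ (hd x)
    have hy := hpos _ (hd y)
    have h1 : x + y = algebraMap R K (nu x * de y + de x * nu y) / algebraMap R K (de x * de y) := by
      rw [map_add, map_mul, map_mul, map_mul, ← div_add_div _ _ (hne _ (hd x)) (hne _ (hd y)),
        hnd, hnd]
    rw [h1, key _ _ (mul_ne_zero (hd x) (hd y)), hm, div_le_iff₀ (mul_pos hx hy)]
    refine (hna _ _).trans (max_le ?_ ?_)
    · refine le_trans (le_of_eq ?_) (mul_le_mul_of_nonneg_right (le_max_left (w x) (w y))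
        (mul_pos hx hy).le)
      simp only [w, hm]
      field_simp
    · refine le_trans (le_of_eq ?_) (mul_le_mul_of_nonneg_right (le_max_right (w x) (w y))
        (mul_pos hx hy).le)
      simp only [w, hm]
      field_simp
  have hzero : ∀ z, w z = 0 ↔ z = 0 := by
    intro z
    simp only [w]
    rw [div_eq_zero_iff, or_iff_left (hpos _ (hd z)).ne', hz]
    conv_rhs => rw [← hnd z, div_eq_zero_iff, or_iff_left (hne _ (hd z)), map_eq_zero_iff _ inj]
  refine ⟨⟨⟨w, fun x y => ?_⟩, hw0, hzero, fun x y => ?_⟩, hna', fun a b => ?_⟩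
  · have h1 : x * y = algebraMap R K (nu x * nu y) / algebraMap R K (de x * de y) := by
      rw [map_mul, map_mul, ← div_mul_div_comm, hnd, hnd]
    rw [h1, key _ _ (mul_ne_zero (hd x) (hd y)), hm, hm, ← div_mul_div_comm]
  · exact (hna' x y).trans (max_le (le_add_of_nonneg_right (hw0 y))
      (le_add_of_nonneg_left (hw0 x)))
  · change w _ = _
    rcases eq_or_ne b 0 with rfl | hb
    · rw [map_zero, div_zero, hG0, div_zero, hzero]
    · exact key a b hb

/-- The rational function field with the Gauss norm and the twist of the coefficients. -/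
theorem amb1 {C : Type u} [NormedField C] [IsUltrametricDist C] (q : ℕ) (hq : 0 < q)
    (fr : C →+* C) (hfr : ∀ x, fr x = x ^ q) :
    ∃ (K : Type u) (_ : NormedField K) (_ : IsUltrametricDist K) (_ : Algebra C K) (t : K)
      (σ : K →+* K), (∀ (H : C[X]) (j : ℕ), ‖H.coeff j‖ ≤ ‖aeval t H‖) ∧
        (∀ H : C[X], ∃ j, ‖aeval t H‖ ≤ ‖H.coeff j‖) ∧
        (∀ c : C, σ (algebraMap C K c) = algebraMap C K (c ^ q)) ∧ σ t = t ∧
        ∀ y, ‖σ y‖ = ‖y‖ ^ q := by
  let u : AbsoluteValue C ℝ := NormedField.toAbsoluteValue C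
  have hu : IsNonarchimedean u := IsUltrametricDist.isNonarchimedean_norm
  let G : C[X] → ℝ := gaussNorm u 1
  have h0 : ∀ a, 0 ≤ G a := fun a => gaussNorm_nonneg u a zero_le_one
  have hle : ∀ (a : C[X]) (j : ℕ), ‖a.coeff j‖ ≤ G a := fun a j => by
    have := le_gaussNorm u a zero_le_one j
    rwa [one_pow, mul_one] at this
  have hex : ∀ a : C[X], ∃ j, G a = ‖a.coeff j‖ := fun a => by
    obtain ⟨j, hj⟩ := exists_eq_gaussNorm u 1 a
    rw [one_pow, mul_one] at hj
    exact ⟨j, hj⟩
  have hG1 : G 1 = 1 := by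
    have := gaussNorm_C u 1 (1 : C)
    rw [map_one, map_one] at this
    exact this
  have hfrG : ∀ a : C[X], G (a.map fr) = G a ^ q := by
    intro a
    apply le_antisymm
    · obtain ⟨j, hj⟩ := hex (a.map fr)
      rw [hj, coeff_map, hfr, norm_pow]
      exact pow_le_pow_left₀ (norm_nonneg _) (hle a j) q
    · obtain ⟨j, hj⟩ := hex a
      rw [hj, ← norm_pow, ← hfr, ← coeff_map]
      exact hle _ j
  obtain ⟨v, hv, hdiv⟩ := amb1_ext (K := FractionRing C[X]) G h0
    (fun a => gaussNorm_eq_zero_iff u a (fun _ hx => u.eq_zero.1 hx) one_pos)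
    (fun a b => gaussNorm_mul hu one_pos a b) (isNonarchimedean_gaussNorm u hu zero_le_one)
  have hval : ∀ a : C[X], v (algebraMap C[X] (FractionRing C[X]) a) = G a := fun a => by
    simpa [hG1] using hdiv a 1
  have hinj : Function.Injective
      ((algebraMap C[X] (FractionRing C[X])).comp (mapRingHom fr)) :=
    (IsFractionRing.injective C[X] _).comp (map_injective fr fr.injective)
  let σ : FractionRing C[X] →+* FractionRing C[X] := IsFractionRing.lift hinj
  have hσ : ∀ a : C[X], σ (algebraMap C[X] _ a) = algebraMap C[X] _ (a.map fr) := fun a =>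
    IsFractionRing.lift_algebraMap hinj a
  have hev : ∀ H : C[X], aeval (algebraMap C[X] (FractionRing C[X]) X) H =
      algebraMap C[X] (FractionRing C[X]) H := fun H => by
    rw [aeval_algebraMap_apply, aeval_X_left_apply]
  let nf : NormedField (FractionRing C[X]) := v.toNormedField
  have hn : ∀ y : FractionRing C[X], ‖y‖ = v y := fun _ => rfl
  refine ⟨FractionRing C[X], nf, IsUltrametricDist.isUltrametricDist_of_isNonarchimedean_norm hv,
    inferInstance, algebraMap C[X] _ X, σ, fun H j => ?_, fun H => ?_, fun c => ?_, ?_,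
    fun y => ?_⟩
  · rw [hev, hn, hval]
    exact hle H j
  · obtain ⟨j, hj⟩ := hex H
    exact ⟨j, by rw [hev, hn, hval, hj]⟩
  · rw [IsScalarTower.algebraMap_apply C C[X] (FractionRing C[X]),
      IsScalarTower.algebraMap_apply C C[X] (FractionRing C[X]), hσ, Polynomial.algebraMap_apply,
      Polynomial.algebraMap_apply, map_C, Algebra.algebraMap_self_apply, Algebra.algebraMap_self_apply, hfr]
  · rw [hσ, map_X]
  · obtain ⟨a, b, -, rfl⟩ := IsFractionRing.div_surjective C[X] y
    rw [map_div₀, hσ, hσ, hn, hn, hdiv, hdiv, hfrG, hfrG, div_pow]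

end Pool.Agent.MP_655169_nt
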