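import Pool.Agent.MP_655169_nt.Basic1

set_option linter.unusedSectionVars false

namespace Pool.Agent.MP_655169_nt

open Polynomial Filter Topology

variable {F C Ω : Type*} [Field F] [Fintype F] [NormedField C] [IsUltrametricDist C]
  [IsAlgClosed C] [Algebra F C] [NormedField Ω] [IsUltrametricDist Ω] [IsAlgClosed Ω]
  [Algebra C Ω] [Algebra F Ω] [IsScalarTower F C Ω] (Z : Sit F C Ω)

theorem basic_tail {Λ : Type*} [NormedField Λ] [IsUltrametricDist Λ] (g : ℕ → Λ) (L : Λ)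
    (h : Tendsto (fun m => ∑ i ∈ Finset.range m, g i) atTop (𝓝 L)) (m : ℕ) (B : ℝ) (hB : 0 ≤ B)
    (hg : ∀ i, m ≤ i → ‖g i‖ ≤ B) : ‖L - ∑ i ∈ Finset.range m, g i‖ ≤ B := by
  refine le_of_tendsto (h.sub_const (∑ i ∈ Finset.range m, g i)).norm ?_
  filter_upwards [eventually_ge_atTop m] with k hk
  rw [← Finset.sum_Ico_eq_sub _ hk]
  exact IsUltrametricDist.norm_sum_le_of_forall_le_of_nonneg hB
    fun i hi => hg i (Finset.mem_Ico.1 hi).1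

namespace Sit

theorem basic_one_le (i : ℕ) : 1 ≤ ‖Z.θ‖ ^ qq F ^ i := one_le_pow₀ Z.hθ.le

theorem basic_t1 (u : C) (i : ℕ) :
    ‖algebraMap C Ω (Z.ee u i) / (algebraMap C Ω (Z.θ ^ qq F ^ i) - Z.t)‖ =
      ‖Z.ee u i‖ / ‖Z.θ‖ ^ qq F ^ i := by
  rw [norm_div, Z.norm_alg, Z.norm_sub_t _ (by rw [norm_pow]; exact Z.basic_one_le i), norm_pow]

theorem basic_t2 (u : C) (n i : ℕ) :
    ‖Z.ee u i ^ qq F ^ (n + 1) / ((Z.θ ^ qq F ^ i) ^ qq F ^ (n + 1) - Z.θ)‖ =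
      (‖Z.ee u i‖ / ‖Z.θ‖ ^ qq F ^ i) ^ qq F ^ (n + 1) := by
  have hq : 1 < qq F ^ i * qq F ^ (n + 1) := by
    rw [← pow_add]
    exact Nat.one_lt_pow (by omega) (two_le_qq (F := F))
  have h1 : ‖-Z.θ‖ < ‖(Z.θ ^ qq F ^ i) ^ qq F ^ (n + 1)‖ := by
    rw [norm_neg, ← pow_mul, norm_pow]
    exact lt_self_pow₀ Z.hθ hq
  rw [norm_div, sub_eq_add_neg, IsUltrametricDist.norm_add_eq_max_of_norm_ne_norm h1.ne',
    max_eq_left h1.le, norm_pow, norm_pow, norm_pow, div_pow]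

theorem basic_a (u : C) : ∃ (m0 : ℕ) (M : ℝ), (∀ i, ‖Z.ee u i‖ / ‖Z.θ‖ ^ qq F ^ i ≤ M) ∧
    ∀ m, m0 ≤ m → ∀ i, m ≤ i → ‖Z.ee u i‖ / ‖Z.θ‖ ^ qq F ^ i ≤ (‖Z.θ‖ ^ qq F ^ m)⁻¹ := by
  have h : Tendsto (fun i => ‖Z.ee u i‖) atTop (𝓝 ‖(0 : C)‖) :=
    (tendsto_term (qq F) two_le_qq Z.θ Z.hθ u).norm
  obtain ⟨M, hM⟩ := h.bddAbove_range
  obtain ⟨m0, hm0⟩ := eventually_atTop.1 (h.eventually_le_const (by simp : ‖(0 : C)‖ < 1))
  refine ⟨m0, M, fun i => (div_le_self (norm_nonneg _) (Z.basic_one_le i)).trans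
    (hM ⟨i, rfl⟩), fun m hm i hi => ?_⟩
  rw [← one_div]
  have h0 : 0 < ‖Z.θ‖ := one_pos.trans Z.hθ
  exact div_le_div₀ zero_le_one (hm0 i (hm.trans hi)) (by positivity)
    (pow_le_pow_right₀ Z.hθ.le (Nat.pow_le_pow_right (Fintype.card_pos) hi))

theorem agf_bd {ι : Type*} [Fintype ι] (u al : ι → C) (f : ι → Ω)
    (h : ∀ i, Z.Agf (u i) (al i) (f i)) :
    ∃ (m0 : ℕ) (M : ℝ), 1 ≤ M ∧ ∀ i, ‖f i‖ ≤ M ∧ (∀ m, ‖Z.fm (u i) m‖ ≤ M) ∧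
      (∀ m, m0 ≤ m → ‖f i - Z.fm (u i) m‖ ≤ (‖Z.θ‖ ^ qq F ^ m)⁻¹) ∧
      (∀ n m, ‖Z.phm (u i) n m‖ ≤ M ^ qq F ^ (n + 1)) ∧
      (∀ n, ‖ph (qq F) Z.θ (u i) (al i) n‖ ≤ M ^ qq F ^ (n + 1)) ∧
      ∀ n m, m0 ≤ m → ‖ph (qq F) Z.θ (u i) (al i) n - Z.phm (u i) n m‖ ≤
        ((‖Z.θ‖ ^ qq F ^ m)⁻¹) ^ qq F ^ (n + 1) := by
  choose m0 M hM hm using fun i => Z.basic_a (u i)
  obtain ⟨M', hM'⟩ := (Set.finite_range M).bddAbove
  obtain ⟨m1, hm1⟩ := (Set.finite_range m0).bddAbove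
  refine ⟨m1, max 1 M', le_max_left _ _, fun i => ?_⟩
  have h0 : (0 : ℝ) ≤ max 1 M' := zero_le_one.trans (le_max_left _ _)
  have h1 : ∀ j, ‖Z.ee (u i) j‖ / ‖Z.θ‖ ^ qq F ^ j ≤ max 1 M' := fun j =>
    (hM i j).trans ((hM' ⟨i, rfl⟩).trans (le_max_right _ _))
  have h2 := fun m (hle : m1 ≤ m) => hm i m ((hm1 ⟨i, rfl⟩).trans hle)
  refine ⟨?_, fun m => ?_, fun m hle => ?_, fun n m => ?_, fun n => ?_, fun n m hle => ?_⟩
  · simpa using basic_tail _ _ (h i).lim 0 _ h0 fun j _ => (Z.basic_t1 _ j).trans_le (h1 j)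
  · exact IsUltrametricDist.norm_sum_le_of_forall_le_of_nonneg h0
      fun j _ => (Z.basic_t1 _ j).trans_le (h1 j)
  · exact basic_tail _ _ (h i).lim m _ (by positivity)
      fun j hj => (Z.basic_t1 _ j).trans_le (h2 m hle j hj)
  · exact IsUltrametricDist.norm_sum_le_of_forall_le_of_nonneg (by positivity)
      fun j _ => (Z.basic_t2 _ n j).trans_le (pow_le_pow_left₀ (by positivity) (h1 j) _)
  · simpa using basic_tail _ _ (Z.phm_lim (h i).hs n) 0 (max 1 M' ^ qq F ^ (n + 1))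
      (by positivity)
      fun j _ => (Z.basic_t2 _ n j).trans_le (pow_le_pow_left₀ (by positivity) (h1 j) _)
  · exact basic_tail _ _ (Z.phm_lim (h i).hs n) m _ (by positivity)
      fun j hj => (Z.basic_t2 _ n j).trans_le (pow_le_pow_left₀ (by positivity) (h2 m hle j hj) _)

end Sit

end Pool.Agent.MP_655169_nt
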