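import Pool.Agent.MP_655169_nt.Trunc

set_option linter.unusedSectionVars false

namespace Pool.Agent.MP_655169_nt

open Polynomial Filter Topology

variable {F C Ω : Type*} [Field F] [Fintype F] [NormedField C] [IsUltrametricDist C]
  [IsAlgClosed C] [Algebra F C] [NormedField Ω] [IsUltrametricDist Ω] [IsAlgClosed Ω]
  [Algebra C Ω] [Algebra F Ω] [IsScalarTower F C Ω] (Z : Sit F C Ω)

theorem basic1_norm_sub {E : Type*} [NormedField E] [IsUltrametricDist E] {a b : E}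
    (h : ‖b‖ < ‖a‖) : ‖a - b‖ = ‖a‖ := by
  rw [sub_eq_add_neg, IsUltrametricDist.norm_add_eq_max_of_norm_ne_norm (by
    rw [norm_neg]; exact h.ne'), norm_neg, max_eq_left h.le]

theorem norm_carlitzD {E : Type*} [NormedField E] [IsUltrametricDist E] (q : ℕ) (hq : 2 ≤ q)
    (θ : E) (hθ : 1 < ‖θ‖) (i : ℕ) : ‖carlitzD q θ i‖ = ‖θ‖ ^ (i * q ^ i) := by
  rw [carlitzD, norm_prod, Finset.prod_congr rfl fun j hj => basic1_norm_sub (a := θ ^ q ^ i)
    (b := θ ^ q ^ j) ?_, Finset.prod_const, Finset.card_range, norm_pow, ← pow_mul, mul_comm]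
  rw [norm_pow, norm_pow]
  exact pow_lt_pow_right₀ hθ (Nat.pow_lt_pow_right hq (Finset.mem_range.1 hj))

theorem tendsto_term {E : Type*} [NormedField E] [IsUltrametricDist E] (q : ℕ) (hq : 2 ≤ q)
    (θ : E) (hθ : 1 < ‖θ‖) (x : E) :
    Tendsto (fun i => x ^ q ^ i / carlitzD q θ i) atTop (𝓝 0) := by
  have h0 : Tendsto (fun i : ℕ => ‖x‖ / ‖θ‖ ^ i) atTop (𝓝 0) :=
    tendsto_const_nhds.div_atTop (tendsto_pow_atTop_atTop_of_one_lt hθ)
  refine squeeze_zero_norm' ?_ h0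
  filter_upwards [h0.eventually (ge_mem_nhds one_pos)] with i hi
  rw [norm_div, norm_carlitzD q hq θ hθ, norm_pow, pow_mul, ← div_pow]
  exact pow_le_of_le_one (by positivity) hi (by positivity)

namespace Sit

theorem basic1_ne (i : ℕ) : Z.θ ^ qq F ^ (i + 1) - Z.θ ≠ 0 := by
  refine sub_ne_zero.2 fun h => ?_
  have := lt_self_pow₀ Z.hθ (Nat.one_lt_pow (n := i + 1) (by omega) (two_le_qq (F := F)))
  rw [← norm_pow, h] at this
  exact lt_irrefl _ this

theorem basic1_one_le (i : ℕ) : 1 ≤ ‖Z.θ ^ qq F ^ i‖ := by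
  rw [norm_pow]; exact one_le_pow₀ Z.hθ.le

theorem basic1_ne_t (i : ℕ) : algebraMap C Ω (Z.θ ^ qq F ^ i) - Z.t ≠ 0 := by
  rw [← norm_pos_iff, Z.norm_sub_t _ (Z.basic1_one_le i)]
  exact one_pos.trans_le (Z.basic1_one_le i)

theorem ee_succ (u : C) (i : ℕ) :
    Z.ee u i ^ qq F = Z.ee u (i + 1) * (Z.θ ^ qq F ^ (i + 1) - Z.θ) := by
  have h1 : carlitzD (qq F) Z.θ (i + 1) =
      carlitzD (qq F) Z.θ i ^ qq F * (Z.θ ^ qq F ^ (i + 1) - Z.θ) := by
    rw [carlitzD, Finset.prod_range_succ', ← Z.fr_eq, carlitzD, map_prod, pow_zero, pow_one]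
    congr 1
    refine Finset.prod_congr rfl fun j _ => ?_
    rw [map_sub, Z.fr_eq, Z.fr_eq, ← pow_mul, ← pow_mul, ← pow_succ, ← pow_succ]
  have h2 := Z.basic1_ne i
  rw [ee, ee, h1, div_pow, ← pow_mul, ← pow_succ, div_mul_eq_div_div, div_mul_cancel₀ _ h2]

theorem exists_agf (u al : C) (h : HasSum (Z.ee u) al) : ∃ f, Z.Agf u al f := by
  have hc : CauchySeq (Z.fm u) := by
    refine NonarchimedeanAddGroup.cauchySeq_of_tendsto_sub_nhds_zero ?_
    have h0 := (tendsto_term (qq F) two_le_qq Z.θ Z.hθ u).norm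
    rw [norm_zero] at h0
    refine squeeze_zero_norm (fun m => ?_) h0
    rw [fm, fm, Finset.sum_range_succ, add_sub_cancel_left, norm_div, Z.norm_alg,
      Z.norm_sub_t _ (Z.basic1_one_le m)]
    exact div_le_self (norm_nonneg _) (Z.basic1_one_le m)
  obtain ⟨f, hf⟩ := Z.compl (Z.fm u) (fun m => ⟨Z.num u m, Z.den m, by
    rw [Z.num_t, mul_div_cancel_left₀ _ (Z.den_ne m)]⟩) hc
  exact ⟨f, h, hf⟩

theorem Agf.sol {u al : C} {f : Ω} (h : Z.Agf u al f) : Z.Sol al f := by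
  have key : ∀ m, Z.σ (Z.fm u m) = algebraMap C Ω (∑ i ∈ Finset.range (m + 1), Z.ee u i) +
      (Z.t - algebraMap C Ω Z.θ) * Z.fm u (m + 1) := by
    intro m
    induction m with
    | zero =>
      have := Z.basic1_ne_t 0
      simp only [fm, Finset.sum_range_zero, map_zero, zero_add, Finset.sum_range_one, pow_zero,
        pow_one] at this ⊢
      field_simp
      ring
    | succ m ih =>
      have := Z.basic1_ne_t (m + 1)
      have e : ∀ k, Z.fm u (k + 1) = Z.fm u k +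
          algebraMap C Ω (Z.ee u k) / (algebraMap C Ω (Z.θ ^ qq F ^ k) - Z.t) := fun k =>
        Finset.sum_range_succ _ _
      rw [e (m + 1), Finset.sum_range_succ _ (m + 1), map_add]
      conv_lhs => rw [e m, map_add, ih, map_div₀, map_sub, Z.σ_c, Z.σ_c, Z.σ_t, Z.ee_succ,
        ← pow_mul, ← pow_succ, map_mul, map_sub]
      field_simp
      ring
  have hc : Continuous (algebraMap C Ω) :=
    AddMonoidHomClass.continuous_of_bound (algebraMap C Ω) 1 fun c => by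
      rw [Z.norm_alg, one_mul]
  refine tendsto_nhds_unique ((Z.σ_cont.tendsto f).comp h.lim) ?_
  simp only [Function.comp_def, key]
  exact ((hc.tendsto al).comp ((tendsto_add_atTop_iff_nat 1).2 h.hs.tendsto_sum_nat)).add
    (((tendsto_add_atTop_iff_nat 1).2 h.lim).const_mul _)

theorem phm_lim {u al : C} (h : HasSum (Z.ee u) al) (n : ℕ) :
    Tendsto (Z.phm u n) atTop (𝓝 (ph (qq F) Z.θ u al n)) := by
  have h1 := (tendsto_add_atTop_iff_nat 1).2 h.tendsto_sum_nat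
  induction n with
  | zero =>
    refine (h1.sub_const u).congr fun m => ?_
    rw [Finset.sum_range_succ', phm]
    have e0 : Z.ee u 0 = u := by simp [ee, carlitzD]
    rw [e0, add_sub_cancel_right]
    refine Finset.sum_congr rfl fun i _ => ?_
    rw [zero_add, pow_one, Z.ee_succ, ← pow_mul, ← pow_succ,
      mul_div_cancel_right₀ _ (Z.basic1_ne i)]
  | succ n ih =>
    refine ((h1.pow (qq F ^ (n + 1))).add
      (((tendsto_add_atTop_iff_nat 1).2 ih).const_mul (Z.θ - Z.θ ^ qq F ^ (n + 1)))).congr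
      fun m => ?_
    rw [← Z.fr_pow (n + 1) (∑ i ∈ _, _), map_sum, phm, phm, Finset.mul_sum,
      ← Finset.sum_add_distrib, Finset.sum_range_succ']
    have e0 : (Z.fr ^ (n + 1)) (Z.ee u 0) + (Z.θ - Z.θ ^ qq F ^ (n + 1)) *
        (Z.ee u 0 ^ qq F ^ (n + 1) / ((Z.θ ^ qq F ^ 0) ^ qq F ^ (n + 1) - Z.θ)) = 0 := by
      have := Z.basic1_ne n
      rw [Z.fr_pow, pow_zero, pow_one]
      field_simp
      ring
    rw [e0, add_zero]
    refine Finset.sum_congr rfl fun i _ => ?_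
    have e1 : Z.ee u i ^ qq F ^ (n + 1 + 1) = Z.ee u (i + 1) ^ qq F ^ (n + 1) *
        ((Z.θ ^ qq F ^ (i + 1)) ^ qq F ^ (n + 1) - Z.θ ^ qq F ^ (n + 1)) := by
      rw [pow_succ' (qq F) (n + 1), pow_mul, Z.ee_succ, mul_pow, ← Z.fr_pow (n + 1) (_ - _),
        map_sub, Z.fr_pow, Z.fr_pow]
    have e2 : (Z.θ ^ qq F ^ i) ^ qq F ^ (n + 1 + 1) = (Z.θ ^ qq F ^ (i + 1)) ^ qq F ^ (n + 1) := by
      rw [← pow_mul, ← pow_mul, ← pow_add, ← pow_add]; congr 2; omega
    have e3 : (Z.θ ^ qq F ^ (i + 1)) ^ qq F ^ (n + 1) - Z.θ ≠ 0 := by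
      have := Z.basic1_ne (i + 1 + n)
      rwa [add_assoc, pow_add, pow_mul] at this
    rw [e1, e2, Z.fr_pow]
    field_simp
    ring

end Sit

end Pool.Agent.MP_655169_nt
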