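import Pool.Agent.MP_655169_nt.Kinf1

set_option linter.unusedSectionVars false

namespace Pool.Agent.MP_655169_nt

open Polynomial Filter Topology

variable {F E : Type*} [Field F] [Fintype F] [NormedField E] [IsUltrametricDist E]
  [CompleteSpace E] [Algebra F E]

/-- A finite extension of a locally compact subfield is locally compact. -/
theorem fin_compact (L : Subfield E) (θ : E) (hθ : 1 < ‖θ‖) (hθL : θ ∈ L)
    (hc : IsCompact {x : E | x ∈ L ∧ ‖x‖ ≤ 1}) (s : Finset E) (hs : ∀ x ∈ s, IsAlgebraic L x) :
    ∃ L' : Subfield E, L ≤ L' ∧ (∀ x ∈ s, x ∈ L') ∧ IsClosed (L' : Set E) ∧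
      IsCompact {x : E | x ∈ L' ∧ ‖x‖ ≤ 1} := by
  let : NontriviallyNormedField L :=
    { (inferInstance : NormedField L) with non_trivial := ⟨⟨θ, hθL⟩, hθ⟩ }
  have hcL : IsCompact (Metric.closedBall (0 : L) 1) := by
    rw [Subtype.isCompact_iff]
    convert hc using 1
    ext x
    constructor
    · rintro ⟨a, ha, rfl⟩
      exact ⟨a.2, by simpa using ha⟩
    · rintro ⟨h1, h2⟩
      exact ⟨⟨x, h1⟩, by simpa using h2, rfl⟩
  have : LocallyCompactSpace L :=
    hcL.locallyCompactSpace_of_mem_nhds_of_addGroup (Metric.closedBall_mem_nhds 0 one_pos)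
  have : ProperSpace L := ProperSpace.of_nontriviallyNormedField_of_weaklyLocallyCompactSpace L
  let : NormedSpace L E :=
    { (inferInstance : Module L E) with
      norm_smul_le := fun a b => by
        change ‖(a : E) * b‖ ≤ ‖(a : E)‖ * ‖b‖
        exact norm_mul_le _ _ }
  let L1 := IntermediateField.adjoin L (s : Set E)
  have : FiniteDimensional L L1 :=
    IntermediateField.finiteDimensional_adjoin fun x hx => (hs x hx).isIntegral
  let W : Submodule L E := L1.toSubalgebra.toSubmodule
  have : FiniteDimensional L W := inferInstanceAs (FiniteDimensional L L1)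
  have : ProperSpace W := FiniteDimensional.proper L W
  refine ⟨L1.toSubfield, fun x hx => L1.algebraMap_mem ⟨x, hx⟩,
    fun x hx => IntermediateField.subset_adjoin L _ hx, W.closed_of_finiteDimensional, ?_⟩
  have h1 := (isCompact_closedBall (0 : W) 1).image continuous_subtype_val
  convert h1 using 1
  ext x
  constructor
  · rintro ⟨h1, h2⟩
    exact ⟨⟨x, h1⟩, by simpa using h2, rfl⟩
  · rintro ⟨a, ha, rfl⟩
    exact ⟨a.2, by simpa using ha⟩

end Pool.Agent.MP_655169_nt
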