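import Pool.Agent.MP_655169_nt.Weier1
import Pool.Agent.MP_655169_nt.Basic1

set_option linter.unusedSectionVars false

namespace Pool.Agent.MP_655169_nt

open Polynomial Filter Topology

section

variable {R : Type*} [CommRing R] [Nontrivial R] {g : AbsoluteValue R ℝ}

lemma weier_sum (hg : IsNonarchimedean g) {ι : Type*} (s : Finset ι) (f : ι → R) {A : ℝ}
    (hA : 0 ≤ A) (h : ∀ i ∈ s, g (f i) ≤ A) : g (∑ i ∈ s, f i) ≤ A := by
  classical
  induction s using Finset.induction_on with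
  | empty => simpa using hA
  | insert a s ha ih =>
    rw [Finset.sum_insert ha]
    exact (hg _ _).trans (max_le (h a (Finset.mem_insert_self _ _))
      (ih fun i hi => h i (Finset.mem_insert_of_mem hi)))

lemma weier_top (hg : IsNonarchimedean g) (Ψ : R[X]) (x : R) (hx : 1 ≤ g x)
    (h : ∀ j < Ψ.natDegree, g (Ψ.coeff j) < g Ψ.leadingCoeff * g x) :
    g Ψ.leadingCoeff ≤ g (Ψ.eval x) := by
  have he : g (Ψ.eval x) = g (Ψ.coeff Ψ.natDegree * x ^ Ψ.natDegree) := by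
    rw [eval_eq_sum_range]
    refine IsNonarchimedean.apply_sum_eq_of_lt hg (fun a => (g.map_neg a).symm)
      (k := Ψ.natDegree) (l := fun j => Ψ.coeff j * x ^ j) (by simp) fun j hj hne => ?_
    have hj' : j < Ψ.natDegree := lt_of_le_of_ne (Nat.lt_succ_iff.1 (Finset.mem_range.1 hj)) hne
    have h0 : 0 < g x := one_pos.trans_le hx
    simp only [map_mul, map_pow]
    calc g (Ψ.coeff j) * g x ^ j < g Ψ.leadingCoeff * g x * g x ^ j :=
          mul_lt_mul_of_pos_right (h j hj') (pow_pos h0 _)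
      _ ≤ g (Ψ.coeff Ψ.natDegree) * g x ^ Ψ.natDegree := by
          rw [mul_assoc, ← pow_succ']
          exact mul_le_mul_of_nonneg_left (pow_le_pow_right₀ hx hj') (g.nonneg _)
  rw [he, map_mul, map_pow]
  exact le_mul_of_one_le_right (g.nonneg _) (one_le_pow₀ hx)

lemma weier_pow (hg : IsNonarchimedean g) {x y : R} {M : ℝ} (hM : 1 ≤ M) (hx : g x ≤ M)
    (hy : g y ≤ M) (j : ℕ) : g (x ^ j - y ^ j) ≤ M ^ j * g (x - y) := by
  induction j with
  | zero => simp
  | succ j ih =>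
    have he : x ^ (j + 1) - y ^ (j + 1) = x * (x ^ j - y ^ j) + y ^ j * (x - y) := by ring
    have h0 : 0 ≤ M := zero_le_one.trans hM
    rw [he]
    refine (hg _ _).trans (max_le ?_ ?_)
    · rw [map_mul, pow_succ', mul_assoc]
      exact mul_le_mul hx ih (g.nonneg _) h0
    · rw [map_mul, map_pow]
      exact mul_le_mul_of_nonneg_right ((pow_le_pow_left₀ (g.nonneg _) hy j).trans
        (pow_le_pow_right₀ hM (Nat.le_succ j))) (g.nonneg _)

lemma weier_lip (hg : IsNonarchimedean g) (Ψ : R[X]) {x y : R} {M A : ℝ} (hM : 1 ≤ M)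
    (hx : g x ≤ M) (hy : g y ≤ M) (hA : ∀ j, g (Ψ.coeff j) ≤ A) :
    g (Ψ.eval x - Ψ.eval y) ≤ A * (M ^ Ψ.natDegree * g (x - y)) := by
  have hA0 : 0 ≤ A := (g.nonneg _).trans (hA 0)
  have h0 : 0 ≤ M := zero_le_one.trans hM
  rw [eval_eq_sum_range, eval_eq_sum_range, ← Finset.sum_sub_distrib]
  refine weier_sum hg _ _ (mul_nonneg hA0 (mul_nonneg (pow_nonneg h0 _) (g.nonneg _)))
    fun j hj => ?_
  rw [← mul_sub, map_mul]
  refine mul_le_mul (hA j) ((weier_pow hg hM hx hy j).trans ?_) (g.nonneg _) hA0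
  exact mul_le_mul_of_nonneg_right
    (pow_le_pow_right₀ hM (Nat.lt_succ_iff.1 (Finset.mem_range.1 hj))) (g.nonneg _)

end

variable {E : Type*} [NormedField E] [IsUltrametricDist E] [CompleteSpace E]

lemma weier_g (L : Subfield E) {ρ : ℝ} (hρ : 0 < ρ) : ∃ g : AbsoluteValue L[X] ℝ,
    IsNonarchimedean g ∧ (∀ P k, ‖((P.coeff k : L) : E)‖ * ρ ^ k ≤ g P) ∧
      ∀ P, ∃ k, g P = ‖((P.coeff k : L) : E)‖ * ρ ^ k := by
  have hna : IsNonarchimedean (NormedField.toAbsoluteValue L) := fun x y =>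
    IsUltrametricDist.norm_add_le_max (x : E) (y : E)
  have := gaussNorm_isAbsoluteValue hna hρ
  exact ⟨IsAbsoluteValue.toAbsoluteValue (gaussNorm (NormedField.toAbsoluteValue L) ρ),
    isNonarchimedean_gaussNorm _ hna hρ.le,
    fun P k => le_gaussNorm (NormedField.toAbsoluteValue L) P hρ.le k,
    fun P => exists_eq_gaussNorm (NormedField.toAbsoluteValue L) ρ P⟩

lemma weier_fin (L : Subfield E) (hL : IsClosed (L : Set E)) (θ : E) (hθ : 1 < ‖θ‖)
    (hθL : θ ∈ L) (l : E) {ρ γ : ℝ} (hρ : 0 < ρ) (hl : ‖l‖ ≤ ρ) (hγ : 0 < γ) (P : L[X])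
    (hP : ∀ k, ‖((P.coeff k : L) : E)‖ * ρ ^ k ≤ γ)
    (hP' : ∃ k, γ = ‖((P.coeff k : L) : E)‖ * ρ ^ k) (G : ℕ → L[X])
    (hG : ∀ m k, ‖(((G m - P).coeff k : L) : E)‖ * ρ ^ k ≤ γ / 2)
    (h4 : Tendsto (fun m => aeval l (G m)) atTop (𝓝 0)) : IsAlgebraic L l := by
  classical
  have hsup : ∀ k, γ = ‖((P.coeff k : L) : E)‖ * ρ ^ k → k ∈ P.support := fun k hk => by
    rw [mem_support_iff]
    intro h
    rw [h] at hk
    simp at hk
    exact hγ.ne' hk
  obtain ⟨k₀, hk₀⟩ := hP'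
  obtain ⟨N, hN, hmax⟩ := (P.support.filter fun k => γ = ‖((P.coeff k : L) : E)‖ * ρ ^ k
    ).exists_max_image id ⟨k₀, Finset.mem_filter.2 ⟨hsup k₀ hk₀, hk₀⟩⟩
  have hN' := (Finset.mem_filter.1 hN).2
  have hlt : ∀ k, N < k → ‖((P.coeff k : L) : E)‖ * ρ ^ k < γ := fun k hk =>
    lt_of_le_of_ne (hP k) fun h =>
      absurd (hmax k (Finset.mem_filter.2 ⟨hsup k h.symm, h.symm⟩)) (not_le.2 hk)
  obtain ⟨β, hβ, hβ2, hβ'⟩ : ∃ β < γ, γ / 2 ≤ β ∧ ∀ k, N < k →
      ‖((P.coeff k : L) : E)‖ * ρ ^ k ≤ β := by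
    rcases (P.support.filter fun k => N < k).eq_empty_or_nonempty with h | h
    · refine ⟨γ / 2, half_lt_self hγ, le_rfl, fun k hk => ?_⟩
      have : P.coeff k = 0 := by
        by_contra h'
        have : k ∈ P.support.filter fun k => N < k :=
          Finset.mem_filter.2 ⟨mem_support_iff.2 h', hk⟩
        rw [h] at this
        simp at this
      rw [this]
      simpa using (half_pos hγ).le
    · obtain ⟨k₁, hk₁, hm⟩ := Finset.exists_max_image _
        (fun k => ‖((P.coeff k : L) : E)‖ * ρ ^ k) h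
      refine ⟨max (γ / 2) (‖((P.coeff k₁ : L) : E)‖ * ρ ^ k₁),
        max_lt (half_lt_self hγ) (hlt k₁ (Finset.mem_filter.1 hk₁).2), le_max_left _ _,
        fun k hk => ?_⟩
      by_cases h' : P.coeff k = 0
      · rw [h']
        simpa using Or.inl (half_pos hγ).le
      · exact le_max_of_le_right (hm k (Finset.mem_filter.2 ⟨mem_support_iff.2 h', hk⟩))
  have he : ∀ m k, (((G m).coeff k : L) : E) =
      ((P.coeff k : L) : E) + (((G m - P).coeff k : L) : E) := fun m k => by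
    rw [coeff_sub]
    push_cast
    ring
  have hle : ∀ m k (δ : ℝ), γ / 2 ≤ δ → ‖((P.coeff k : L) : E)‖ * ρ ^ k ≤ δ →
      ‖(((G m).coeff k : L) : E)‖ * ρ ^ k ≤ δ := fun m k δ h1 h2 => by
    rw [he]
    refine (mul_le_mul_of_nonneg_right (IsUltrametricDist.norm_add_le_max _ _)
      (pow_pos hρ k).le).trans ?_
    rw [max_mul_of_nonneg _ _ (pow_pos hρ k).le]
    exact max_le h2 ((hG m k).trans h1)
  refine weier_alg L hL θ hθ hθL l ρ (β / γ) γ hρ hl ((div_lt_one hγ).2 hβ) hγ N G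
    (fun m => ?_) (fun m k => hle m k γ (half_le_self hγ.le) (hP k)) (fun m k hk => ?_) h4
  · have h1 : ‖(((G m - P).coeff N : L) : E)‖ < ‖((P.coeff N : L) : E)‖ :=
      lt_of_mul_lt_mul_right ((hG m N).trans_lt ((half_lt_self hγ).trans_eq hN'))
        (pow_pos hρ N).le
    rw [he, IsUltrametricDist.norm_add_eq_max_of_norm_ne_norm h1.ne', max_eq_left h1.le, ← hN']
  · rw [div_mul_cancel₀ _ hγ.ne']
    exact hle m k β hβ2 (hβ' k hk)

/-- If `l` and its exponential are algebraically dependent over a closed subfield `L` containing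
`θ`, then `l` is algebraic over `L`. -/
theorem weier (q : ℕ) (hq : 2 ≤ q) (L : Subfield E) (hL : IsClosed (L : Set E)) (θ : E)
    (hθ : 1 < ‖θ‖) (hθL : θ ∈ L) (l : E) (Ψ : L[X][X]) (hΨ : Ψ ≠ 0)
    (h0 : Ψ.eval₂ (aeval l : L[X] →ₐ[L] E).toRingHom (carlitzExp q θ l) = 0) :
    IsAlgebraic L l := by
  classical
  set θ' : L := ⟨θ, hθL⟩ with hθ'
  have hD : ∀ i, ((carlitzD q θ' i : L) : E) = carlitzD q θ i := fun i => by
    simp [carlitzD, hθ']
  have hθ0 : 0 < ‖θ‖ := one_pos.trans hθ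
  have hD0 : ∀ i, 0 < ‖carlitzD q θ i‖ := fun i => by
    rw [norm_carlitzD q hq θ hθ]
    exact pow_pos hθ0 _
  set M : ℕ := Ψ.support.sup fun j => (Ψ.coeff j).natDegree with hM
  have hMj : ∀ j, (Ψ.coeff j).natDegree ≤ M := fun j => by
    by_cases h : Ψ.coeff j = 0
    · simp [h]
    · exact Finset.le_sup (f := fun j => (Ψ.coeff j).natDegree) (mem_support_iff.2 h)
  set b : ℝ := ∑ j ∈ Ψ.support, ∑ k ∈ (Ψ.coeff j).support, ‖(((Ψ.coeff j).coeff k : L) : E)‖
    with hb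
  have hb0 : 0 ≤ b := Finset.sum_nonneg fun _ _ => Finset.sum_nonneg fun _ _ => norm_nonneg _
  have hbj : ∀ j k, ‖(((Ψ.coeff j).coeff k : L) : E)‖ ≤ b := fun j k => by
    by_cases h : (Ψ.coeff j).coeff k = 0
    · simpa [h] using hb0
    · have h' : Ψ.coeff j ≠ 0 := fun h' => h (by simp [h'])
      exact (Finset.single_le_sum (f := fun k => ‖(((Ψ.coeff j).coeff k : L) : E)‖)
        (fun _ _ => norm_nonneg _) (mem_support_iff.2 h)).trans
        (Finset.single_le_sum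
          (f := fun j => ∑ k ∈ (Ψ.coeff j).support, ‖(((Ψ.coeff j).coeff k : L) : E)‖)
          (fun _ _ => Finset.sum_nonneg fun _ _ => norm_nonneg _) (mem_support_iff.2 h'))
  set a : ℝ := ‖((Ψ.leadingCoeff.leadingCoeff : L) : E)‖ with ha
  have ha0 : 0 < a := by
    rw [ha, norm_pos_iff]
    exact_mod_cast leadingCoeff_ne_zero.2 (leadingCoeff_ne_zero.2 hΨ)
  obtain ⟨k, hk⟩ := pow_unbounded_of_one_lt
    (‖carlitzD q θ M‖ * (1 + b / a) + ‖l‖ + 1) hθ
  set ρ : ℝ := ‖θ‖ ^ k with hρ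
  have hc1 : 0 ≤ ‖carlitzD q θ M‖ * (1 + b / a) := by positivity
  have hρ1 : 1 ≤ ρ := by linarith [norm_nonneg l]
  have hρ0 : 0 < ρ := one_pos.trans_le hρ1
  obtain ⟨g, hg, hge, hgx⟩ := weier_g L hρ0
  have hgj : ∀ j, g (Ψ.coeff j) ≤ b * ρ ^ M := fun j => by
    obtain ⟨i, hi⟩ := hgx (Ψ.coeff j)
    rw [hi]
    by_cases h : (Ψ.coeff j).coeff i = 0
    · rw [h]
      simpa using mul_nonneg hb0 (pow_pos hρ0 M).le
    · exact mul_le_mul (hbj j i) (pow_le_pow_right₀ hρ1 ((le_natDegree_of_ne_zero h).trans (hMj j)))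
        (pow_pos hρ0 _).le hb0
  have hga : a ≤ g Ψ.leadingCoeff :=
    (le_mul_of_one_le_right ha0.le (one_le_pow₀ hρ1)).trans (hge _ Ψ.leadingCoeff.natDegree)
  set τ : ℕ → L[X] := fun i => monomial (q ^ i) (carlitzD q θ' i)⁻¹ with hτ
  set e : ℕ → L[X] := fun m => ∑ i ∈ Finset.range m, τ i with he
  have hgτ : ∀ i, g (τ i) ≤ ‖(θ ^ k) ^ q ^ i / carlitzD q θ i‖ := fun i => by
    obtain ⟨j, hj⟩ := hgx (τ i)
    rw [hj, hτ]
    simp only [coeff_monomial]
    split_ifs with h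
    · rw [← h, norm_div, norm_pow, norm_pow, ← hρ, div_eq_inv_mul, ← hD, ← norm_inv]
      simp
    · rw [ZeroMemClass.coe_zero, norm_zero, zero_mul]
      exact norm_nonneg _
  have hlim : Tendsto (fun i => ‖(θ ^ k) ^ q ^ i / carlitzD q θ i‖) atTop (𝓝 0) :=
    tendsto_zero_iff_norm_tendsto_zero.1 (tendsto_term q hq θ hθ _)
  obtain ⟨B, hB⟩ := hlim.bddAbove_range
  have hgB : ∀ m, g (e m) ≤ max B 1 := fun m =>
    weier_sum hg _ _ (le_max_of_le_right zero_le_one) fun i _ =>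
      le_max_of_le_left ((hgτ i).trans (hB ⟨i, rfl⟩))
  have hlow : ∀ m, M < m → a ≤ g (Ψ.eval (e m)) := fun m hm => by
    have h1 : (e m).coeff (q ^ M) = (carlitzD q θ' M)⁻¹ := by
      simp only [he, hτ, finsetSum_coeff, coeff_monomial]
      rw [Finset.sum_eq_single M, if_pos rfl]
      · intro i _ hi
        exact if_neg fun h => hi (Nat.pow_right_injective hq h)
      · intro h
        exact absurd (Finset.mem_range.2 hm) h
    have h2 := hge (e m) (q ^ M)
    have h3 : ρ ^ (M + 1) ≤ ρ ^ q ^ M :=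
      pow_le_pow_right₀ hρ1 (Nat.lt_pow_self (lt_of_lt_of_le one_lt_two hq))
    have h4 : ‖(((carlitzD q θ' M)⁻¹ : L) : E)‖ = ‖carlitzD q θ M‖⁻¹ := by
      rw [← hD, ← norm_inv]
      simp
    rw [h1, h4] at h2
    have h5 : (1 + b / a) * ρ ^ M < g (e m) := by
      refine lt_of_lt_of_le ?_ ((mul_le_mul_of_nonneg_left h3 (inv_pos.2 (hD0 M)).le).trans h2)
      rw [pow_succ', ← mul_assoc]
      refine mul_lt_mul_of_pos_right ?_ (pow_pos hρ0 _)
      rw [lt_inv_mul_iff₀ (hD0 M)]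
      linarith [norm_nonneg l]
    have h6 : 1 ≤ ρ ^ M := one_le_pow₀ hρ1
    have h7 : 0 ≤ b / a * ρ ^ M := by positivity
    refine hga.trans (weier_top hg Ψ (e m) (by linarith) fun j _ => (hgj j).trans_lt ?_)
    have h8 : b * ρ ^ M = a * (b / a * ρ ^ M) := by field_simp
    rw [h8]
    exact (mul_lt_mul_of_pos_left (by linarith) ha0).trans_le
      (mul_le_mul_of_nonneg_right hga (g.nonneg _))
  set K : ℝ := b * ρ ^ M * max B 1 ^ Ψ.natDegree with hK
  have hK0 : 0 ≤ K := mul_nonneg (mul_nonneg hb0 (pow_pos hρ0 _).le)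
    (pow_nonneg (le_max_of_le_right zero_le_one) _)
  have hδ : 0 < a / 2 / (K + 1) := by positivity
  obtain ⟨m₁, hm₁⟩ := eventually_atTop.1
    ((hlim.eventually_le_const hδ).and (eventually_gt_atTop M))
  have hγ := hlow m₁ (hm₁ m₁ le_rfl).2
  refine weier_fin L hL θ hθ hθL l hρ0 (by linarith) (ha0.trans_le hγ) (Ψ.eval (e m₁)) (hge _)
    (hgx _) (fun m => Ψ.eval (e (m₁ + m))) (fun m j => (hge _ j).trans ?_) ?_
  · have h1 : g (e (m₁ + m) - e m₁) ≤ a / 2 / (K + 1) := by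
      simp only [he]
      rw [Finset.sum_range_add, add_sub_cancel_left]
      exact weier_sum hg _ _ hδ.le fun i _ => (hgτ _).trans (hm₁ _ (Nat.le_add_right _ _)).1
    refine (weier_lip hg Ψ (le_max_right B 1) (hgB _) (hgB _) hgj).trans ?_
    rw [← mul_assoc, ← hK]
    refine (mul_le_mul (le_add_of_nonneg_right zero_le_one) h1 (g.nonneg _) (by linarith)).trans ?_
    rw [mul_div_cancel₀ _ (by linarith)]
    linarith
  · have hs : Summable fun i => l ^ q ^ i / carlitzD q θ i :=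
      NonarchimedeanAddGroup.summable_of_tendsto_cofinite_zero (by
        rw [Nat.cofinite_eq_atTop]
        exact tendsto_term q hq θ hθ l)
    have h1 : ∀ m, aeval l (e m) = ∑ i ∈ Finset.range m, l ^ q ^ i / carlitzD q θ i := fun m => by
      simp only [he, hτ, map_sum, aeval_monomial]
      refine Finset.sum_congr rfl fun i _ => ?_
      rw [map_inv₀, div_eq_inv_mul, ← hD]
      rfl
    have h2 : Tendsto (fun m => aeval l (e (m₁ + m))) atTop (𝓝 (carlitzExp q θ l)) := by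
      simp only [h1, add_comm m₁]
      exact hs.hasSum.tendsto_sum_nat.comp (tendsto_add_atTop_nat m₁)
    have h3 := ((Ψ.continuous_eval₂ (aeval l : L[X] →ₐ[L] E).toRingHom).tendsto _).comp h2
    rw [h0] at h3
    refine h3.congr fun m => ?_
    exact eval₂_at_apply (aeval l : L[X] →ₐ[L] E).toRingHom (e (m₁ + m))

end Pool.Agent.MP_655169_nt
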