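import Pool.Agent.MP_655169_nt.Core
import Pool.Agent.MP_655169_nt.Kinf
import Pool.Agent.MP_655169_nt.Weier

set_option linter.unusedSectionVars false

namespace Pool.Agent.MP_655169_nt

open Polynomial Filter Topology
open scoped IntermediateField

variable {F E : Type*} [Field F] [Fintype F] [NormedField E] [IsUltrametricDist E]
  [CompleteSpace E] [Algebra F E]

theorem hasSum_exp (q : ℕ) (hq : 2 ≤ q) (θ : E) (hθ : 1 < ‖θ‖) (x : E) :
    HasSum (fun k => x ^ q ^ k / carlitzD q θ k) (carlitzExp q θ x) := by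
  refine (NonarchimedeanAddGroup.summable_of_tendsto_cofinite_zero ?_).hasSum
  rw [Nat.cofinite_eq_atTop]
  exact tendsto_term q hq θ hθ x

theorem exp_mem (q : ℕ) (hq : 2 ≤ q) (θ : E) (hθ : 1 < ‖θ‖) (L : Subfield E)
    (hL : IsClosed (L : Set E)) (hθL : θ ∈ L) (x : E) (hx : x ∈ L) : carlitzExp q θ x ∈ L := by
  refine hL.mem_of_tendsto (hasSum_exp q hq θ hθ x).tendsto_sum_nat (Eventually.of_forall ?_)
  intro n
  refine L.sum_mem fun i _ => L.div_mem (L.pow_mem hx _) (L.prod_mem fun j _ => ?_)
  exact L.sub_mem (L.pow_mem hθL _) (L.pow_mem hθL _)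

/-- A point outside the algebraic closure of the completion is independent of its exponential. -/
theorem indep_or_alg (θ : E) (hθ : 1 < ‖θ‖) (l : E) :
    AlgebraicIndependent F⟮θ⟯ ![l, carlitzExp (qq F) θ l] ∨
      IsAlgebraic (F⟮θ⟯).toSubfield.topologicalClosure l := by
  set L := (F⟮θ⟯).toSubfield.topologicalClosure with hL
  have hle : (F⟮θ⟯).toSubfield ≤ L := Subfield.le_topologicalClosure _
  have hθL : θ ∈ L := hle (IntermediateField.mem_adjoin_simple_self F θ)
  by_cases h : IsAlgebraic L l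
  · exact Or.inr h
  left
  have hi : AlgebraicIndependent L ![l, carlitzExp (qq F) θ l] := by
    rw [algebraicIndependent_iff]
    intro P hP
    by_contra hP0
    refine h (weier (qq F) two_le_qq L (Subfield.isClosed_topologicalClosure _) θ hθ hθL l
      ((Bivariate.equivMvPolynomial L).symm P) (by simpa using hP0) ?_)
    have e : ∀ Ψ : L[X][X], Ψ.eval₂ (aeval l : L[X] →ₐ[L] E).toRingHom (carlitzExp (qq F) θ l) =
        MvPolynomial.aeval ![l, carlitzExp (qq F) θ l] (Bivariate.equivMvPolynomial L Ψ) := by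
      intro Ψ
      induction Ψ using Polynomial.induction_on with
      | C a =>
        induction a using Polynomial.induction_on with
        | C a => simp
        | add a b ha hb => simp only [map_add, eval₂_add, ha, hb]
        | monomial n a ha =>
          simp only [pow_succ, ← mul_assoc, map_mul] at ha ⊢
          rw [← ha]
          simp
      | add a b ha hb => simp only [map_add, eval₂_add, ha, hb]
      | monomial n a ha =>
        rw [pow_succ, ← mul_assoc, eval₂_mul_X, ha, map_mul]
        simp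
    rw [e]
    simpa using hP
  let _ : Algebra F⟮θ⟯ L := (Subfield.inclusion hle).toAlgebra
  have : IsScalarTower F⟮θ⟯ L E := IsScalarTower.of_algebraMap_eq fun _ => rfl
  exact hi.restrictScalars (algebraMap F⟮θ⟯ L).injective

theorem carlitzD_map {E' : Type*} [Field E'] (φ : E →+* E') (q : ℕ) (θ : E) (i : ℕ) :
    φ (carlitzD q θ i) = carlitzD q (φ θ) i := by
  simp [carlitzD]

/-- Two of the four numbers are algebraically independent over `F(θ)`. -/
theorem bridge (θ : E) (hθ : 1 < ‖θ‖) (u : Fin 2 → E) (h : LinearIndependent F⟮θ⟯ u) :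
    ∃ i j : Fin 2 ⊕ Fin 2, AlgebraicIndependent F⟮θ⟯
      ![Sum.elim u (fun k => carlitzExp (qq F) θ (u k)) i,
        Sum.elim u (fun k => carlitzExp (qq F) θ (u k)) j] := by
  classical
  rcases indep_or_alg (F := F) θ hθ (u 0) with h0 | h0
  · exact ⟨Sum.inl 0, Sum.inr 0, h0⟩
  rcases indep_or_alg (F := F) θ hθ (u 1) with h1 | h1
  · exact ⟨Sum.inl 1, Sum.inr 1, h1⟩
  set L := (F⟮θ⟯).toSubfield.topologicalClosure with hL
  have hle : (F⟮θ⟯).toSubfield ≤ L := Subfield.le_topologicalClosure _
  have hθL : θ ∈ L := hle (IntermediateField.mem_adjoin_simple_self F θ)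
  obtain ⟨L', hLL', hs, hcl, hc⟩ := fin_compact L θ hθ hθL (kinf_compact θ hθ) {u 0, u 1} (by
    intro x hx
    rcases Finset.mem_insert.1 hx with rfl | hx
    · exact h0
    · rw [Finset.mem_singleton.1 hx]
      exact h1)
  have huL : ∀ i, u i ∈ L' := by
    intro i
    fin_cases i
    · exact hs _ (by simp)
    · exact hs _ (by simp)
  let _ : NontriviallyNormedField E := { (inferInstance : NormedField E) with
    non_trivial := ⟨θ, hθ⟩ }
  obtain ⟨C, _, _, _, ψ, -, hψ, -, -⟩ := amb3 (L := E) 1 one_pos (RingHom.id E) (by simp)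
  let _ : Algebra F C := (ψ.comp (algebraMap F E)).toAlgebra
  let φ : E →ₐ[F] C := { ψ with commutes' := fun _ => rfl }
  have hφ : ∀ x, ‖φ x‖ = ‖x‖ := hψ
  have hiso : Isometry φ := AddMonoidHomClass.isometry_of_norm φ hφ
  set al : Fin 2 → E := fun k => carlitzExp (qq F) θ (u k) with hal
  have key := core (F := F) (φ θ) (by rw [hφ]; exact hθ) (φ ∘ u) (φ ∘ al) ?_ ?_
    (L'.map (φ : E →+* C)) ?_ ⟨θ, hLL' hθL, rfl⟩ ?_ (fun i => ⟨u i, huL i, rfl⟩)
    (fun i => ⟨al i, exp_mem _ two_le_qq θ hθ L' hcl (hLL' hθL) _ (huL i), rfl⟩)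
  · obtain ⟨i, j, hij⟩ := key
    refine ⟨i, j, ?_⟩
    have h2 : AlgebraicIndependent F (Sum.elim ![Sum.elim u al i, Sum.elim u al j] ![θ]) := by
      refine AlgebraicIndependent.of_comp φ ?_
      have := hij.comp (Sum.elim ![some 1, none] ![some 0] : Fin 2 ⊕ Fin 1 → Option (Fin 2))
        (by decide)
      convert this using 1
      funext o
      rcases o with o | o
      · fin_cases o
        · rcases i with i | i <;> rfl
        · rcases j with j | j <;> rfl
      · fin_cases o
        rfl
    have h3 := (AlgebraicIndependent.sumElim_iff.1 h2).2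
    rw [IntermediateField.algebraicIndependent_adjoin_iff]
    have e : Set.range ![θ] = {θ} := by simp
    rwa [e] at h3
  · intro i
    have := (hasSum_exp (qq F) two_le_qq θ hθ (u i)).map (φ : E →+* C) hiso.continuous
    have e : (φ : E →+* C) ∘ (fun k => u i ^ qq F ^ k / carlitzD (qq F) θ k) =
        fun k => (φ ∘ u) i ^ qq F ^ k / carlitzD (qq F) (φ θ) k := by
      funext k
      rw [Function.comp_apply, map_div₀, carlitzD_map, map_pow]
      rfl
    rw [e] at this
    exact this
  · intro a b hab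
    have hab' : aeval θ a * u 0 + aeval θ b * u 1 = 0 := by
      apply φ.toRingHom.injective
      simpa [← Polynomial.aeval_algHom_apply] using hab
    have hmem : ∀ p : F[X], aeval θ p ∈ F⟮θ⟯ := fun p =>
      IntermediateField.algebra_adjoin_le_adjoin F _ (Polynomial.aeval_mem_adjoin_singleton F θ)
    have hz := Fintype.linearIndependent_iff.1 h ![⟨_, hmem a⟩, ⟨_, hmem b⟩] (by
      rw [Fin.sum_univ_two]
      exact hab')
    have hn : ∀ p : F[X], aeval θ p = 0 → p = 0 := by
      intro p hp
      by_contra hp0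
      have := norm_poly θ hθ p hp0
      rw [hp, norm_zero] at this
      exact (pow_pos (one_pos.trans hθ) _).ne this
    exact ⟨hn a (congrArg Subtype.val (hz 0)), hn b (congrArg Subtype.val (hz 1))⟩
  · intro a
    exact ⟨algebraMap F E a, hLL' (hle ((F⟮θ⟯).algebraMap_mem a)), φ.commutes a⟩
  · have := hc.image hiso.continuous
    convert this using 1
    ext x
    constructor
    · rintro ⟨⟨y, hy, rfl⟩, hn⟩
      exact ⟨y, ⟨hy, by rw [← hφ]; exact hn⟩, rfl⟩
    · rintro ⟨y, ⟨hy, hn⟩, rfl⟩
      exact ⟨⟨y, hy, rfl⟩, by rw [hφ]; exact hn⟩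

end Pool.Agent.MP_655169_nt
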