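import Mathlib

namespace Pool.Agent.MP_655169_nt

/-- The Carlitz factorial `D_i = ∏_{j < i} (θ^(q^i) - θ^(q^j))`. -/
def carlitzD {E : Type*} [Field E] (q : ℕ) (θ : E) (i : ℕ) : E :=
  ∏ j ∈ Finset.range i, (θ ^ q ^ i - θ ^ q ^ j)

/-- The Carlitz exponential `exp_C(x) = ∑_i x^(q^i) / D_i`. -/
noncomputable def carlitzExp {E : Type*} [Field E] [TopologicalSpace E] (q : ℕ) (θ x : E) : E :=
  ∑' i : ℕ, x ^ q ^ i / carlitzD q θ i

end Pool.Agent.MP_655169_nt
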