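import Pool.Agent.MP_655169_nt.Norm

set_option linter.unusedSectionVars false

namespace Pool.Agent.MP_655169_nt

open Polynomial Filter Topology

variable {F Λ : Type*} [Field F] [Fintype F] [NormedField Λ] [IsUltrametricDist Λ] [Algebra F Λ]

lemma locF_pi (E : Subfield Λ) (θ : Λ) (hθ : 1 < ‖θ‖) (hθE : θ ∈ E)
    (hc : IsCompact {x : Λ | x ∈ E ∧ ‖x‖ ≤ 1}) :
    ∃ π ∈ E, 0 < ‖π‖ ∧ ‖π‖ < 1 ∧ ∀ x ∈ E, ‖x‖ < 1 → ‖x‖ ≤ ‖π‖ := by
  have hK := hc.inter_right (IsUltrametricDist.isClosed_ball (0 : Λ) 1)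
  have h1 : ‖θ⁻¹‖ < 1 := by
    rw [norm_inv]
    exact inv_lt_one_of_one_lt₀ hθ
  have h0 : 0 < ‖θ⁻¹‖ := by
    rw [norm_inv]
    exact inv_pos.2 (one_pos.trans hθ)
  have hm : ∀ x ∈ E, ‖x‖ < 1 → x ∈ {x : Λ | x ∈ E ∧ ‖x‖ ≤ 1} ∩ Metric.ball 0 1 :=
    fun x hx h => ⟨⟨hx, h.le⟩, mem_ball_zero_iff.2 h⟩
  obtain ⟨π, hπ, hmax⟩ := hK.exists_isMaxOn ⟨_, hm _ (E.inv_mem hθE) h1⟩
    continuous_norm.continuousOn
  exact ⟨π, hπ.1.1, h0.trans_le (hmax (hm _ (E.inv_mem hθE) h1)), mem_ball_zero_iff.1 hπ.2,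
    fun x hx h => hmax (hm x hx h)⟩

lemma locF_cover (E : Subfield Λ) (hc : IsCompact {x : Λ | x ∈ E ∧ ‖x‖ ≤ 1}) {π : Λ}
    (hπ : π ∈ E) (h0 : 0 < ‖π‖) : ∃ N : ℕ, ∀ k : ℕ, ∃ R : Finset Λ, R.card ≤ N ^ k ∧
      ∀ x ∈ E, ‖x‖ ≤ 1 → ∃ r ∈ R, ‖x - r‖ ≤ ‖π‖ ^ k := by
  classical
  obtain ⟨t, ht, htf, hcov⟩ := finite_cover_balls_of_compact hc h0
  refine ⟨htf.toFinset.card, fun k => ?_⟩
  have hne : π ≠ 0 := norm_pos_iff.1 h0
  induction k with
  | zero => exact ⟨{0}, by simp, fun x _ hx => ⟨0, by simp, by simpa using hx⟩⟩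
  | succ k ih =>
    obtain ⟨R, hR, hR'⟩ := ih
    refine ⟨(htf.toFinset ×ˢ R).image fun p => p.1 + π * p.2, ?_, fun x hx hx1 => ?_⟩
    · refine Finset.card_image_le.trans ?_
      rw [Finset.card_product, pow_succ']
      exact Nat.mul_le_mul_left _ hR
    · obtain ⟨r, hr, hxr⟩ := Set.mem_iUnion₂.1 (hcov ⟨hx, hx1⟩)
      rw [Metric.mem_ball, dist_eq_norm] at hxr
      obtain ⟨s, hs, hs'⟩ := hR' ((x - r) / π) (E.div_mem (E.sub_mem hx (ht hr).1) hπ) (by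
        rw [norm_div]
        exact div_le_one_of_le₀ hxr.le h0.le)
      refine ⟨r + π * s, Finset.mem_image.2 ⟨(r, s),
        Finset.mem_product.2 ⟨htf.mem_toFinset.2 hr, hs⟩, rfl⟩, ?_⟩
      have : x - (r + π * s) = π * ((x - r) / π - s) := by
        field_simp
        ring
      rw [this, norm_mul, pow_succ']
      exact mul_le_mul_of_nonneg_left hs' h0.le

lemma locF_pow {η A : ℝ} (hη : 0 < η) : Real.exp (-η) ^ ⌈A / η⌉₊ ≤ Real.exp (-A) := by
  rw [← Real.exp_nat_mul]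
  refine Real.exp_le_exp.2 ?_
  have := (div_le_iff₀ hη).1 (Nat.le_ceil (A / η))
  linarith

/-- A subfield with compact unit ball has a discrete value group and the box principle. -/
theorem loc_of_compact (E : Subfield Λ) (hF : ∀ a : F, algebraMap F Λ a ∈ E) (θ : Λ)
    (hθ : 1 < ‖θ‖) (hθE : θ ∈ E) (hc : IsCompact {x : Λ | x ∈ E ∧ ‖x‖ ≤ 1}) :
    ∃ η cS : ℝ, Loc F E η cS := by
  classical
  obtain ⟨π, hπ, h0, h1, hmax⟩ := locF_pi E θ hθ hθE hc
  obtain ⟨N, hN⟩ := locF_cover E hc hπ h0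
  obtain ⟨η, hη, hρ⟩ : ∃ η : ℝ, 0 < η ∧ Real.exp (-η) = ‖π‖ :=
    ⟨-Real.log ‖π‖, neg_pos.2 (Real.log_neg h0 h1), by rw [neg_neg, Real.exp_log h0]⟩
  refine ⟨η, (1 / η + 2) * (N + 1), hη, by positivity, hF, ?_, ?_⟩
  · intro y hy z hz hyz
    have hz0 : 0 < ‖z‖ := (norm_nonneg y).trans_lt hyz
    have := hmax (y / z) (E.div_mem hy hz) (by
      rw [norm_div]
      exact (div_lt_one hz0).2 hyz)
    rw [norm_div, div_le_iff₀ hz0] at this
    rwa [hρ]
  · intro I J _ _ M A B hA hB hM hcard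
    obtain ⟨R, hR, hR'⟩ := hN (⌈A / η⌉₊ + ⌈B / η⌉₊)
    have hsm : ∀ (a : F) (x : Λ), a • x = algebraMap F Λ a * x := fun a x => Algebra.smul_def a x
    have hS : ∀ (a : I → F) (j : J), π ^ ⌈A / η⌉₊ * ∑ i, a i • M i j ∈ E ∧
        ‖π ^ ⌈A / η⌉₊ * ∑ i, a i • M i j‖ ≤ 1 := by
      intro a j
      refine ⟨E.mul_mem (E.pow_mem hπ _) (E.sum_mem fun i _ => ?_), ?_⟩
      · rw [hsm]
        exact E.mul_mem (hF _) (hM i j).1
      · have h2 : ‖∑ i, a i • M i j‖ ≤ Real.exp A := by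
          refine IsUltrametricDist.norm_sum_le_of_forall_le_of_nonneg (Real.exp_pos A).le
            fun i _ => ?_
          rw [hsm, norm_mul]
          exact (mul_le_of_le_one_left (norm_nonneg _) (norm_F_le _)).trans (hM i j).2
        rw [norm_mul, norm_pow, ← hρ]
        refine (mul_le_mul (locF_pow hη) h2 (norm_nonneg _) (Real.exp_pos _).le).trans_eq ?_
        rw [← Real.exp_add, neg_add_cancel, Real.exp_zero]
    choose g hg hg' using fun (a : I → F) (j : J) => hR' _ (hS a j).1 (hS a j).2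
    have hlt : Fintype.card (J → R) < Fintype.card (I → F) := by
      rw [Fintype.card_fun, Fintype.card_fun, Fintype.card_coe]
      have hk : ((⌈A / η⌉₊ + ⌈B / η⌉₊ : ℕ) : ℝ) ≤ (1 / η + 2) * (A + B + 1) := by
        have a1 := (Nat.ceil_lt_add_one (div_nonneg hA hη.le)).le
        have a2 := (Nat.ceil_lt_add_one (div_nonneg hB hη.le)).le
        have a3 : 0 < 1 / η := by positivity
        have a4 : (1 / η + 2) * (A + B + 1) = A / η + B / η + 1 / η + 2 * (A + B + 1) := by ring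
        push_cast
        rw [a4]
        linarith
      have hk' : (N + 1) * (⌈A / η⌉₊ + ⌈B / η⌉₊) * Fintype.card J < Fintype.card I := by
        have : (((N + 1) * (⌈A / η⌉₊ + ⌈B / η⌉₊) * Fintype.card J : ℕ) : ℝ) <
            Fintype.card I := by
          refine lt_of_le_of_lt ?_ hcard
          rw [Nat.cast_mul, Nat.cast_mul, mul_comm, mul_comm (1 / η + 2), mul_assoc,
            Nat.cast_succ]
          exact mul_le_mul_of_nonneg_left (mul_le_mul_of_nonneg_left hk (by positivity))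
            (Nat.cast_nonneg _)
        exact_mod_cast this
      calc R.card ^ Fintype.card J ≤ ((2 ^ (N + 1)) ^ (⌈A / η⌉₊ + ⌈B / η⌉₊)) ^ Fintype.card J :=
            Nat.pow_le_pow_left (hR.trans (Nat.pow_le_pow_left
              ((Nat.le_succ N).trans Nat.lt_two_pow_self.le) _)) _
        _ < 2 ^ Fintype.card I := by
            rw [← pow_mul, ← pow_mul, ← mul_assoc]
            exact Nat.pow_lt_pow_right (by norm_num) hk'
        _ ≤ Fintype.card F ^ Fintype.card I := Nat.pow_le_pow_left two_le_qq _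
    obtain ⟨a, a', hne, heq⟩ := Fintype.exists_ne_map_eq_of_card_lt
      (fun (a : I → F) (j : J) => (⟨g a j, hg a j⟩ : R)) hlt
    refine ⟨a - a', sub_ne_zero.2 hne, fun j => ?_⟩
    have he : g a j = g a' j := congrArg Subtype.val (congrFun heq j)
    have h3 : π ^ ⌈A / η⌉₊ * ∑ i, (a - a') i • M i j =
        (π ^ ⌈A / η⌉₊ * ∑ i, a i • M i j - g a j) +
          -(π ^ ⌈A / η⌉₊ * ∑ i, a' i • M i j - g a' j) := by
      simp only [Pi.sub_apply, sub_smul, Finset.sum_sub_distrib, he]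
      ring
    have h4 : ‖π ^ ⌈A / η⌉₊ * ∑ i, (a - a') i • M i j‖ ≤ ‖π‖ ^ (⌈A / η⌉₊ + ⌈B / η⌉₊) := by
      rw [h3]
      refine (IsUltrametricDist.norm_add_le_max _ _).trans (max_le (hg' a j) ?_)
      rw [norm_neg]
      exact hg' a' j
    rw [norm_mul, norm_pow, pow_add] at h4
    refine (le_of_mul_le_mul_left h4 (pow_pos h0 _)).trans ?_
    rw [← hρ]
    exact locF_pow hη

end Pool.Agent.MP_655169_nt
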