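import Pool.Agent.MP_655169_nt.Main
import Pool.Agent.MP_655169_nt.Amb
import Pool.Agent.MP_655169_nt.LocF

set_option linter.unusedSectionVars false

namespace Pool.Agent.MP_655169_nt

open Polynomial Filter Topology

theorem core_elim1 {α : Type*} (θ x : α) :
    (fun o : Option (Fin 1) => o.elim x ![θ]) ∘ ![some 0, none] = ![θ, x] := by
  funext i
  fin_cases i <;> rfl

/-- The statement inside an algebraically closed field, for points of a locally compact
subfield. -/
theorem core {F C : Type*} [Field F] [Fintype F] [NormedField C] [IsUltrametricDist C]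
    [IsAlgClosed C] [Algebra F C] (θ : C) (hθ : 1 < ‖θ‖) (u al : Fin 2 → C)
    (h : ∀ i, HasSum (fun k => u i ^ qq F ^ k / carlitzD (qq F) θ k) (al i))
    (hind : ∀ a b : F[X], aeval θ a * u 0 + aeval θ b * u 1 = 0 → a = 0 ∧ b = 0)
    (E : Subfield C) (hF : ∀ a : F, algebraMap F C a ∈ E) (hθE : θ ∈ E)
    (hc : IsCompact {x : C | x ∈ E ∧ ‖x‖ ≤ 1}) (hu : ∀ i, u i ∈ E) (hal : ∀ i, al i ∈ E) :
    ∃ i j : Fin 2 ⊕ Fin 2, AlgebraicIndependent F
      (fun o : Option (Fin 2) => o.elim (Sum.elim u al j) ![θ, Sum.elim u al i]) := by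
  obtain ⟨Ω, _, _, _, _, _, _, Z, rfl⟩ := amb (F := F) θ hθ
  obtain ⟨η, cS, hE⟩ := loc_of_compact (F := F) E hF Z.θ hθ hθE hc
  have hf : ∀ i, ∃ f, Z.Agf (u i) (al i) f := fun i => Z.exists_agf _ _ (h i)
  choose f hf using hf
  have hu0 : u 0 ≠ 0 := by
    intro h0
    have := (hind 1 0 (by simp [h0])).1
    exact one_ne_zero this
  by_contra hcon
  push Not at hcon
  by_cases h1 : ∃ i : Fin 2 ⊕ Fin 2,
      AlgebraicIndependent F (fun o : Option (Fin 1) => o.elim (Sum.elim u al i) ![Z.θ])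
  · obtain ⟨i, hi⟩ := h1
    have hi2 : AlgebraicIndependent F ![Z.θ, Sum.elim u al i] := by
      rw [← core_elim1]
      exact hi.comp _ (by decide)
    refine Z.main1 u al f hf hind E η cS hE hθE hu (Sum.elim u al i) ?_ hi2 ?_ ?_
    · rcases i with i | i
      · exact hu i
      · exact hal i
    · intro k
      exact alg_of_not_indep hi2 _ (hcon i (Sum.inl k))
    · intro k
      exact alg_of_not_indep hi2 _ (hcon i (Sum.inr k))
  · push Not at h1
    exact Z.main0 (u 0) (al 0) (f 0) (hf 0) hu0 E η cS hE hθE (hu 0)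
      (alg_of_not_indep (indep1 Z.θ hθ) _ (h1 (Sum.inl 0)))
      (alg_of_not_indep (indep1 Z.θ hθ) _ (h1 (Sum.inr 0)))

end Pool.Agent.MP_655169_nt
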