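import Pool.Agent.MP_655169_nt.Carlitz

/-!
Setting for the proof of the two-variable Schanuel statement for the Carlitz exponential.
`F` is the finite constant field with `q` elements, `C` an algebraically closed ultrametric field
containing `θ` with norm above one, `Ω` an algebraically closed ultrametric field containing
`C(t)` with the Gauss norm, and `σ` a ring endomorphism of `Ω` twisting the coefficients.
-/

namespace Pool.Agent.MP_655169_nt

open Polynomial Filter Topology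

/-- The number of elements of the constant field. -/
abbrev qq (F : Type*) [Fintype F] : ℕ := Fintype.card F

/-- The ambient data. -/
structure Sit (F C Ω : Type*) [Fintype F] [NormedField C] [NormedField Ω] [Algebra C Ω] where
  θ : C
  hθ : 1 < ‖θ‖
  fr : C →+* C
  fr_eq : ∀ x, fr x = x ^ qq F
  t : Ω
  σ : Ω →+* Ω
  gauss_le : ∀ (H : C[X]) (j : ℕ), ‖H.coeff j‖ ≤ ‖aeval t H‖
  gauss_ge : ∀ H : C[X], ∃ j, ‖aeval t H‖ ≤ ‖H.coeff j‖
  σ_c : ∀ c : C, σ (algebraMap C Ω c) = algebraMap C Ω (c ^ qq F)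
  σ_t : σ t = t
  σ_norm : ∀ y, ‖σ y‖ = ‖y‖ ^ qq F
  compl : ∀ u : ℕ → Ω, (∀ n, ∃ a b : C[X], u n = aeval t a / aeval t b) → CauchySeq u →
    ∃ y, Tendsto u atTop (𝓝 y)

section

variable {F C Ω : Type*} [Field F] [Fintype F] [NormedField C] [NormedField Ω] [Algebra C Ω]
  (Z : Sit F C Ω)

namespace Sit

/-- The `i`-th term of the exponential series. -/
noncomputable def ee (u : C) (i : ℕ) : C := u ^ qq F ^ i / carlitzD (qq F) Z.θ i

/-- Truncated Anderson generating function. -/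
noncomputable def fm (u : C) (m : ℕ) : Ω :=
  ∑ i ∈ Finset.range m, algebraMap C Ω (Z.ee u i) / (algebraMap C Ω (Z.θ ^ qq F ^ i) - Z.t)

/-- `al` is the exponential of `u` and `f` its Anderson generating function. -/
structure Agf (u al : C) (f : Ω) : Prop where
  hs : HasSum (Z.ee u) al
  lim : Tendsto (Z.fm u) atTop (𝓝 f)

/-- Common denominator of the truncation. -/
noncomputable def den (m : ℕ) : C[X] := ∏ i ∈ Finset.range m, (Polynomial.C (Z.θ ^ qq F ^ i) - X)

/-- Numerator of the truncation. -/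
noncomputable def num (u : C) : ℕ → C[X]
  | 0 => 0
  | m + 1 => num u m * (Polynomial.C (Z.θ ^ qq F ^ m) - X) + Polynomial.C (Z.ee u m) * Z.den m

/-- The `n`-fold twist of the coefficients. -/
noncomputable def tw (n : ℕ) : C[X] →+* C[X] := Polynomial.mapRingHom (Z.fr ^ n)

/-- Twist `n + 1` times and put `t = θ`. -/
noncomputable def evt (n : ℕ) : C[X] →+* C := (Polynomial.evalRingHom Z.θ).comp (Z.tw (n + 1))

/-- Value at `t = θ` of the `(n + 1)`-fold twist of the truncation. -/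
noncomputable def phm (u : C) (n m : ℕ) : C :=
  ∑ i ∈ Finset.range m, Z.ee u i ^ qq F ^ (n + 1) / ((Z.θ ^ qq F ^ i) ^ qq F ^ (n + 1) - Z.θ)

/-- The polynomial `t - θ`. -/
noncomputable def ss : C[X] := X - Polynomial.C Z.θ

end Sit

/-- Value at `t = θ` of the `(n + 1)`-fold twist of the generating function, in any ring. -/
def ph {R : Type*} [CommRing R] (q : ℕ) (θ u al : R) : ℕ → R
  | 0 => al - u
  | n + 1 => al ^ q ^ (n + 1) + (θ - θ ^ q ^ (n + 1)) * ph q θ u al n

namespace Sit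

variable {ι : Type*}

/-- Value of a polynomial over `C[t]` at a point of `Ω`. -/
noncomputable def FF (f : ι → Ω) (P : MvPolynomial ι C[X]) : Ω :=
  MvPolynomial.eval₂ (aeval Z.t : C[X] →ₐ[C] Ω).toRingHom f P

/-- Value at `t = θ` of the `(n + 1)`-fold twist. -/
noncomputable def VV (u al : ι → C) (n : ℕ) (P : MvPolynomial ι C[X]) : C :=
  MvPolynomial.eval₂ (Z.evt n) (fun i => ph (qq F) Z.θ (u i) (al i) n) P

/-- The action of the twist on polynomials in solutions of `σ y = al + (t - θ) y`. -/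
noncomputable def sgt (al : ι → C) (P : MvPolynomial ι C[X]) : MvPolynomial ι C[X] :=
  MvPolynomial.eval₂ (MvPolynomial.C.comp (Z.tw 1))
    (fun i => MvPolynomial.C (Polynomial.C (al i)) + MvPolynomial.C Z.ss * MvPolynomial.X i) P

/-- `y` solves the twisted equation `σ y = al + (t - θ) y`. -/
def Sol (al : C) (y : Ω) : Prop :=
  Z.σ y = algebraMap C Ω al + (Z.t - algebraMap C Ω Z.θ) * y

/-- The polynomial `P` evaluated at the truncations, with denominators cleared. -/
noncomputable def HH (u : ι → C) (m D : ℕ) (P : MvPolynomial ι C[X]) : C[X] :=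
  ∑ e ∈ P.support, P.coeff e * (e.prod fun i k => Z.num (u i) m ^ k) * Z.den m ^ (D - e.degree)

/-- A normalised relation of minimal degree and minimal top support. -/
structure MinRel (y : ι → Ω) (al : ι → C) (P : MvPolynomial ι C[X]) : Prop where
  ne : P ≠ 0
  rel : Z.FF y P = 0
  pos : 0 < P.totalDegree
  low : ∀ R, Z.FF y R = 0 → R.totalDegree < P.totalDegree → R = 0
  top : ∀ R, Z.FF y R = 0 → R.totalDegree ≤ P.totalDegree →
    (∀ e : ι →₀ ℕ, e.degree = P.totalDegree → P.coeff e = 0 → R.coeff e = 0) →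
    ∀ e0 : ι →₀ ℕ, e0.degree = P.totalDegree → P.coeff e0 ≠ 0 → R.coeff e0 = 0 → R = 0
  prim : ∀ c : C[X], (∀ e, c ∣ P.coeff e) → IsUnit c
  inv : Z.sgt al P = MvPolynomial.C (Z.ss ^ P.totalDegree) * P

/-- The pair `(θ, t)`. -/
noncomputable def zz : Fin 2 → Ω := ![algebraMap C Ω Z.θ, Z.t]

/-- Value at `y` of a polynomial over `F[θ, t]`. -/
noncomputable def PV [Algebra F Ω] (Φ : (MvPolynomial (Fin 2) F)[X]) (y : Ω) : Ω :=
  Φ.eval₂ (MvPolynomial.aeval Z.zz : MvPolynomial (Fin 2) F →ₐ[F] Ω).toRingHom y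

/-- Value at `y` of a polynomial over `C[t]`. -/
noncomputable def PW (Ψ : C[X][X]) (y : Ω) : Ω :=
  Ψ.eval₂ (aeval Z.t : C[X] →ₐ[C] Ω).toRingHom y

end Sit

/-- All degrees are at most `D`. -/
def Deg (Φ : (MvPolynomial (Fin 2) F)[X]) (D : ℕ) : Prop :=
  Φ.natDegree ≤ D ∧ ∀ j, (Φ.coeff j).totalDegree ≤ D

/-- Degree and size bounds. -/
structure Bd {ι : Type*} (P : MvPolynomial ι C[X]) (D T : ℕ) (A : ℝ) : Prop where
  deg : P.totalDegree ≤ D
  tdeg : ∀ e, (P.coeff e).natDegree ≤ T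
  size : ∀ e j, ‖(P.coeff e).coeff j‖ ≤ Real.exp A

/-- The norms of the elements of `E` form a discrete set. -/
def Gap (E : Subfield C) (η : ℝ) : Prop :=
  ∀ y ∈ E, ∀ z ∈ E, ‖y‖ < ‖z‖ → ‖y‖ ≤ Real.exp (-η) * ‖z‖

/-- A locally compact subfield: discreteness and the box principle. -/
structure Loc (F : Type*) [Field F] [Algebra F C] (E : Subfield C) (η cS : ℝ) : Prop where
  η_pos : 0 < η
  cS_pos : 0 < cS
  const : ∀ a : F, algebraMap F C a ∈ E
  gap : Gap E η
  box : ∀ (I J : Type) [Fintype I] [Fintype J] (M : I → J → C) (A B : ℝ), 0 ≤ A → 0 ≤ B →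
    (∀ i j, M i j ∈ E ∧ ‖M i j‖ ≤ Real.exp A) →
    (Fintype.card J : ℝ) * (cS * (A + B + 1)) < Fintype.card I →
    ∃ a : I → F, a ≠ 0 ∧ ∀ j, ‖∑ i, a i • M i j‖ ≤ Real.exp (-B)

/-- The auxiliary polynomial. -/
noncomputable def aux [Algebra F C] {ι W : Type*} [Fintype W] {T : ℕ} (a : Fin (T + 1) × W → F)
    (cw : W → C) (ew : W → ι →₀ ℕ) : MvPolynomial ι C[X] :=
  ∑ x : Fin (T + 1) × W,
    MvPolynomial.monomial (ew x.2) (Polynomial.monomial x.1 (algebraMap F C (a x) * cw x.2))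

end

section

variable (F : Type*) {Λ : Type*} [Field F] [Field Λ] [Algebra F Λ]

/-- The values at `y` of polynomials of total degree at most `M`. -/
noncomputable def Vs {ι : Type*} (y : ι → Λ) (M : ℕ) : Submodule F Λ :=
  (MvPolynomial.restrictTotalDegree ι F M).map (MvPolynomial.aeval y).toLinearMap

/-- Polynomial growth of the Hilbert function. -/
def Grow {ι : Type*} (y : ι → Λ) (c r : ℕ) : Prop :=
  ∀ M, Module.finrank F (Vs F y M) ≤ c * (M + 1) ^ r

/-- `w` is a root of a polynomial of degree at most `d₁` with coefficients of degree at most `d₂`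
in `z` and leading coefficient not vanishing at `z`. -/
def Alg {κ : Type*} (z : κ → Λ) (d₁ d₂ : ℕ) (w : Λ) : Prop :=
  ∃ Φ : (MvPolynomial κ F)[X], Φ.natDegree ≤ d₁ ∧ (∀ j, (Φ.coeff j).totalDegree ≤ d₂) ∧
    MvPolynomial.aeval z Φ.leadingCoeff ≠ 0 ∧
    Φ.eval₂ (MvPolynomial.aeval z : MvPolynomial κ F →ₐ[F] Λ).toRingHom w = 0

end

end Pool.Agent.MP_655169_nt
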