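import Pool.Agent.MP_655169_nt.Defs

set_option linter.unusedSectionVars false

namespace Pool.Agent.MP_655169_nt

open Polynomial Filter Topology

/-- The exponent vector with given entries. -/
noncomputable def elimE (i j : ℕ) : Fin 2 →₀ ℕ := Finsupp.single 0 i + Finsupp.single 1 j

theorem elimE_zero (i j : ℕ) : elimE i j 0 = i := by simp [elimE]

theorem elimE_one (i j : ℕ) : elimE i j 1 = j := by simp [elimE]

theorem elimE_eta (m : Fin 2 →₀ ℕ) : elimE (m 0) (m 1) = m := by
  ext i
  fin_cases i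
  exacts [elimE_zero _ _, elimE_one _ _]

/-- The polynomial with the given coefficients in a box. -/
noncomputable def elimP (F : Type*) [Field F] (I J : ℕ) :
    (Fin I × Fin J → F) →ₗ[F] MvPolynomial (Fin 2) F :=
  Fintype.linearCombination F fun x => MvPolynomial.monomial (elimE x.1 x.2) 1

theorem elimP_coeff {F : Type*} [Field F] {I J : ℕ} (a : Fin I × Fin J → F) (m : Fin 2 →₀ ℕ) :
    (elimP F I J a).coeff m = ∑ x : Fin I × Fin J, if elimE x.1 x.2 = m then a x else 0 := by
  simp [elimP, Fintype.linearCombination_apply, MvPolynomial.coeff_sum, MvPolynomial.coeff_monomial]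

theorem elimP_supp {F : Type*} [Field F] {I J : ℕ} {a : Fin I × Fin J → F} {m : Fin 2 →₀ ℕ}
    (h : m ∈ (elimP F I J a).support) : m 0 < I ∧ m 1 < J := by
  rw [MvPolynomial.mem_support_iff, elimP_coeff] at h
  obtain ⟨x, -, hx⟩ := Finset.exists_ne_zero_of_sum_ne_zero h
  have : elimE x.1 x.2 = m := by_contra fun e => hx (if_neg e)
  rw [← this, elimE_zero, elimE_one]
  exact ⟨x.1.2, x.2.2⟩

theorem elimP_inj {F : Type*} [Field F] {I J : ℕ} {a : Fin I × Fin J → F}
    (h : elimP F I J a = 0) : a = 0 := by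
  funext x
  have h1 := elimP_coeff a (elimE x.1 x.2)
  rw [h, Finset.sum_eq_single x (fun y _ hy => if_neg fun e => hy ?_) (by simp), if_pos rfl] at h1
  · exact h1.symm
  · have h2 := congrArg (· 0) e
    have h3 := congrArg (· 1) e
    simp only [elimE_zero, elimE_one] at h2 h3
    exact Prod.ext (Fin.ext h2) (Fin.ext h3)

theorem elimP_deg {F : Type*} [Field F] {I J : ℕ} (a : Fin I × Fin J → F) :
    (elimP F I J a).totalDegree ≤ I + J - 2 := by
  refine Finset.sup_le fun m hm => ?_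
  have := elimP_supp hm
  rw [Finsupp.sum_fintype _ _ fun _ => rfl, Fin.sum_univ_two]
  omega

theorem elimP_mul {F : Type*} [Field F] {I J : ℕ} {a : Fin I × Fin J → F}
    {p : MvPolynomial (Fin 2) F} {m : Fin 2 →₀ ℕ} (h : m ∈ (elimP F I J a * p).support) :
    m 0 < I + p.totalDegree ∧ m 1 < J + p.degreeOf 1 := by
  obtain ⟨x, hx, y, hy, rfl⟩ := Finset.mem_add.1 (MvPolynomial.support_mul _ _ h)
  have h1 := elimP_supp hx
  have h2 := (MvPolynomial.monomial_le_degreeOf 0 hy).trans (p.degreeOf_le_totalDegree 0)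
  have h3 := MvPolynomial.monomial_le_degreeOf 1 hy
  simp only [Finsupp.add_apply]
  omega

theorem elim_one {F : Type*} [Field F] {q : MvPolynomial (Fin 2) F} (hq : q ≠ 0)
    (h : q.degreeOf 1 = 0) :
    ∃ r : F[X], r ≠ 0 ∧ q = aeval (MvPolynomial.X 0 : MvPolynomial (Fin 2) F) r := by
  have key : q = aeval (MvPolynomial.X 0 : MvPolynomial (Fin 2) F)
      (∑ m ∈ q.support, C (q.coeff m) * X ^ m 0 : F[X]) := by
    rw [map_sum]
    refine q.as_sum.trans (Finset.sum_congr rfl fun m hm => ?_)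
    have h1 : m 1 = 0 := Nat.le_zero.1 (h ▸ MvPolynomial.monomial_le_degreeOf 1 hm)
    have h2 : m = Finsupp.single 0 (m 0) := by simpa [elimE, h1] using (elimE_eta m).symm
    rw [map_mul, map_pow, aeval_C, aeval_X, MvPolynomial.algebraMap_eq,
      MvPolynomial.C_mul_X_pow_eq_monomial, ← h2]
  exact ⟨_, fun e => hq (by rw [key, e, map_zero]), key⟩

theorem elim {F : Type*} [Field F] (p p' : MvPolynomial (Fin 2) F) (hp : p ≠ 0) (hp' : p' ≠ 0)
    (h : IsRelPrime p p') :
    ∃ (A B : MvPolynomial (Fin 2) F) (r : F[X]), r ≠ 0 ∧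
      A.totalDegree ≤ 3 * (p.totalDegree * p'.totalDegree) ∧
      B.totalDegree ≤ 3 * (p.totalDegree * p'.totalDegree) ∧
      A * p + B * p' = aeval (MvPolynomial.X 0 : MvPolynomial (Fin 2) F) r := by
  rcases Nat.eq_zero_or_pos (p.degreeOf 1) with h1 | h1
  · obtain ⟨r, hr, e⟩ := elim_one hp h1
    exact ⟨1, 0, r, hr, by simp, by simp, by simpa using e⟩
  rcases Nat.eq_zero_or_pos (p'.degreeOf 1) with h2 | h2
  · obtain ⟨r, hr, e⟩ := elim_one hp' h2
    exact ⟨0, 1, r, hr, by simp, by simp, by simpa using e⟩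
  have h3 := p.degreeOf_le_totalDegree 1
  have h4 := p'.degreeOf_le_totalDegree 1
  have h5 : p.totalDegree ≤ p.totalDegree * p'.totalDegree := Nat.le_mul_of_pos_right _ (by omega)
  have h6 : p'.totalDegree ≤ p.totalDegree * p'.totalDegree := Nat.le_mul_of_pos_left _ (by omega)
  obtain ⟨I, hI⟩ := Nat.exists_eq_add_of_le
    (show p.totalDegree ≤ 2 * (p.totalDegree * p'.totalDegree) + 1 by omega)
  obtain ⟨I', hI'⟩ := Nat.exists_eq_add_of_le
    (show p'.totalDegree ≤ 2 * (p.totalDegree * p'.totalDegree) + 1 by omega)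
  obtain ⟨J, hJ⟩ := Nat.exists_eq_add_of_le' (show 1 ≤ p.degreeOf 1 + p'.degreeOf 1 by omega)
  let L : ((Fin I × Fin (p'.degreeOf 1) → F) × (Fin I' × Fin (p.degreeOf 1) → F)) →ₗ[F]
      MvPolynomial (Fin 2) F :=
    ((LinearMap.mulRight F p).comp (elimP F _ _)).coprod ((LinearMap.mulRight F p').comp (elimP F _ _))
  let K : MvPolynomial (Fin 2) F →ₗ[F] (Fin (2 * (p.totalDegree * p'.totalDegree) + 1) × Fin J → F) :=
    LinearMap.pi fun x => MvPolynomial.lcoeff F (elimE x.1 (x.2 + 1))
  obtain ⟨⟨a, b⟩, hab, hne⟩ := (Submodule.ne_bot_iff _).1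
    (LinearMap.ker_ne_bot_of_finrank_lt (f := K.comp L) (by
      simp only [Module.finrank_prod, Module.finrank_fintype_fun_eq_card, Fintype.card_prod,
        Fintype.card_fin]
      have h7 := Nat.mul_le_mul_left p.totalDegree h4
      have h8 := Nat.mul_le_mul_right p'.totalDegree h3
      have h9 := congrArg (· * p'.degreeOf 1) hI
      have h10 := congrArg (· * p.degreeOf 1) hI'
      have h11 := congrArg ((2 * (p.totalDegree * p'.totalDegree) + 1) * ·) hJ
      linarith))
  have hq : elimP F _ _ a * p + elimP F _ _ b * p' ≠ 0 := fun e => by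
    have h7 : p ∣ elimP F _ _ b :=
      h.dvd_of_dvd_mul_right ⟨-elimP F _ _ a, by linear_combination e⟩
    have h8 : elimP F _ _ b = 0 := by_contra fun h8 => by
      obtain ⟨c, hc⟩ := h7
      have h9 : (elimP F _ _ b).degreeOf 1 < p.degreeOf 1 :=
        (MvPolynomial.degreeOf_lt_iff h1).2 fun m hm => (elimP_supp hm).2
      rw [hc, MvPolynomial.degreeOf_mul_eq hp fun h0 => h8 (by rw [hc, h0, mul_zero])] at h9
      omega
    rw [h8, zero_mul, add_zero] at e
    exact hne (Prod.ext (elimP_inj ((mul_eq_zero.1 e).resolve_right hp)) (elimP_inj h8))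
  have hd : (elimP F _ _ a * p + elimP F _ _ b * p').degreeOf 1 ≤ 0 := by
    refine MvPolynomial.degreeOf_le_iff.2 fun m hm => by_contra fun h7 => ?_
    have h8 : m 0 < 2 * (p.totalDegree * p'.totalDegree) + 1 ∧ m 1 - 1 < J := by
      rcases Finset.mem_union.1 (MvPolynomial.support_add hm) with h8 | h8
      · have := elimP_mul h8
        omega
      · have := elimP_mul h8
        omega
    have h9 := congrFun (LinearMap.mem_ker.1 hab) (⟨_, h8.1⟩, ⟨_, h8.2⟩)
    refine MvPolynomial.mem_support_iff.1 hm (Eq.trans ?_ h9)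
    conv_lhs => rw [← elimE_eta m, show m 1 = m 1 - 1 + 1 by omega]
    rfl
  obtain ⟨r, hr, e⟩ := elim_one hq (Nat.le_zero.1 hd)
  exact ⟨_, _, r, hr, (elimP_deg a).trans (by omega), (elimP_deg b).trans (by omega), e⟩

end Pool.Agent.MP_655169_nt
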