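import Pool.Agent.MP_655169_nt.Eval1

set_option linter.unusedSectionVars false

namespace Pool.Agent.MP_655169_nt

open Polynomial Filter Topology

variable {F C Ω : Type*} [Field F] [Fintype F] [NormedField C] [IsUltrametricDist C]
  [IsAlgClosed C] [Algebra F C] [NormedField Ω] [IsUltrametricDist Ω] [IsAlgClosed Ω]
  [Algebra C Ω] [Algebra F Ω] [IsScalarTower F C Ω] (Z : Sit F C Ω)

lemma eval_le_pow {q : ℕ} (hq : 2 ≤ q) (n : ℕ) : n ≤ q ^ n :=
  (Nat.lt_two_pow_self).le.trans (Nat.pow_le_pow_left hq n)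

lemma eval_small {q : ℕ} (hq : 2 ≤ q) {x : ℝ} (hx : 1 < x) (D : ℕ) :
    Tendsto (fun m : ℕ => (x ^ q ^ m)⁻¹ * x ^ (D * m)) atTop (𝓝 0) := by
  have hx0 : 0 < x := one_pos.trans hx
  have h1 : Tendsto (fun m : ℕ => (x ^ m)⁻¹) atTop (𝓝 0) :=
    tendsto_inv_atTop_zero.comp (tendsto_pow_atTop_atTop_of_one_lt hx)
  have h2 := tendsto_pow_const_div_const_pow_of_one_lt 1 (one_lt_two (α := ℝ))
  have h3 := h2.eventually (gt_mem_nhds (show (0 : ℝ) < 1 / (D + 1) by positivity))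
  refine squeeze_zero' (Eventually.of_forall fun m => by positivity) ?_ h1
  filter_upwards [h3] with m hm
  rw [pow_one, div_lt_div_iff₀ (by positivity) (by positivity), one_mul] at hm
  have h4 : m * (D + 1) ≤ 2 ^ m := by exact_mod_cast hm.le
  have h5 : D * m + m ≤ q ^ m := by
    have := Nat.pow_le_pow_left hq m
    nlinarith
  have h6 : x ^ (D * m + m) ≤ x ^ q ^ m := pow_le_pow_right₀ hx.le h5
  rw [inv_mul_le_iff₀ (by positivity), ← div_eq_mul_inv, le_div_iff₀ (by positivity), ← pow_add]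
  exact h6

namespace Sit

variable {ι : Type*} [Fintype ι]

theorem exists_bd (P : MvPolynomial ι C[X]) : ∃ (D T : ℕ) (A : ℝ), Bd P D T A := by
  refine ⟨P.totalDegree, P.support.sup fun e => (P.coeff e).natDegree,
    ∑ e ∈ P.support, ∑ j ∈ (P.coeff e).support, ‖(P.coeff e).coeff j‖, le_rfl, fun e => ?_,
    fun e j => ?_⟩
  · by_cases he : e ∈ P.support
    · exact Finset.le_sup (f := fun e => (P.coeff e).natDegree) he
    · simp [MvPolynomial.notMem_support_iff.1 he]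
  · by_cases he : e ∈ P.support
    · by_cases hj : j ∈ (P.coeff e).support
      · refine le_trans ?_ ((le_add_of_nonneg_right zero_le_one).trans (Real.add_one_le_exp _))
        refine le_trans ?_ (Finset.single_le_sum
          (f := fun e => ∑ j ∈ (P.coeff e).support, ‖(P.coeff e).coeff j‖)
          (fun _ _ => Finset.sum_nonneg fun _ _ => norm_nonneg _) he)
        exact Finset.single_le_sum (f := fun j => ‖(P.coeff e).coeff j‖)
          (fun _ _ => norm_nonneg _) hj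
      · rw [Polynomial.notMem_support_iff.1 hj, norm_zero]; positivity
    · rw [MvPolynomial.notMem_support_iff.1 he, Polynomial.coeff_zero, norm_zero]; positivity

theorem FF_lim (u al : ι → C) (f : ι → Ω) (h : ∀ i, Z.Agf (u i) (al i) (f i))
    (P : MvPolynomial ι C[X]) :
    Tendsto (fun m => Z.FF (fun i => Z.fm (u i) m) P) atTop (𝓝 (Z.FF f P)) := by
  simp only [FF, MvPolynomial.eval₂_eq']
  exact tendsto_finsetSum _ fun e _ =>
    (tendsto_finsetProd _ fun i _ => (h i).lim.pow _).const_mul _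

theorem ev_zero (u al : ι → C) (f : ι → Ω) (h : ∀ i, Z.Agf (u i) (al i) (f i))
    (P : MvPolynomial ι C[X]) (h0 : Z.FF f P = 0) (n : ℕ) : Z.VV u al n P = 0 := by
  obtain ⟨m0, c, -, hev⟩ := Z.ev u al f h
  obtain ⟨D, T, A, hB⟩ := exists_bd P
  have hq : 2 ≤ qq F := two_le_qq
  have hθ := Z.hθ
  have h1 := (eval_small hq hθ D).const_mul (Real.exp (A + c * D) ^ qq F ^ (n + 1) * ‖Z.θ‖ ^ T)
  rw [mul_zero] at h1
  refine norm_le_zero_iff.1 (ge_of_tendsto h1 ?_)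
  filter_upwards [eventually_ge_atTop m0] with m hm
  refine ((hev P D T A hB m hm n).1 _ (by rw [h0, norm_zero]; positivity) le_rfl).trans ?_
  have h2 : ((‖Z.θ‖ ^ qq F ^ m)⁻¹) ^ qq F ^ (n + 1) ≤ (‖Z.θ‖ ^ qq F ^ m)⁻¹ :=
    pow_le_of_le_one (by positivity) (inv_le_one_of_one_le₀ (one_le_pow₀ hθ.le))
      (pow_pos (by omega) _).ne'
  rw [mul_pow, pow_add ‖Z.θ‖ T]
  calc _ ≤ Real.exp (A + c * D) ^ qq F ^ (n + 1) * (‖Z.θ‖ ^ qq F ^ m)⁻¹ *
        (‖Z.θ‖ ^ T * ‖Z.θ‖ ^ (D * m)) := by gcongr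
    _ = _ := by ring

theorem ev_ne (u al : ι → C) (f : ι → Ω) (h : ∀ i, Z.Agf (u i) (al i) (f i))
    (P : MvPolynomial ι C[X]) (h0 : Z.FF f P ≠ 0) : ∀ᶠ n in atTop, Z.VV u al n P ≠ 0 := by
  obtain ⟨m0, M, hM, hb⟩ := Z.agf_bd u al f h
  obtain ⟨D, T, A, hB⟩ := exists_bd P
  have hq : 2 ≤ qq F := two_le_qq
  have hθ := Z.hθ
  have hφ : 0 < ‖Z.FF f P‖ / 2 := half_pos (norm_pos_iff.2 h0)
  have h1 := (eval_small hq hθ 0).const_mul (Real.exp A * M ^ D)
  simp only [mul_zero, zero_mul, pow_zero, mul_one] at h1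
  obtain ⟨m, hm, hm0⟩ := ((h1.eventually (gt_mem_nhds hφ)).and (eventually_ge_atTop m0)).exists
  set ε := (‖Z.θ‖ ^ qq F ^ m)⁻¹ with hε
  have hε0 : 0 < ε := by positivity
  have hA : ∀ e, ‖aeval Z.t (P.coeff e)‖ ≤ Real.exp A := fun e =>
    Z.norm_aeval_le _ _ (hB.size e)
  have h2 : ‖Z.FF f P - Z.FF (fun i => Z.fm (u i) m) P‖ ≤ Real.exp A * M ^ D * ε :=
    lip_eval₂ _ P f _ _ M ε (Real.exp_pos A).le hA hM hε0.le (fun i => (hb i).1)
      (fun i => (hb i).2.1 m) (fun i => (hb i).2.2.1 m hm0) D hB.deg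
  set ψ := ‖Z.FF (fun i => Z.fm (u i) m) P‖ with hψ
  set err := Real.exp A * M ^ D * ε with herr
  have herr0 : 0 < err := by positivity
  have h3 : err < ψ := by
    have := norm_sub_norm_le (Z.FF f P) (Z.FF (fun i => Z.fm (u i) m) P)
    linarith
  have hψ0 : 0 < ψ := herr0.trans h3
  have hr : err / ψ < 1 := (div_lt_one hψ0).2 h3
  have h4 := (tendsto_pow_atTop_nhds_zero_of_lt_one (by positivity) hr).mul_const (‖Z.θ‖ ^ T)
  rw [zero_mul] at h4
  filter_upwards [Z.evt_ge' (Z.HH u m D P), h4.eventually (gt_mem_nhds one_pos)] with n hn hn' hV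
  rw [Z.HH_t u m D P hB.deg, Z.HH_evt u n m D P hB.deg, norm_mul, norm_mul, norm_pow, norm_pow,
    Z.norm_evt_den, mul_pow, ← pow_mul, ← pow_mul, mul_comm D] at hn
  have hd : 0 < ‖aeval Z.t (Z.den m)‖ ^ (qq F ^ (n + 1) * D) :=
    pow_pos (norm_pos_iff.2 (Z.den_ne m)) _
  have h5 := le_of_mul_le_mul_left hn hd
  have h6 : ‖Z.VV u al n P - MvPolynomial.eval₂ (Z.evt n) (fun i => Z.phm (u i) n m) P‖ ≤
      Real.exp A ^ qq F ^ (n + 1) * ‖Z.θ‖ ^ T * (M ^ qq F ^ (n + 1)) ^ D * ε ^ qq F ^ (n + 1) := by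
    refine lip_eval₂ _ P _ _ _ _ _ (by positivity) (fun e => ?_) (one_le_pow₀ hM) (by positivity)
      (fun i => (hb i).2.2.2.2.1 n) (fun i => (hb i).2.2.2.1 n m)
      (fun i => (hb i).2.2.2.2.2 n m hm0) D hB.deg
    refine (Z.evt_le n _ T (hB.tdeg e)).trans ?_
    gcongr
    exact hA e
  rw [hV, zero_sub, norm_neg] at h6
  have h7 : ψ ^ qq F ^ (n + 1) ≤ err ^ qq F ^ (n + 1) * ‖Z.θ‖ ^ T := by
    refine (h5.trans h6).trans (le_of_eq ?_)
    rw [herr, mul_pow, mul_pow, ← pow_mul, ← pow_mul, mul_comm D]; ring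
  have h8 : (err / ψ) ^ qq F ^ (n + 1) ≤ (err / ψ) ^ n :=
    pow_le_pow_of_le_one (by positivity) hr.le ((Nat.le_succ n).trans (eval_le_pow hq _))
  have h9 : 1 ≤ (err / ψ) ^ qq F ^ (n + 1) * ‖Z.θ‖ ^ T := by
    rw [div_pow, div_mul_eq_mul_div, one_le_div (by positivity)]
    exact h7
  have h10 : (err / ψ) ^ qq F ^ (n + 1) * ‖Z.θ‖ ^ T ≤ (err / ψ) ^ n * ‖Z.θ‖ ^ T := by gcongr
  linarith

end Sit

end Pool.Agent.MP_655169_nt
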