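import Pool.Agent.MP_655169_nt.Trunc1

set_option linter.unusedSectionVars false

namespace Pool.Agent.MP_655169_nt

open Polynomial Filter Topology

variable {F C Ω : Type*} [Field F] [Fintype F] [NormedField C] [IsUltrametricDist C]
  [IsAlgClosed C] [Algebra F C] [NormedField Ω] [IsUltrametricDist Ω] [IsAlgClosed Ω]
  [Algebra C Ω] [Algebra F Ω] [IsScalarTower F C Ω] (Z : Sit F C Ω)

theorem Trunc_dom {ι : Type*} (s : Finset ι) (f : ι → C) (i : ι) (hi : i ∈ s)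
    (h : ∀ j ∈ s, j ≠ i → ‖f j‖ < ‖f i‖) : ‖f i‖ ≤ ‖∑ j ∈ s, f j‖ := by
  classical
  rw [← Finset.add_sum_erase s f hi]
  rcases (s.erase i).eq_empty_or_nonempty with he | he
  · simp [he]
  obtain ⟨j, hj, h1⟩ := IsUltrametricDist.exists_norm_finsetSum_le_of_nonempty he f
  have h2 := h1.trans_lt (h j (Finset.mem_of_mem_erase hj) (Finset.ne_of_mem_erase hj))
  rw [IsUltrametricDist.norm_add_eq_max_of_norm_ne_norm h2.ne']
  exact le_max_left _ _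

namespace Sit

theorem Trunc_core (H : C[X]) (N : ℕ) (hN : H.natDegree ≤ N) (n : ℕ)
    (h : ∀ j ∈ Finset.range (N + 1), ‖H.coeff j‖ < ‖aeval Z.t H‖ →
      ‖H.coeff j‖ ^ qq F ^ (n + 1) * ‖Z.θ‖ ^ N < ‖aeval Z.t H‖ ^ qq F ^ (n + 1)) :
    ‖aeval Z.t H‖ ^ qq F ^ (n + 1) ≤ ‖Z.evt n H‖ := by
  have hq : qq F ^ (n + 1) ≠ 0 := pow_ne_zero _ Fintype.card_ne_zero
  rcases (norm_nonneg (aeval Z.t H)).eq_or_lt with h0 | h0
  · rw [← h0, zero_pow hq]; exact norm_nonneg _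
  set S := (Finset.range (N + 1)).filter fun j => ‖H.coeff j‖ = ‖aeval Z.t H‖ with hS
  have hne : S.Nonempty := by
    obtain ⟨j, hj⟩ := Z.gauss_ge H
    refine ⟨j, Finset.mem_filter.2 ⟨Finset.mem_range.2 (Nat.lt_succ_of_le ?_),
      le_antisymm (Z.gauss_le H j) hj⟩⟩
    exact (le_natDegree_of_ne_zero (norm_pos_iff.1 (h0.trans_le hj))).trans hN
  obtain ⟨h1, h2⟩ := Finset.mem_filter.1 (S.max'_mem hne)
  have h3 : ‖aeval Z.t H‖ ^ qq F ^ (n + 1) ≤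
      ‖aeval Z.t H‖ ^ qq F ^ (n + 1) * ‖Z.θ‖ ^ S.max' hne :=
    le_mul_of_one_le_right (by positivity) (one_le_pow₀ Z.hθ.le)
  rw [Z.evt_eq_sum n H (N + 1) (Nat.lt_succ_of_le hN)]
  refine le_trans ?_ (Trunc_dom _ _ _ h1 fun j hj hj' => ?_)
  · rwa [norm_mul, norm_pow, norm_pow, h2]
  simp only [norm_mul, norm_pow, h2]
  rcases (Z.gauss_le H j).eq_or_lt with h4 | h4
  · rw [h4]
    exact mul_lt_mul_of_pos_left (pow_lt_pow_right₀ Z.hθ (lt_of_le_of_ne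
      (S.le_max' j (Finset.mem_filter.2 ⟨hj, h4⟩)) hj')) (by positivity)
  · refine lt_of_le_of_lt ?_ ((h j hj h4).trans_le h3)
    exact mul_le_mul_of_nonneg_left (pow_le_pow_right₀ Z.hθ.le
      (Nat.le_of_lt_succ (Finset.mem_range.1 hj))) (by positivity)

theorem evt_le (n : ℕ) (H : C[X]) (N : ℕ) (hN : H.natDegree ≤ N) :
    ‖Z.evt n H‖ ≤ ‖aeval Z.t H‖ ^ qq F ^ (n + 1) * ‖Z.θ‖ ^ N := by
  rw [Z.evt_eq_sum n H (N + 1) (Nat.lt_succ_of_le hN)]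
  refine IsUltrametricDist.norm_sum_le_of_forall_le_of_nonneg (by positivity) fun j hj => ?_
  rw [norm_mul, norm_pow, norm_pow]
  exact mul_le_mul (pow_le_pow_left₀ (norm_nonneg _) (Z.gauss_le H j) _)
    (pow_le_pow_right₀ Z.hθ.le (Nat.le_of_lt_succ (Finset.mem_range.1 hj))) (by positivity)
    (by positivity)

theorem evt_ge (E : Subfield C) (η : ℝ) (hg : Gap E η) (H : C[X]) (hH : ∀ j, H.coeff j ∈ E)
    (N : ℕ) (hN : H.natDegree ≤ N) (n : ℕ)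
    (h : ‖Z.θ‖ ^ N < Real.exp (η * (qq F ^ (n + 1) : ℕ))) :
    ‖aeval Z.t H‖ ^ qq F ^ (n + 1) ≤ ‖Z.evt n H‖ := by
  refine Z.Trunc_core H N hN n fun j _ hj => ?_
  obtain ⟨i, hi⟩ := Z.gauss_ge H
  have h0 : 0 < ‖aeval Z.t H‖ := (norm_nonneg _).trans_lt hj
  have h1 := hg _ (hH j) _ (hH i) (hj.trans_le hi)
  rw [le_antisymm (Z.gauss_le H i) hi] at h1
  have h2 : Real.exp (-η) ^ qq F ^ (n + 1) * Real.exp (η * (qq F ^ (n + 1) : ℕ)) = 1 := by
    rw [← Real.exp_nat_mul, ← Real.exp_add, ← Real.exp_zero]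
    congr 1; ring
  calc _ ≤ (Real.exp (-η) * ‖aeval Z.t H‖) ^ qq F ^ (n + 1) * ‖Z.θ‖ ^ N :=
        mul_le_mul_of_nonneg_right (pow_le_pow_left₀ (norm_nonneg _) h1 _) (by positivity)
    _ < (Real.exp (-η) * ‖aeval Z.t H‖) ^ qq F ^ (n + 1) *
        Real.exp (η * (qq F ^ (n + 1) : ℕ)) := mul_lt_mul_of_pos_left h (by positivity)
    _ = _ := by rw [mul_pow, mul_right_comm, h2, one_mul]

theorem evt_ge' (H : C[X]) : ∀ᶠ n in atTop, ‖aeval Z.t H‖ ^ qq F ^ (n + 1) ≤ ‖Z.evt n H‖ := by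
  have hQ : Tendsto (fun n : ℕ => qq F ^ (n + 1)) atTop atTop :=
    (tendsto_pow_atTop_atTop_of_one_lt (two_le_qq (F := F))).comp (tendsto_add_atTop_nat 1)
  refine ((eventually_all_finset (Finset.range (H.natDegree + 1))).2 fun j _ => ?_).mono
    fun n hn => Z.Trunc_core H _ le_rfl n hn
  by_cases hj : ‖H.coeff j‖ < ‖aeval Z.t H‖
  · have h0 : 0 < ‖aeval Z.t H‖ := (norm_nonneg _).trans_lt hj
    have h1 := ((tendsto_pow_atTop_nhds_zero_of_lt_one (div_nonneg (norm_nonneg _) h0.le)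
      ((div_lt_one h0).2 hj)).comp hQ).mul_const (‖Z.θ‖ ^ H.natDegree)
    rw [zero_mul] at h1
    filter_upwards [h1.eventually_lt_const one_pos] with n hn _
    rwa [Function.comp_apply, div_pow, div_mul_eq_mul_div, div_lt_one (by positivity)] at hn
  · exact Eventually.of_forall fun n h => absurd h hj

end Sit

end Pool.Agent.MP_655169_nt
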