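import Pool.Agent.MP_655169_nt.Basic
import Pool.Agent.MP_655169_nt.Trunc

set_option linter.unusedSectionVars false

namespace Pool.Agent.MP_655169_nt

open Polynomial Filter Topology

variable {F C Ω : Type*} [Field F] [Fintype F] [NormedField C] [IsUltrametricDist C]
  [IsAlgClosed C] [Algebra F C] [NormedField Ω] [IsUltrametricDist Ω] [IsAlgClosed Ω]
  [Algebra C Ω] [Algebra F Ω] [IsScalarTower F C Ω] (Z : Sit F C Ω)

theorem Eval1_le {Λ : Type*} [NormedField Λ] [IsUltrametricDist Λ] {a b : Λ} {r : ℝ}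
    (h1 : ‖a - b‖ ≤ r) (h2 : ‖b‖ ≤ r) : ‖a‖ ≤ r := by
  have := IsUltrametricDist.norm_add_le_max (a - b) b
  rw [sub_add_cancel] at this
  exact this.trans (max_le h1 h2)

theorem Eval1_eq {Λ : Type*} [NormedField Λ] [IsUltrametricDist Λ] {a b : Λ}
    (h : ‖a - b‖ < ‖b‖) : ‖a‖ = ‖b‖ := by
  have := IsUltrametricDist.norm_add_eq_max_of_norm_ne_norm h.ne
  rw [sub_add_cancel] at this
  rw [this, max_eq_right h.le]

namespace Sit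

variable {ι : Type*} [Fintype ι]

theorem ev (u al : ι → C) (f : ι → Ω) (h : ∀ i, Z.Agf (u i) (al i) (f i)) :
    ∃ (m0 : ℕ) (c : ℝ), 0 ≤ c ∧ ∀ (P : MvPolynomial ι C[X]) (D T : ℕ) (A : ℝ), Bd P D T A →
      ∀ m, m0 ≤ m → ∀ n : ℕ,
        (∀ β : ℝ, ‖Z.FF f P‖ ≤ β → Real.exp (A + c * D) * (‖Z.θ‖ ^ qq F ^ m)⁻¹ ≤ β →
          ‖Z.VV u al n P‖ ≤ β ^ qq F ^ (n + 1) * ‖Z.θ‖ ^ (T + D * m)) ∧
        ∀ (E : Subfield C) (η : ℝ), Gap E η → Z.θ ∈ E → (∀ i, u i ∈ E) →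
          (∀ e j, (P.coeff e).coeff j ∈ E) →
          Real.exp (η + A + c * D) * (‖Z.θ‖ ^ qq F ^ m)⁻¹ ≤ ‖Z.FF f P‖ →
          ‖Z.θ‖ ^ (T + D * m) < Real.exp (η * (qq F ^ (n + 1) : ℕ)) →
          ‖Z.FF f P‖ ^ qq F ^ (n + 1) ≤ ‖Z.VV u al n P‖ ∧
            ‖Z.VV u al n P‖ ≤ (‖Z.FF f P‖ * Real.exp η) ^ qq F ^ (n + 1) := by
  obtain ⟨m0, M, hM, hb⟩ := Z.agf_bd u al f h
  refine ⟨m0, Real.log M, Real.log_nonneg hM, fun P D T A hP m hm n => ?_⟩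
  have hM0 : 0 < M := zero_lt_one.trans_le hM
  have hθ := Z.hθ
  have hθ0 : 0 < ‖Z.θ‖ := zero_lt_one.trans hθ
  set Q := qq F ^ (n + 1) with hQ
  set ε : ℝ := (‖Z.θ‖ ^ qq F ^ m)⁻¹ with hε
  have hε0 : 0 < ε := by positivity
  have hexp : Real.exp (A + Real.log M * D) = Real.exp A * M ^ D := by
    rw [Real.exp_add, mul_comm (Real.log M), Real.exp_nat_mul, Real.exp_log hM0]
  set err : ℝ := Real.exp A * M ^ D * ε with herr
  have herr0 : 0 < err := by positivity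
  have hco : ∀ e, ‖aeval Z.t (P.coeff e)‖ ≤ Real.exp A := fun e =>
    Z.norm_aeval_le _ _ (hP.size e)
  have h1 : ‖Z.FF f P - Z.FF (fun i => Z.fm (u i) m) P‖ ≤ err :=
    lip_eval₂ _ P _ _ (Real.exp A) M ε (Real.exp_pos A).le hco hM hε0.le (fun i => (hb i).1)
      (fun i => (hb i).2.1 m) (fun i => (hb i).2.2.1 m hm) D hP.deg
  set W : C := MvPolynomial.eval₂ (Z.evt n) (fun i => Z.phm (u i) n m) P with hW
  have h2 : ‖Z.VV u al n P - W‖ ≤ err ^ Q * ‖Z.θ‖ ^ T := by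
    have := lip_eval₂ (Z.evt n) P (fun i => ph (qq F) Z.θ (u i) (al i) n)
      (fun i => Z.phm (u i) n m) (Real.exp A ^ Q * ‖Z.θ‖ ^ T) (M ^ Q) (ε ^ Q) (by positivity)
      (fun e => (Z.evt_le n _ T (hP.tdeg e)).trans (by gcongr; exact hco e))
      (one_le_pow₀ hM) (by positivity) (fun i => (hb i).2.2.2.2.1 n)
      (fun i => (hb i).2.2.2.1 n m) (fun i => (hb i).2.2.2.2.2 n m hm) D hP.deg
    refine this.trans_eq ?_
    rw [herr, mul_pow, mul_pow, ← pow_mul, ← pow_mul, mul_comm Q D]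
    ring
  have hd0 : 0 < ‖aeval Z.t (Z.den m)‖ := norm_pos_iff.2 (Z.den_ne m)
  have hd : 0 < ‖aeval Z.t (Z.den m)‖ ^ (D * Q) := by positivity
  have e1 : ‖aeval Z.t (Z.HH u m D P)‖ ^ Q =
      ‖aeval Z.t (Z.den m)‖ ^ (D * Q) * ‖Z.FF (fun i => Z.fm (u i) m) P‖ ^ Q := by
    rw [Z.HH_t u m D P hP.deg, norm_mul, norm_pow, mul_pow, ← pow_mul]
  have e2 : ‖Z.evt n (Z.HH u m D P)‖ = ‖aeval Z.t (Z.den m)‖ ^ (D * Q) * ‖W‖ := by
    rw [Z.HH_evt u n m D P hP.deg, norm_mul, norm_pow, Z.norm_evt_den, ← pow_mul, mul_comm D Q]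
  have hdeg := Z.HH_deg u m D T P hP.deg hP.tdeg
  have h3 : ‖W‖ ≤ ‖Z.FF (fun i => Z.fm (u i) m) P‖ ^ Q * ‖Z.θ‖ ^ (T + D * m) := by
    have := Z.evt_le n _ _ hdeg
    rw [e1, e2, mul_assoc] at this
    exact le_of_mul_le_mul_left this hd
  have hT : ‖Z.θ‖ ^ T ≤ ‖Z.θ‖ ^ (T + D * m) := pow_le_pow_right₀ hθ.le (Nat.le_add_right _ _)
  have first : ∀ β : ℝ, ‖Z.FF f P‖ ≤ β → err ≤ β →
      ‖Z.VV u al n P‖ ≤ β ^ Q * ‖Z.θ‖ ^ (T + D * m) := by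
    intro β hβ hβ'
    have hβ0 : 0 ≤ β := herr0.le.trans hβ'
    have h4 : ‖Z.FF (fun i => Z.fm (u i) m) P‖ ≤ β :=
      Eval1_le (by rw [norm_sub_rev]; exact h1.trans hβ') hβ
    exact Eval1_le (h2.trans (by gcongr)) (h3.trans (by gcongr))
  refine ⟨fun β hβ hβ' => first β hβ (by rwa [hexp] at hβ'), fun E η hg hθE huE hPE hφ hη => ?_⟩
  have hφ' : err * Real.exp η ≤ ‖Z.FF f P‖ := by
    refine le_trans (le_of_eq ?_) hφ
    rw [add_assoc, Real.exp_add, hexp, herr]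
    ring
  have hηQ : Real.exp (η * (Q : ℕ)) = Real.exp η ^ Q := by
    rw [mul_comm, Real.exp_nat_mul]
  have hη1 : 1 < Real.exp η := by
    by_contra hc
    have h5 : Real.exp η ^ Q ≤ 1 := pow_le_one₀ (Real.exp_pos η).le (not_lt.1 hc)
    have h6 : 1 ≤ ‖Z.θ‖ ^ (T + D * m) := one_le_pow₀ hθ.le
    rw [hηQ] at hη
    linarith
  have hlt : err < ‖Z.FF f P‖ := (lt_mul_of_one_lt_right herr0 hη1).trans_le hφ'
  have h4 : ‖Z.FF (fun i => Z.fm (u i) m) P‖ = ‖Z.FF f P‖ :=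
    Eval1_eq (by rw [norm_sub_rev]; exact h1.trans_lt hlt)
  have h5 : ‖Z.FF f P‖ ^ Q ≤ ‖W‖ := by
    have := Z.evt_ge E η hg _ (Z.HH_mem E hθE u huE m D P hPE) _ hdeg n hη
    rw [e1, e2, h4] at this
    exact le_of_mul_le_mul_left this hd
  rw [hηQ] at hη
  have h6 : ‖Z.VV u al n P - W‖ < ‖W‖ :=
    calc _ ≤ err ^ Q * ‖Z.θ‖ ^ T := h2
      _ < err ^ Q * Real.exp η ^ Q := mul_lt_mul_of_pos_left (hT.trans_lt hη) (by positivity)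
      _ = (err * Real.exp η) ^ Q := (mul_pow _ _ _).symm
      _ ≤ ‖Z.FF f P‖ ^ Q := by gcongr
      _ ≤ ‖W‖ := h5
  refine ⟨h5.trans_eq (Eval1_eq h6).symm, (first _ le_rfl hlt.le).trans ?_⟩
  rw [mul_pow]
  gcongr

end Sit

end Pool.Agent.MP_655169_nt
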