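import Pool.Agent.MP_655169_nt.SitB

set_option linter.unusedSectionVars false

namespace Pool.Agent.MP_655169_nt

open Polynomial Filter Topology

variable {F C Ω : Type*} [Field F] [Fintype F] [NormedField C] [IsUltrametricDist C]
  [IsAlgClosed C] [Algebra F C] [NormedField Ω] [IsUltrametricDist Ω] [IsAlgClosed Ω]
  [Algebra C Ω] [Algebra F Ω] [IsScalarTower F C Ω] (Z : Sit F C Ω)

theorem Fix_norm (r : Ω) (hr : Z.σ r = r) : r = 0 ∨ ‖r‖ = 1 := by
  by_cases h0 : r = 0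
  · exact Or.inl h0
  right
  have h1 := Z.σ_norm r
  rw [hr] at h1
  have h2 : 2 ≤ qq F := two_le_qq
  obtain ⟨k, hk⟩ : ∃ k, qq F = k + 1 := ⟨qq F - 1, by omega⟩
  rw [hk, pow_succ] at h1
  have h3 : ‖r‖ ^ k = 1 :=
    mul_right_cancel₀ (norm_ne_zero_iff.2 h0) (h1.symm.trans (one_mul _).symm)
  exact (pow_eq_one_iff_of_nonneg (norm_nonneg r) (by omega)).1 h3

theorem Fix_norm_le (r : Ω) (hr : Z.σ r = r) : ‖r‖ ≤ 1 := by
  rcases Fix_norm Z r hr with h | h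
  · rw [h, norm_zero]; exact zero_le_one
  · exact h.le

theorem Fix_zero (r : Ω) (hr : Z.σ r = r) (h : ‖r‖ < 1) : r = 0 :=
  (Fix_norm Z r hr).resolve_right h.ne

theorem Fix_sub_lt {Λ : Type*} [NormedField Λ] [IsUltrametricDist Λ] {x y : Λ} (hx : ‖x‖ < 1)
    (hy : ‖y‖ < 1) : ‖x - y‖ < 1 := by
  rw [sub_eq_add_neg]
  exact (IsUltrametricDist.norm_add_le_max _ _).trans_lt (max_lt hx (by rwa [norm_neg]))

theorem Fix_sub_le {Λ : Type*} [NormedField Λ] [IsUltrametricDist Λ] {x y : Λ} {A : ℝ}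
    (hx : ‖x‖ ≤ A) (hy : ‖y‖ ≤ A) : ‖x - y‖ ≤ A := by
  rw [sub_eq_add_neg]
  exact (IsUltrametricDist.norm_add_le_max _ _).trans (max_le hx (by rwa [norm_neg]))

theorem Fix_pow_le {x : ℝ} (h0 : 0 ≤ x) (h1 : x ≤ 1) : x ^ qq F ≤ x := by
  have h2 : 2 ≤ qq F := two_le_qq
  exact pow_le_of_le_one h0 h1 (by omega)

theorem Fix_tw_coeff (a : C[X]) (j : ℕ) :
    (Z.tw 1 a - a).coeff j = a.coeff j ^ qq F - a.coeff j := by
  rw [coeff_sub, Sit.tw, coe_mapRingHom, coeff_map, pow_one, Z.fr_eq]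

theorem Fix_tw_le (a : C[X]) (j : ℕ) (h : ‖a.coeff j‖ ≤ 1) :
    ‖(Z.tw 1 a - a).coeff j‖ ≤ ‖a.coeff j‖ := by
  rw [Fix_tw_coeff]
  refine Fix_sub_le ?_ le_rfl
  rw [norm_pow]
  exact Fix_pow_le (norm_nonneg _) h

theorem Fix_tw_map (B : F[X]) : Z.tw 1 (B.map (algebraMap F C)) = B.map (algebraMap F C) := by
  ext j
  rw [Sit.tw, coe_mapRingHom, coeff_map, coeff_map, Z.fr_F]

theorem Fix_near (a : C[X]) (h : ∀ j, ‖(Z.tw 1 a - a).coeff j‖ < 1) :
    ∃ a0 : F[X], ∀ j, ‖(a - a0.map (algebraMap F C)).coeff j‖ < 1 := by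
  classical
  have h1 : ∀ j, ∃ f : F, ‖a.coeff j - algebraMap F C f‖ < 1 := fun j =>
    near_F _ (by rw [← Fix_tw_coeff Z]; exact h j)
  choose f hf using h1
  refine ⟨∑ j ∈ a.support, monomial j (f j), fun j => ?_⟩
  rw [coeff_sub, coeff_map, finsetSum_coeff]
  simp only [coeff_monomial, Finset.sum_ite_eq']
  split_ifs with hj
  · exact hf j
  · rw [notMem_support_iff.1 hj, map_zero, sub_zero, norm_zero]
    exact zero_lt_one

theorem Fix_lt (H : C[X]) (h : ∀ j, ‖H.coeff j‖ < 1) : ‖aeval Z.t H‖ < 1 :=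
  let ⟨j, hj⟩ := Z.gauss_ge H; hj.trans_lt (h j)

open Classical in
/-- The positions of the coefficients of norm one. -/
noncomputable def Fix_U (a : C[X]) : Finset ℕ := a.support.filter fun j => ‖a.coeff j‖ = 1

theorem Fix_mem_U (a : C[X]) (j : ℕ) : j ∈ Fix_U a ↔ ‖a.coeff j‖ = 1 := by
  classical
  unfold Fix_U
  rw [Finset.mem_filter, mem_support_iff]
  refine ⟨And.right, fun h => ⟨fun h0 => ?_, h⟩⟩
  rw [h0, norm_zero] at h
  exact zero_ne_one h

theorem Fix_end (r : Ω) (hr : Z.σ r = r) (a b : C[X])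
    (h : ‖r * aeval Z.t b - aeval Z.t a‖ < 1) (j : ℕ) (hj : a.coeff j = 1 ∨ b.coeff j = 1)
    (ha : ∀ j, ‖(Z.tw 1 a - a).coeff j‖ < 1) (hb : ∀ j, ‖(Z.tw 1 b - b).coeff j‖ < 1) :
    ∃ a0 b0 : F[X], b0 ≠ 0 ∧
      r * aeval Z.t (b0.map (algebraMap F C)) = aeval Z.t (a0.map (algebraMap F C)) := by
  obtain ⟨a0, ha0⟩ := Fix_near Z a ha
  obtain ⟨b0, hb0⟩ := Fix_near Z b hb
  have hy : r * aeval Z.t (b0.map (algebraMap F C)) - aeval Z.t (a0.map (algebraMap F C)) = 0 := by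
    refine Fix_zero Z _ ?_ ?_
    · rw [map_sub, map_mul, hr, Z.σ_aeval, Z.σ_aeval, Fix_tw_map, Fix_tw_map]
    · have e : r * aeval Z.t (b0.map (algebraMap F C)) - aeval Z.t (a0.map (algebraMap F C)) =
          (r * aeval Z.t b - aeval Z.t a) - (r * aeval Z.t (b - b0.map (algebraMap F C)) -
            aeval Z.t (a - a0.map (algebraMap F C))) := by
        rw [map_sub, map_sub]; ring
      rw [e]
      refine Fix_sub_lt h (Fix_sub_lt ?_ (Fix_lt Z _ ha0))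
      rw [norm_mul]
      exact mul_lt_one_of_nonneg_of_lt_one_right (Fix_norm_le Z r hr) (norm_nonneg _)
        (Fix_lt Z _ hb0)
  refine ⟨a0, b0, fun h0 => ?_, sub_eq_zero.1 hy⟩
  rw [h0, Polynomial.map_zero, map_zero, mul_zero, zero_sub, neg_eq_zero] at hy
  have h1 : a0.map (algebraMap F C) = 0 := by
    by_contra hn
    exact Z.aeval_ne _ hn hy
  have h2 := ha0 j
  have h3 := hb0 j
  rw [h1, sub_zero] at h2
  rw [h0, Polynomial.map_zero, sub_zero] at h3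
  rcases hj with hj | hj
  · rw [hj, norm_one] at h2; exact lt_irrefl _ h2
  · rw [hj, norm_one] at h3; exact lt_irrefl _ h3

theorem Fix_ind (r : Ω) (hr : Z.σ r = r) (n : ℕ) : ∀ a b : C[X],
    (Fix_U a).card + (Fix_U b).card < n → (∀ j, ‖a.coeff j‖ ≤ 1) → (∀ j, ‖b.coeff j‖ ≤ 1) →
    ‖r * aeval Z.t b - aeval Z.t a‖ < 1 → (∃ j, ‖a.coeff j‖ = 1 ∨ ‖b.coeff j‖ = 1) →
    ∃ a0 b0 : F[X], b0 ≠ 0 ∧
      r * aeval Z.t (b0.map (algebraMap F C)) = aeval Z.t (a0.map (algebraMap F C)) := by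
  induction n with
  | zero => intro a b h; omega
  | succ n ih =>
    intro a b hn ha hb h ⟨j, hj⟩
    obtain ⟨c, hc, hc'⟩ : ∃ c : C, ‖c‖ = 1 ∧ (c * a.coeff j = 1 ∨ c * b.coeff j = 1) := by
      rcases hj with hj | hj
      · exact ⟨(a.coeff j)⁻¹, by rw [norm_inv, hj, inv_one], Or.inl (inv_mul_cancel₀ fun h0 => by
          rw [h0, norm_zero] at hj; exact zero_ne_one hj)⟩
      · exact ⟨(b.coeff j)⁻¹, by rw [norm_inv, hj, inv_one], Or.inr (inv_mul_cancel₀ fun h0 => by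
          rw [h0, norm_zero] at hj; exact zero_ne_one hj)⟩
    have hs : ∀ (H : C[X]) (i : ℕ), ‖(Polynomial.C c * H).coeff i‖ = ‖H.coeff i‖ := fun H i => by
      rw [coeff_C_mul, norm_mul, hc, one_mul]
    have h' : ‖r * aeval Z.t (Polynomial.C c * b) - aeval Z.t (Polynomial.C c * a)‖ < 1 := by
      rw [map_mul, map_mul, aeval_C, mul_left_comm, ← mul_sub, norm_mul, Z.norm_alg, hc, one_mul]
      exact h
    have hle : ∀ H : C[X], (∀ i, ‖H.coeff i‖ ≤ 1) → ∀ i,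
        ‖(Z.tw 1 (Polynomial.C c * H) - Polynomial.C c * H).coeff i‖ ≤ ‖H.coeff i‖ :=
      fun H hH i => (Fix_tw_le Z _ i ((hs H i).trans_le (hH i))).trans_eq (hs H i)
    have hsub : ∀ H : C[X], (∀ i, ‖H.coeff i‖ ≤ 1) →
        Fix_U (Z.tw 1 (Polynomial.C c * H) - Polynomial.C c * H) ⊆ Fix_U H := fun H hH i hi =>
      (Fix_mem_U _ _).2 (le_antisymm (hH i) (((Fix_mem_U _ _).1 hi).symm.trans_le (hle H hH i)))
    have hss : ∀ H : C[X], (∀ i, ‖H.coeff i‖ ≤ 1) → c * H.coeff j = 1 →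
        (Fix_U (Z.tw 1 (Polynomial.C c * H) - Polynomial.C c * H)).card < (Fix_U H).card := by
      intro H hH h1
      refine Finset.card_lt_card ((Finset.ssubset_iff_of_subset (hsub H hH)).2 ⟨j, ?_, ?_⟩)
      · rw [Fix_mem_U, ← hs, coeff_C_mul, h1, norm_one]
      · rw [Fix_mem_U, Fix_tw_coeff, coeff_C_mul, h1, one_pow, sub_self, norm_zero]
        exact zero_ne_one
    by_cases hu : ∃ i, ‖(Z.tw 1 (Polynomial.C c * a) - Polynomial.C c * a).coeff i‖ = 1 ∨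
        ‖(Z.tw 1 (Polynomial.C c * b) - Polynomial.C c * b).coeff i‖ = 1
    · refine ih _ _ ?_ (fun i => (hle a ha i).trans (ha i)) (fun i => (hle b hb i).trans (hb i))
        ?_ hu
      · have h1 := Finset.card_le_card (hsub a ha)
        have h2 := Finset.card_le_card (hsub b hb)
        rcases hc' with h3 | h3
        · have := hss a ha h3; omega
        · have := hss b hb h3; omega
      · have e : r * aeval Z.t (Z.tw 1 (Polynomial.C c * b) - Polynomial.C c * b) -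
            aeval Z.t (Z.tw 1 (Polynomial.C c * a) - Polynomial.C c * a) =
            Z.σ (r * aeval Z.t (Polynomial.C c * b) - aeval Z.t (Polynomial.C c * a)) -
              (r * aeval Z.t (Polynomial.C c * b) - aeval Z.t (Polynomial.C c * a)) := by
          rw [map_sub Z.σ, map_mul Z.σ, hr, Z.σ_aeval, Z.σ_aeval, map_sub, map_sub]; ring
        rw [e]
        refine Fix_sub_lt ?_ h'
        rw [Z.σ_norm]
        exact (Fix_pow_le (norm_nonneg _) h'.le).trans_lt h'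
    · simp only [not_exists, not_or] at hu
      refine Fix_end Z r hr _ _ h' j (by rwa [coeff_C_mul, coeff_C_mul])
        (fun i => lt_of_le_of_ne ((hle a ha i).trans (ha i)) (hu i).1)
        (fun i => lt_of_le_of_ne ((hle b hb i).trans (hb i)) (hu i).2)

theorem Sit.fix (r : Ω) (hr : Z.σ r = r) (a b : C[X])
    (h : ‖r - aeval Z.t a / aeval Z.t b‖ < 1) :
    ∃ a0 b0 : F[X], b0 ≠ 0 ∧
      r * aeval Z.t (b0.map (algebraMap F C)) = aeval Z.t (a0.map (algebraMap F C)) := by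
  by_cases hb : b = 0
  · rw [hb, map_zero, div_zero, sub_zero] at h
    exact ⟨0, 1, one_ne_zero, by rw [Fix_zero Z r hr h]; simp⟩
  obtain ⟨j, hj⟩ := Z.gauss_ge b
  have hb' := Z.aeval_ne b hb
  have h1 : ‖b.coeff j‖ = ‖aeval Z.t b‖ := le_antisymm (Z.gauss_le b j) hj
  have h2 : b.coeff j ≠ 0 := by
    rw [← norm_ne_zero_iff, h1, norm_ne_zero_iff]; exact hb'
  have h3 : ‖aeval Z.t (Polynomial.C (b.coeff j)⁻¹ * b)‖ = 1 := by
    rw [map_mul, aeval_C, norm_mul, Z.norm_alg, norm_inv, h1,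
      inv_mul_cancel₀ (norm_ne_zero_iff.2 hb')]
  have h4 : ‖r * aeval Z.t (Polynomial.C (b.coeff j)⁻¹ * b) -
      aeval Z.t (Polynomial.C (b.coeff j)⁻¹ * a)‖ < 1 := by
    have e : r * aeval Z.t (Polynomial.C (b.coeff j)⁻¹ * b) -
        aeval Z.t (Polynomial.C (b.coeff j)⁻¹ * a) =
        aeval Z.t (Polynomial.C (b.coeff j)⁻¹ * b) * (r - aeval Z.t a / aeval Z.t b) := by
      rw [map_mul, map_mul]; field_simp
    rw [e, norm_mul, h3, one_mul]
    exact h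
  refine Fix_ind Z r hr _ _ _ (Nat.lt_succ_self _) (fun i => (Z.gauss_le _ i).trans ?_)
    (fun i => (Z.gauss_le _ i).trans h3.le) h4
    ⟨j, Or.inr (by rw [coeff_C_mul, inv_mul_cancel₀ h2, norm_one])⟩
  have e : aeval Z.t (Polynomial.C (b.coeff j)⁻¹ * a) =
      r * aeval Z.t (Polynomial.C (b.coeff j)⁻¹ * b) -
        (r * aeval Z.t (Polynomial.C (b.coeff j)⁻¹ * b) -
          aeval Z.t (Polynomial.C (b.coeff j)⁻¹ * a)) := by ring
  rw [e]
  refine Fix_sub_le ?_ h4.le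
  rw [norm_mul, h3, mul_one]
  exact Fix_norm_le Z r hr

end Pool.Agent.MP_655169_nt
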