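import Pool.Agent.MP_655169_nt.Norm1

set_option linter.unusedSectionVars false

namespace Pool.Agent.MP_655169_nt

open Polynomial Filter Topology

variable {F Λ : Type*} [Field F] [Fintype F] [NormedField Λ] [IsUltrametricDist Λ] [Algebra F Λ]

theorem norm_low (c : ℕ → Λ) (A : ℝ) (hA0 : 0 ≤ A) (hA : ∀ j, ‖c j‖ ≤ A) (ξ : Λ) (hξ : 1 ≤ ‖ξ‖)
    (n : ℕ) : ‖∑ j ∈ Finset.range n, c j * ξ ^ j‖ * ‖ξ‖ ≤ A * ‖ξ‖ ^ n := by
  rw [← norm_mul, Finset.sum_mul]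
  refine IsUltrametricDist.norm_sum_le_of_forall_le_of_nonneg (by positivity) fun j hj => ?_
  rw [mul_assoc, ← pow_succ, norm_mul, norm_pow]
  exact mul_le_mul (hA j) (pow_le_pow_right₀ hξ (Finset.mem_range.1 hj)) (by positivity) hA0

theorem norm_poly (θ : Λ) (hθ : 1 < ‖θ‖) (b : F[X]) (hb : b ≠ 0) :
    ‖aeval θ b‖ = ‖θ‖ ^ b.natDegree := by
  have h0 : 0 < ‖θ‖ ^ b.natDegree := by positivity
  have h1 := norm_low (fun j => algebraMap F Λ (b.coeff j)) 1 zero_le_one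
    (fun j => norm_F_le _) θ hθ.le b.natDegree
  have h2 : ‖algebraMap F Λ (b.coeff b.natDegree) * θ ^ b.natDegree‖ = ‖θ‖ ^ b.natDegree := by
    rw [norm_mul, norm_pow, norm_F_eq (b.coeff b.natDegree) (leadingCoeff_ne_zero.2 hb),
      one_mul]
  have h3 : ‖∑ j ∈ Finset.range b.natDegree, algebraMap F Λ (b.coeff j) * θ ^ j‖ <
      ‖θ‖ ^ b.natDegree := by
    by_contra h
    have h4 := mul_le_mul_of_nonneg_right (not_lt.1 h) (norm_nonneg θ)
    nlinarith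
  rw [aeval_eq_sum_range, Finset.sum_range_succ]
  simp only [Algebra.smul_def]
  rw [IsUltrametricDist.norm_add_eq_max_of_norm_ne_norm (by rw [h2]; exact h3.ne), h2,
    max_eq_right h3.le]

theorem liou1 (θ : Λ) (hθ : 1 < ‖θ‖) (b : MvPolynomial (Fin 1) F) (hb : b ≠ 0) :
    1 ≤ ‖MvPolynomial.aeval ![θ] b‖ := by
  have h : (MvPolynomial.aeval ![θ] : MvPolynomial (Fin 1) F →ₐ[F] Λ) =
      (aeval θ : F[X] →ₐ[F] Λ).comp (MvPolynomial.uniqueAlgEquiv F (Fin 1)).toAlgHom := by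
    refine MvPolynomial.algHom_ext fun i => ?_
    have hi : i = 0 := Subsingleton.elim _ _
    subst hi
    simp
  have h1 : MvPolynomial.aeval ![θ] b = aeval θ (MvPolynomial.uniqueAlgEquiv F (Fin 1) b) := by
    rw [h]
    rfl
  rw [h1, norm_poly θ hθ _ ((map_ne_zero_iff _ (AlgEquiv.injective _)).2 hb)]
  exact one_le_pow₀ hθ.le

theorem indep1 (θ : Λ) (hθ : 1 < ‖θ‖) : AlgebraicIndependent F ![θ] := by
  rw [algebraicIndependent_iff]
  intro b hb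
  by_contra h
  have h1 := liou1 θ hθ b h
  rw [hb, norm_zero] at h1
  linarith

theorem root_near [IsAlgClosed Λ] (Φ : Λ[X]) (h : 0 < Φ.natDegree) (y : Λ) :
    ∃ ξ, Φ.eval ξ = 0 ∧ ‖Φ.leadingCoeff‖ * ‖y - ξ‖ ^ Φ.natDegree ≤ ‖Φ.eval y‖ := by
  classical
  have hs := IsAlgClosed.splits Φ
  have hc := hs.natDegree_eq_card_roots
  have hne : Φ.roots.toFinset.Nonempty := by
    rw [Multiset.toFinset_nonempty, ← Multiset.card_pos]
    omega
  obtain ⟨ξ, hξ, hmin⟩ := Finset.exists_min_image Φ.roots.toFinset (fun a => ‖y - a‖) hne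
  refine ⟨ξ, isRoot_of_mem_roots (Multiset.mem_toFinset.1 hξ), ?_⟩
  rw [hs.eval_eq_prod_roots, norm_mul, hc]
  refine mul_le_mul_of_nonneg_left ?_ (norm_nonneg _)
  have key : ∀ s : Multiset Λ, (∀ a ∈ s, ‖y - ξ‖ ≤ ‖y - a‖) →
      ‖y - ξ‖ ^ s.card ≤ ‖(s.map (y - ·)).prod‖ := by
    intro s
    induction s using Multiset.induction_on with
    | empty => simp
    | cons a s ih =>
      intro hs
      rw [Multiset.map_cons, Multiset.prod_cons, Multiset.card_cons, norm_mul, pow_succ']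
      exact mul_le_mul (hs a (Multiset.mem_cons_self _ _))
        (ih fun b hb => hs b (Multiset.mem_cons_of_mem hb)) (by positivity) (norm_nonneg _)
  exact key _ fun a ha => hmin a (Multiset.mem_toFinset.2 ha)

theorem root_le (Φ : Λ[X]) (A : ℝ) (hA1 : 1 ≤ A) (hA : ∀ j, ‖Φ.coeff j‖ ≤ A)
    (hl : 1 ≤ ‖Φ.leadingCoeff‖) (ξ : Λ) (h : Φ.eval ξ = 0) : ‖ξ‖ ≤ A := by
  by_contra hlt
  have h0 : A < ‖ξ‖ := not_le.1 hlt
  have h1 := norm_low Φ.coeff A (by linarith) hA ξ (by linarith) Φ.natDegree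
  rw [eval_eq_sum_range, Finset.sum_range_succ, add_eq_zero_iff_eq_neg] at h
  rw [h, norm_neg, norm_mul, norm_pow] at h1
  have h2 : 0 < ‖ξ‖ ^ Φ.natDegree := pow_pos (by linarith) _
  have h3 : ‖ξ‖ ^ Φ.natDegree * ‖ξ‖ ≤
      ‖Φ.coeff Φ.natDegree‖ * ‖ξ‖ ^ Φ.natDegree * ‖ξ‖ := by
    rw [mul_assoc]
    exact le_mul_of_one_le_left (by positivity) hl
  nlinarith

theorem norm_step {κ : Type*} (z : κ → Λ) (M : ℝ) (hM : 1 ≤ M) (hz : ∀ k, ‖z k‖ ≤ M) (d₁ d₂ : ℕ)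
    (η : Λ) (h : Alg F z d₁ d₂ η) (h0 : η ≠ 0) (h1 : ‖η‖ ≤ 1) :
    ∃ b : MvPolynomial κ F, b ≠ 0 ∧ b.totalDegree ≤ d₂ ∧
      ‖MvPolynomial.aeval z b‖ ≤ M ^ d₂ * ‖η‖ := by
  classical
  obtain ⟨Φ, -, hd, hl, hΦ⟩ := h
  have hex : ∃ j, MvPolynomial.aeval z (Φ.coeff j) ≠ 0 := ⟨Φ.natDegree, hl⟩
  have hj := Nat.find_spec hex
  have hjn : Nat.find hex ≤ Φ.natDegree := Nat.find_min' hex hl
  set j := Nat.find hex with hjdef
  refine ⟨Φ.coeff j, fun hb => hj (by rw [hb, map_zero]), hd j, ?_⟩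
  have hη : 0 < ‖η‖ := norm_pos_iff.2 h0
  rw [eval₂_eq_sum_range, ← Finset.add_sum_erase _ _ (Finset.mem_range.2 (Nat.lt_succ_of_le hjn)),
    add_eq_zero_iff_eq_neg] at hΦ
  have h2 : ‖MvPolynomial.aeval z (Φ.coeff j) * η ^ j‖ ≤ M ^ d₂ * ‖η‖ * ‖η‖ ^ j := by
    refine (congrArg norm hΦ).trans_le ?_
    rw [norm_neg]
    refine IsUltrametricDist.norm_sum_le_of_forall_le_of_nonneg (by positivity) fun i hi => ?_
    change ‖MvPolynomial.aeval z (Φ.coeff i) * η ^ i‖ ≤ _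
    rcases lt_or_gt_of_ne (Finset.mem_erase.1 hi).1 with h3 | h3
    · rw [not_not.1 (Nat.find_min hex h3), zero_mul, norm_zero]
      positivity
    · rw [norm_mul, norm_pow, mul_assoc, ← pow_succ']
      exact mul_le_mul (norm_aeval_le z M hM hz _ _ (hd i))
        (pow_le_pow_of_le_one hη.le h1 h3) (by positivity) (by positivity)
  rw [norm_mul, norm_pow] at h2
  exact le_of_mul_le_mul_right h2 (pow_pos hη j)

end Pool.Agent.MP_655169_nt
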