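import Pool.Agent.MP_655169_nt.Elim
import Pool.Agent.MP_655169_nt.Norm

set_option linter.unusedSectionVars false

namespace Pool.Agent.MP_655169_nt

open Polynomial Filter Topology

variable {F Λ : Type*} [Field F] [Fintype F] [NormedField Λ] [IsUltrametricDist Λ] [Algebra F Λ]

theorem gc_unit (z : Fin 2 → Λ) (u : MvPolynomial (Fin 2) F) (hu : IsUnit u) :
    u.totalDegree = 0 ∧ ‖MvPolynomial.aeval z u‖ = 1 := by
  obtain ⟨r, hr, rfl⟩ := MvPolynomial.isUnit_iff_eq_C_of_isReduced.1 hu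
  refine ⟨MvPolynomial.totalDegree_C r, ?_⟩
  rw [MvPolynomial.aeval_C]
  exact norm_F_eq r hr.ne_zero

theorem gc_fac (z : Fin 2 → Λ) (ρ : ℝ) (R : MvPolynomial (Fin 2) F) : R ≠ 0 →
    (∀ p, Irreducible p → p ∣ R →
      Real.exp (-(p.totalDegree * ρ)) ≤ ‖MvPolynomial.aeval z p‖) →
    Real.exp (-(R.totalDegree * ρ)) ≤ ‖MvPolynomial.aeval z R‖ := by
  induction R using WfDvdMonoid.induction_on_irreducible with
  | zero => exact fun h => absurd rfl h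
  | unit u hu =>
    intro _ _
    obtain ⟨h1, h2⟩ := gc_unit z u hu
    simp [h1, h2]
  | mul b p hb hp ih =>
    intro _ h
    have h1 := ih hb fun p' hp' hd => h p' hp' (hd.mul_left _)
    have h2 := h p hp (dvd_mul_right _ _)
    rw [MvPolynomial.totalDegree_mul_of_isDomain hp.ne_zero hb, map_mul, norm_mul, Nat.cast_add,
      add_mul, neg_add, Real.exp_add]
    exact mul_le_mul h2 h1 (Real.exp_pos _).le (norm_nonneg _)

theorem gc_deg {p : MvPolynomial (Fin 2) F} (hp : Irreducible p) : 1 ≤ p.totalDegree := by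
  rw [Nat.one_le_iff_ne_zero]
  intro h
  rw [MvPolynomial.totalDegree_eq_zero_iff_eq_C] at h
  refine hp.not_isUnit (MvPolynomial.isUnit_iff_eq_C_of_isReduced.2 ⟨_, ?_, h⟩)
  rw [isUnit_iff_ne_zero]
  intro h0
  rw [h0, map_zero] at h
  exact hp.ne_zero h

theorem gc_small (z : Fin 2 → Λ) (L ρ : ℝ) (hL : 0 ≤ L) (hz : ∀ k, ‖z k‖ ≤ Real.exp L)
    (A p : MvPolynomial (Fin 2) F) (d : ℕ) (hA : A.totalDegree ≤ 3 * (p.totalDegree * d))
    (hp : Irreducible p) (h1 : ‖MvPolynomial.aeval z p‖ ≤ Real.exp (-(p.totalDegree * ρ)))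
    (h2 : 3 * (d * L) < ρ) : ‖MvPolynomial.aeval z (A * p)‖ < 1 := by
  have h3 := norm_aeval_le z (Real.exp L) (Real.one_le_exp hL) hz A _ hA
  have h4 : (1 : ℝ) ≤ p.totalDegree := by exact_mod_cast gc_deg hp
  rw [map_mul, norm_mul]
  refine (mul_le_mul h3 h1 (norm_nonneg _) (by positivity)).trans_lt ?_
  rw [← Real.exp_nat_mul, ← Real.exp_add, Real.exp_lt_one_iff]
  push_cast
  nlinarith

theorem gc_step (θ x : Λ) (hθ : 1 < ‖θ‖) (L ρ : ℝ) (hL : 0 ≤ L)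
    (hz : ∀ k, ‖![θ, x] k‖ ≤ Real.exp L) (p p' : MvPolynomial (Fin 2) F) (hp : Irreducible p)
    (hp' : Irreducible p')
    (h1 : ‖MvPolynomial.aeval ![θ, x] p‖ ≤ Real.exp (-(p.totalDegree * ρ)))
    (h1' : ‖MvPolynomial.aeval ![θ, x] p'‖ ≤ Real.exp (-(p'.totalDegree * ρ)))
    (h2 : 3 * (p.totalDegree * L) < ρ) (h2' : 3 * (p'.totalDegree * L) < ρ) :
    ‖MvPolynomial.aeval ![θ, x] p'‖ = ‖MvPolynomial.aeval ![θ, x] p‖ := by
  rcases hp.dvd_or_isRelPrime (n := p') with hd | hr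
  · obtain ⟨u, rfl⟩ := hp.associated_of_dvd hp' hd
    rw [map_mul, norm_mul, (gc_unit _ _ u.isUnit).2, mul_one]
  · exfalso
    obtain ⟨A, B, r, hr0, hA, hB, e⟩ := elim p p' hp.ne_zero hp'.ne_zero hr
    have e1 := gc_small _ L ρ hL hz A p _ hA hp h1 h2'
    have e2 := gc_small _ L ρ hL hz B p' _ (by rwa [mul_comm p'.totalDegree]) hp' h1' h2
    have e3 : MvPolynomial.aeval ![θ, x] (A * p) + MvPolynomial.aeval ![θ, x] (B * p') =
        aeval θ r := by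
      rw [← map_add, e, ← aeval_algHom_apply]
      simp
    have e4 := IsUltrametricDist.norm_add_le_max (MvPolynomial.aeval ![θ, x] (A * p))
      (MvPolynomial.aeval ![θ, x] (B * p'))
    rw [e3, norm_poly θ hθ r hr0] at e4
    exact absurd ((one_le_pow₀ hθ.le).trans e4) (not_le.2 (max_lt e1 e2))

/-- Gel'fond's criterion over `F[θ]`. -/
theorem gc (θ x : Λ) (hθ : 1 < ‖θ‖) (h : AlgebraicIndependent F ![θ, x]) (a : ℝ) (ha : 0 < a) :
    ¬ ∀ᶠ j : ℕ in atTop, ∃ R : MvPolynomial (Fin 2) F, R ≠ 0 ∧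
      (R.totalDegree : ℝ) ≤ a * (j : ℝ) ^ 8 ∧
      ‖MvPolynomial.aeval ![θ, x] R‖ ≤ Real.exp (-((j : ℝ) ^ 17 / a)) := by
  intro hev
  obtain ⟨L, hL, hz⟩ : ∃ L : ℝ, 0 ≤ L ∧ ∀ k, ‖![θ, x] k‖ ≤ Real.exp L := by
    refine ⟨‖θ‖ + ‖x‖, by positivity, fun k => ?_⟩
    have h1 := Real.add_one_le_exp (‖θ‖ + ‖x‖)
    have h2 := norm_nonneg θ
    have h3 := norm_nonneg x
    fin_cases k <;> simp <;> linarith
  have hev2 : ∀ᶠ j : ℕ in atTop, 1536 * a ^ 3 * L + 1 ≤ (j : ℝ) :=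
    tendsto_natCast_atTop_atTop.eventually_ge_atTop _
  obtain ⟨j0, hj0⟩ := eventually_atTop.1 (hev.and hev2)
  have hj1 : ∀ j, j0 ≤ j → (1 : ℝ) ≤ j := fun j hj => by
    have := (hj0 j hj).2
    have : 0 ≤ 1536 * a ^ 3 * L := by positivity
    linarith
  have key : ∀ j, j0 ≤ j → ∃ p : MvPolynomial (Fin 2) F, Irreducible p ∧
      (p.totalDegree : ℝ) ≤ a * (j : ℝ) ^ 8 ∧ ‖MvPolynomial.aeval ![θ, x] p‖ ≤
        Real.exp (-(p.totalDegree * ((j : ℝ) ^ 9 / (2 * a ^ 2)))) := by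
    intro j hj
    obtain ⟨R, hR, hd, hn⟩ := (hj0 j hj).1
    by_contra hc
    push Not at hc
    have h1 := gc_fac ![θ, x] ((j : ℝ) ^ 9 / (2 * a ^ 2)) R hR fun p hp hpd =>
      (hc p hp (le_trans (by
        exact_mod_cast MvPolynomial.totalDegree_le_of_dvd_of_isDomain hpd hR) hd)).le
    have h2 := Real.exp_le_exp.1 (h1.trans hn)
    have h3 := hj1 j hj
    have h4 : (R.totalDegree : ℝ) * ((j : ℝ) ^ 9 / (2 * a ^ 2)) ≤
        a * (j : ℝ) ^ 8 * ((j : ℝ) ^ 9 / (2 * a ^ 2)) :=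
      mul_le_mul_of_nonneg_right hd (by positivity)
    have h5 : a * (j : ℝ) ^ 8 * ((j : ℝ) ^ 9 / (2 * a ^ 2)) = (j : ℝ) ^ 17 / a / 2 := by
      field_simp
    have h6 : 0 < (j : ℝ) ^ 17 / a := by positivity
    linarith
  choose! p hp hd hn using key
  have hconst : ∀ j, j0 ≤ j →
      ‖MvPolynomial.aeval ![θ, x] (p j)‖ = ‖MvPolynomial.aeval ![θ, x] (p j0)‖ := by
    intro j hj
    induction j, hj using Nat.le_induction with
    | base => rfl
    | succ j hj ih =>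
      rw [← ih]
      have h3 := hj1 j hj
      have h4 := (hj0 j hj).2
      have h5 : ((j + 1 : ℕ) : ℝ) ^ 8 ≤ 256 * (j : ℝ) ^ 8 := by
        have : ((j + 1 : ℕ) : ℝ) ≤ 2 * j := by push_cast; linarith
        calc ((j + 1 : ℕ) : ℝ) ^ 8 ≤ (2 * j) ^ 8 := by gcongr
          _ = 256 * (j : ℝ) ^ 8 := by ring
      have h6 : ∀ d : ℝ, d ≤ a * (256 * (j : ℝ) ^ 8) →
          3 * (d * L) < (j : ℝ) ^ 9 / (2 * a ^ 2) := fun d hd => by
        rw [lt_div_iff₀ (by positivity)]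
        have e1 : 3 * (d * L) * (2 * a ^ 2) ≤ 3 * (a * (256 * (j : ℝ) ^ 8) * L) * (2 * a ^ 2) := by
          gcongr
        have e2 : 0 < (j : ℝ) ^ 8 := by positivity
        nlinarith
      have hj' : j0 ≤ j + 1 := by omega
      refine gc_step θ x hθ L ((j : ℝ) ^ 9 / (2 * a ^ 2)) hL hz _ _ (hp j hj) (hp _ hj') (hn j hj)
        ((hn _ hj').trans ?_) (h6 _ ((hd j hj).trans ?_)) (h6 _ ((hd _ hj').trans ?_))
      · gcongr
        linarith
      · have e2 : 0 < (j : ℝ) ^ 8 := by positivity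
        nlinarith
      · gcongr
  have h0 : 0 < ‖MvPolynomial.aeval ![θ, x] (p j0)‖ := by
    rw [norm_pos_iff]
    intro h0
    exact (hp j0 le_rfl).ne_zero ((algebraicIndependent_iff.1 h) _ h0)
  have hlim : Tendsto (fun j : ℕ => Real.exp (-((j : ℝ) / (2 * a ^ 2)))) atTop (𝓝 0) :=
    Real.tendsto_exp_neg_atTop_nhds_zero.comp
      (tendsto_natCast_atTop_atTop.atTop_div_const (by positivity))
  obtain ⟨j, hj, hj'⟩ := ((hlim.eventually_lt_const h0).and (eventually_ge_atTop j0)).exists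
  refine absurd ((hconst j hj').symm.le.trans ((hn j hj').trans ?_)) (not_le.2 hj)
  have h3 := hj1 j hj'
  have h4 : (1 : ℝ) ≤ (p j).totalDegree := by exact_mod_cast gc_deg (hp j hj')
  have h5 : (j : ℝ) / (2 * a ^ 2) ≤ (j : ℝ) ^ 9 / (2 * a ^ 2) := by
    gcongr
    exact le_self_pow₀ h3 (by norm_num)
  have h6 : 0 ≤ (j : ℝ) ^ 9 / (2 * a ^ 2) := by positivity
  rw [Real.exp_le_exp]
  nlinarith

end Pool.Agent.MP_655169_nt
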