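import Mathlib

open scoped IntermediateField

namespace Pool.Agent.MP_655169_nt

/-- If `K(T)` has transcendence degree at least `n` and every element of `T` is a member of the
family `y` of length `n`, or algebraic over `K`, or a product of an element algebraic over `K`
and a member of `y`, then `y` is algebraically independent. -/
theorem algInd_of_trdeg {K E : Type*} [Field K] [Field E] [Algebra K E] (n : ℕ) (T : Set E)
    (y : Fin n → E) (hy : ∀ i, y i ∈ IntermediateField.adjoin K T)
    (hT : ∀ t ∈ T, IsAlgebraic K t ∨ ∃ (b : E) (i : Fin n), IsAlgebraic K b ∧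
      b ∈ IntermediateField.adjoin K T ∧ t = b * y i)
    (hn : (n : Cardinal) ≤ Algebra.trdeg K (IntermediateField.adjoin K T)) :
    AlgebraicIndependent K y := by
  set L := IntermediateField.adjoin K T with hL
  let z : Fin n → L := fun i => ⟨y i, hy i⟩
  set S := Algebra.adjoin K (Set.range z) with hS
  have hK : ∀ (b : E) (hb : b ∈ L), IsAlgebraic K b → IsAlgebraic S (⟨b, hb⟩ : L) := by
    intro b hb h
    have h1 : IsAlgebraic K (⟨b, hb⟩ : L) :=
      (isAlgebraic_algHom_iff L.val L.val.injective).mp h
    exact h1.extendScalars (algebraMap K S).injective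
  have hz : ∀ i, IsAlgebraic S (z i) := fun i =>
    isAlgebraic_algebraMap (⟨z i, Algebra.subset_adjoin ⟨i, rfl⟩⟩ : S)
  have halg : ∀ (a : E) (ha : a ∈ L), IsAlgebraic S (⟨a, ha⟩ : L) := by
    intro a ha
    induction ha using IntermediateField.adjoin_induction with
    | mem x hx =>
      rcases hT x hx with h | ⟨b, i, hb, hbL, rfl⟩
      · exact hK _ _ h
      · exact (hK b hbL hb).mul (hz i)
    | algebraMap x => exact hK _ _ (isAlgebraic_algebraMap x)
    | add x y hx hy h1 h2 => exact h1.add h2
    | inv x hx h => exact h.inv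
    | mul x y hx hy h1 h2 => exact h1.mul h2
  have : Algebra.IsAlgebraic S L := ⟨fun a => halg a.1 a.2⟩
  have hb : IsTranscendenceBasis K z :=
    Algebra.IsAlgebraic.isTranscendenceBasis_of_lift_le_trdeg_of_finite K z (by simpa using hn)
  exact hb.1.map' (f := L.val) L.val.injective

end Pool.Agent.MP_655169_nt
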