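import Pool.Agent.MP_655169_nt.Bridge

open scoped IntermediateField

namespace Pool.Agent.MP_655169_nt

/-- The analogue of Gel'fond's conjecture, a consequence of the two-variable statement. -/
theorem gelfond {F E : Type*} [Field F] [Fintype F] [NormedField E] [IsUltrametricDist E]
    [CompleteSpace E] [Algebra F E] (θ : E) (hθ : 1 < ‖θ‖) (l β : E) (hl : l ≠ 0)
    (hα : IsAlgebraic F⟮θ⟯ (carlitzExp (Fintype.card F) θ l)) (hβ : IsAlgebraic F⟮θ⟯ β)
    (hβK : β ∉ F⟮θ⟯) :
    AlgebraicIndependent F⟮θ⟯ ![l, carlitzExp (Fintype.card F) θ (β * l)] := by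
  have h : LinearIndependent F⟮θ⟯ ![l, β * l] := by
    rw [LinearIndependent.pair_iff]
    intro a b hab
    have hab' : (a : E) + (b : E) * β = 0 := by
      have : ((a : E) + (b : E) * β) * l = 0 := by
        rw [← hab, add_mul, mul_assoc]
        rfl
      exact (mul_eq_zero.1 this).resolve_right hl
    by_cases hb : b = 0
    · rw [hb] at hab'
      exact ⟨Subtype.ext (by simpa using hab'), hb⟩
    · exfalso
      apply hβK
      have hb' : (b : E) ≠ 0 := fun h => hb (Subtype.ext h)
      have : β = -(a : E) / b := by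
        field_simp
        linear_combination hab'
      rw [this]
      exact div_mem (neg_mem a.2) b.2
  obtain ⟨i, j, hij⟩ := bridge θ hθ ![l, β * l] h
  let K := algebraicClosure F⟮θ⟯ E
  set γ := carlitzExp (Fintype.card F) θ (β * l) with hγ
  let A := Algebra.adjoin K ({l, γ} : Set E)
  have hlA : l ∈ A := Algebra.subset_adjoin (by simp)
  have hγA : γ ∈ A := Algebra.subset_adjoin (by simp)
  have hm : ∀ k : Fin 2 ⊕ Fin 2,
      Sum.elim ![l, β * l] (fun k => carlitzExp (qq F) θ (![l, β * l] k)) k ∈ A := by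
    intro k
    rcases k with k | k <;> fin_cases k
    · exact hlA
    · exact A.mul_mem (A.algebraMap_mem ⟨_, mem_algebraicClosure_iff.2 hβ⟩) hlA
    · exact A.algebraMap_mem ⟨_, mem_algebraicClosure_iff.2 hα⟩
    · exact hγA
  have h2 : AlgebraicIndependent K (![⟨_, hm i⟩, ⟨_, hm j⟩] : Fin 2 → A) := by
    refine AlgebraicIndependent.of_comp A.val ?_
    convert hij.algebraicClosure using 1
    funext k
    fin_cases k <;> rfl
  let z : Fin 2 → A := ![⟨l, hlA⟩, ⟨γ, hγA⟩]
  have hz : Algebra.adjoin K (Set.range z) = ⊤ := by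
    rw [← Algebra.adjoin_adjoin_coe_preimage]
    congr 1
    ext w
    simp [z, Subtype.ext_iff, or_comm]
  have : Algebra.IsAlgebraic (Algebra.adjoin K (Set.range z)) A :=
    ⟨fun w => isAlgebraic_algebraMap (⟨w, hz ▸ trivial⟩ : Algebra.adjoin K (Set.range z))⟩
  have h3 : AlgebraicIndependent K ![l, γ] := by
    have := (Algebra.IsAlgebraic.isTranscendenceBasis_of_lift_le_trdeg_of_finite K z
      h2.lift_cardinalMk_le_trdeg).1.map' (f := A.val) Subtype.val_injective
    convert this using 1
    funext k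
    fin_cases k <;> rfl
  exact h3.restrictScalars (algebraMap F⟮θ⟯ K).injective

end Pool.Agent.MP_655169_nt
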