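import Pool.Agent.MP_655169_nt.VsL

set_option linter.unusedSectionVars false

namespace Pool.Agent.MP_655169_nt

open Polynomial Filter Topology

variable {F Λ : Type*} [Field F] [Field Λ] [Algebra F Λ] {κ : Type*}

theorem Grow_of_range {κ' : Type*} [Finite κ] {y : κ → Λ} {z : κ' → Λ} (hz : ∀ k, ∃ j, z k = y j)
    {c r : ℕ} (h : Grow F y c r) : Grow F z c r := by
  intro M
  refine (Submodule.finrank_mono fun η hη => ?_).trans (h M)
  obtain ⟨G, hG, rfl⟩ := (mem_Vs z M η).1 hη
  have := Vs_aeval y z 1 (fun k => by obtain ⟨j, hj⟩ := hz k; rw [hj]; exact Vs_var y j) G M hG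
  rwa [one_mul] at this

theorem grow_base [Fintype κ] (y : κ → Λ) : Grow F y 1 (Fintype.card κ) := by
  classical
  intro M
  have h1 : Vs F y M ≤
      Submodule.span F (Set.range fun e : κ → Fin (M + 1) => ∏ k, y k ^ (e k : ℕ)) := by
    intro η hη
    obtain ⟨G, hG, rfl⟩ := (mem_Vs y M η).1 hη
    rw [MvPolynomial.aeval_def, MvPolynomial.eval₂_eq']
    refine Submodule.sum_mem _ fun e he => ?_
    rw [← Algebra.smul_def]
    refine Submodule.smul_mem _ _ (Submodule.subset_span ⟨fun k => ⟨e k, ?_⟩, rfl⟩)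
    exact Nat.lt_succ_of_le (((MvPolynomial.monomial_le_degreeOf k he).trans
      (MvPolynomial.degreeOf_le_totalDegree G k)).trans hG)
  have : Module.Finite F (Submodule.span F
      (Set.range fun e : κ → Fin (M + 1) => ∏ k, y k ^ (e k : ℕ))) :=
    Module.Finite.span_of_finite F (Set.finite_range _)
  refine (Submodule.finrank_mono h1).trans ((finrank_range_le_card _).trans ?_)
  simp

variable (F) in
/-- Combinations of the first `n` powers of `w` with coefficients of degree at most `N`. -/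
def GrowU (y : κ → Λ) (w : Λ) (n N : ℕ) : Submodule F Λ :=
  Submodule.span F {x | ∃ i < n, ∃ a ∈ Vs F y N, x = a * w ^ i}

theorem GrowU_gen {y : κ → Λ} {w : Λ} {n N i : ℕ} (hi : i < n) {a : Λ} (ha : a ∈ Vs F y N) :
    a * w ^ i ∈ GrowU F y w n N :=
  Submodule.subset_span ⟨i, hi, a, ha, rfl⟩

theorem GrowU_mul {y : κ → Λ} {w : Λ} {n N N' : ℕ} {t : Λ}
    (h : ∀ i < n, ∀ a ∈ Vs F y N, t * (a * w ^ i) ∈ GrowU F y w n N') {x : Λ}
    (hx : x ∈ GrowU F y w n N) : t * x ∈ GrowU F y w n N' := by
  have : GrowU F y w n N ≤ (GrowU F y w n N').comap (LinearMap.mulLeft F t) :=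
    Submodule.span_le.2 (by rintro _ ⟨i, hi, a, ha, rfl⟩; exact h i hi a ha)
  exact this hx

theorem GrowU_vs {y : κ → Λ} {w : Λ} {n N S N' : ℕ} {t x : Λ} (ht : t ∈ Vs F y S)
    (hx : x ∈ GrowU F y w n N) (hN : S + N ≤ N') : t * x ∈ GrowU F y w n N' :=
  GrowU_mul (fun i hi a ha => by
    rw [← mul_assoc]; exact GrowU_gen hi (Vs_mono y hN (Vs_mul y ht ha))) hx

theorem GrowU_le [Finite κ] (y : κ → Λ) (w : Λ) (n N : ℕ) :
    Module.Finite F (GrowU F y w n N) ∧
      Module.finrank F (GrowU F y w n N) ≤ n * Module.finrank F (Vs F y N) := by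
  classical
  let φ : (Fin n → Vs F y N) →ₗ[F] Λ :=
    ∑ i : Fin n, (LinearMap.mulRight F (w ^ (i : ℕ))) ∘ₗ (Vs F y N).subtype ∘ₗ LinearMap.proj i
  have h1 : GrowU F y w n N ≤ LinearMap.range φ := by
    refine Submodule.span_le.2 ?_
    rintro _ ⟨i, hi, a, ha, rfl⟩
    refine ⟨Pi.single ⟨i, hi⟩ ⟨a, ha⟩, ?_⟩
    simp only [φ, LinearMap.sum_apply, LinearMap.comp_apply, LinearMap.proj_apply,
      Submodule.subtype_apply, LinearMap.mulRight_apply]
    rw [Finset.sum_eq_single (⟨i, hi⟩ : Fin n)]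
    · rw [Pi.single_eq_same]
    · intro j _ hj
      rw [Pi.single_eq_of_ne hj]
      simp
    · simp
  refine ⟨Submodule.finiteDimensional_of_le h1, (Submodule.finrank_mono h1).trans
    ((LinearMap.finrank_range_le φ).trans ?_)⟩
  rw [Module.finrank_pi_fintype]
  simp

theorem grow_step [Fintype κ] (y : κ → Λ) (c r d : ℕ) (w : Λ) (h : Grow F y c r)
    (hw : Alg F y d d w) : Grow F (fun o : Option κ => o.elim w y) (c * (d + 1) ^ (r + 1)) r := by
  classical
  obtain ⟨Φ, h1, h2, h3, h4⟩ := hw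
  set l := MvPolynomial.aeval y Φ.leadingCoeff with hl
  set n := Φ.natDegree with hn
  have hc : ∀ j, MvPolynomial.aeval y (Φ.coeff j) ∈ Vs F y d := fun j =>
    (mem_Vs y d _).2 ⟨_, h2 j, rfl⟩
  have hlv : l ∈ Vs F y d := hc n
  have rel : ∑ i ∈ Finset.range n, MvPolynomial.aeval y (Φ.coeff i) * w ^ i + l * w ^ n = 0 := by
    rw [eval₂_eq_sum_range, Finset.sum_range_succ] at h4
    exact h4
  have n0 : 0 < n := Nat.pos_of_ne_zero fun e => by
    rw [e] at rel
    exact h3 (by simpa using rel)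
  have s1 : ∀ (o : Option κ) (N : ℕ), ∀ x ∈ GrowU F y w n N,
      l * o.elim w y * x ∈ GrowU F y w n (N + (d + 1)) := by
    rintro (_ | k) N x hx
    · refine GrowU_mul (fun i hi a ha => ?_) hx
      rcases (Nat.succ_le_of_lt hi).eq_or_lt with e | e
      · have e2 : l * w * (a * w ^ i) =
            -∑ j ∈ Finset.range n, (a * MvPolynomial.aeval y (Φ.coeff j)) * w ^ j := by
          have e3 : w ^ n = w ^ i * w := by rw [← e, pow_succ]
          simp only [mul_assoc a, ← Finset.mul_sum]
          rw [e3] at rel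
          linear_combination a * rel
        show l * w * (a * w ^ i) ∈ _
        rw [e2]
        exact Submodule.neg_mem _ (Submodule.sum_mem _ fun j hj => GrowU_gen
          (Finset.mem_range.1 hj) (Vs_mono y (by omega) (Vs_mul y ha (hc j))))
      · show l * w * (a * w ^ i) ∈ _
        rw [show l * w * (a * w ^ i) = (a * l) * w ^ (i + 1) by ring]
        exact GrowU_gen e (Vs_mono y (by omega) (Vs_mul y ha hlv))
    · exact GrowU_vs (Vs_mul y hlv (Vs_var y k)) hx (by omega)
  have s2 : ∀ (e : Option κ →₀ ℕ) (N : ℕ), ∀ x ∈ GrowU F y w n N,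
      l ^ e.degree * (∏ o, o.elim w y ^ e o) * x ∈ GrowU F y w n (N + (d + 1) * e.degree) := by
    intro e
    induction e using Finsupp.induction_linear with
    | zero => intro N x hx; simpa using hx
    | add e₁ e₂ ih₁ ih₂ =>
      intro N x hx
      have := ih₁ _ _ (ih₂ N x hx)
      simp only [map_add, Finsupp.add_apply, pow_add, Finset.prod_mul_distrib]
      rw [show N + (d + 1) * (e₁.degree + e₂.degree) =
        N + (d + 1) * e₂.degree + (d + 1) * e₁.degree by ring]
      refine (congrArg (· ∈ _) ?_).mp this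
      ring
    | single o k =>
      have e1 : ∏ o', o'.elim w y ^ (Finsupp.single o k) o' = o.elim w y ^ k := by
        rw [Finset.prod_eq_single o]
        · rw [Finsupp.single_eq_same]
        · intro j _ hj
          rw [Finsupp.single_eq_of_ne hj, pow_zero]
        · simp
      rw [e1, Finsupp.degree_single]
      clear e1
      induction k with
      | zero => intro N x hx; simpa using hx
      | succ k ih =>
        intro N x hx
        have := s1 o _ _ (ih N x hx)
        rw [show N + (d + 1) * (k + 1) = N + (d + 1) * k + (d + 1) by ring]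
        refine (congrArg (· ∈ _) ?_).mp this
        ring
  intro M
  have s3 : ∀ η ∈ Vs F (fun o : Option κ => o.elim w y) M,
      LinearMap.mulLeft F (l ^ M) η ∈ GrowU F y w n ((d + 1) * M) := by
    intro η hη
    obtain ⟨G, hG, rfl⟩ := (mem_Vs _ M η).1 hη
    rw [MvPolynomial.aeval_def, MvPolynomial.eval₂_eq', map_sum]
    refine Submodule.sum_mem _ fun e he => ?_
    rw [← Algebra.smul_def, map_smul]
    refine Submodule.smul_mem _ _ ?_
    have hd : e.degree ≤ M := (MvPolynomial.le_totalDegree he).trans hG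
    obtain ⟨m, rfl⟩ := Nat.exists_eq_add_of_le hd
    have a1 : l ^ m * w ^ 0 ∈ GrowU F y w n ((d + 1) * m) :=
      GrowU_gen n0 (Vs_mono y (by nlinarith) (Vs_pow y hlv m))
    have a2 := s2 e _ _ a1
    rw [show (d + 1) * (e.degree + m) = (d + 1) * m + (d + 1) * e.degree by ring,
      LinearMap.mulLeft_apply]
    refine (congrArg (· ∈ _) ?_).mp a2
    ring
  obtain ⟨f1, f2⟩ := GrowU_le (F := F) y w n ((d + 1) * M)
  have s4 := LinearMap.finrank_le_finrank_of_injective
    (f := (LinearMap.mulLeft F (l ^ M)).restrict s3) fun a b hab =>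
      Subtype.ext (mul_left_cancel₀ (pow_ne_zero M h3) (congrArg Subtype.val hab))
  refine s4.trans (f2.trans ?_)
  calc n * Module.finrank F (Vs F y ((d + 1) * M))
      ≤ (d + 1) * (c * ((d + 1) * (M + 1)) ^ r) :=
        Nat.mul_le_mul (by omega) ((h _).trans (Nat.mul_le_mul_left c
          (Nat.pow_le_pow_left (by nlinarith) r)))
    _ = c * (d + 1) ^ (r + 1) * (M + 1) ^ r := by rw [mul_pow]; ring

theorem grow_tower [Fintype κ] {ι : Type*} [Fintype ι] (z : κ → Λ) (y : ι → Λ) (c r d : ℕ)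
    (h : Grow F z c r) (hy : ∀ i, Alg F z d d (y i)) :
    Grow F (Sum.elim z y) (c * (d + 1) ^ ((r + 1) * Fintype.card ι)) r := by
  classical
  have key : ∀ s : Finset ι,
      Grow F (Sum.elim z fun i : s => y i) (c * (d + 1) ^ ((r + 1) * s.card)) r := by
    intro s
    induction s using Finset.induction_on with
    | empty =>
      rw [Finset.card_empty, mul_zero, pow_zero, mul_one]
      refine Grow_of_range ?_ h
      rintro (k | ⟨i, hi⟩)
      · exact ⟨k, rfl⟩
      · exact absurd hi (Finset.notMem_empty _)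
    | insert a s ha ih =>
      have h1 := grow_step _ _ r d (y a) ih (Alg.comp Sum.inl (hy a))
      rw [Finset.card_insert_of_notMem ha, mul_add (r + 1), mul_one, pow_add, ← mul_assoc]
      refine Grow_of_range ?_ h1
      rintro (k | ⟨i, hi⟩)
      · exact ⟨some (Sum.inl k), rfl⟩
      · rcases Finset.mem_insert.1 hi with rfl | hi
        · exact ⟨none, rfl⟩
        · exact ⟨some (Sum.inr ⟨i, hi⟩), rfl⟩
  refine Grow_of_range ?_ (key Finset.univ)
  rintro (k | i)
  · exact ⟨Sum.inl k, rfl⟩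
  · exact ⟨Sum.inr ⟨i, Finset.mem_univ i⟩, rfl⟩

end Pool.Agent.MP_655169_nt
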