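import Pool.Agent.MP_655169_nt.Grow
import Pool.Agent.MP_655169_nt.Norm

set_option linter.unusedSectionVars false

namespace Pool.Agent.MP_655169_nt

open Polynomial Filter Topology

section

variable {F Λ : Type*} [Field F] [Field Λ] [Algebra F Λ] {κ : Type*} [Fintype κ]

theorem HF_prod_mem {ι : Type*} (y : ι → Λ) (z : κ → Λ) (hzy : ∀ k, z k ∈ Vs F y 1) (N : ℕ)
    (e : κ → ℕ) (he : ∀ k, e k ≤ N) (s : Finset κ) :
    ∏ k ∈ s, z k ^ e k ∈ Vs F y (s.card * N) := by
  classical
  induction s using Finset.induction_on with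
  | empty =>
    have := Vs_const (F := F) y (1 : F) 0
    simpa using this
  | insert a s ha ih =>
    rw [Finset.prod_insert ha, Finset.card_insert_of_notMem ha]
    have h1 := Vs_pow y (hzy a) (e a)
    have h2 := Vs_mul y h1 ih
    refine Vs_mono y ?_ h2
    have := he a
    nlinarith

theorem HF_count (c r S : ℕ) :
    c * ((r + 1) * (c * (r + 1) ^ r * S) + 1) ^ r <
      (c * (r + 1) ^ r * S + 1) ^ r * (c * (r + 1) ^ r + 1) := by
  set J := c * (r + 1) ^ r with hJ
  have h1 : ((r + 1) * (J * S) + 1) ^ r ≤ ((r + 1) * (J * S + 1)) ^ r :=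
    Nat.pow_le_pow_left (by nlinarith) r
  have h2 : 0 < (J * S + 1) ^ r := by positivity
  calc c * ((r + 1) * (J * S) + 1) ^ r ≤ c * ((r + 1) * (J * S + 1)) ^ r :=
        Nat.mul_le_mul_left _ h1
    _ = (J * S + 1) ^ r * J := by rw [mul_pow, hJ]; ring
    _ < (J * S + 1) ^ r * (J + 1) := by nlinarith

theorem alg_of_grow {ι : Type*} [Fintype ι] (y : ι → Λ) (c : ℕ) (h : Grow F y c (Fintype.card κ))
    (z : κ → Λ) (hz : AlgebraicIndependent F z) (hzy : ∀ k, z k ∈ Vs F y 1) (S : ℕ) (η : Λ)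
    (hη : η ∈ Vs F y S) :
    Alg F z (c * (Fintype.card κ + 1) ^ Fintype.card κ)
      (Fintype.card κ * (c * (Fintype.card κ + 1) ^ Fintype.card κ) * S) η := by
  classical
  set r := Fintype.card κ with hr
  set J := c * (r + 1) ^ r with hJ
  have hmem : ∀ p : (κ → Fin (J * S + 1)) × Fin (J + 1),
      (∏ k, z k ^ (p.1 k : ℕ)) * η ^ (p.2 : ℕ) ∈ Vs F y ((r + 1) * (J * S)) := by
    intro p
    have h1 := HF_prod_mem y z hzy (J * S) (fun k => (p.1 k : ℕ))
      (fun k => Nat.lt_succ_iff.mp (p.1 k).2) Finset.univ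
    have h2 := Vs_pow y hη (p.2 : ℕ)
    refine Vs_mono y ?_ (Vs_mul y h1 h2)
    have h3 : (p.2 : ℕ) ≤ J := Nat.lt_succ_iff.mp p.2.2
    rw [Finset.card_univ, ← hr]
    nlinarith
  let v : (κ → Fin (J * S + 1)) × Fin (J + 1) → Vs F y ((r + 1) * (J * S)) :=
    fun p => ⟨_, hmem p⟩
  have hdep : ¬ LinearIndependent F v := by
    intro hli
    have h1 := hli.fintype_card_le_finrank
    have h2 := h ((r + 1) * (J * S))
    have h3 := HF_count c r S
    rw [Fintype.card_prod, Fintype.card_fun, Fintype.card_fin, Fintype.card_fin, ← hr] at h1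
    rw [← hJ] at h3
    omega
  obtain ⟨a, ha0, p0, hp0⟩ := Fintype.not_linearIndependent_iff.mp hdep
  let ex : (κ → Fin (J * S + 1)) → (κ →₀ ℕ) :=
    fun e => Finsupp.equivFunOnFinite.symm fun k => (e k : ℕ)
  have hex : Function.Injective ex := by
    intro e e' hee
    funext k
    have := congrArg (fun f : κ →₀ ℕ => f k) hee
    simpa [ex, Fin.ext_iff] using this
  let co : Fin (J + 1) → MvPolynomial κ F :=
    fun j => ∑ e, MvPolynomial.monomial (ex e) (a (e, j))
  let Φ : (MvPolynomial κ F)[X] := ∑ j : Fin (J + 1), Polynomial.monomial (j : ℕ) (co j)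
  have hco : ∀ j : Fin (J + 1), Φ.coeff j = co j := by
    intro j
    simp only [Φ, Polynomial.finsetSum_coeff, Polynomial.coeff_monomial]
    rw [Finset.sum_eq_single j]
    · simp
    · intro b _ hb
      rw [if_neg]
      exact fun h => hb (Fin.ext h)
    · simp
  have hco' : ∀ j : ℕ, J < j → Φ.coeff j = 0 := by
    intro j hj
    simp only [Φ, Polynomial.finsetSum_coeff, Polynomial.coeff_monomial]
    refine Finset.sum_eq_zero fun b _ => if_neg ?_
    have := b.2
    omega
  have hcodeg : ∀ j, (co j).totalDegree ≤ r * J * S := by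
    intro j
    refine MvPolynomial.totalDegree_finsetSum_le fun e _ => ?_
    refine (MvPolynomial.totalDegree_monomial_le _ _).trans ?_
    have : (ex e).sum (fun _ => id) = ∑ k, (e k : ℕ) := by
      rw [Finsupp.sum_fintype _ _ (fun _ => rfl)]
      simp [ex]
    rw [this]
    calc ∑ k, (e k : ℕ) ≤ ∑ _k : κ, J * S :=
          Finset.sum_le_sum fun k _ => Nat.lt_succ_iff.mp (e k).2
      _ = r * J * S := by rw [Finset.sum_const, Finset.card_univ, ← hr, smul_eq_mul, mul_assoc r J S]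
  have hΦ0 : Φ ≠ 0 := by
    intro h0
    have h1 := hco p0.2
    rw [h0, Polynomial.coeff_zero] at h1
    have h2 := congrArg (MvPolynomial.coeff (ex p0.1)) h1
    simp only [co, MvPolynomial.coeff_zero, MvPolynomial.coeff_sum,
      MvPolynomial.coeff_monomial] at h2
    rw [Finset.sum_eq_single p0.1] at h2
    · exact hp0 (by simpa using h2.symm)
    · intro b _ hb
      exact if_neg fun h => hb (hex h)
    · simp
  refine ⟨Φ, ?_, ?_, ?_, ?_⟩
  · exact Polynomial.natDegree_le_iff_coeff_eq_zero.mpr fun j hj => hco' j hj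
  · intro j
    by_cases hj : J < j
    · rw [hco' j hj]; simp
    · have := hco ⟨j, by omega⟩
      simp only at this
      rw [this]
      exact hcodeg _
  · intro h0
    exact Polynomial.leadingCoeff_ne_zero.mpr hΦ0
      (hz (by rw [h0, map_zero]))
  · have h1 := congrArg (fun x : Vs F y ((r + 1) * (J * S)) => (x : Λ)) ha0
    simp only [v, Submodule.coe_sum, Submodule.coe_smul, Submodule.coe_zero] at h1
    rw [← h1, Fintype.sum_prod_type_right]
    simp only [Φ, Polynomial.eval₂_finsetSum, Polynomial.eval₂_monomial]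
    refine Finset.sum_congr rfl fun j _ => ?_
    simp only [co, AlgHom.toRingHom_eq_coe, RingHom.coe_coe, map_sum, Finset.sum_mul]
    refine Finset.sum_congr rfl fun e _ => ?_
    rw [MvPolynomial.aeval_monomial, Finsupp.prod_fintype _ _ (fun _ => pow_zero _),
      Algebra.smul_def, mul_assoc]
    simp [ex]

theorem alg_of_mem {ι : Type*} [Fintype ι] (z : κ → Λ) (hz : AlgebraicIndependent F z)
    (y : ι → Λ) (d : ℕ) (hy : ∀ i, Alg F z d d (y i)) (J : ℕ)
    (hJ : (d + 1) ^ ((Fintype.card κ + 1) * Fintype.card ι) *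
      (Fintype.card κ + 1) ^ Fintype.card κ ≤ J)
    (S : ℕ) (η : Λ) (hη : η ∈ Vs F (Sum.elim z y) S) :
    Alg F z J (Fintype.card κ * J * S) η := by
  have h1 := grow_tower z y 1 _ d (grow_base (F := F) z) hy
  rw [one_mul] at h1
  have h2 := alg_of_grow (Sum.elim z y) _ h1 z hz
    (fun k => Vs_var (F := F) (Sum.elim z y) (Sum.inl k)) S η hη
  exact h2.mono hJ (Nat.mul_le_mul_right _ (Nat.mul_le_mul_left _ hJ))

theorem alg_trans (θ : Λ) (hθ : AlgebraicIndependent F ![θ]) (ξ w : Λ) (d d0 : ℕ)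
    (h1 : Alg F ![θ] d d ξ) (h2 : Alg F ![θ, ξ] d0 d0 w) :
    Alg F ![θ] (2 * (d + 1) ^ 2 * (d0 + 1) ^ 2) (2 * (d + 1) ^ 2 * (d0 + 1) ^ 2) w := by
  have g0 := grow_base (F := F) ![θ]
  have g1 := grow_step ![θ] _ _ d ξ g0 h1
  have h3 : Alg F (fun o : Option (Fin 1) => o.elim ξ ![θ]) d0 d0 w := by
    refine Alg.comp (![some 0, none] : Fin 2 → Option (Fin 1)) ?_
    have : ((fun o : Option (Fin 1) => o.elim ξ ![θ]) ∘
        (![some 0, none] : Fin 2 → Option (Fin 1))) = ![θ, ξ] := by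
      funext i
      fin_cases i <;> rfl
    rw [this]
    exact h2
  have g2 := grow_step _ _ _ d0 w g1 h3
  have h4 := alg_of_grow _ _ g2 ![θ] hθ
    (fun k => Vs_var (F := F) (fun o : Option (Option (Fin 1)) =>
      o.elim w (fun o : Option (Fin 1) => o.elim ξ ![θ])) (some (some k))) 1 w
    (Vs_var (F := F) (fun o : Option (Option (Fin 1)) =>
      o.elim w (fun o : Option (Fin 1) => o.elim ξ ![θ])) none)
  simp only [Fintype.card_fin] at h4
  exact h4.mono (le_of_eq (by ring)) (le_of_eq (by ring))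

end

theorem red {F Λ : Type*} [Field F] [Fintype F] [NormedField Λ] [IsUltrametricDist Λ]
    [Algebra F Λ] {κ ι : Type*} [Fintype κ] [Fintype ι] (z : κ → Λ)
    (hz : AlgebraicIndependent F z) (y : ι → Λ) (hy : ∀ i, ∃ d, Alg F z d d (y i)) :
    ∃ c : ℕ, ∀ (S : ℕ) (η : Λ), η ∈ Vs F (Sum.elim z y) S → η ≠ 0 → ‖η‖ ≤ 1 →
      ∃ b : MvPolynomial κ F, b ≠ 0 ∧ b.totalDegree ≤ c * S ∧
        ‖MvPolynomial.aeval z b‖ ≤ Real.exp (c * S) * ‖η‖ := by
  choose dd hdd using hy
  set d := ∑ i, dd i with hd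
  have hy' : ∀ i, Alg F z d d (y i) := fun i =>
    have : dd i ≤ d := Finset.single_le_sum (fun _ _ => Nat.zero_le _) (Finset.mem_univ i)
    (hdd i).mono this this
  set J := (d + 1) ^ ((Fintype.card κ + 1) * Fintype.card ι) *
      (Fintype.card κ + 1) ^ Fintype.card κ with hJ
  set M : ℝ := 1 + ∑ k, ‖z k‖ with hM
  have hM1 : 1 ≤ M := le_add_of_nonneg_right (Finset.sum_nonneg fun _ _ => norm_nonneg _)
  have hzM : ∀ k, ‖z k‖ ≤ M := fun k =>
    (Finset.single_le_sum (f := fun k => ‖z k‖) (fun _ _ => norm_nonneg _)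
      (Finset.mem_univ k)).trans (le_add_of_nonneg_left zero_le_one)
  set L := ⌈Real.log M⌉₊ + 1 with hL
  refine ⟨Fintype.card κ * J * L, fun S η hη h0 h1 => ?_⟩
  obtain ⟨b, hb0, hb1, hb2⟩ := norm_step z M hM1 hzM _ _ η
    (alg_of_mem z hz y d hy' J le_rfl S η hη) h0 h1
  refine ⟨b, hb0, hb1.trans ?_, hb2.trans (mul_le_mul_of_nonneg_right ?_ (norm_nonneg _))⟩
  · refine Nat.mul_le_mul_right _ (Nat.le_mul_of_pos_right _ ?_)
    omega
  · have hML : M ≤ Real.exp L := by
      calc M = Real.exp (Real.log M) := (Real.exp_log (by linarith)).symm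
        _ ≤ Real.exp L := by
          apply Real.exp_le_exp.mpr
          have := Nat.le_ceil (Real.log M)
          rw [hL]; push_cast; linarith
    calc M ^ (Fintype.card κ * J * S) ≤ Real.exp L ^ (Fintype.card κ * J * S) :=
          pow_le_pow_left₀ (by linarith) hML _
      _ = _ := by
          rw [← Real.exp_nat_mul]
          congr 1
          push_cast
          ring

end Pool.Agent.MP_655169_nt
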