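import Pool.Agent.MP_655169_nt.HL1

set_option linter.unusedSectionVars false

namespace Pool.Agent.MP_655169_nt

open Polynomial Filter Topology

variable {F C Ω : Type*} [Field F] [Fintype F] [NormedField C] [IsUltrametricDist C]
  [IsAlgClosed C] [Algebra F C] [NormedField Ω] [IsUltrametricDist Ω] [IsAlgClosed Ω]
  [Algebra C Ω] [Algebra F Ω] [IsScalarTower F C Ω] (Z : Sit F C Ω)

theorem HL_pow (A : ℝ) (m : ℕ) : ∃ k : ℕ, ∀ x : ℝ, 2 ≤ x → A * x ^ m < x ^ k := by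
  obtain ⟨j, hj⟩ := pow_unbounded_of_one_lt A (one_lt_two (α := ℝ))
  refine ⟨j + m, fun x hx => ?_⟩
  rw [pow_add]
  exact mul_lt_mul_of_pos_right (hj.trans_le (pow_le_pow_left₀ zero_le_two hx j)) (by positivity)

/-- Simultaneous approximation measure for a logarithm and its exponential. -/
theorem Sit.hl (u al : C) (f : Ω) (h : Z.Agf u al f) (hu : u ≠ 0) (E : Subfield C) (η cS : ℝ)
    (hE : Loc F E η cS) (hθ : Z.θ ∈ E) (huE : u ∈ E) :
    ∃ κ : ℕ, ∀ (d : ℕ) (v a : C), Alg F ![Z.θ] d d v → Alg F ![Z.θ] d d a →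
      Real.exp (-((d + 2 : ℕ) : ℝ) ^ κ) ≤ max ‖u - v‖ ‖al - a‖ := by
  obtain ⟨κ, D0, c, hc, H⟩ := Z.hl1 u al f h hu E η cS hE hθ huE
  have hT := Z.hθ
  have hlT : 0 < Real.log ‖Z.θ‖ := Real.log_pos hT
  obtain ⟨D2, hD2⟩ := exists_nat_gt (6 * Real.log ‖Z.θ‖ / c)
  set D1 : ℕ := D2 + D0 + 1 with hD1
  have hcD : 6 * Real.log ‖Z.θ‖ < c * D1 := by
    rw [div_lt_iff₀ hc] at hD2
    have : (D2 : ℝ) ≤ D1 := by rw [hD1]; exact_mod_cast (by omega)
    nlinarith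
  set M : ℝ := max ‖Z.θ‖ (max ‖u‖ ‖al‖) with hM
  have hM1 : 1 ≤ M := hT.le.trans (le_max_left _ _)
  have hlM : 0 ≤ Real.log M := Real.log_nonneg hM1
  obtain ⟨k, hk⟩ := HL_pow ((D1 : ℝ) ^ κ + 3 * D1 ^ 5 * Real.log M) (4 * κ + 20)
  refine ⟨k, fun d v a hv ha => ?_⟩
  by_contra hcon
  rw [not_le, max_lt_iff] at hcon
  set x : ℝ := ((d + 2 : ℕ) : ℝ) with hx
  have hx2 : 2 ≤ x := by rw [hx]; exact_mod_cast (by omega)
  have hx1 : 1 ≤ x := by linarith
  set D : ℕ := D1 * (d + 2) ^ 4 with hD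
  have hDx : (D : ℝ) = D1 * x ^ 4 := by rw [hD, hx]; push_cast; ring
  have hd4 : d + 2 ≤ (d + 2) ^ 4 := Nat.le_self_pow (by norm_num) _
  have hD1D : D1 ≤ D := Nat.le_mul_of_pos_right _ (by positivity)
  have hdD : d ≤ D := by
    have : (d + 2) ^ 4 ≤ D := Nat.le_mul_of_pos_left _ (by omega)
    omega
  have hL : (D : ℝ) ^ κ + 3 * D ^ 5 * Real.log M < x ^ k := by
    refine lt_of_le_of_lt ?_ (hk x hx2)
    rw [hDx, mul_pow, mul_pow, ← pow_mul, ← pow_mul, add_mul]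
    have h1 : x ^ (4 * κ) ≤ x ^ (4 * κ + 20) := pow_le_pow_right₀ hx1 (by omega)
    have h2 : x ^ (4 * 5) ≤ x ^ (4 * κ + 20) := pow_le_pow_right₀ hx1 (by omega)
    have h3 : (D1 : ℝ) ^ κ * x ^ (4 * κ) ≤ D1 ^ κ * x ^ (4 * κ + 20) := by gcongr
    have h4 : 3 * (D1 : ℝ) ^ 5 * Real.log M * x ^ (4 * 5) ≤
      3 * D1 ^ 5 * Real.log M * x ^ (4 * κ + 20) := by gcongr
    linarith
  have hD5 : 0 ≤ 3 * (D : ℝ) ^ 5 * Real.log M := by positivity
  have he1 : Real.exp (-x ^ k) ≤ 1 := Real.exp_le_one_iff.2 (neg_nonpos.2 (by positivity))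
  obtain ⟨Q, G, hQ1, hQ2, hG, hlo, hhi⟩ := H D d (by omega) hdD a ha
    (hcon.2.le.trans (Real.exp_le_exp.2 (by linarith)))
  have hnear : ∀ p r : C, ‖p‖ ≤ M → ‖p - r‖ < Real.exp (-x ^ k) → ‖r‖ ≤ M := by
    intro p r h1 h2
    have := IsUltrametricDist.norm_add_le_max p (-(p - r))
    rw [norm_neg, neg_sub, add_sub_cancel] at this
    exact this.trans (max_le h1 (by linarith))
  have huM : ‖u‖ ≤ M := (le_max_left _ _).trans (le_max_right _ _)
  have halM : ‖al‖ ≤ M := (le_max_right _ _).trans (le_max_right _ _)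
  have hlip := lip_aeval ![Z.θ, u, al] ![Z.θ, v, a] M (Real.exp (-x ^ k)) hM1 (Real.exp_pos _).le
    (by intro i; fin_cases i; exacts [le_max_left _ _, huM, halM])
    (by intro i; fin_cases i; exacts [le_max_left _ _, hnear _ _ huM hcon.1, hnear _ _ halM hcon.2])
    (by
      intro i; fin_cases i
      · simpa using (Real.exp_pos _).le
      · exact hcon.1.le
      · exact hcon.2.le) G (3 * D ^ 5)
    (hG.trans ((Nat.mul_le_mul_left _ hQ2).trans (le_of_eq (by ring))))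
  set w0 := MvPolynomial.aeval ![Z.θ, u, al] G with hw0
  set w := MvPolynomial.aeval ![Z.θ, v, a] G with hw
  have hlt : ‖w0 - w‖ < ‖w0‖ := by
    refine hlip.trans_lt (lt_of_lt_of_le ?_ hlo)
    rw [← Real.exp_log (lt_of_lt_of_le one_pos hM1), ← Real.exp_nat_mul, ← Real.exp_add,
      Real.exp_lt_exp]
    push_cast
    linarith
  have hweq : ‖w‖ = ‖w0‖ := by
    have := IsUltrametricDist.norm_add_eq_max_of_norm_ne_norm (x := w0) (y := -(w0 - w))
      (by rw [norm_neg]; exact hlt.ne')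
    rwa [norm_neg, neg_sub, add_sub_cancel, max_eq_left hlt.le] at this
  have hw0' : w ≠ 0 := by
    rw [← norm_pos_iff, hweq]; exact (Real.exp_pos _).trans_le hlo
  have hw1 : ‖w‖ ≤ 1 := by
    rw [hweq]; exact hhi.trans (Real.exp_le_one_iff.2 (neg_nonpos.2 (by positivity)))
  have hmem : w ∈ Vs F (Sum.elim ![Z.θ] ![v, a]) (1 * (3 * D * Q)) := by
    refine Vs_aeval _ _ 1 (fun i => ?_) G _ hG
    fin_cases i
    · exact Vs_var (Sum.elim ![Z.θ] ![v, a]) (Sum.inl 0)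
    · exact Vs_var (Sum.elim ![Z.θ] ![v, a]) (Sum.inr 0)
    · exact Vs_var (Sum.elim ![Z.θ] ![v, a]) (Sum.inr 1)
  have halg := alg_of_mem ![Z.θ] (indep1 (F := F) Z.θ hT) ![v, a] d
    (by intro i; fin_cases i; exacts [hv, ha]) (2 * (d + 1) ^ 4) (by simp [mul_comm]) _ w hmem
  obtain ⟨b, hb, -, hb'⟩ := norm_step ![Z.θ] ‖Z.θ‖ hT.le (by intro i; fin_cases i; exact le_rfl)
    _ _ w halg hw0' hw1
  have h5 := ((liou1 Z.θ hT b hb).trans hb').trans
    (mul_le_mul_of_nonneg_left (hweq.le.trans hhi) (by positivity))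
  rw [← Real.exp_log (lt_trans one_pos hT), ← Real.exp_nat_mul, ← Real.exp_add,
    Real.one_le_exp_iff] at h5
  simp only [Fintype.card_fin] at h5
  push_cast at h5
  have hQ : (0 : ℝ) < Q := by exact_mod_cast hQ1
  have hDpos : (0 : ℝ) < D := by exact_mod_cast (by omega : 0 < D)
  have h6 : ((d : ℝ) + 1) ^ 4 ≤ x ^ 4 := by
    rw [hx]; push_cast; gcongr; norm_num
  have h7 : 6 * ((d : ℝ) + 1) ^ 4 * Real.log ‖Z.θ‖ < c * D := by
    rw [hDx]
    have h8 : (0 : ℝ) < x ^ 4 := by positivity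
    have h10 := mul_lt_mul_of_pos_right hcD h8
    have h11 := mul_le_mul_of_nonneg_right h6 hlT.le
    linarith only [h10, h11]
  have h9 := mul_lt_mul_of_pos_right h7 (mul_pos hDpos hQ)
  linarith only [h9, h5]

end Pool.Agent.MP_655169_nt
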