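import Pool.Agent.MP_655169_nt.Siegel1

set_option linter.unusedSectionVars false

namespace Pool.Agent.MP_655169_nt

open Polynomial Filter Topology

variable {F C Ω : Type*} [Field F] [Fintype F] [NormedField C] [IsUltrametricDist C]
  [IsAlgClosed C] [Algebra F C] [NormedField Ω] [IsUltrametricDist Ω] [IsAlgClosed Ω]
  [Algebra C Ω] [Algebra F Ω] [IsScalarTower F C Ω] (Z : Sit F C Ω)

lemma siegel_bd {ι : Type*} (e0 : ι →₀ ℕ) (s : ℕ) (c : C) (D T : ℕ) (A : ℝ)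
    (he : e0.degree ≤ D) (hs : s ≤ T) (hc : ‖c‖ ≤ Real.exp A) :
    Bd (MvPolynomial.monomial e0 (Polynomial.monomial s c)) D T A := by
  classical
  refine ⟨(MvPolynomial.totalDegree_monomial_le _ _).trans ?_, fun e => ?_, fun e j => ?_⟩
  · simpa [Finsupp.degree_apply, Finsupp.sum] using he
  · rw [MvPolynomial.coeff_monomial]
    split_ifs
    · exact (natDegree_monomial_le _).trans hs
    · simp
  · rw [MvPolynomial.coeff_monomial]
    split_ifs
    · rw [Polynomial.coeff_monomial]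
      split_ifs
      · exact hc
      · simpa using (Real.exp_pos A).le
    · simpa using (Real.exp_pos A).le

lemma siegel_mem {ι : Type*} (E : Subfield C) (e0 : ι →₀ ℕ) (s : ℕ) (c : C) (hc : c ∈ E)
    (e : ι →₀ ℕ) (j : ℕ) :
    ((MvPolynomial.monomial e0 (Polynomial.monomial s c)).coeff e).coeff j ∈ E := by
  classical
  rw [MvPolynomial.coeff_monomial]
  split_ifs
  · rw [Polynomial.coeff_monomial]
    split_ifs
    · exact hc
    · exact E.zero_mem
  · simp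

lemma siegel_aux {ι W : Type*} [Fintype W] {T : ℕ} (a : Fin (T + 1) × W → F) (cw : W → C)
    (ew : W → ι →₀ ℕ) : aux a cw ew = ∑ x : Fin (T + 1) × W,
      MvPolynomial.C (Polynomial.C (algebraMap F C (a x))) *
        MvPolynomial.monomial (ew x.2) (Polynomial.monomial x.1 (cw x.2)) := by
  unfold aux
  refine Finset.sum_congr rfl fun x _ => ?_
  rw [MvPolynomial.C_mul_monomial, Polynomial.C_mul_monomial]

lemma siegel_HH {ι W : Type*} [Fintype W] {T : ℕ} (u : ι → C) (m D : ℕ)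
    (a : Fin (T + 1) × W → F) (cw : W → C) (ew : W → ι →₀ ℕ) :
    Z.HH u m D (aux a cw ew) = ∑ x : Fin (T + 1) × W, Polynomial.C (algebraMap F C (a x)) *
      Z.HH u m D (MvPolynomial.monomial (ew x.2) (Polynomial.monomial x.1 (cw x.2))) := by
  let L : MvPolynomial ι C[X] →+ C[X] := AddMonoidHom.mk' (Z.HH u m D) (Z.HH_add u m D)
  have h : Z.HH u m D (aux a cw ew) = L (aux a cw ew) := rfl
  rw [h, siegel_aux, map_sum]
  exact Finset.sum_congr rfl fun x _ => Z.HH_C_mul u m D _ _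

lemma siegel_FF {ι : Type*} (y : ι → Ω) (M : ℝ) (hM : 1 ≤ M) (hy : ∀ i, ‖y i‖ ≤ M)
    (P : MvPolynomial ι C[X]) (D T : ℕ) (A : ℝ) (hP : Bd P D T A) :
    ‖Z.FF y P‖ ≤ Real.exp A * M ^ D :=
  norm_eval₂_le _ P y (Real.exp A) M (Real.exp_pos A).le
    (fun e => Z.norm_aeval_le _ _ (hP.size e)) hM hy D hP.deg

theorem Sit.siegel {ι : Type*} [Fintype ι] (u al : ι → C) (f : ι → Ω)
    (h : ∀ i, Z.Agf (u i) (al i) (f i)) (E : Subfield C) (η cS : ℝ) (hE : Loc F E η cS)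
    (hθ : Z.θ ∈ E) (hu : ∀ i, u i ∈ E) :
    ∃ (m0 : ℕ) (c : ℝ), 0 ≤ c ∧ ∀ (W : Type) [Fintype W] (T D m : ℕ) (A B : ℝ) (cw : W → C)
      (ew : W → ι →₀ ℕ), m0 ≤ m → 0 ≤ A → 0 ≤ B → (∀ w, cw w ∈ E ∧ ‖cw w‖ ≤ Real.exp A) →
      (∀ w, (ew w).degree ≤ D) →
      ((T + D * m + 1 : ℕ) : ℝ) * (cS * (A + c * D + B + 1)) < ((T + 1) * Fintype.card W : ℕ) →
      Real.exp (A + c * D) * (‖Z.θ‖ ^ qq F ^ m)⁻¹ ≤ Real.exp (-B) →
      ∃ a : Fin (T + 1) × W → F, a ≠ 0 ∧ ‖Z.FF f (aux a cw ew)‖ ≤ Real.exp (-B) := by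
  obtain ⟨m0, M, hM, hb⟩ := Z.agf_bd u al f h
  refine ⟨m0, Real.log M, Real.log_nonneg hM, ?_⟩
  intro W _ T D m A B cw ew hm hA hB hcw hew hcard hsmall
  have hM0 : 0 < M := lt_of_lt_of_le one_pos hM
  have hexp : Real.exp (A + Real.log M * D) = Real.exp A * M ^ D := by
    rw [Real.exp_add, mul_comm (Real.log M), Real.exp_nat_mul, Real.exp_log hM0]
  set δ : C := ∏ i ∈ Finset.range m, Z.θ ^ qq F ^ i with hδ
  have hδn : ‖aeval Z.t (Z.den m)‖ = ‖δ‖ := Z.norm_den m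
  have hδpos : 0 < ‖δ‖ := by rw [← hδn]; exact norm_pos_iff.2 (Z.den_ne m)
  have hδ0 : δ ≠ 0 := norm_pos_iff.1 hδpos
  have hδE : δ ∈ E := prod_mem fun i _ => pow_mem hθ _
  let P : Fin (T + 1) × W → MvPolynomial ι C[X] := fun x =>
    MvPolynomial.monomial (ew x.2) (Polynomial.monomial x.1 (cw x.2))
  have hP : ∀ x, Bd (P x) D T A := fun x =>
    siegel_bd _ _ _ D T A (hew x.2) (Nat.lt_succ_iff.1 x.1.2) (hcw x.2).2
  have hHn : ∀ (Q : MvPolynomial ι C[X]), Q.totalDegree ≤ D →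
      ‖aeval Z.t (Z.HH u m D Q)‖ = ‖δ‖ ^ D * ‖Z.FF (fun i => Z.fm (u i) m) Q‖ := fun Q hQ => by
    rw [Z.HH_t u m D Q hQ, norm_mul, norm_pow, hδn]
  obtain ⟨a, ha0, ha⟩ := hE.box (Fin (T + 1) × W) (Fin (T + D * m + 1))
    (fun x j => (Z.HH u m D (P x)).coeff j / δ ^ D) (A + Real.log M * D) B
    (add_nonneg hA (mul_nonneg (Real.log_nonneg hM) (Nat.cast_nonneg _))) hB
    (fun x j => ⟨div_mem (Z.HH_mem E hθ u hu m D _
        (fun e k => siegel_mem E _ _ _ (hcw x.2).1 e k) _) (pow_mem hδE _), by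
      rw [norm_div, norm_pow, div_le_iff₀ (pow_pos hδpos _), hexp]
      refine (Z.gauss_le _ _).trans ?_
      rw [hHn _ (hP x).deg, mul_comm]
      exact mul_le_mul_of_nonneg_right
        (siegel_FF Z _ M hM (fun i => (hb i).2.1 m) _ D T A (hP x)) (pow_pos hδpos _).le⟩)
    (by simpa using hcard)
  refine ⟨a, ha0, ?_⟩
  have hbd : Bd (aux a cw ew) D T A := aux_bd a cw ew D A (fun w => (hcw w).2) hew
  have h1 : ‖Z.FF (fun i => Z.fm (u i) m) (aux a cw ew)‖ ≤ Real.exp (-B) := by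
    have h2 : ‖aeval Z.t (Z.HH u m D (aux a cw ew))‖ ≤ ‖δ‖ ^ D * Real.exp (-B) := by
      refine Z.norm_aeval_le _ _ fun j => ?_
      by_cases hj : j < T + D * m + 1
      · have h3 : (Z.HH u m D (aux a cw ew)).coeff j =
            δ ^ D * ∑ x, a x • ((Z.HH u m D (P x)).coeff j / δ ^ D) := by
          rw [siegel_HH, Polynomial.finsetSum_coeff, Finset.mul_sum]
          refine Finset.sum_congr rfl fun x _ => ?_
          rw [Polynomial.coeff_C_mul, Algebra.smul_def]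
          field_simp
          rfl
        rw [h3, norm_mul, norm_pow]
        exact mul_le_mul_of_nonneg_left (ha ⟨j, hj⟩) (pow_pos hδpos _).le
      · rw [Polynomial.coeff_eq_zero_of_natDegree_lt
          (lt_of_le_of_lt (Z.HH_deg u m D T _ hbd.deg hbd.tdeg) (by omega)), norm_zero]
        exact mul_nonneg (pow_pos hδpos _).le (Real.exp_pos _).le
    rw [hHn _ hbd.deg] at h2
    exact le_of_mul_le_mul_left h2 (pow_pos hδpos _)
  have h4 : ‖Z.FF f (aux a cw ew) - Z.FF (fun i => Z.fm (u i) m) (aux a cw ew)‖ ≤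
      Real.exp (-B) := by
    refine le_trans ?_ hsmall
    rw [hexp]
    exact lip_eval₂ _ _ f _ (Real.exp A) M _ (Real.exp_pos A).le
      (fun e => Z.norm_aeval_le _ _ (hbd.size e)) hM (by positivity) (fun i => (hb i).1)
      (fun i => (hb i).2.1 m) (fun i => (hb i).2.2.1 m hm) D hbd.deg
  have h5 := IsUltrametricDist.norm_add_le_max
    (Z.FF f (aux a cw ew) - Z.FF (fun i => Z.fm (u i) m) (aux a cw ew))
    (Z.FF (fun i => Z.fm (u i) m) (aux a cw ew))
  rw [sub_add_cancel] at h5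
  exact h5.trans (max_le h4 h1)

end Pool.Agent.MP_655169_nt
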