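import Pool.Agent.MP_655169_nt.ZE
import Pool.Agent.MP_655169_nt.Siegel

set_option linter.unusedSectionVars false

namespace Pool.Agent.MP_655169_nt

open Polynomial Filter Topology

variable {F C Ω : Type*} [Field F] [Fintype F] [NormedField C] [IsUltrametricDist C]
  [IsAlgClosed C] [Algebra F C] [NormedField Ω] [IsUltrametricDist Ω] [IsAlgClosed Ω]
  [Algebra C Ω] [Algebra F Ω] [IsScalarTower F C Ω] (Z : Sit F C Ω)

theorem hl1_ev (L : ℝ) (hL : 0 < L) (c : ℝ) (k : ℕ) :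
    ∀ᶠ D : ℕ in atTop, c * (D : ℝ) ^ k ≤ L * 2 ^ D := by
  have h := (tendsto_pow_const_div_const_pow_of_one_lt k (one_lt_two (α := ℝ))).const_mul c
  rw [mul_zero] at h
  filter_upwards [h.eventually_le_const hL] with D hD
  rwa [← mul_div_assoc, div_le_iff₀ (by positivity)] at hD

theorem hl1_exp (Th : ℝ) (hTh : 1 < Th) (q D : ℕ) (hq : 2 ≤ q) (x y : ℝ)
    (h : x + y ≤ Real.log Th * 2 ^ D) : Real.exp x * (Th ^ q ^ D)⁻¹ ≤ Real.exp (-y) := by
  have h0 : 0 < Th := one_pos.trans hTh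
  have h1 : Th ^ q ^ D = Real.exp (Real.log Th * (q : ℝ) ^ D) := by
    rw [mul_comm, ← Nat.cast_pow, Real.exp_nat_mul, Real.exp_log h0]
  have h2 : (2 : ℝ) ^ D ≤ (q : ℝ) ^ D := pow_le_pow_left₀ zero_le_two (by exact_mod_cast hq) D
  rw [h1, ← Real.exp_neg, ← Real.exp_add, Real.exp_le_exp]
  nlinarith [mul_le_mul_of_nonneg_left h2 (Real.log_pos hTh).le]

theorem hl1_pow (Th : ℝ) (hTh : 1 < Th) (k : ℕ) : Th ^ k = Real.exp (k * Real.log Th) := by
  rw [Real.exp_nat_mul, Real.exp_log (one_pos.trans hTh)]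

/-- The auxiliary polynomial over `F[θ, t]`. -/
noncomputable def hl1P {T D : ℕ} (a : Fin (T + 1) × (Fin D × Fin D) → F) :
    (MvPolynomial (Fin 2) F)[X] :=
  ∑ x : Fin (T + 1) × (Fin D × Fin D), Polynomial.monomial x.2.2
    (MvPolynomial.monomial (Finsupp.single 0 (x.2.1 : ℕ) + Finsupp.single 1 (x.1 : ℕ)) (a x))

theorem hl1P_ne {T D : ℕ} (a : Fin (T + 1) × (Fin D × Fin D) → F) (ha : a ≠ 0) :
    hl1P a ≠ 0 := by
  obtain ⟨x0, hx0⟩ := Function.ne_iff.1 ha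
  intro h0
  apply hx0
  have h1 : ((hl1P a).coeff x0.2.2).coeff
      (Finsupp.single 0 (x0.2.1 : ℕ) + Finsupp.single 1 (x0.1 : ℕ)) = a x0 := by
    unfold hl1P
    rw [Polynomial.finsetSum_coeff, MvPolynomial.coeff_sum, Finset.sum_eq_single x0]
    · simp
    · intro x _ hx
      rw [Polynomial.coeff_monomial]
      split_ifs with h2
      · rw [MvPolynomial.coeff_monomial, if_neg]
        intro h3
        have h4 := DFunLike.congr_fun h3 0
        have h5 := DFunLike.congr_fun h3 1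
        simp at h4 h5
        exact hx (Prod.ext (Fin.ext h5) (Prod.ext (Fin.ext h4) (Fin.ext h2)))
      · simp
    · simp
  rw [← h1, h0]; simp

theorem hl1P_deg {T D : ℕ} (a : Fin (T + 1) × (Fin D × Fin D) → F) : Deg (hl1P a) (T + D) := by
  unfold hl1P
  refine ⟨Polynomial.natDegree_sum_le_of_forall_le _ _ fun x _ =>
    (Polynomial.natDegree_monomial_le _).trans (by have := x.2.2.2; omega), fun j => ?_⟩
  rw [Polynomial.finsetSum_coeff]
  refine MvPolynomial.totalDegree_finsetSum_le fun x _ => ?_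
  rw [Polynomial.coeff_monomial]
  split_ifs
  · refine (MvPolynomial.totalDegree_monomial_le _ _).trans ?_
    rw [Finsupp.sum_add_index' (fun _ => rfl) (fun _ _ _ => rfl)]
    simp only [Finsupp.sum_single_index (h := fun _ => (id : ℕ → ℕ)) rfl, id]
    have := x.1.2
    have := x.2.1.2
    omega
  · simp

theorem hl1P_PV {T D : ℕ} (a : Fin (T + 1) × (Fin D × Fin D) → F) (f : Ω) :
    Z.PV (hl1P a) f = Z.FF (fun _ : Unit => f) (aux a (fun w => Z.θ ^ (w.1 : ℕ))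
      fun w => Finsupp.single () (w.2 : ℕ)) := by
  rw [Z.aux_FF]
  unfold Sit.PV hl1P
  rw [Polynomial.eval₂_finsetSum]
  refine Finset.sum_congr rfl fun x _ => ?_
  rw [Polynomial.eval₂_monomial]
  simp [MvPolynomial.aeval_monomial, Finsupp.prod_add_index', pow_add, Sit.zz, mul_assoc]

theorem Sit.hl1 (u al : C) (f : Ω) (h : Z.Agf u al f) (hu : u ≠ 0) (E : Subfield C) (η cS : ℝ)
    (hE : Loc F E η cS) (hθ : Z.θ ∈ E) (huE : u ∈ E) :
    ∃ (κ D0 : ℕ) (c : ℝ), 0 < c ∧ ∀ D d : ℕ, D0 ≤ D → d ≤ D → ∀ a : C, Alg F ![Z.θ] d d a →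
      ‖al - a‖ ≤ Real.exp (-(D : ℝ) ^ κ) →
      ∃ (Q : ℕ) (G : MvPolynomial (Fin 3) F), 1 ≤ Q ∧ Q ≤ D ^ 4 ∧ G.totalDegree ≤ 3 * D * Q ∧
        Real.exp (-(D : ℝ) ^ κ) ≤ ‖MvPolynomial.aeval ![Z.θ, u, al] G‖ ∧
        ‖MvPolynomial.aeval ![Z.θ, u, al] G‖ ≤ Real.exp (-(c * D ^ 2 * Q)) := by
  obtain ⟨m0, c1, hc1, hS⟩ := Z.siegel (fun _ : Unit => u) (fun _ => al) (fun _ => f)
    (fun _ => h) E η cS hE hθ fun _ => huE
  obtain ⟨m1, c2, hc2, hV⟩ := Z.ev (fun _ : Unit => u) (fun _ => al) (fun _ => f) fun _ => h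
  obtain ⟨k0, hZ⟩ := Z.ze u al f h hu
  have hL : 0 < Real.log ‖Z.θ‖ := Real.log_pos Z.hθ
  have hcS := hE.cS_pos
  have hη := hE.η_pos
  have hq : 2 ≤ qq F := two_le_qq
  set L := Real.log ‖Z.θ‖ with hLdef
  have hr : ∀ r : ℝ, ∀ᶠ D : ℕ in atTop, r ≤ D := fun r =>
    tendsto_natCast_atTop_atTop.eventually_ge_atTop r
  obtain ⟨D0, hD0⟩ := eventually_atTop.1 ((eventually_ge_atTop m0).and ((eventually_ge_atTop m1).and
    ((eventually_ge_atTop 3).and ((eventually_ge_atTop (qq F)).and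
    ((hr (4 * cS * (L + c1 + 1))).and ((hr (2 * L / η + 1)).and ((hr (8 * cS * η)).and
    ((hl1_ev L hL (L + c1 + 1 / (4 * cS)) 2).and
      (hl1_ev L hL (η + L + c2 + 1) (3 * k0 + 1))))))))))
  refine ⟨3 * k0 + 4, D0, 1 / (8 * cS), by positivity, fun D d hD hd b hb hab => ?_⟩
  obtain ⟨e1, e2, e3, e4, e5, e6, e7, e8, e9⟩ := hD0 D hD
  have hD3 : (3 : ℝ) ≤ D := by exact_mod_cast e3
  have hD1 : (1 : ℝ) ≤ D := by linarith
  have hcw : ∀ w : Fin D × Fin D, ‖Z.θ ^ (w.1 : ℕ)‖ ≤ Real.exp (D * L) := fun w => by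
    rw [norm_pow, ← hl1_pow _ Z.hθ]
    exact pow_le_pow_right₀ Z.hθ.le w.1.2.le
  have hew : ∀ w : Fin D × Fin D, (Finsupp.single () (w.2 : ℕ)).degree ≤ D := fun w => by
    rw [Finsupp.degree_single]; exact w.2.2.le
  obtain ⟨a, ha, hφ⟩ := hS (Fin D × Fin D) (D ^ 2) D D (D * L) (D ^ 2 / (4 * cS))
    (fun w => Z.θ ^ (w.1 : ℕ)) (fun w => Finsupp.single () (w.2 : ℕ)) e1 (by positivity)
    (by positivity) (fun w => ⟨E.pow_mem hθ _, hcw w⟩) hew (by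
      have h1 : cS * (D * L + c1 * D + D ^ 2 / (4 * cS) + 1) ≤ D ^ 2 / 2 := by
        have h2 : cS * (D ^ 2 / (4 * cS)) = D ^ 2 / 4 := by field_simp
        have h3 := mul_le_mul_of_nonneg_right e5 (by positivity : (0 : ℝ) ≤ D)
        have h4 := mul_le_mul_of_nonneg_left hD1 hcS.le
        nlinarith
      refine (mul_le_mul_of_nonneg_left h1 (by positivity)).trans_lt ?_
      simp only [Fintype.card_prod, Fintype.card_fin]
      push_cast
      nlinarith [pow_pos (by linarith : (0 : ℝ) < D) 2])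
    (hl1_exp _ Z.hθ _ _ hq _ _ (le_trans (by
      have h2 : (D : ℝ) ≤ D ^ 2 := by nlinarith
      have h3 := mul_le_mul_of_nonneg_left h2 (add_nonneg hL.le hc1)
      have h4 : (D : ℝ) ^ 2 / (4 * cS) = 1 / (4 * cS) * D ^ 2 := by ring
      nlinarith) e8))
  have h3D : ((D ^ 2 + D + d + 2 : ℕ) : ℝ) ^ k0 ≤ (D : ℝ) ^ (3 * k0) := by
    rw [pow_mul]
    refine pow_le_pow_left₀ (by positivity) ?_ _
    have : (d : ℝ) ≤ D := by exact_mod_cast hd
    push_cast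
    nlinarith [mul_le_mul_of_nonneg_left hD3 (sq_nonneg (D : ℝ))]
  have hlow := hZ (D ^ 2 + D) d (hl1P a) b (hl1P_ne a ha) (hl1P_deg a) hb (hab.trans
    (Real.exp_le_exp.2 (neg_le_neg (h3D.trans (pow_le_pow_right₀ hD1 (by omega))))))
  rw [hl1P_PV] at hlow
  replace hlow := (Real.exp_le_exp.2 (neg_le_neg h3D)).trans hlow.le
  set n := Nat.log (qq F) (D ^ 3) with hn
  have hQ1 : D ^ 3 ≤ qq F ^ (n + 1) := (Nat.lt_pow_succ_log_self hq _).le
  have hQ2 : qq F ^ (n + 1) ≤ D ^ 4 := by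
    rw [pow_succ, pow_succ D 3]
    exact Nat.mul_le_mul (Nat.pow_log_le_self _ (by positivity)) e4
  have hQ1' : (D : ℝ) ^ 3 ≤ (qq F ^ (n + 1) : ℕ) := by exact_mod_cast hQ1
  have hQ2' : ((qq F ^ (n + 1) : ℕ) : ℝ) ≤ D ^ 4 := by exact_mod_cast hQ2
  obtain ⟨hv1, hv2⟩ := (hV _ D (D ^ 2) (D * L) (aux_bd a _ _ D _ hcw hew) D e2 n).2 E η hE.gap hθ
    (fun _ => huE) (aux_mem E hE.const a _ _ fun w => E.pow_mem hθ _)
    ((hl1_exp _ Z.hθ _ _ hq _ _ (le_trans (by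
      have h2 : (D : ℝ) ≤ D ^ (3 * k0 + 1) := le_self_pow₀ hD1 (by omega)
      have h3 : (D : ℝ) ^ (3 * k0) ≤ D ^ (3 * k0 + 1) := pow_le_pow_right₀ hD1 (by omega)
      have h4 := mul_le_mul_of_nonneg_left h2 (add_nonneg hL.le hc2)
      have h5 := mul_le_mul_of_nonneg_left (hD1.trans h2) hη.le
      nlinarith) e9)).trans hlow) (by
      rw [hl1_pow _ Z.hθ, Real.exp_lt_exp]
      refine lt_of_lt_of_le ?_ (mul_le_mul_of_nonneg_left hQ1' hη.le)
      have h2 : 2 * L < D * η := by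
        rw [← div_lt_iff₀ hη]; linarith
      have h3 := mul_lt_mul_of_pos_right h2 (pow_pos (by linarith : (0 : ℝ) < D) 2)
      push_cast
      nlinarith)
  obtain ⟨G, hG, hGe⟩ := (mem_Vs _ _ _).1 (Z.aux_VV ![Z.θ, u, al] (fun _ : Unit => u)
    (fun _ => al) (Vs_var ![Z.θ, u, al] 0) (fun _ => Vs_var ![Z.θ, u, al] 1)
    (fun _ => Vs_var ![Z.θ, u, al] 2) a (fun w => Z.θ ^ (w.1 : ℕ))
    (fun w => Finsupp.single () (w.2 : ℕ)) D D (fun w => Vs_mono _ (by have := w.1.2; omega)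
      (Vs_pow _ (Vs_var ![Z.θ, u, al] 0) w.1)) hew n)
  refine ⟨qq F ^ (n + 1), G, Nat.one_le_pow _ _ (by omega), hQ2, hG.trans ?_, ?_, ?_⟩
  · have h2 : D ≤ qq F ^ (n + 1) := (Nat.le_self_pow (by omega) D).trans hQ1
    nlinarith [Nat.mul_le_mul_left D h2]
  · rw [hGe]
    refine le_trans ?_ ((pow_le_pow_left₀ (Real.exp_pos _).le hlow _).trans hv1)
    rw [← Real.exp_nat_mul, Real.exp_le_exp, pow_add]
    nlinarith [mul_le_mul_of_nonneg_left hQ2' (by positivity : (0 : ℝ) ≤ (D : ℝ) ^ (3 * k0))]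
  · rw [hGe]
    refine hv2.trans ((pow_le_pow_left₀ (by positivity)
      (mul_le_mul_of_nonneg_right hφ (Real.exp_pos η).le) _).trans ?_)
    rw [← Real.exp_add, ← Real.exp_nat_mul, Real.exp_le_exp]
    have h2 : η ≤ 1 / (8 * cS) * D ^ 2 := by
      rw [one_div, ← div_eq_inv_mul, le_div_iff₀ (by positivity)]
      nlinarith
    have h3 : (D : ℝ) ^ 2 / (4 * cS) = 2 * (1 / (8 * cS) * D ^ 2) := by field_simp; norm_num
    rw [h3]
    nlinarith [mul_le_mul_of_nonneg_left h2 (Nat.cast_nonneg (α := ℝ) (qq F ^ (n + 1)))]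

end Pool.Agent.MP_655169_nt
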