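import Pool.Agent.MP_655169_nt.Inv

set_option linter.unusedSectionVars false

namespace Pool.Agent.MP_655169_nt

open Polynomial Filter Topology

variable {F C Ω : Type*} [Field F] [Fintype F] [NormedField C] [IsUltrametricDist C]
  [IsAlgClosed C] [Algebra F C] [NormedField Ω] [IsUltrametricDist Ω] [IsAlgClosed Ω]
  [Algebra C Ω] [Algebra F Ω] [IsScalarTower F C Ω] (Z : Sit F C Ω)

namespace Sit

variable {ι : Type*}

theorem Inv2_ss_ne : Z.ss ≠ 0 := Polynomial.X_sub_C_ne_zero _

theorem Inv2_evt_tw (n : ℕ) (H : C[X]) : Z.evt n (Z.tw 1 H) = Z.evt (n + 1) H := by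
  simp only [evt, RingHom.comp_apply, tw_succ]

theorem Inv2_evt_ss (n : ℕ) : Z.evt n Z.ss = Z.θ - Z.θ ^ qq F ^ (n + 1) := by
  rw [ss, map_sub, evt_X, evt_C]

theorem Inv2_scale {A : Type*} [CommRing A] (s : A) (R : MvPolynomial ι A) (e : ι →₀ ℕ) :
    (MvPolynomial.eval₂ MvPolynomial.C (fun i => MvPolynomial.C s * MvPolynomial.X i) R).coeff e =
      s ^ e.degree * R.coeff e := by
  classical
  induction R using MvPolynomial.induction_on' with
  | monomial d a =>
    have : (d.prod fun i k => (MvPolynomial.C s * MvPolynomial.X i : MvPolynomial ι A) ^ k) =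
        MvPolynomial.monomial d (s ^ d.degree) := by
      rw [MvPolynomial.monomial_eq]
      simp only [mul_pow, Finsupp.prod, Finset.prod_mul_distrib, ← map_pow, ← map_prod,
        Finset.prod_pow_eq_pow_sum, Finsupp.degree_apply]
    rw [MvPolynomial.eval₂_monomial, this, MvPolynomial.coeff_C_mul, MvPolynomial.coeff_monomial,
      MvPolynomial.coeff_monomial]
    split_ifs with h
    · rw [h, mul_comm]
    · simp
  | add p q hp hq => rw [MvPolynomial.eval₂_add, MvPolynomial.coeff_add, hp, hq,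
      MvPolynomial.coeff_add, mul_add]

theorem Inv2_pderiv (al : ι → C) (P : MvPolynomial ι C[X]) (i : ι) :
    MvPolynomial.pderiv i (Z.sgt al P) =
      MvPolynomial.C Z.ss * Z.sgt al (MvPolynomial.pderiv i P) := by
  classical
  unfold sgt
  induction P using MvPolynomial.induction_on with
  | C a => simp
  | add p q hp hq => simp only [MvPolynomial.eval₂_add, map_add, hp, hq, mul_add]
  | mul_X p j hp =>
    simp only [MvPolynomial.eval₂_mul, MvPolynomial.eval₂_X, Derivation.leibniz, hp, smul_eq_mul,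
      map_add, MvPolynomial.pderiv_C, MvPolynomial.eval₂_add, MvPolynomial.pderiv_X]
    by_cases h : j = i
    · subst h; simp; ring
    · simp [Pi.single_eq_of_ne h]; ring

theorem VV_sgt (u al : ι → C) (n : ℕ) (P : MvPolynomial ι C[X]) :
    Z.VV u al n (Z.sgt al P) = Z.VV u al (n + 1) P := by
  unfold VV sgt
  rw [← MvPolynomial.coe_eval₂Hom, MvPolynomial.eval₂_comp_left]
  congr 1
  · exact RingHom.ext fun H => by simp [Inv2_evt_tw]
  · funext i
    simp [ph, evt_C, Inv2_evt_ss]

theorem inv_top (al : ι → C) (P : MvPolynomial ι C[X]) (k : ℕ) (hk : P.totalDegree ≤ k)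
    (h : Z.sgt al P = MvPolynomial.C (Z.ss ^ k) * P) (e : ι →₀ ℕ) (he : e.degree = k) :
    ∃ B : F[X], P.coeff e = B.map (algebraMap F C) := by
  apply Z.tw_fixed
  have h1 := Z.sgt_top al P k hk e he
  rw [h, MvPolynomial.coeff_C_mul] at h1
  exact (mul_left_cancel₀ (pow_ne_zero k Z.Inv2_ss_ne) h1).symm

theorem inv_eval (al : ι → C) (P : MvPolynomial ι C[X]) (k : ℕ) (hk : P.totalDegree ≤ k)
    (h : Z.sgt al P = MvPolynomial.C (Z.ss ^ k) * P) (x : ι → C) :
    MvPolynomial.eval₂ (Z.evt 0) (fun i => al i + x i) P =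
      MvPolynomial.eval₂ (Polynomial.evalRingHom Z.θ) x
        (MvPolynomial.homogeneousComponent k P) := by
  classical
  set R : MvPolynomial ι C[X] := MvPolynomial.eval₂ (MvPolynomial.C.comp (Z.tw 1))
    (fun i => MvPolynomial.C (Polynomial.C (al i)) + MvPolynomial.X i) P with hR
  have h1 : Z.sgt al P = MvPolynomial.eval₂ MvPolynomial.C
      (fun i => MvPolynomial.C Z.ss * MvPolynomial.X i) R := by
    rw [hR, ← MvPolynomial.coe_eval₂Hom, MvPolynomial.eval₂_comp_left, sgt]
    congr 1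
    · exact RingHom.ext fun H => by simp
    · funext i; simp
  have h2 : MvPolynomial.eval₂ (Z.evt 0) (fun i => al i + x i) P =
      MvPolynomial.eval₂ (Polynomial.evalRingHom Z.θ) x R := by
    rw [hR, ← MvPolynomial.coe_eval₂Hom (Polynomial.evalRingHom Z.θ),
      MvPolynomial.eval₂_comp_left]
    congr 1
    · exact RingHom.ext fun H => by simp [evt]
    · funext i; simp
  have h3 : ∀ e : ι →₀ ℕ, Z.ss ^ e.degree * R.coeff e = Z.ss ^ k * P.coeff e := fun e => by
    rw [← Inv2_scale, ← h1, h, MvPolynomial.coeff_C_mul]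
  rw [h2, MvPolynomial.eval₂_eq_eval_map, MvPolynomial.eval₂_eq_eval_map]
  congr 1
  ext e
  rw [MvPolynomial.coeff_map, MvPolynomial.coeff_map, MvPolynomial.coeff_homogeneousComponent]
  rcases lt_trichotomy e.degree k with hlt | heq | hgt
  · obtain ⟨m, rfl⟩ := Nat.exists_eq_add_of_lt hlt
    have h4 := h3 e
    rw [add_assoc, pow_add, mul_assoc] at h4
    rw [mul_left_cancel₀ (pow_ne_zero _ Z.Inv2_ss_ne) h4, if_neg hlt.ne]
    simp [ss]
  · have h4 := h3 e
    rw [heq] at h4
    rw [mul_left_cancel₀ (pow_ne_zero _ Z.Inv2_ss_ne) h4, if_pos heq]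
  · have h4 := h3 e
    have h5 : P.coeff e = 0 := MvPolynomial.coeff_eq_zero_of_totalDegree_lt
      (lt_of_le_of_lt hk (by simpa [Finsupp.degree_apply] using hgt))
    rw [h5, mul_zero] at h4
    rw [(mul_eq_zero.1 h4).resolve_left (pow_ne_zero _ Z.Inv2_ss_ne), if_neg hgt.ne']

theorem inv_VV (u al : ι → C) (P : MvPolynomial ι C[X]) (k : ℕ)
    (h : Z.sgt al P = MvPolynomial.C (Z.ss ^ k) * P) (h0 : Z.VV u al 0 P = 0) (n : ℕ) :
    Z.VV u al n P = 0 := by
  induction n with
  | zero => exact h0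
  | succ n ih =>
    rw [← VV_sgt, h]
    unfold VV at ih ⊢
    rw [MvPolynomial.eval₂_mul, ih, mul_zero]

theorem inv_pderiv (al : ι → C) (P : MvPolynomial ι C[X]) (k : ℕ)
    (h : Z.sgt al P = MvPolynomial.C (Z.ss ^ (k + 1)) * P) (i : ι) :
    Z.sgt al (MvPolynomial.pderiv i P) =
      MvPolynomial.C (Z.ss ^ k) * MvPolynomial.pderiv i P := by
  have h1 := Z.Inv2_pderiv al P i
  rw [h, MvPolynomial.pderiv_C_mul, pow_succ', map_mul, mul_assoc] at h1
  exact (mul_left_cancel₀ (MvPolynomial.C_ne_zero.2 Z.Inv2_ss_ne) h1).symm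

end Sit

end Pool.Agent.MP_655169_nt
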