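import Pool.Agent.MP_655169_nt.IndB
import Pool.Agent.MP_655169_nt.Inv2
import Pool.Agent.MP_655169_nt.Fix

set_option linter.unusedSectionVars false

namespace Pool.Agent.MP_655169_nt

open Polynomial Filter Topology

variable {F C Ω : Type*} [Field F] [Fintype F] [NormedField C] [IsUltrametricDist C]
  [IsAlgClosed C] [Algebra F C] [NormedField Ω] [IsUltrametricDist Ω] [IsAlgClosed Ω]
  [Algebra C Ω] [Algebra F Ω] [IsScalarTower F C Ω] (Z : Sit F C Ω)

lemma ind_deg {ι R : Type*} [CommRing R] (P : MvPolynomial ι R) (k : ℕ)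
    (hk : P.totalDegree ≤ k + 1) (i : ι) : (MvPolynomial.pderiv i P).totalDegree ≤ k := by
  refine Finset.sup_le fun m hm => ?_
  rw [MvPolynomial.mem_support_iff, MvPolynomial.coeff_pderiv] at hm
  have h1 : (m + Finsupp.single i 1).degree ≤ k + 1 :=
    (MvPolynomial.le_totalDegree (MvPolynomial.mem_support_iff.2 (left_ne_zero_of_mul hm))).trans hk
  rw [map_add, Finsupp.degree_single] at h1
  exact Nat.le_of_succ_le_succ h1

lemma ind_hom {ι R : Type*} [CommRing R] (P : MvPolynomial ι R) (k : ℕ) (i : ι) :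
    MvPolynomial.homogeneousComponent k (MvPolynomial.pderiv i P) =
      MvPolynomial.pderiv i (MvPolynomial.homogeneousComponent (k + 1) P) := by
  ext m : 1
  simp only [MvPolynomial.coeff_homogeneousComponent, MvPolynomial.coeff_pderiv, map_add,
    Finsupp.degree_single, add_left_inj]
  split_ifs <;> simp

lemma ind_VV (u al : Fin 2 → C) (P : MvPolynomial (Fin 2) C[X]) (k : ℕ) (hk : P.totalDegree ≤ k)
    (h : Z.sgt al P = MvPolynomial.C (Z.ss ^ k) * P) : Z.VV u al 0 P =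
      MvPolynomial.eval₂ (Polynomial.evalRingHom Z.θ) (fun i => -u i)
        (MvPolynomial.homogeneousComponent k P) := by
  rw [← Z.inv_eval al P k hk h]
  simp only [Sit.VV, ph, sub_eq_add_neg]

lemma ind_aux (u al : Fin 2 → C) (f : Fin 2 → Ω) (h : ∀ i, Z.Agf (u i) (al i) (f i))
    (P : MvPolynomial (Fin 2) C[X]) (hP : Z.MinRel f al P) (i j : Fin 2)
    (hs : ∀ g : Fin 2 → C, ∑ l, g l = g i + g j)
    (hind : ∀ a b : F[X], aeval Z.θ a * u i + aeval Z.θ b * u j = 0 → a = 0) :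
    MvPolynomial.pderiv i P = 0 := by
  by_contra hi
  obtain ⟨k, hk⟩ : ∃ k, P.totalDegree = k + 1 := Nat.exists_eq_succ_of_ne_zero hP.pos.ne'
  have hinv := hP.inv
  rw [hk] at hinv
  have hd := ind_deg P k hk.le
  have hv := Z.inv_pderiv al P k hinv
  have hσ : ∀ l, Z.σ (Z.FF f (MvPolynomial.pderiv l P)) =
      aeval Z.t (Z.ss ^ k) * Z.FF f (MvPolynomial.pderiv l P) := fun l => by
    rw [← Z.FF_sgt f al (fun i => (h i).sol), hv, Sit.FF, MvPolynomial.eval₂_mul,
      MvPolynomial.eval₂_C]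
    rfl
  have h0 : Z.FF f (MvPolynomial.pderiv i P) ≠ 0 := fun h0 =>
    hi (hP.low _ h0 (hk ▸ Nat.lt_succ_of_le (hd i)))
  have hs0 : aeval Z.t (Z.ss ^ k) ≠ 0 := Z.aeval_ne _ (pow_ne_zero _ (X_sub_C_ne_zero _))
  set r := Z.FF f (MvPolynomial.pderiv j P) / Z.FF f (MvPolynomial.pderiv i P) with hr
  have hlim := (tendsto_const_nhds (x := r)).sub
    ((Z.FF_lim u al f h (MvPolynomial.pderiv j P)).div (Z.FF_lim u al f h _) h0)
  rw [← hr, sub_self, tendsto_zero_iff_norm_tendsto_zero] at hlim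
  obtain ⟨m, hm⟩ := (hlim.eventually (gt_mem_nhds one_pos)).exists
  obtain ⟨a, b, hb, hab⟩ := Z.fix r (by rw [hr, map_div₀, hσ, hσ, mul_div_mul_left _ _ hs0])
    (Z.HH u m k (MvPolynomial.pderiv j P)) (Z.HH u m k (MvPolynomial.pderiv i P)) (by
      rw [Z.HH_t u m k _ (hd i), Z.HH_t u m k _ (hd j),
        mul_div_mul_left _ _ (pow_ne_zero _ (Z.den_ne m))]
      exact hm)
  have h1 : MvPolynomial.C (b.map (algebraMap F C)) * MvPolynomial.pderiv j P -
      MvPolynomial.C (a.map (algebraMap F C)) * MvPolynomial.pderiv i P = 0 := by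
    refine hP.low _ ?_ ?_
    · rw [Sit.FF, MvPolynomial.eval₂_sub, MvPolynomial.eval₂_mul, MvPolynomial.eval₂_mul,
        MvPolynomial.eval₂_C, MvPolynomial.eval₂_C]
      change aeval Z.t (b.map (algebraMap F C)) * Z.FF f (MvPolynomial.pderiv j P) -
        aeval Z.t (a.map (algebraMap F C)) * Z.FF f (MvPolynomial.pderiv i P) = 0
      rw [← hab, hr]
      field_simp
      ring
    · rw [hk]
      refine Nat.lt_succ_of_le ((MvPolynomial.totalDegree_sub _ _).trans (max_le ?_ ?_)) <;>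
        refine (MvPolynomial.totalDegree_mul _ _).trans ?_ <;>
        rw [MvPolynomial.totalDegree_C, zero_add] <;> exact hd _
  have h2 : aeval Z.θ b * Z.VV u al 0 (MvPolynomial.pderiv j P) -
      aeval Z.θ a * Z.VV u al 0 (MvPolynomial.pderiv i P) = 0 := by
    have := congrArg (Z.VV u al 0) h1
    rwa [Sit.VV, Sit.VV, MvPolynomial.eval₂_sub, MvPolynomial.eval₂_mul, MvPolynomial.eval₂_mul,
      MvPolynomial.eval₂_C, MvPolynomial.eval₂_C, Z.evt_map, Z.evt_map,
      MvPolynomial.eval₂_zero] at this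
  have h3 : -u i * Z.VV u al 0 (MvPolynomial.pderiv i P) +
      -u j * Z.VV u al 0 (MvPolynomial.pderiv j P) = 0 := by
    have e0 := Z.ev_zero u al f h P hP.rel 0
    rw [ind_VV Z u al P (k + 1) hk.le hinv] at e0
    have := congrArg (MvPolynomial.eval₂ (Polynomial.evalRingHom Z.θ) fun i => -u i)
      (MvPolynomial.homogeneousComponent_isHomogeneous (k + 1) P).sum_X_mul_pderiv
    rw [nsmul_eq_mul, MvPolynomial.eval₂_mul, e0, mul_zero, MvPolynomial.eval₂_sum, hs,
      MvPolynomial.eval₂_mul, MvPolynomial.eval₂_mul, MvPolynomial.eval₂_X,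
      MvPolynomial.eval₂_X] at this
    rwa [ind_VV Z u al _ k (hd i) (hv i), ind_VV Z u al _ k (hd j) (hv j), ind_hom, ind_hom]
  have h4 : Z.VV u al 0 (MvPolynomial.pderiv i P) = 0 := by
    refine (mul_eq_zero.1 ?_).resolve_left fun h5 => hb (hind b a h5)
    linear_combination -u j * h2 - aeval Z.θ b * h3
  obtain ⟨n, hn⟩ := (Z.ev_ne u al f h _ h0).exists
  exact hn (Z.inv_VV u al _ k (hv i) h4 n)

theorem Sit.indA (u al : Fin 2 → C) (f : Fin 2 → Ω) (h : ∀ i, Z.Agf (u i) (al i) (f i))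
    (hind : ∀ a b : F[X], aeval Z.θ a * u 0 + aeval Z.θ b * u 1 = 0 → a = 0 ∧ b = 0)
    (P : MvPolynomial (Fin 2) C[X]) (hP : Z.MinRel f al P) (i : Fin 2) :
    MvPolynomial.pderiv i P = 0 := by
  fin_cases i
  · exact ind_aux Z u al f h P hP 0 1 Fin.sum_univ_two fun a b hab => (hind a b hab).1
  · exact ind_aux Z u al f h P hP 1 0 (fun g => (Fin.sum_univ_two g).trans (add_comm _ _))
      fun a b hab => (hind b a ((add_comm _ _).trans hab)).2

theorem Sit.ind (u al : Fin 2 → C) (f : Fin 2 → Ω) (h : ∀ i, Z.Agf (u i) (al i) (f i))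
    (hind : ∀ a b : F[X], aeval Z.θ a * u 0 + aeval Z.θ b * u 1 = 0 → a = 0 ∧ b = 0)
    (P : MvPolynomial (Fin 2) C[X]) (hP : P ≠ 0) : Z.FF f P ≠ 0 := by
  intro h0
  obtain ⟨R, hR⟩ := Z.exists_minRel f al (fun i => (h i).sol) P hP h0
  exact Z.indB u al f h R hR (Z.indA u al f h hind R hR)

end Pool.Agent.MP_655169_nt
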