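import Pool.Agent.MP_655169_nt.Eval

set_option linter.unusedSectionVars false

namespace Pool.Agent.MP_655169_nt

open Polynomial Filter Topology

section

variable {K ι : Type*} [Field K] (p : ℕ) [hp : Fact p.Prime] [CharP K p]

theorem IndB_pow (g : K[X]) {k : ℕ} (hk : p ∣ k) : derivative (g ^ k) = 0 := by
  rw [derivative_pow, (CharP.cast_eq_zero_iff K p k).2 hk]
  simp

theorem IndB_dvd (P : MvPolynomial ι K[X]) (hd : ∀ i, MvPolynomial.pderiv i P = 0) (e : ι →₀ ℕ)
    (he : e ∈ P.support) (i : ι) : p ∣ e i := by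
  classical
  rcases Nat.eq_zero_or_pos (e i) with h | h
  · rw [h]; exact dvd_zero p
  have e1 : e - Finsupp.single i 1 + Finsupp.single i 1 = e :=
    tsub_add_cancel_of_le (Finsupp.single_le_iff.2 h)
  have e2 := MvPolynomial.coeff_pderiv (i := i) P (e - Finsupp.single i 1)
  rw [hd, e1, MvPolynomial.coeff_zero, eq_comm, mul_eq_zero] at e2
  have e3 := e2.resolve_left (MvPolynomial.mem_support_iff.1 he)
  rw [← Nat.cast_succ, CharP.cast_eq_zero_iff K[X] p] at e3
  convert e3 using 1
  simp only [Finsupp.coe_tsub, Pi.sub_apply, Finsupp.single_eq_same]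
  omega

theorem IndB_root [IsAlgClosed K] (H : K[X]) (h : derivative H = 0) : ∃ G : K[X], G ^ p = H := by
  refine ⟨(contract p H).map (frobeniusEquiv K p).symm, ?_⟩
  rw [← map_frobenius_expand p, map_expand, Polynomial.map_map, frobenius_comp_frobeniusEquiv_symm,
    Polynomial.map_id, expand_contract p h hp.out.ne_zero]

omit hp [CharP K p] in
theorem IndB_prim (P : MvPolynomial ι K[X]) (h : ∀ c : K[X], (∀ e, c ∣ P.coeff e) → IsUnit c)
    (c a : K[X]) (hc : ∀ e, c ∣ a * P.coeff e) : c ∣ a := by
  let I : Ideal K[X] := Ideal.span (Set.range fun e => P.coeff e)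
  have h1 : IsUnit (Submodule.IsPrincipal.generator I) := h _ fun e =>
    (Submodule.IsPrincipal.mem_iff_generator_dvd I).1 (Ideal.subset_span ⟨e, rfl⟩)
  have h2 : ∀ x ∈ I, c ∣ a * x := fun x hx => by
    induction hx using Submodule.span_induction with
    | mem x hx => obtain ⟨e, rfl⟩ := hx; exact hc e
    | zero => simp
    | add x y _ _ k l => rw [mul_add]; exact dvd_add k l
    | smul r x _ k => rw [smul_eq_mul, mul_left_comm]; exact k.mul_left r
  exact h1.dvd_mul_right.1 (h2 _ (Submodule.IsPrincipal.generator_mem I))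

/-- The coefficientwise derivative. -/
noncomputable def IndB_d (P : MvPolynomial ι K[X]) : MvPolynomial ι K[X] :=
  ∑ e ∈ P.support, MvPolynomial.monomial e (derivative (P.coeff e))

omit hp [CharP K p] in
theorem IndB_coeff (P : MvPolynomial ι K[X]) (e : ι →₀ ℕ) :
    (IndB_d P).coeff e = derivative (P.coeff e) := by
  classical
  simp only [IndB_d, MvPolynomial.coeff_sum, MvPolynomial.coeff_monomial, Finset.sum_ite_eq']
  split_ifs with h
  · rfl
  · rw [MvPolynomial.notMem_support_iff.1 h, derivative_zero]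

omit hp [CharP K p] in
theorem IndB_supp (P : MvPolynomial ι K[X]) : (IndB_d P).support ⊆ P.support := fun e he => by
  rw [MvPolynomial.mem_support_iff] at he ⊢
  intro h
  rw [IndB_coeff, h, derivative_zero] at he
  exact he rfl

end

variable {F C Ω : Type*} [Field F] [Fintype F] [NormedField C] [IsUltrametricDist C]
  [IsAlgClosed C] [Algebra F C] [NormedField Ω] [IsUltrametricDist Ω] [IsAlgClosed Ω]
  [Algebra C Ω] [Algebra F Ω] [IsScalarTower F C Ω] (Z : Sit F C Ω)

theorem IndB_HH {ι : Type*} (p : ℕ) [Fact p.Prime] [CharP C p] (u : ι → C) (m D : ℕ)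
    (P : MvPolynomial ι C[X]) (h : ∀ e ∈ P.support, ∀ i, p ∣ e i) (hD : p ∣ D) :
    Z.HH u m D (IndB_d P) = derivative (Z.HH u m D P) := by
  unfold Sit.HH
  rw [derivative_sum, Finset.sum_subset (IndB_supp P) fun e _ he => by
    rw [MvPolynomial.notMem_support_iff.1 he, zero_mul, zero_mul]]
  refine Finset.sum_congr rfl fun e he => ?_
  have k1 : derivative (e.prod fun i k => Z.num (u i) m ^ k) = 0 :=
    Finset.prod_induction _ (fun g : C[X] => derivative g = 0)
      (fun a b ha hb => by rw [derivative_mul, ha, hb]; simp) derivative_one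
      fun i _ => IndB_pow p _ (h e he i)
  have k2 : derivative (Z.den m ^ (D - e.degree)) = 0 :=
    IndB_pow p _ (Nat.dvd_sub hD (Finset.dvd_sum fun i _ => h e he i))
  rw [derivative_mul, derivative_mul, k1, k2, IndB_coeff]
  simp

theorem Sit.indB {ι : Type*} [Fintype ι] (u al : ι → C) (f : ι → Ω)
    (h : ∀ i, Z.Agf (u i) (al i) (f i)) (P : MvPolynomial ι C[X]) (hP : Z.MinRel f al P)
    (hd : ∀ i, MvPolynomial.pderiv i P = 0) : False := by
  classical
  obtain ⟨p, hp⟩ := CharP.exists F
  have : Fact p.Prime := ⟨CharP.char_is_prime F p⟩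
  have : CharP C p := charP_of_injective_algebraMap (algebraMap F C).injective p
  have h1 := IndB_dvd p P hd
  obtain ⟨e0, he0, e1⟩ := Finset.exists_mem_eq_sup P.support
    (MvPolynomial.support_nonempty.2 hP.ne) fun s : ι →₀ ℕ => s.sum fun _ e => e
  have e2 : e0.degree = P.totalDegree := e1.symm
  have h2 : p ∣ P.totalDegree := e2 ▸ Finset.dvd_sum fun i _ => h1 e0 he0 i
  have h3 := MvPolynomial.totalDegree_le_of_support_subset (IndB_supp P)
  have h4 : Z.FF f (IndB_d P) = 0 := by
    have := le_of_tendsto_of_tendsto' (Z.FF_lim u al f h (IndB_d P)).norm (Z.FF_lim u al f h P).norm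
      fun m => by
        have k := Z.norm_deriv_le (Z.HH u m P.totalDegree P)
        rw [← IndB_HH Z p u m _ P h1 h2, Z.HH_t u m _ _ h3, Z.HH_t u m _ _ le_rfl, norm_mul,
          norm_mul] at k
        exact le_of_mul_le_mul_left k (norm_pos_iff.2 (pow_ne_zero _ (Z.den_ne m)))
    rw [hP.rel, norm_zero] at this
    exact norm_le_zero_iff.1 this
  have hc : P.coeff e0 ≠ 0 := MvPolynomial.mem_support_iff.1 he0
  have h5 : ∀ e, (MvPolynomial.C (P.coeff e0) * IndB_d P -
      MvPolynomial.C (derivative (P.coeff e0)) * P).coeff e =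
      P.coeff e0 * derivative (P.coeff e) - derivative (P.coeff e0) * P.coeff e := fun e => by
    rw [MvPolynomial.coeff_sub, MvPolynomial.coeff_C_mul, MvPolynomial.coeff_C_mul, IndB_coeff]
  have h6 := hP.top (MvPolynomial.C (P.coeff e0) * IndB_d P -
      MvPolynomial.C (derivative (P.coeff e0)) * P) (by
      have k := hP.rel
      unfold Sit.FF at h4 k ⊢
      rw [MvPolynomial.eval₂_sub, MvPolynomial.eval₂_mul, MvPolynomial.eval₂_mul, h4, k]
      simp)
    (MvPolynomial.totalDegree_le_of_support_subset fun e he => by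
      rw [MvPolynomial.mem_support_iff] at he ⊢
      intro k
      rw [h5, k] at he
      simp at he)
    (fun e _ k => by rw [h5, k]; simp) e0 e2 hc (by rw [h5]; ring)
  have h7 : ∀ e, P.coeff e0 * derivative (P.coeff e) = derivative (P.coeff e0) * P.coeff e :=
    fun e => by rw [← sub_eq_zero, ← h5, h6, MvPolynomial.coeff_zero]
  have h8 : derivative (P.coeff e0) = 0 := eq_zero_of_dvd_of_degree_lt
    (IndB_prim P hP.prim _ _ fun e => ⟨_, (h7 e).symm⟩) (degree_derivative_lt hc)
  choose G hG using fun e => IndB_root p (P.coeff e)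
    ((mul_eq_zero.1 (by rw [h7 e, h8, zero_mul])).resolve_left hc)
  let r : (ι →₀ ℕ) → ι →₀ ℕ := fun e => e.mapRange (· / p) (Nat.zero_div p)
  have hr : ∀ e ∈ P.support, p • r e = e := fun e he => by
    ext i
    simpa [r] using Nat.mul_div_cancel' (h1 e he i)
  have h9 : (∑ e ∈ P.support, MvPolynomial.monomial (r e) (G e)) ^ p = P := by
    rw [sum_pow_char]
    conv_rhs => rw [P.as_sum]
    exact Finset.sum_congr rfl fun e he => by rw [MvPolynomial.monomial_pow, hr e he, hG]
  have h10 := hP.low (∑ e ∈ P.support, MvPolynomial.monomial (r e) (G e)) (by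
    have k := hP.rel
    rw [← h9] at k
    unfold Sit.FF at k ⊢
    rw [MvPolynomial.eval₂_pow] at k
    exact pow_eq_zero_iff (Fact.out : p.Prime).ne_zero |>.1 k) (by
    refine (MvPolynomial.totalDegree_finsetSum _ _).trans_lt
      ((Finset.sup_lt_iff hP.pos).2 fun e he => (MvPolynomial.totalDegree_monomial_le _ _).trans_lt ?_)
    have k1 : e.degree ≤ P.totalDegree := MvPolynomial.le_totalDegree he
    have k2 : p * (r e).degree = e.degree := by
      conv_rhs => rw [← hr e he, map_nsmul, smul_eq_mul]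
    have k3 := (Fact.out : p.Prime).two_le
    have k4 := hP.pos
    change (r e).degree < _
    nlinarith)
  rw [h10, zero_pow (Fact.out : p.Prime).ne_zero] at h9
  exact hP.ne h9.symm

end Pool.Agent.MP_655169_nt
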