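import Pool.Agent.MP_655169_nt.SitB

set_option linter.unusedSectionVars false

namespace Pool.Agent.MP_655169_nt

open Polynomial Filter Topology

variable {F C Ω : Type*} [Field F] [Fintype F] [NormedField C] [IsUltrametricDist C]
  [IsAlgClosed C] [Algebra F C] [NormedField Ω] [IsUltrametricDist Ω] [IsAlgClosed Ω]
  [Algebra C Ω] [Algebra F Ω] [IsScalarTower F C Ω] (Z : Sit F C Ω)

section

variable {A ι : Type*} [CommRing A]

/-- Translation of the variables. -/
noncomputable def Inv_rho (b : ι → A) : MvPolynomial ι A →ₐ[A] MvPolynomial ι A :=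
  MvPolynomial.aeval fun i => MvPolynomial.C (b i) + MvPolynomial.X i

/-- Scaling of the variables. -/
noncomputable def Inv_tau (s : A) : MvPolynomial ι A →ₐ[A] MvPolynomial ι A :=
  MvPolynomial.aeval fun i => MvPolynomial.C s * MvPolynomial.X i

theorem Inv_tau_coeff (s : A) (P : MvPolynomial ι A) (e : ι →₀ ℕ) :
    (Inv_tau s P).coeff e = s ^ e.degree * P.coeff e := by
  classical
  induction P using MvPolynomial.induction_on generalizing e with
  | C a =>
    rw [Inv_tau, MvPolynomial.aeval_C, MvPolynomial.algebraMap_eq, MvPolynomial.coeff_C]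
    split_ifs with h
    · simp [← h]
    · simp
  | add p q hp hq => simp [hp, hq, mul_add]
  | mul_X p i hp =>
    have h : Inv_tau s (MvPolynomial.X i : MvPolynomial ι A) =
        MvPolynomial.C s * MvPolynomial.X i := MvPolynomial.aeval_X _ _
    rw [map_mul, h, mul_left_comm, MvPolynomial.coeff_C_mul, MvPolynomial.coeff_mul_X',
      MvPolynomial.coeff_mul_X']
    split_ifs with hi
    · have : e.degree = (e - Finsupp.single i 1).degree + 1 := by
        conv_lhs => rw [← Finsupp.sub_add_single_one_cancel (Finsupp.mem_support_iff.1 hi)]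
        simp
      rw [hp, this]; ring
    · simp

theorem Inv_rho_neg (b : ι → A) (P : MvPolynomial ι A) : Inv_rho (-b) (Inv_rho b P) = P := by
  have : (Inv_rho (-b)).comp (Inv_rho b) = AlgHom.id A (MvPolynomial ι A) := by
    ext1 i; simp [Inv_rho]
  exact DFunLike.congr_fun this P

theorem Inv_rho_mono (b : ι → A) (a : A) (n : ℕ) : ∀ m e : ι →₀ ℕ, m.degree = n → n ≤ e.degree →
    (Inv_rho b (MvPolynomial.monomial m a)).coeff e = (MvPolynomial.monomial m a).coeff e := by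
  classical
  induction n with
  | zero =>
    intro m e hm _
    rw [(Finsupp.degree_eq_zero_iff m).1 hm, MvPolynomial.monomial_zero', Inv_rho,
      MvPolynomial.aeval_C, MvPolynomial.algebraMap_eq]
  | succ n ih =>
    intro m e hm he
    have hm0 : m ≠ 0 := by rintro rfl; simp at hm
    obtain ⟨i, hi⟩ := Finsupp.ne_iff.1 hm0
    obtain ⟨m', rfl⟩ : ∃ m', m = m' + Finsupp.single i 1 :=
      ⟨_, (Finsupp.sub_add_single_one_cancel hi).symm⟩
    have hm' : m'.degree = n := by simpa using hm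
    have h : Inv_rho b (MvPolynomial.X i : MvPolynomial ι A) =
        MvPolynomial.C (b i) + MvPolynomial.X i := MvPolynomial.aeval_X _ _
    have hne : m' ≠ e := by rintro rfl; omega
    rw [MvPolynomial.monomial_add_single, pow_one, map_mul, h, mul_add, MvPolynomial.coeff_add,
      mul_comm _ (MvPolynomial.C _), MvPolynomial.coeff_C_mul, ih m' e hm' (by omega),
      MvPolynomial.coeff_monomial, if_neg hne, mul_zero, zero_add, MvPolynomial.coeff_mul_X',
      MvPolynomial.coeff_mul_X']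
    split_ifs with hi
    · have : e.degree = (e - Finsupp.single i 1).degree + 1 := by
        conv_lhs => rw [← Finsupp.sub_add_single_one_cancel (Finsupp.mem_support_iff.1 hi)]
        simp
      exact ih m' _ hm' (by omega)
    · rfl

theorem Inv_rho_top (b : ι → A) (P : MvPolynomial ι A) (e : ι →₀ ℕ)
    (he : P.totalDegree ≤ e.degree) : (Inv_rho b P).coeff e = P.coeff e := by
  conv_lhs => rw [P.as_sum]
  conv_rhs => rw [P.as_sum]
  rw [map_sum, MvPolynomial.coeff_sum, MvPolynomial.coeff_sum]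
  exact Finset.sum_congr rfl fun m hm =>
    Inv_rho_mono b _ _ m e rfl ((MvPolynomial.le_totalDegree hm).trans he)

theorem Inv_coeff_zero {P : MvPolynomial ι A} {e : ι →₀ ℕ} (he : P.totalDegree < e.degree) :
    P.coeff e = 0 := MvPolynomial.coeff_eq_zero_of_totalDegree_lt he

theorem Inv_deg_le {P : MvPolynomial ι A} {k : ℕ}
    (h : ∀ e : ι →₀ ℕ, k < e.degree → P.coeff e = 0) : P.totalDegree ≤ k :=
  Finset.sup_le fun e he => not_lt.1 fun hk => MvPolynomial.mem_support_iff.1 he (h e hk)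

theorem Inv_map_deg {B : Type*} [CommRing B] (f : A →+* B) (P : MvPolynomial ι A) :
    (MvPolynomial.map f P).totalDegree ≤ P.totalDegree :=
  Inv_deg_le fun e he => by rw [MvPolynomial.coeff_map, Inv_coeff_zero he, map_zero]

theorem Inv_rho_deg (b : ι → A) (P : MvPolynomial ι A) :
    (Inv_rho b P).totalDegree ≤ P.totalDegree :=
  Inv_deg_le fun e he => by rw [Inv_rho_top b P e he.le, Inv_coeff_zero he]

theorem Inv_rho_dvd (b : ι → A) (P : MvPolynomial ι A) (c : A)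
    (h : ∀ e, c ∣ (Inv_rho b P).coeff e) (e : ι →₀ ℕ) : c ∣ P.coeff e := by
  obtain ⟨Q, hQ⟩ := (MvPolynomial.C_dvd_iff_dvd_coeff c _).2 h
  rw [← Inv_rho_neg b P, hQ, map_mul, Inv_rho, MvPolynomial.aeval_C, MvPolynomial.algebraMap_eq,
    MvPolynomial.coeff_C_mul]
  exact dvd_mul_right _ _

theorem Inv_dvd {B κ : Type*} [CommRing B] [IsDomain B] [GCDMonoid B] {a c : B} (hc : c ≠ 0)
    (r : κ → B) (hr : ∀ x, (∀ e, x ∣ r e) → IsUnit x) (h : ∀ e, a ∣ c * r e) : a ∣ c := by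
  obtain ⟨x, hx⟩ := gcd_dvd_left a c
  have hg : gcd a c ≠ 0 := fun h => hc ((gcd_eq_zero_iff _ _).1 h).2
  have hu : IsUnit x := hr x fun e =>
    (mul_dvd_mul_iff_left hg).1 (hx ▸ dvd_gcd_mul_of_dvd_mul (h e))
  exact dvd_trans (by nth_rewrite 1 [hx]; exact hu.mul_right_dvd.2 dvd_rfl) (gcd_dvd_right a c)

theorem Inv_min {α : Type*} (p : α → Prop) (f : α → ℕ) (h : ∃ a, p a) :
    ∃ a, p a ∧ ∀ b, p b → f a ≤ f b := by
  obtain ⟨a, ha, hm⟩ := (measure f).wf.has_min {a | p a} h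
  exact ⟨a, ha, fun b hb => not_lt.1 (hm b hb)⟩

end

namespace Sit

variable {ι : Type*}

theorem Inv_sgt_eq (al : ι → C) (P : MvPolynomial ι C[X]) : Z.sgt al P =
    Inv_tau Z.ss (Inv_rho (fun i => Polynomial.C (al i)) (MvPolynomial.map (Z.tw 1) P)) := by
  induction P using MvPolynomial.induction_on with
  | C a => simp [sgt, Inv_tau, Inv_rho]
  | add p q hp hq =>
    rw [map_add, map_add, map_add, ← hp, ← hq]; exact MvPolynomial.eval₂_add ..
  | mul_X p i hp =>
    rw [map_mul, map_mul, map_mul, ← hp, sgt, MvPolynomial.eval₂_mul]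
    simp [sgt, Inv_tau, Inv_rho]

theorem Inv_sgt_coeff (al : ι → C) (P : MvPolynomial ι C[X]) (e : ι →₀ ℕ) :
    (Z.sgt al P).coeff e = Z.ss ^ e.degree *
      (Inv_rho (fun i => Polynomial.C (al i)) (MvPolynomial.map (Z.tw 1) P)).coeff e := by
  rw [Inv_sgt_eq, Inv_tau_coeff]

theorem Inv_FF_C_mul (y : ι → Ω) (c : C[X]) (P : MvPolynomial ι C[X]) :
    Z.FF y (MvPolynomial.C c * P) = aeval Z.t c * Z.FF y P := by
  simp [FF]

theorem Inv_prim (al : ι → C) (P : MvPolynomial ι C[X])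
    (hP : ∀ c : C[X], (∀ e, c ∣ P.coeff e) → IsUnit c) (c : C[X])
    (h : ∀ e, c ∣ (Inv_rho (fun i => Polynomial.C (al i))
      (MvPolynomial.map (Z.tw 1) P)).coeff e) : IsUnit c := by
  obtain ⟨c', rfl⟩ := Z.tw_bij.2 c
  refine (hP c' fun e => ?_).map _
  obtain ⟨r, hr⟩ := Inv_rho_dvd _ _ _ h e
  obtain ⟨r', rfl⟩ := Z.tw_bij.2 r
  rw [MvPolynomial.coeff_map, ← map_mul] at hr
  exact ⟨r', Z.tw_bij.1 hr⟩

theorem FF_sgt (y : ι → Ω) (al : ι → C) (hy : ∀ i, Z.Sol (al i) (y i))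
    (P : MvPolynomial ι C[X]) : Z.FF y (Z.sgt al P) = Z.σ (Z.FF y P) := by
  induction P using MvPolynomial.induction_on with
  | C a => simp [sgt, FF, σ_aeval]
  | add p q hp hq =>
    simp only [sgt, FF, MvPolynomial.eval₂_add, map_add] at hp hq ⊢
    rw [hp, hq]
  | mul_X p i hp =>
    simp only [sgt, FF, MvPolynomial.eval₂_mul, map_mul, MvPolynomial.eval₂_X,
      MvPolynomial.eval₂_add, MvPolynomial.eval₂_C] at hp ⊢
    rw [hp, hy i]
    simp [ss]

theorem sgt_deg (al : ι → C) (P : MvPolynomial ι C[X]) :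
    (Z.sgt al P).totalDegree ≤ P.totalDegree := by
  refine Inv_deg_le fun e he => ?_
  rw [Inv_sgt_coeff, Inv_coeff_zero (((Inv_rho_deg _ _).trans (Inv_map_deg _ _)).trans_lt he),
    mul_zero]

theorem sgt_top (al : ι → C) (P : MvPolynomial ι C[X]) (k : ℕ) (hk : P.totalDegree ≤ k)
    (e : ι →₀ ℕ) (he : e.degree = k) :
    (Z.sgt al P).coeff e = Z.ss ^ k * Z.tw 1 (P.coeff e) := by
  rw [Inv_sgt_coeff, Inv_rho_top _ _ _ ((Inv_map_deg _ _).trans (he ▸ hk)), he,
    MvPolynomial.coeff_map]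

theorem Inv_inv (y : ι → Ω) (al : ι → C) (hy : ∀ i, Z.Sol (al i) (y i))
    (P : MvPolynomial ι C[X]) (rel : Z.FF y P = 0)
    (top : ∀ R, Z.FF y R = 0 → R.totalDegree ≤ P.totalDegree →
      (∀ e : ι →₀ ℕ, e.degree = P.totalDegree → P.coeff e = 0 → R.coeff e = 0) →
      ∀ e0 : ι →₀ ℕ, e0.degree = P.totalDegree → P.coeff e0 ≠ 0 → R.coeff e0 = 0 → R = 0)
    (prim : ∀ c : C[X], (∀ e, c ∣ P.coeff e) → IsUnit c) (e0 : ι →₀ ℕ)
    (he0 : e0.degree = P.totalDegree) (hc : (P.coeff e0).Monic) :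
    Z.sgt al P = MvPolynomial.C (Z.ss ^ P.totalDegree) * P := by
  classical
  set c := P.coeff e0 with hcd
  set d := P.totalDegree
  have hs : Z.ss ≠ 0 := X_sub_C_ne_zero _
  have hR : MvPolynomial.C (Z.tw 1 c * Z.ss ^ d) * P - MvPolynomial.C c * Z.sgt al P = 0 := by
    refine top _ ?_ ?_ (fun e he h => ?_) e0 he0 hc.ne_zero ?_
    · rw [FF, MvPolynomial.eval₂_sub, ← FF, ← FF, Inv_FF_C_mul, Inv_FF_C_mul, Z.FF_sgt y al hy, rel]
      simp
    · refine Inv_deg_le fun e he => ?_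
      rw [MvPolynomial.coeff_sub, MvPolynomial.coeff_C_mul, MvPolynomial.coeff_C_mul,
        Inv_coeff_zero he, Inv_coeff_zero ((Z.sgt_deg al P).trans_lt he)]
      simp
    · rw [MvPolynomial.coeff_sub, MvPolynomial.coeff_C_mul, MvPolynomial.coeff_C_mul,
        Z.sgt_top al P d le_rfl e he, h]
      simp
    · rw [MvPolynomial.coeff_sub, MvPolynomial.coeff_C_mul, MvPolynomial.coeff_C_mul,
        Z.sgt_top al P d le_rfl e0 he0]
      ring
  rw [sub_eq_zero] at hR
  have hm : (Z.tw 1 c).Monic := hc.map _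
  have hdvd : Z.tw 1 c ∣ c := by
    refine Inv_dvd hc.ne_zero _ (Z.Inv_prim al P prim) fun e => ?_
    rcases lt_or_ge d e.degree with h | h
    · rw [Inv_coeff_zero (((Inv_rho_deg _ _).trans (Inv_map_deg _ _)).trans_lt h), mul_zero]
      exact dvd_zero _
    · obtain ⟨k, hk⟩ := Nat.exists_eq_add_of_le h
      have h1 := congrArg (MvPolynomial.coeff e) hR
      rw [MvPolynomial.coeff_C_mul, MvPolynomial.coeff_C_mul, Inv_sgt_coeff, hk] at h1
      exact ⟨Z.ss ^ k * P.coeff e,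
        mul_left_cancel₀ (pow_ne_zero e.degree hs) (by linear_combination -h1)⟩
  rw [← eq_of_monic_of_dvd_of_natDegree_le hm hc hdvd (Z.tw_natDegree 1 c).ge, map_mul,
    mul_assoc] at hR
  exact (mul_left_cancel₀ (MvPolynomial.C_ne_zero.2 hc.ne_zero) hR).symm

theorem exists_minRel (y : ι → Ω) (al : ι → C) (hy : ∀ i, Z.Sol (al i) (y i))
    (R : MvPolynomial ι C[X]) (hR : R ≠ 0) (h0 : Z.FF y R = 0) : ∃ P, Z.MinRel y al P := by
  classical
  obtain ⟨P0, ⟨n0, r0⟩, m0⟩ := Inv_min (fun P : MvPolynomial ι C[X] => P ≠ 0 ∧ Z.FF y P = 0)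
    MvPolynomial.totalDegree ⟨R, hR, h0⟩
  obtain ⟨P1, ⟨n1, r1, d1⟩, m1⟩ := Inv_min (fun P : MvPolynomial ι C[X] => P ≠ 0 ∧ Z.FF y P = 0 ∧
    P.totalDegree = P0.totalDegree)
    (fun P => (P.support.filter fun e => e.degree = P0.totalDegree).card) ⟨P0, n0, r0, rfl⟩
  obtain ⟨e0, he0, hd0⟩ := P1.support.exists_mem_eq_sup (MvPolynomial.support_nonempty.2 n1)
    fun s => s.sum fun _ e => e
  have hsupp : ∀ (c : C[X]) (Q : MvPolynomial ι C[X]), c ≠ 0 →
      (MvPolynomial.C c * Q).support = Q.support := fun c Q hc => by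
    ext e; simp [MvPolynomial.coeff_C_mul, hc]
  have scale : ∀ Q : MvPolynomial ι C[X], Q.support = P1.support → Z.FF y Q = 0 →
      ∃ Q' : MvPolynomial ι C[X], (Q'.support = P1.support ∧ Z.FF y Q' = 0 ∧
        (Q'.coeff e0).Monic) ∧ (Q'.coeff e0).natDegree = (Q.coeff e0).natDegree := by
    intro Q hQ hr
    have hne : Q.coeff e0 ≠ 0 := MvPolynomial.mem_support_iff.1 (hQ ▸ he0)
    have hl : (Q.coeff e0).leadingCoeff⁻¹ ≠ 0 := inv_ne_zero (leadingCoeff_ne_zero.2 hne)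
    refine ⟨MvPolynomial.C (Polynomial.C (Q.coeff e0).leadingCoeff⁻¹) * Q,
      ⟨(hsupp _ _ (C_ne_zero.2 hl)).trans hQ, by rw [Inv_FF_C_mul, hr, mul_zero], ?_⟩, ?_⟩
    · rw [MvPolynomial.coeff_C_mul, mul_comm]; exact monic_mul_leadingCoeff_inv hne
    · rw [MvPolynomial.coeff_C_mul, natDegree_C_mul hl]
  obtain ⟨P, ⟨s2, r2, c2⟩, m2⟩ := Inv_min (fun Q : MvPolynomial ι C[X] => Q.support = P1.support ∧
    Z.FF y Q = 0 ∧ (Q.coeff e0).Monic) (fun Q => (Q.coeff e0).natDegree)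
    ((scale P1 rfl r1).imp fun _ h => h.1)
  have dP : P.totalDegree = P0.totalDegree := by
    rw [← d1, MvPolynomial.totalDegree, s2, MvPolynomial.totalDegree]
  have nP : P ≠ 0 := fun h => c2.ne_zero (by simp [h])
  have top : ∀ R, Z.FF y R = 0 → R.totalDegree ≤ P.totalDegree →
      (∀ e : ι →₀ ℕ, e.degree = P.totalDegree → P.coeff e = 0 → R.coeff e = 0) →
      ∀ e0 : ι →₀ ℕ, e0.degree = P.totalDegree → P.coeff e0 ≠ 0 → R.coeff e0 = 0 → R = 0 := by
    intro R hr hd hsub e1 he1 hP1 hR1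
    by_contra hn
    refine (m1 R ⟨hn, hr, le_antisymm (dP ▸ hd) (m0 R ⟨hn, hr⟩)⟩).not_gt
      (Finset.card_lt_card ⟨fun e he => ?_, fun h => ?_⟩)
    · rw [Finset.mem_filter, ← s2, MvPolynomial.mem_support_iff] at *
      exact ⟨fun h => he.1 (hsub e (he.2.trans dP.symm) h), he.2⟩
    · have := h (Finset.mem_filter.2 ⟨s2 ▸ MvPolynomial.mem_support_iff.2 hP1, he1.trans dP⟩)
      exact MvPolynomial.mem_support_iff.1 (Finset.mem_filter.1 this).1 hR1
  have prim : ∀ c : C[X], (∀ e, c ∣ P.coeff e) → IsUnit c := by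
    intro c h
    obtain ⟨Q, hQ⟩ := (MvPolynomial.C_dvd_iff_dvd_coeff c _).2 h
    have hc : c ≠ 0 := by rintro rfl; simp [nP] at hQ
    have sQ : Q.support = P1.support := by rw [← s2, hQ, hsupp _ _ hc]
    have rQ : Z.FF y Q = 0 := by
      rw [hQ, Inv_FF_C_mul] at r2
      exact (mul_eq_zero.1 r2).resolve_left (Z.aeval_ne c hc)
    obtain ⟨Q', h1, h2⟩ := scale Q sQ rQ
    have h3 := m2 Q' h1
    rw [h2, hQ, MvPolynomial.coeff_C_mul,
      natDegree_mul hc (MvPolynomial.mem_support_iff.1 (sQ ▸ he0))] at h3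
    exact isUnit_iff_degree_eq_zero.2 ((degree_eq_natDegree hc).trans (by
      rw [show c.natDegree = 0 by omega]; rfl))
  refine ⟨P, nP, r2, Nat.pos_of_ne_zero fun h => ?_, fun R hr hd => ?_, top, prim,
    Z.Inv_inv y al hy P r2 top prim e0 (by rw [dP, ← d1]; exact hd0.symm) c2⟩
  · rw [MvPolynomial.totalDegree_eq_zero_iff_eq_C] at h
    rw [h, FF, MvPolynomial.eval₂_C] at r2
    exact Z.aeval_ne _ (fun h' => nP (by rw [h, h', map_zero])) r2
  · by_contra hn
    exact (m0 R ⟨hn, hr⟩).not_gt (dP ▸ hd)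

end Sit

end Pool.Agent.MP_655169_nt
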