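import Pool.Agent.MP_655169_nt.Inv2

set_option linter.unusedSectionVars false

namespace Pool.Agent.MP_655169_nt

open Polynomial Filter Topology

variable {F C Ω : Type*} [Field F] [Fintype F] [NormedField C] [IsUltrametricDist C]
  [IsAlgClosed C] [Algebra F C] [NormedField Ω] [IsUltrametricDist Ω] [IsAlgClosed Ω]
  [Algebra C Ω] [Algebra F Ω] [IsScalarTower F C Ω] (Z : Sit F C Ω)

theorem Inv1_deg {R : Type*} [CommSemiring R] (P : MvPolynomial Unit R) :
    (MvPolynomial.uniqueAlgEquiv R Unit P).natDegree = P.totalDegree := by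
  apply le_antisymm
  · rw [natDegree_le_iff_coeff_eq_zero]
    intro N hN
    rw [MvPolynomial.coeff_uniqueAlgEquiv]
    by_contra h
    have := MvPolynomial.le_totalDegree (MvPolynomial.mem_support_iff.2 h)
    simp only [Finsupp.sum_single_index] at this
    omega
  · refine Finset.sup_le fun d hd => ?_
    have h := MvPolynomial.mem_support_iff.1 hd
    rw [Finsupp.unique_single d, ← MvPolynomial.coeff_uniqueAlgEquiv] at h
    rw [Finsupp.unique_single d]
    simp only [Finsupp.sum_single_index]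
    exact le_natDegree_of_ne_zero h

theorem Inv1_dvd {R K : Type*} [CommRing R] [IsDomain R] [NormalizedGCDMonoid R] [Field K]
    (φ : R →+* K) (hφ : Function.Injective φ) (ξ : K) (p q : R[X]) (hp : p.IsPrimitive)
    (hp0 : p.eval₂ φ ξ = 0) (hq0 : q.eval₂ φ ξ = 0) (hd : 0 < p.natDegree)
    (hmin : ∀ r : R[X], r.eval₂ φ ξ = 0 → r.natDegree < p.natDegree → r = 0) : p ∣ q := by
  let L := FractionRing R
  let g : L →+* K := IsFractionRing.lift hφ
  have hg : g.comp (algebraMap R L) = φ := by
    ext x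
    simp [g]
  have hinj : Function.Injective (algebraMap R L) := IsFractionRing.injective R L
  refine hp.dvd_of_fraction_map_dvd_fraction_map (K := L) ?_
  rw [← EuclideanDomain.mod_eq_zero]
  set p' := p.map (algebraMap R L) with hp'
  set q' := q.map (algebraMap R L) with hq'
  have e1 : p'.eval₂ g ξ = 0 := by rw [hp', eval₂_map, hg, hp0]
  have e2 : q'.eval₂ g ξ = 0 := by rw [hq', eval₂_map, hg, hq0]
  have e3 : (q' % p').eval₂ g ξ = 0 := by
    have := congrArg (eval₂ g ξ) (EuclideanDomain.div_add_mod q' p')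
    rwa [eval₂_add, eval₂_mul, e1, zero_mul, zero_add, e2] at this
  have hdeg : p'.natDegree = p.natDegree := natDegree_map_eq_of_injective hinj p
  have e4 := IsLocalization.integerNormalization_eval₂_eq_zero (nonZeroDivisors R) g _ e3
  rw [hg] at e4
  have e5 : (IsLocalization.integerNormalization (nonZeroDivisors R) (q' % p')).natDegree <
      p.natDegree := by
    refine lt_of_le_of_lt (natDegree_le_natDegree (degree_mono
      (IsLocalization.integerNormalization_support _ _))) ?_
    rw [← hdeg]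
    exact natDegree_mod_lt _ (by omega)
  exact IsFractionRing.integerNormalization_eq_zero_iff.1 (hmin _ e4 e5)

theorem Inv1_swap {R : Type*} [CommRing R] (p : R[X][X]) (i j : ℕ) :
    ((Bivariate.swap p).coeff i).coeff j = (p.coeff j).coeff i := by
  induction p using Polynomial.induction_on' with
  | add p q hp hq => simp only [map_add, coeff_add, hp, hq]
  | monomial n f =>
    induction f using Polynomial.induction_on' with
    | add p q hp hq => simp only [map_add, coeff_add, hp, hq]
    | monomial m r =>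
      rw [Bivariate.swap_monomial_monomial]
      simp only [coeff_monomial]
      split_ifs <;> simp_all [coeff_monomial]

theorem Inv1_prod {Λ : Type*} [NormedField Λ] [IsUltrametricDist Λ] (A : ℝ) (hA : 1 ≤ A)
    (s : Multiset Λ) (hs : ∀ x ∈ s, ‖x‖ ≤ A) (j : ℕ) :
    ‖((s.map fun x => X - Polynomial.C x).prod).coeff j‖ ≤ A ^ s.card := by
  induction s using Multiset.induction_on generalizing j with
  | empty =>
    simp only [Multiset.map_zero, Multiset.prod_zero, coeff_one, Multiset.card_zero, pow_zero]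
    split_ifs <;> simp
  | cons x s ih =>
    have ih' := ih fun y hy => hs y (Multiset.mem_cons_of_mem hy)
    have hx := hs x (Multiset.mem_cons_self x s)
    rw [Multiset.map_cons, Multiset.prod_cons, Multiset.card_cons, sub_mul, coeff_sub,
      coeff_C_mul, pow_succ, sub_eq_add_neg]
    have h0 : (0 : ℝ) ≤ A ^ s.card := by positivity
    refine (IsUltrametricDist.norm_add_le_max _ _).trans (max_le ?_ ?_)
    · cases j with
      | zero => simp only [coeff_X_mul_zero, norm_zero]; positivity
      | succ j =>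
        rw [coeff_X_mul]
        exact (ih' j).trans (le_mul_of_one_le_right h0 hA)
    · rw [norm_neg, norm_mul, mul_comm]
      exact mul_le_mul (ih' j) hx (norm_nonneg _) h0

namespace Sit

theorem Inv1_inj : Function.Injective (aeval Z.t : C[X] →ₐ[C] Ω).toRingHom := by
  rw [injective_iff_map_eq_zero]
  intro H hH
  by_contra h
  exact Z.aeval_ne H h hH

theorem inv1 (ξ : Ω) (a : C) (h : Z.Sol a ξ) (Ψ : C[X][X]) (hΨ : Ψ ≠ 0) (h0 : Z.PW Ψ ξ = 0) :
    ∃ Ψ0 : C[X][X], Ψ0 ∣ Ψ ∧ Z.PW Ψ0 ξ = 0 ∧ 0 < Ψ0.natDegree ∧ ∃ B : F[X], B ≠ 0 ∧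
      Ψ0.leadingCoeff = B.map (algebraMap F C) ∧
      ∀ x : C, Ψ0.eval₂ (Z.evt 0) (a + x) = aeval Z.θ B * x ^ Ψ0.natDegree := by
  classical
  let E := MvPolynomial.uniqueAlgEquiv C[X] Unit
  have hFF : ∀ r : C[X][X], Z.FF (fun _ : Unit => ξ) (E.symm r) = Z.PW r ξ := fun r =>
    MvPolynomial.eval₂_const_uniqueAlgEquiv_symm
  obtain ⟨P, hP⟩ := Z.exists_minRel (fun _ : Unit => ξ) (fun _ => a) (fun _ => h) (E.symm Ψ)
    (by simpa using hΨ) ((hFF Ψ).trans h0)
  have hdeg : (E P).natDegree = P.totalDegree := Inv1_deg P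
  have hrel : Z.PW (E P) ξ = 0 := by
    rw [← hFF, E.symm_apply_apply]
    exact hP.rel
  have hpos : 0 < (E P).natDegree := hdeg ▸ hP.pos
  have hprim : (E P).IsPrimitive := by
    intro c hc
    refine hP.prim c fun e => ?_
    have := (C_dvd_iff_dvd_coeff c _).1 hc (e default)
    rwa [MvPolynomial.coeff_uniqueAlgEquiv, ← Finsupp.unique_single e] at this
  have hdvd : E P ∣ Ψ := by
    refine Inv1_dvd _ Z.Inv1_inj ξ _ _ hprim hrel h0 hpos fun r hr hlt => ?_
    have h1 : (E.symm r).totalDegree < P.totalDegree := by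
      rw [← Inv1_deg (E.symm r), ← hdeg]
      change (E (E.symm r)).natDegree < _
      rwa [E.apply_symm_apply]
    simpa using hP.low _ ((hFF r).trans hr) h1
  have hlc : (E P).leadingCoeff = P.coeff (Finsupp.single default P.totalDegree) := by
    rw [leadingCoeff, hdeg, MvPolynomial.coeff_uniqueAlgEquiv]
  obtain ⟨B, hB⟩ := Z.inv_top (fun _ => a) P _ le_rfl hP.inv
    (Finsupp.single default P.totalDegree) (by simp)
  have hne : E P ≠ 0 := by simpa using hP.ne
  refine ⟨E P, hdvd, hrel, hpos, B, ?_, hlc.trans hB, fun x => ?_⟩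
  · rintro rfl
    apply leadingCoeff_ne_zero.2 hne
    rw [hlc, hB, Polynomial.map_zero]
  · have hh : MvPolynomial.homogeneousComponent P.totalDegree P =
        MvPolynomial.monomial (Finsupp.single default P.totalDegree)
          (B.map (algebraMap F C)) := by
      ext1 d
      rw [MvPolynomial.coeff_homogeneousComponent, MvPolynomial.coeff_monomial, ← hB]
      have hd : d.degree = d default := by
        conv_lhs => rw [Finsupp.unique_single d]
        simp
      by_cases e : d default = P.totalDegree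
      · have e' : Finsupp.single default P.totalDegree = d := by
          rw [← e, ← Finsupp.unique_single d]
        rw [if_pos (hd.trans e), if_pos e', e']
      · rw [if_neg (fun h => e (hd.symm.trans h)), if_neg]
        intro e'
        apply e
        rw [← e']
        simp
    rw [MvPolynomial.eval₂_const_uniqueAlgEquiv, hdeg]
    have := Z.inv_eval (fun _ => a) P _ le_rfl hP.inv fun _ => x
    rw [this, hh, MvPolynomial.eval₂_monomial]
    simp [eval_map_algebraMap]

theorem dvd_bd (Ψ0 Ψ : C[X][X]) (hd : Ψ0 ∣ Ψ) (hΨ : Ψ ≠ 0) (T : ℕ) (A : ℝ) (hA1 : 1 ≤ A)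
    (hT : ∀ j, (Ψ.coeff j).natDegree ≤ T) (hA : ∀ j, ‖aeval Z.t (Ψ.coeff j)‖ ≤ A)
    (hl : 1 ≤ ‖aeval Z.t Ψ.leadingCoeff‖) (hl0 : ‖aeval Z.t Ψ0.leadingCoeff‖ = 1) (j : ℕ) :
    (Ψ0.coeff j).natDegree ≤ T ∧ ‖aeval Z.t (Ψ0.coeff j)‖ ≤ A ^ Ψ.natDegree := by
  constructor
  · have h1 : (Bivariate.swap Ψ).natDegree ≤ T := by
      rw [natDegree_le_iff_coeff_eq_zero]
      intro N hN
      ext i
      rw [Inv1_swap, coeff_zero]
      exact coeff_eq_zero_of_natDegree_lt ((hT i).trans_lt hN)
    have h2 : (Bivariate.swap Ψ0).natDegree ≤ T :=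
      (natDegree_le_of_dvd (_root_.map_dvd Bivariate.swap hd) (by simpa using hΨ)).trans h1
    rw [natDegree_le_iff_coeff_eq_zero]
    intro N hN
    rw [← Inv1_swap, coeff_eq_zero_of_natDegree_lt (h2.trans_lt hN), coeff_zero]
  · let φ := (aeval Z.t : C[X] →ₐ[C] Ω).toRingHom
    have hφ : Function.Injective φ := Z.Inv1_inj
    have hc : ∀ (p : C[X][X]) (i : ℕ), (p.map φ).coeff i = aeval Z.t (p.coeff i) := fun p i => by
      rw [coeff_map]; rfl
    have hlc : ∀ p : C[X][X], (p.map φ).leadingCoeff = aeval Z.t p.leadingCoeff := fun p => by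
      rw [leadingCoeff_map_of_injective hφ]; rfl
    have hs : (Ψ0.map φ).Splits := IsAlgClosed.splits _
    have hroot : ∀ x ∈ (Ψ0.map φ).roots, ‖x‖ ≤ A := fun x hx => by
      refine root_le (Ψ.map φ) A hA1 (fun i => by rw [hc]; exact hA i) (by rw [hlc]; exact hl) x ?_
      exact (isRoot_of_mem_roots hx).dvd (Polynomial.map_dvd φ hd)
    have hcard : (Ψ0.map φ).roots.card ≤ Ψ.natDegree := by
      refine (card_roots' _).trans ?_
      rw [natDegree_map_eq_of_injective hφ]
      exact natDegree_le_of_dvd hd hΨ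
    rw [← hc, hs.eq_prod_roots, coeff_C_mul, norm_mul, hlc, hl0, one_mul]
    exact (Inv1_prod A hA1 _ hroot j).trans (pow_le_pow_right₀ hA1 hcard)

end Sit

end Pool.Agent.MP_655169_nt
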