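import Pool.Agent.MP_655169_nt.Bridge

open scoped IntermediateField

namespace Pool.Agent.MP_655169_nt.KeptTwo

open Pool.Agent.MP_655169_nt

theorem result {F E : Type*} [Field F] [Fintype F] [NormedField E] [IsUltrametricDist E]
    [CompleteSpace E] [Algebra F E] (θ : E) (hθ : 1 < ‖θ‖) (x y : E)
    (h : LinearIndependent F⟮θ⟯ ![x, y]) :
    2 ≤ Algebra.trdeg F⟮θ⟯ (IntermediateField.adjoin F⟮θ⟯
      {x, y, carlitzExp (Fintype.card F) θ x, carlitzExp (Fintype.card F) θ y}) := by
  obtain ⟨i, j, hij⟩ := bridge θ hθ ![x, y] h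
  set L := IntermediateField.adjoin F⟮θ⟯
    ({x, y, carlitzExp (Fintype.card F) θ x, carlitzExp (Fintype.card F) θ y} : Set E) with hL
  have hm : ∀ k : Fin 2 ⊕ Fin 2,
      Sum.elim ![x, y] (fun k => carlitzExp (qq F) θ (![x, y] k)) k ∈ L := by
    intro k
    apply IntermediateField.subset_adjoin
    rcases k with k | k <;> fin_cases k <;> simp
  have h2 : AlgebraicIndependent F⟮θ⟯ (![⟨_, hm i⟩, ⟨_, hm j⟩] : Fin 2 → L) := by
    refine AlgebraicIndependent.of_comp L.val ?_
    convert hij using 1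
    funext k
    fin_cases k <;> rfl
  simpa using h2.lift_cardinalMk_le_trdeg

end Pool.Agent.MP_655169_nt.KeptTwo
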