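import Pool.Agent.MP_655169_nt.Norm

set_option linter.unusedSectionVars false

namespace Pool.Agent.MP_655169_nt

open Polynomial Filter Topology

variable {F E : Type*} [Field F] [Fintype F] [NormedField E] [IsUltrametricDist E]
  [CompleteSpace E] [Algebra F E]

theorem Kinf1_fin (n : ℕ) : {g : F[X] | g.natDegree ≤ n}.Finite := by
  refine (Set.finite_range fun a : Fin (n + 1) → F =>
    ∑ i : Fin (n + 1), monomial (i : ℕ) (a i)).subset fun g hg => ⟨fun i => g.coeff i, ?_⟩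
  beta_reduce
  rw [Fin.sum_univ_eq_sum_range (fun i => monomial i (g.coeff i)) (n + 1)]
  exact (g.as_sum_range' (n + 1) (Nat.lt_succ_of_le hg)).symm

theorem Kinf1_le {a b : E} {r : ℝ} (h1 : ‖a - b‖ ≤ r) (h2 : ‖b‖ ≤ r) : ‖a‖ ≤ r := by
  have := IsUltrametricDist.norm_add_le_max (a - b) b
  rw [sub_add_cancel] at this
  exact this.trans (max_le h1 h2)

open scoped IntermediateField in
theorem Kinf1_approx (θ : E) (hθ : 1 < ‖θ‖) (n : ℕ) {r : E} (hr : r ∈ F⟮θ⟯) (h1 : ‖r‖ ≤ 1) :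
    ∃ g : F[X], g.natDegree ≤ n ∧ ‖r - aeval θ g / θ ^ n‖ < (‖θ‖ ^ n)⁻¹ := by
  have hθ0 : 0 < ‖θ‖ := zero_lt_one.trans hθ
  have hθn : θ ^ n ≠ 0 := pow_ne_zero _ (norm_pos_iff.1 hθ0)
  obtain ⟨a, b, rfl⟩ := (IntermediateField.mem_adjoin_simple_iff F r).1 hr
  by_cases hb : b = 0
  · exact ⟨0, by simp, by simp [hb, hθ0]⟩
  have hbn := norm_poly θ hθ b hb
  have hb0 : 0 < ‖aeval θ b‖ := by rw [hbn]; positivity
  have hb' : aeval θ b ≠ 0 := norm_pos_iff.1 hb0
  set g := X ^ n * a / b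
  set m := X ^ n * a % b
  have e : b * g + m = X ^ n * a := EuclideanDomain.div_add_mod _ _
  have hm : ‖aeval θ m‖ < ‖aeval θ b‖ := by
    by_cases h0 : m = 0
    · rw [h0, map_zero, norm_zero]; exact hb0
    · rw [norm_poly θ hθ m h0, hbn]
      exact pow_lt_pow_right₀ hθ (natDegree_lt_natDegree h0 (degree_mod_lt _ hb))
  have e' : aeval θ a / aeval θ b * θ ^ n - aeval θ g = aeval θ m / aeval θ b := by
    have := congrArg (aeval θ) e
    simp only [map_add, map_mul, map_pow, aeval_X] at this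
    field_simp
    linear_combination -this
  have hlt : ‖aeval θ a / aeval θ b * θ ^ n - aeval θ g‖ < 1 := by
    rw [e', norm_div, div_lt_one hb0]; exact hm
  have hg : ‖aeval θ g‖ ≤ ‖θ‖ ^ n := by
    refine Kinf1_le (b := aeval θ a / aeval θ b * θ ^ n) ?_ ?_
    · rw [norm_sub_rev]; exact hlt.le.trans (one_le_pow₀ hθ.le)
    · rw [norm_mul, norm_pow]; exact mul_le_of_le_one_left (by positivity) h1
  refine ⟨g, ?_, ?_⟩
  · by_cases h0 : g = 0
    · simp [h0]
    · rw [norm_poly θ hθ g h0] at hg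
      exact (pow_le_pow_iff_right₀ hθ).1 hg
  · have : aeval θ a / aeval θ b - aeval θ g / θ ^ n =
        (aeval θ a / aeval θ b * θ ^ n - aeval θ g) / θ ^ n := by field_simp
    rw [this, norm_div, norm_pow, ← one_div]
    gcongr

open scoped IntermediateField in
/-- The closure of `F(θ)` is locally compact. -/
theorem kinf_compact (θ : E) (hθ : 1 < ‖θ‖) :
    IsCompact {x : E | x ∈ (F⟮θ⟯).toSubfield.topologicalClosure ∧ ‖x‖ ≤ 1} := by
  have hθ0 : 0 < ‖θ‖ := zero_lt_one.trans hθ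
  rw [isCompact_iff_totallyBounded_isComplete]
  refine ⟨Metric.totallyBounded_iff.2 fun ε hε => ?_, IsClosed.isComplete ?_⟩
  · obtain ⟨n, hn⟩ := pow_unbounded_of_one_lt ε⁻¹ hθ
    have hδ : (‖θ‖ ^ n)⁻¹ < ε := inv_lt_of_inv_lt₀ hε hn
    have hδ0 : 0 < (‖θ‖ ^ n)⁻¹ := by positivity
    have hδ1 : (‖θ‖ ^ n)⁻¹ ≤ 1 := inv_le_one_of_one_le₀ (one_le_pow₀ hθ.le)
    refine ⟨_, (Kinf1_fin (F := F) n).image fun g => aeval θ g / θ ^ n, fun x hx => ?_⟩
    obtain ⟨r, hr, hxr⟩ := Metric.mem_closure_iff.1 hx.1 _ hδ0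
    rw [dist_eq_norm] at hxr
    have h1 : ‖r‖ ≤ 1 := Kinf1_le (by rw [norm_sub_rev]; exact hxr.le.trans hδ1) hx.2
    obtain ⟨g, hg, hg'⟩ := Kinf1_approx θ hθ n hr h1
    refine Set.mem_biUnion ⟨g, hg, rfl⟩ ?_
    rw [Metric.mem_ball, dist_eq_norm]
    have := IsUltrametricDist.norm_add_le_max (x - r) (r - aeval θ g / θ ^ n)
    rw [sub_add_sub_cancel] at this
    exact this.trans_lt ((max_lt hxr hg').trans hδ)
  · exact (Subfield.isClosed_topologicalClosure _).inter (isClosed_le continuous_norm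
      continuous_const)

end Pool.Agent.MP_655169_nt
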