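import Pool.Agent.MP_655169_nt.HF

set_option linter.unusedSectionVars false

namespace Pool.Agent.MP_655169_nt

open Polynomial Filter Topology

variable {F C : Type*} [Field F] [Fintype F] [NormedField C] [IsUltrametricDist C]
  [IsAlgClosed C] [Algebra F C]

theorem li_num (b c k : ℕ) :
    ∃ κ : ℕ, ∀ d : ℕ, b + c * (2 * (d + 1) ^ 2 * (c + 1) ^ 2 + 2) ^ k ≤ (d + 2) ^ κ := by
  refine ⟨b + c * (2 * (c + 1) ^ 2 + 2) ^ k + 2 * k, fun d => ?_⟩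
  have h1 : 2 * (d + 1) ^ 2 * (c + 1) ^ 2 + 2 ≤ (2 * (c + 1) ^ 2 + 2) * (d + 2) ^ 2 := by
    nlinarith [Nat.zero_le (d * (c + 1) ^ 2), Nat.zero_le ((c + 1) ^ 2), Nat.zero_le (d ^ 2)]
  have h2 := Nat.pow_le_pow_left h1 k
  rw [mul_pow, ← pow_mul] at h2
  have h3 : 1 ≤ (d + 2) ^ (2 * k) := Nat.one_le_pow _ _ (by omega)
  have h4 : ∀ T : ℕ, T ≤ (d + 2) ^ T := fun T => (Nat.lt_pow_self (by omega)).le
  calc _ ≤ b * (d + 2) ^ (2 * k) + c * ((2 * (c + 1) ^ 2 + 2) ^ k * (d + 2) ^ (2 * k)) :=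
        add_le_add (Nat.le_mul_of_pos_right _ h3) (Nat.mul_le_mul_left _ h2)
    _ = (b + c * (2 * (c + 1) ^ 2 + 2) ^ k) * (d + 2) ^ (2 * k) := by ring
    _ ≤ _ := by
        rw [pow_add (d + 2) _ (2 * k)]
        exact Nat.mul_le_mul_right _ (h4 _)

theorem li_eval (θ y : C) (R : MvPolynomial (Fin 2) F) :
    (MvPolynomial.finSuccEquiv F 1 R).eval₂
      (MvPolynomial.aeval ![θ] : MvPolynomial (Fin 1) F →ₐ[F] C).toRingHom y =
      MvPolynomial.aeval ![y, θ] R := by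
  induction R using MvPolynomial.induction_on with
  | C a => simp [MvPolynomial.finSuccEquiv_apply]
  | add p q hp hq => rw [map_add, eval₂_add, hp, hq, map_add]
  | mul_X p i hp =>
    rw [map_mul, eval₂_mul, hp, map_mul]
    congr 1
    refine Fin.cases ?_ (fun j => ?_) i
    · simp [MvPolynomial.finSuccEquiv_X_zero]
    · rw [MvPolynomial.finSuccEquiv_X_succ, eval₂_C, Subsingleton.elim j 0]
      simp

theorem li_pow {r s : ℝ} {n d : ℕ} (hr : 0 ≤ r) (hn : 0 < n) (hd : n ≤ d) (h : r ^ n ≤ s)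
    (hs : s < 1) : r ^ d ≤ s :=
  (pow_le_pow_of_le_one hr ((pow_lt_one_iff_of_nonneg hr hn.ne').1 (h.trans_lt hs)).le hd).trans h

theorem li_root (θ x : C) (hθ : 1 < ‖θ‖) (d : ℕ) (R : MvPolynomial (Fin 2) F) (h0 : R ≠ 0)
    (hd : R.totalDegree ≤ d) (h1 : ‖MvPolynomial.aeval ![θ, x] R‖ < 1) :
    ∃ ξ, Alg F ![θ] d d ξ ∧ ‖x - ξ‖ ^ d ≤ ‖MvPolynomial.aeval ![θ, x] R‖ := by
  set R' := MvPolynomial.rename (Equiv.swap (0 : Fin 2) 1) R with hR'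
  have hd' : R'.totalDegree ≤ d := (MvPolynomial.totalDegree_rename_le _ _).trans hd
  set Φ := MvPolynomial.finSuccEquiv F 1 R' with hΦ
  set φ := (MvPolynomial.aeval ![θ] : MvPolynomial (Fin 1) F →ₐ[F] C).toRingHom with hφ
  have hΦ0 : Φ ≠ 0 := by
    rw [hΦ, map_ne_zero_iff _ (MvPolynomial.finSuccEquiv F 1).injective, hR',
      map_ne_zero_iff _ (MvPolynomial.rename_injective _ (Equiv.injective _))]
    exact h0
  have hev : (Φ.map φ).eval x = MvPolynomial.aeval ![θ, x] R := by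
    rw [eval_map, li_eval, hR', MvPolynomial.aeval_rename]
    congr 2
    funext i
    fin_cases i <;> rfl
  have hl : 1 ≤ ‖φ Φ.leadingCoeff‖ := liou1 θ hθ _ (leadingCoeff_ne_zero.2 hΦ0)
  have hl0 : φ Φ.leadingCoeff ≠ 0 := norm_pos_iff.1 (one_pos.trans_le hl)
  have hn : Φ.natDegree ≤ d := by
    rw [hΦ, MvPolynomial.natDegree_finSuccEquiv]
    exact (MvPolynomial.degreeOf_le_totalDegree _ _).trans hd'
  have e1 := natDegree_map_of_leadingCoeff_ne_zero φ hl0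
  have e2 := leadingCoeff_map_of_leadingCoeff_ne_zero φ hl0
  have hpos : 0 < (Φ.map φ).natDegree := Nat.pos_of_ne_zero fun h => by
    rw [← e2, leadingCoeff, h] at hl
    rw [← hev, eq_C_of_natDegree_eq_zero h, eval_C] at h1
    exact absurd hl (not_le.2 h1)
  obtain ⟨ξ, h2, h3⟩ := root_near _ hpos x
  rw [e2, hev] at h3
  refine ⟨ξ, ⟨Φ, hn, fun j => ?_, hl0, by rwa [eval_map] at h2⟩, li_pow (norm_nonneg _) hpos
    (e1.trans_le hn) ((le_mul_of_one_le_left (by positivity) hl).trans h3) h1⟩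
  by_cases hj : Φ.coeff j = 0
  · rw [hj, MvPolynomial.totalDegree_zero]
    exact Nat.zero_le _
  · exact (le_self_add.trans (MvPolynomial.totalDegree_coeff_finSuccEquiv_add_le R' j hj)).trans hd'

theorem li_near (θ x w : C) (c : ℕ) (h : Alg F ![θ, x] c c w) :
    ∃ K : ℝ, 0 ≤ K ∧ ∀ ξ, K * ‖x - ξ‖ < 1 →
      ∃ v, Alg F ![θ, ξ] c c v ∧ ‖w - v‖ ^ c ≤ K * ‖x - ξ‖ := by
  obtain ⟨Φ, hn, hc, hl, hw⟩ := h
  have hl' : 0 < ‖MvPolynomial.aeval ![θ, x] Φ.leadingCoeff‖ := norm_pos_iff.2 hl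
  set l := ‖MvPolynomial.aeval ![θ, x] Φ.leadingCoeff‖ with hl1
  obtain ⟨M, hM, hθ, hx, hw'⟩ : ∃ M : ℝ, 1 ≤ M ∧ ‖θ‖ ≤ M ∧ ‖x‖ + 1 ≤ M ∧ ‖w‖ ≤ M := by
    have := norm_nonneg θ
    have := norm_nonneg x
    have := norm_nonneg w
    exact ⟨‖θ‖ + ‖x‖ + ‖w‖ + 1, by linarith, by linarith, by linarith, by linarith⟩
  have hpos : 0 < Φ.natDegree := Nat.pos_of_ne_zero fun h0 => by
    rw [eq_C_of_natDegree_eq_zero h0, eval₂_C] at hw
    rw [leadingCoeff, h0] at hl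
    exact hl hw
  have hMc : 1 ≤ M ^ c := one_le_pow₀ hM
  refine ⟨M ^ c * M ^ c / l + 1, by positivity, fun ξ hξ => ?_⟩
  have hε := norm_nonneg (x - ξ)
  have hK : 0 ≤ M ^ c * M ^ c / l * ‖x - ξ‖ := by positivity
  have h1 : M ^ c * M ^ c * ‖x - ξ‖ < l := by
    rw [← div_lt_one hl', mul_div_right_comm]
    linarith
  have h2 : ∀ j, ‖MvPolynomial.aeval ![θ, x] (Φ.coeff j) -
      MvPolynomial.aeval ![θ, ξ] (Φ.coeff j)‖ ≤ M ^ c * ‖x - ξ‖ := fun j => by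
    have h3 := norm_le_norm_add_norm_sub x ξ
    refine lip_aeval _ _ M _ hM hε (fun k => ?_) (fun k => ?_) (fun k => ?_) _ _ (hc j) <;>
      fin_cases k <;> simp <;> linarith
  set φ := (MvPolynomial.aeval ![θ, ξ] : MvPolynomial (Fin 2) F →ₐ[F] C).toRingHom with hφ
  have h3 : l ≤ ‖φ Φ.leadingCoeff‖ := by
    have h4 := IsUltrametricDist.norm_add_le_max (MvPolynomial.aeval ![θ, x] Φ.leadingCoeff -
      φ Φ.leadingCoeff) (φ Φ.leadingCoeff)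
    rw [sub_add_cancel, le_max_iff] at h4
    refine h4.resolve_left (not_le.2 ((h2 _).trans_lt (lt_of_le_of_lt ?_ h1)))
    exact mul_le_mul_of_nonneg_right (le_mul_of_one_le_left (by positivity) hMc) hε
  have hl0 : φ Φ.leadingCoeff ≠ 0 := norm_pos_iff.1 (hl'.trans_le h3)
  have e1 := natDegree_map_of_leadingCoeff_ne_zero φ hl0
  have e2 := leadingCoeff_map_of_leadingCoeff_ne_zero φ hl0
  obtain ⟨v, h4, h5⟩ := root_near (Φ.map φ) (e1 ▸ hpos) w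
  have h6 : ‖(Φ.map φ).eval w‖ ≤ M ^ c * M ^ c * ‖x - ξ‖ := by
    rw [← norm_neg, ← zero_sub, ← hw, eval_map, eval₂_eq_sum_range, eval₂_eq_sum_range,
      ← Finset.sum_sub_distrib]
    refine IsUltrametricDist.norm_sum_le_of_forall_le_of_nonneg (by positivity) fun j hj => ?_
    rw [← sub_mul, norm_mul, norm_pow, mul_right_comm]
    refine mul_le_mul (h2 j) ((pow_le_pow_left₀ (norm_nonneg _) hw' j).trans
      (pow_le_pow_right₀ hM ?_)) (by positivity) (by positivity)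
    have := Finset.mem_range.1 hj
    omega
  rw [e1, e2] at h5
  refine ⟨v, ⟨Φ, hn, hc, hl0, by rwa [eval_map] at h4⟩, li_pow (norm_nonneg _) hpos hn ?_ hξ⟩
  have h7 : ‖w - v‖ ^ Φ.natDegree ≤ M ^ c * M ^ c / l * ‖x - ξ‖ := by
    rw [← mul_div_right_comm, le_div_iff₀' hl']
    exact (mul_le_mul_of_nonneg_right h3 (by positivity)).trans (h5.trans h6)
  linarith

/-- From a simultaneous approximation measure to a transcendence measure. -/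
theorem li (θ x u al : C) (hθ : 1 < ‖θ‖) (hu : ∃ d, Alg F ![θ, x] d d u)
    (hal : ∃ d, Alg F ![θ, x] d d al)
    (h : ∃ κ : ℕ, ∀ (d : ℕ) (v a : C), Alg F ![θ] d d v → Alg F ![θ] d d a →
      Real.exp (-((d + 2 : ℕ) : ℝ) ^ κ) ≤ max ‖u - v‖ ‖al - a‖) :
    ∃ κ : ℕ, ∀ (d : ℕ) (R : MvPolynomial (Fin 2) F), R ≠ 0 → R.totalDegree ≤ d →
      Real.exp (-((d + 2 : ℕ) : ℝ) ^ κ) ≤ ‖MvPolynomial.aeval ![θ, x] R‖ := by
  obtain ⟨c1, hu⟩ := hu
  obtain ⟨c2, hal⟩ := hal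
  obtain ⟨k, h⟩ := h
  obtain ⟨K1, hK1, h1⟩ := li_near θ x u _ (hu.mono (le_max_left c1 c2) (le_max_left c1 c2))
  obtain ⟨K2, hK2, h2⟩ := li_near θ x al _ (hal.mono (le_max_right c1 c2) (le_max_right c1 c2))
  generalize max c1 c2 = c at h1 h2
  obtain ⟨b, hb⟩ := exists_nat_ge (K1 + K2)
  have hb' : K1 + K2 ≤ Real.exp b := by linarith [Real.add_one_le_exp (b : ℝ)]
  obtain ⟨κ, hκ⟩ := li_num b c k
  refine ⟨κ + 1, fun d R h0 hd => not_lt.1 fun hR => ?_⟩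
  obtain ⟨ξ, hξ, h3⟩ := li_root θ x hθ d R h0 hd
    (hR.trans_le (Real.exp_le_one_iff.2 (neg_nonpos.2 (by positivity))))
  have h4 : ‖x - ξ‖ < Real.exp (-((d + 2 : ℕ) : ℝ) ^ κ) := by
    refine lt_of_pow_lt_pow_left₀ d (Real.exp_nonneg _) ((h3.trans_lt hR).trans_le ?_)
    rw [← Real.exp_nat_mul, Real.exp_le_exp, pow_succ]
    have h5 : (0 : ℝ) ≤ ((d + 2 : ℕ) : ℝ) ^ κ := by positivity
    push_cast at h5 ⊢
    nlinarith
  set E := Real.exp (-((2 * (d + 1) ^ 2 * (c + 1) ^ 2 + 2 : ℕ) : ℝ) ^ k) with hE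
  have h5 : Real.exp b * ‖x - ξ‖ < E ^ c := by
    refine (mul_lt_mul_of_pos_left h4 (Real.exp_pos _)).trans_le ?_
    rw [hE, ← Real.exp_nat_mul, ← Real.exp_add, Real.exp_le_exp]
    have h6 : ((b + c * (2 * (d + 1) ^ 2 * (c + 1) ^ 2 + 2) ^ k : ℕ) : ℝ) ≤
      (((d + 2) ^ κ : ℕ) : ℝ) := Nat.cast_le.2 (hκ d)
    push_cast at h6 ⊢
    linarith
  have h6 : E ^ c ≤ 1 :=
    pow_le_one₀ (Real.exp_nonneg _) (Real.exp_le_one_iff.2 (neg_nonpos.2 (by positivity)))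
  have h7 : K1 * ‖x - ξ‖ < E ^ c :=
    (mul_le_mul_of_nonneg_right (by linarith) (norm_nonneg _)).trans_lt h5
  have h8 : K2 * ‖x - ξ‖ < E ^ c :=
    (mul_le_mul_of_nonneg_right (by linarith) (norm_nonneg _)).trans_lt h5
  obtain ⟨v, hv, h9⟩ := h1 ξ (h7.trans_le h6)
  obtain ⟨a, ha, h10⟩ := h2 ξ (h8.trans_le h6)
  refine absurd (h _ v a (alg_trans θ (indep1 θ hθ) ξ v d c hξ hv)
    (alg_trans θ (indep1 θ hθ) ξ a d c hξ ha)) (not_le.2 (max_lt ?_ ?_))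
  · exact lt_of_pow_lt_pow_left₀ c (Real.exp_nonneg _) (h9.trans_lt h7)
  · exact lt_of_pow_lt_pow_left₀ c (Real.exp_nonneg _) (h10.trans_lt h8)

end Pool.Agent.MP_655169_nt
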