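import Pool.Agent.MP_655169_nt.Defs

set_option linter.unusedSectionVars false

namespace Pool.Agent.MP_655169_nt

open Polynomial Filter Topology

variable {F Λ : Type*} [Field F] [Field Λ] [Algebra F Λ] {κ : Type*}

theorem VsL_deg_aeval {κ' : Type*} (g : κ' → MvPolynomial κ F) (S : ℕ)
    (hg : ∀ k, (g k).totalDegree ≤ S) (G : MvPolynomial κ' F) (d : ℕ) (hd : G.totalDegree ≤ d) :
    (MvPolynomial.aeval g G).totalDegree ≤ S * d := by
  rw [MvPolynomial.aeval_def, MvPolynomial.eval₂_eq]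
  refine MvPolynomial.totalDegree_finsetSum_le fun e he => ?_
  refine (MvPolynomial.totalDegree_mul _ _).trans ?_
  rw [MvPolynomial.algebraMap_eq, MvPolynomial.totalDegree_C, zero_add]
  refine (MvPolynomial.totalDegree_finsetProd _ _).trans ?_
  calc ∑ i ∈ e.support, (g i ^ e i).totalDegree ≤ ∑ i ∈ e.support, S * e i :=
        Finset.sum_le_sum fun i _ => (MvPolynomial.totalDegree_pow _ _).trans
          (by rw [mul_comm]; exact Nat.mul_le_mul_right _ (hg i))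
    _ = S * e.sum fun _ k => k := by rw [← Finset.mul_sum]; rfl
    _ ≤ S * d := Nat.mul_le_mul_left _ ((MvPolynomial.le_totalDegree he).trans hd)

theorem VsL_hom {κ' : Type*} {y : κ' → Λ} {z : κ → Λ}
    (ψ : MvPolynomial κ F →ₐ[F] MvPolynomial κ' F)
    (hψ : ∀ G, MvPolynomial.aeval y (ψ G) = MvPolynomial.aeval z G) {d₁ d₂ d₃ : ℕ}
    (hd : ∀ G : MvPolynomial κ F, G.totalDegree ≤ d₂ → (ψ G).totalDegree ≤ d₃) {w : Λ}
    (h : Alg F z d₁ d₂ w) : Alg F y d₁ d₃ w := by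
  obtain ⟨Φ, a, b, c, d⟩ := h
  have hne : (ψ : MvPolynomial κ F →+* MvPolynomial κ' F) Φ.leadingCoeff ≠ 0 := by
    intro h0
    apply c
    rw [← hψ]
    have : ψ Φ.leadingCoeff = 0 := h0
    rw [this, map_zero]
  refine ⟨Φ.map (ψ : MvPolynomial κ F →+* MvPolynomial κ' F), natDegree_map_le.trans a,
    fun j => by rw [coeff_map]; exact hd _ (b j), ?_, ?_⟩
  · rw [leadingCoeff_map_of_leadingCoeff_ne_zero _ hne]
    exact fun h0 => c ((hψ _).symm.trans h0)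
  · rw [eval₂_map, ← d]
    congr 1
    exact RingHom.ext hψ

theorem mem_Vs (y : κ → Λ) (S : ℕ) (η : Λ) :
    η ∈ Vs F y S ↔ ∃ G : MvPolynomial κ F, G.totalDegree ≤ S ∧ MvPolynomial.aeval y G = η := by
  simp [Vs, MvPolynomial.mem_restrictTotalDegree]

theorem Vs_mono (y : κ → Λ) {S S' : ℕ} (h : S ≤ S') {η : Λ} (hη : η ∈ Vs F y S) :
    η ∈ Vs F y S' := by
  obtain ⟨G, hG, e⟩ := (mem_Vs y S η).1 hη
  exact (mem_Vs y S' η).2 ⟨G, hG.trans h, e⟩

theorem Vs_var (y : κ → Λ) (k : κ) : y k ∈ Vs F y 1 := by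
  exact (mem_Vs y 1 _).2 ⟨MvPolynomial.X k, (MvPolynomial.totalDegree_X k).le, by simp⟩

theorem Vs_const (y : κ → Λ) (a : F) (S : ℕ) : algebraMap F Λ a ∈ Vs F y S := by
  exact (mem_Vs y S _).2 ⟨MvPolynomial.C a, by simp, by simp⟩

theorem Vs_mul (y : κ → Λ) {S S' : ℕ} {a b : Λ} (ha : a ∈ Vs F y S) (hb : b ∈ Vs F y S') :
    a * b ∈ Vs F y (S + S') := by
  obtain ⟨G, hG, rfl⟩ := (mem_Vs y S a).1 ha
  obtain ⟨H, hH, rfl⟩ := (mem_Vs y S' b).1 hb
  exact (mem_Vs y _ _).2 ⟨G * H, (MvPolynomial.totalDegree_mul G H).trans (add_le_add hG hH),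
    map_mul _ _ _⟩

theorem Vs_pow (y : κ → Λ) {S : ℕ} {a : Λ} (ha : a ∈ Vs F y S) (k : ℕ) :
    a ^ k ∈ Vs F y (S * k) := by
  induction k with
  | zero => simpa using Vs_const y (1 : F) 0
  | succ k ih => rw [pow_succ, mul_add, mul_one]; exact Vs_mul y ih ha

theorem Vs_aeval {κ' : Type*} (y : κ → Λ) (z : κ' → Λ) (S : ℕ) (hz : ∀ k, z k ∈ Vs F y S)
    (G : MvPolynomial κ' F) (d : ℕ) (hd : G.totalDegree ≤ d) :
    MvPolynomial.aeval z G ∈ Vs F y (S * d) := by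
  choose g hg using fun k => (mem_Vs y S (z k)).1 (hz k)
  refine (mem_Vs y _ _).2 ⟨MvPolynomial.aeval g G,
    VsL_deg_aeval g S (fun k => (hg k).1) G d hd, ?_⟩
  rw [← AlgHom.comp_apply, MvPolynomial.comp_aeval]
  simp only [(hg _).2]

instance Vs_finite [Finite κ] (y : κ → Λ) (S : ℕ) : Module.Finite F (Vs F y S) := by
  unfold Vs
  infer_instance

theorem Vs_ph (y : κ → Λ) (q : ℕ) (hq : 2 ≤ q) {θ u al : Λ} (hθ : θ ∈ Vs F y 1)
    (hu : u ∈ Vs F y 1) (hal : al ∈ Vs F y 1) (n : ℕ) :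
    ph q θ u al n ∈ Vs F y (q ^ (n + 1)) := by
  induction n with
  | zero =>
    exact Vs_mono y (by simpa using by omega) (Submodule.sub_mem _ hal hu)
  | succ n ih =>
    have h1 : 1 ≤ q ^ (n + 1) := Nat.one_le_pow _ _ (by omega)
    have h2 : q ^ (n + 1) + q ^ (n + 1) ≤ q ^ (n + 1 + 1) := by
      rw [pow_succ q (n + 1)]; nlinarith
    refine Submodule.add_mem _ (Vs_mono y (by omega) (Vs_pow y hal _)) (Vs_mono y h2 ?_)
    exact Vs_mul y (Submodule.sub_mem _ (Vs_mono y h1 hθ) (Vs_mono y (by omega) (Vs_pow y hθ _))) ih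

theorem Alg.mono {z : κ → Λ} {d₁ d₂ d₁' d₂' : ℕ} {w : Λ} (h : Alg F z d₁ d₂ w) (h1 : d₁ ≤ d₁')
    (h2 : d₂ ≤ d₂') : Alg F z d₁' d₂' w := by
  obtain ⟨Φ, a, b, c, d⟩ := h
  exact ⟨Φ, a.trans h1, fun j => (b j).trans h2, c, d⟩

theorem Alg.comp {κ' : Type*} {y : κ' → Λ} (e : κ → κ') {d₁ d₂ : ℕ} {w : Λ}
    (h : Alg F (y ∘ e) d₁ d₂ w) : Alg F y d₁ d₂ w := by
  refine VsL_hom (MvPolynomial.rename e) (fun G => ?_)
    (fun G hG => (MvPolynomial.totalDegree_rename_le e G).trans hG) h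
  rw [MvPolynomial.aeval_rename]

theorem Alg.map {Λ' : Type*} [Field Λ'] [Algebra F Λ'] (φ : Λ →ₐ[F] Λ') {z : κ → Λ} {d₁ d₂ : ℕ}
    {w : Λ} (h : Alg F z d₁ d₂ w) : Alg F (φ ∘ z) d₁ d₂ (φ w) := by
  obtain ⟨Φ, a, b, c, d⟩ := h
  have e : ∀ G : MvPolynomial κ F, MvPolynomial.aeval (φ ∘ z) G = φ (MvPolynomial.aeval z G) := by
    intro G
    rw [← AlgHom.comp_apply, MvPolynomial.comp_aeval]
    rfl
  refine ⟨Φ, a, b, by rw [e]; exact (map_ne_zero φ).2 c, ?_⟩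
  have := Polynomial.hom_eval₂ Φ (MvPolynomial.aeval z : MvPolynomial κ F →ₐ[F] Λ).toRingHom
    φ.toRingHom w
  rw [d, map_zero] at this
  rw [this]
  congr 1
  exact RingHom.ext e

theorem Alg.subst {κ' : Type*} {y : κ' → Λ} {z : κ → Λ} (S : ℕ) (hz : ∀ k, z k ∈ Vs F y S)
    {d₁ d₂ : ℕ} {w : Λ} (h : Alg F z d₁ d₂ w) : Alg F y d₁ (S * d₂) w := by
  choose g hg using fun k => (mem_Vs y S (z k)).1 (hz k)
  refine VsL_hom (MvPolynomial.aeval g) (fun G => ?_)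
    (fun G hG => VsL_deg_aeval g S (fun k => (hg k).1) G d₂ hG) h
  rw [← AlgHom.comp_apply, MvPolynomial.comp_aeval]
  simp only [(hg _).2]

theorem Alg.var (z : κ → Λ) (k : κ) : Alg F z 1 1 (z k) := by
  refine ⟨X - C (MvPolynomial.X k), (natDegree_X_sub_C _).le, fun j => ?_, by simp, by simp⟩
  rw [coeff_sub, coeff_X, coeff_C]
  refine (MvPolynomial.totalDegree_sub _ _).trans (max_le ?_ ?_)
  · split_ifs <;> simp
  · split_ifs <;> simp

theorem alg_of_not_indep {z : κ → Λ} (hz : AlgebraicIndependent F z) (w : Λ)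
    (h : ¬ AlgebraicIndependent F (fun o : Option κ => o.elim w z)) : ∃ d, Alg F z d d w := by
  rw [AlgebraicIndependent.option_iff, not_and, Transcendental, not_not] at h
  obtain ⟨p, hp, hw⟩ := h hz
  let ψ := hz.aevalEquiv.symm
  have hψ : ∀ c, MvPolynomial.aeval z (ψ c) = algebraMap _ Λ c := fun c => by
    rw [← hz.algebraMap_aevalEquiv, AlgEquiv.apply_symm_apply]
  let Φ := p.map (ψ : Algebra.adjoin F (Set.range z) →+* MvPolynomial κ F)
  refine ⟨max Φ.natDegree (Φ.support.sup fun j => (Φ.coeff j).totalDegree), Φ, le_max_left _ _,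
    fun j => le_max_of_le_right ?_, ?_, ?_⟩
  · by_cases hj : j ∈ Φ.support
    · exact Finset.le_sup (f := fun j => (Φ.coeff j).totalDegree) hj
    · rw [notMem_support_iff.1 hj]; simp
  · refine (map_ne_zero_iff _ (algebraicIndependent_iff_injective_aeval.1 hz)).2 ?_
    rw [leadingCoeff_ne_zero]
    exact (Polynomial.map_ne_zero_iff ψ.injective).2 hp
  · rw [eval₂_map, ← hw, aeval_def]
    congr 1
    exact RingHom.ext hψ

end Pool.Agent.MP_655169_nt
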