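import Pool.Agent.MP_655169_nt.Eval
import Pool.Agent.MP_655169_nt.VsL

set_option linter.unusedSectionVars false

namespace Pool.Agent.MP_655169_nt

open Polynomial Filter Topology

variable {F C Ω : Type*} [Field F] [Fintype F] [NormedField C] [IsUltrametricDist C]
  [IsAlgClosed C] [Algebra F C] [NormedField Ω] [IsUltrametricDist Ω] [IsAlgClosed Ω]
  [Algebra C Ω] [Algebra F Ω] [IsScalarTower F C Ω] (Z : Sit F C Ω)

theorem M1_poly (G : ℝ) {L : ℝ} (hL : 0 < L) (p : ℕ) :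
    ∀ᶠ m : ℕ in atTop, G * (m : ℝ) ^ p < L * 2 ^ m := by
  have := (tendsto_pow_const_div_const_pow_of_one_lt p one_lt_two).const_mul G
  rw [mul_zero] at this
  filter_upwards [this.eventually_lt_const hL] with m hm
  rwa [← mul_div_assoc, div_lt_iff₀ (by positivity)] at hm

theorem M1_exp {a x : ℝ} (ha : 0 ≤ a) {Q : ℕ} (hQ : 1 ≤ Q)
    (h : Real.exp (-a) ≤ Real.exp x ^ Q) : -a ≤ x := by
  rw [← Real.exp_nat_mul, Real.exp_le_exp] at h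
  have : (1 : ℝ) ≤ Q := by exact_mod_cast hQ
  rcases le_total 0 x with h1 | h1
  · linarith
  · nlinarith

/-- Zero estimate from a transcendence measure. -/
theorem Sit.m1 {ι κ : Type*} [Fintype ι] (u al : ι → C) (f : ι → Ω)
    (h : ∀ i, Z.Agf (u i) (al i) (f i)) (E : Subfield C) (η : ℝ) (hη : 0 < η) (hg : Gap E η)
    (hθ : Z.θ ∈ E) (hu : ∀ i, u i ∈ E) (y : κ → C) (k : ℕ)
    (hm : ∀ (S : ℕ) (w : C), w ∈ Vs F y S → w ≠ 0 → Real.exp (-((S + 2 : ℕ) : ℝ) ^ k) ≤ ‖w‖)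
    (c0 c' : ℝ) :
    ∀ᶠ j : ℕ in atTop, ∀ P : MvPolynomial ι C[X], Bd P (2 * j ^ 3) (j ^ 4) (c0 * (j : ℝ) ^ 3) →
      (∀ e i, (P.coeff e).coeff i ∈ E) →
      (∀ n, Z.VV u al n P ∈ Vs F y (j ^ 4 + 4 * j ^ 3 * qq F ^ (n + 1))) → Z.FF f P ≠ 0 →
      Real.exp (c' * (j : ℝ) ^ 3) * (‖Z.θ‖ ^ qq F ^ j)⁻¹ ≤ ‖Z.FF f P‖ := by
  obtain ⟨m0, c, hc, hev⟩ := Z.ev u al f h
  have hθ0 : 0 < ‖Z.θ‖ := zero_lt_one.trans Z.hθ
  have hq : 2 ≤ qq F := two_le_qq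
  obtain ⟨L, hL, hpow⟩ : ∃ L : ℝ, 0 < L ∧ ∀ N : ℕ, ‖Z.θ‖ ^ N = Real.exp (N * L) :=
    ⟨_, Real.log_pos Z.hθ, fun N => by rw [Real.exp_nat_mul, Real.exp_log hθ0]⟩
  have hexp : ∀ (a : ℝ) (N : ℕ), Real.exp a * (‖Z.θ‖ ^ N)⁻¹ = Real.exp (a - N * L) :=
    fun a N => by rw [hpow, Real.exp_sub, div_eq_mul_inv]
  obtain ⟨K, hK⟩ := exists_nat_gt (3 * L / η)
  have hK0 : 0 < K := by exact_mod_cast (show (0 : ℝ) < K from lt_trans (by positivity) hK)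
  rw [div_lt_iff₀ hη] at hK
  obtain ⟨c2, h20, h21, h22⟩ : ∃ c2 : ℝ, 0 ≤ c2 ∧ c' ≤ c2 ∧ η + c0 + 2 * c ≤ c2 :=
    ⟨_, le_max_left _ _, (le_max_left _ _).trans (le_max_right _ _),
      (le_max_right _ _).trans (le_max_right _ _)⟩
  obtain ⟨j0, hj0⟩ := eventually_atTop.1
    (M1_poly (((3 + 4 * (qq F * K) : ℕ) : ℝ) ^ k + c2 + η) (half_pos hL) (7 * k + 3))
  filter_upwards [eventually_ge_atTop j0, eventually_ge_atTop m0, eventually_ge_atTop 1]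
    with j hj hjm hj1 P hP hE hV h0
  by_contra hlt
  have hφ : 0 < ‖Z.FF f P‖ := norm_pos_iff.2 h0
  have hj3 : (1 : ℝ) ≤ (j : ℝ) ^ 3 := one_le_pow₀ (by exact_mod_cast hj1)
  obtain ⟨i, h1, h2⟩ := Nat.exists_not_and_succ_of_not_zero_of_exists
    (p := fun i => Real.exp (c2 * (j : ℝ) ^ 3 - (qq F ^ (j + i) : ℕ) * L) ≤ ‖Z.FF f P‖)
    (fun h3 => hlt (le_trans (by
      rw [hexp, add_zero]
      gcongr) h3)) (by
      obtain ⟨N, hN⟩ := exists_nat_gt ((c2 * (j : ℝ) ^ 3 - Real.log ‖Z.FF f P‖) / L)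
      refine ⟨N, (Real.le_log_iff_exp_le hφ).1 ?_⟩
      have h3 : N ≤ qq F ^ (j + N) := (Nat.le_add_left N j).trans (Nat.lt_pow_self hq).le
      have h4 : (N : ℝ) * L ≤ (qq F ^ (j + N) : ℕ) * L := by gcongr
      rw [div_lt_iff₀ hL] at hN
      linarith)
  rw [← add_assoc] at h2
  obtain ⟨r, hr, hjr⟩ : ∃ r, j + i = r ∧ j ≤ r + 1 := ⟨_, rfl, by omega⟩
  rw [hr] at h1 h2
  push Not at h1
  have hm1 : 1 ≤ r + 1 := by omega
  generalize hm' : r + 1 = m at h2 hjr hm1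
  have hN0 : K * m ^ 4 ≠ 0 := by positivity
  have hQ1 := Nat.lt_pow_succ_log_self (show 1 < qq F from hq) (K * m ^ 4)
  have hQ2 := Nat.pow_log_le_self (qq F) hN0
  generalize Nat.log (qq F) (K * m ^ 4) = n at hQ1 hQ2
  have hT : j ^ 4 + 2 * j ^ 3 * m ≤ 3 * m ^ 4 :=
    calc _ ≤ m ^ 4 + 2 * m ^ 3 * m := by gcongr
      _ = _ := by ring
  obtain ⟨h3, h4⟩ := (hev P _ _ _ hP m (hjm.trans hjr) n).2 E η hg hθ hu hE (le_trans (by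
    rw [hexp]
    gcongr
    push_cast
    nlinarith) h2) (by
    rw [hpow, Real.exp_lt_exp]
    have e1 : ((j ^ 4 + 2 * j ^ 3 * m : ℕ) : ℝ) ≤ 3 * (m : ℝ) ^ 4 := by exact_mod_cast hT
    have e2 : (K : ℝ) * (m : ℝ) ^ 4 < (qq F ^ (n + 1) : ℕ) := by exact_mod_cast hQ1
    calc _ ≤ 3 * (m : ℝ) ^ 4 * L := by gcongr
      _ = 3 * L * (m : ℝ) ^ 4 := by ring
      _ ≤ K * η * (m : ℝ) ^ 4 := by gcongr
      _ = η * (K * (m : ℝ) ^ 4) := by ring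
      _ < _ := by gcongr)
  have h5 := (hm _ _ (hV n) (norm_pos_iff.1 ((pow_pos hφ _).trans_le h3))).trans h4
  have h6 := M1_exp (x := c2 * (j : ℝ) ^ 3 - (qq F ^ r : ℕ) * L + η) (by positivity)
    (Nat.one_le_pow (n + 1) (qq F) (by omega)) (h5.trans (by
      rw [Real.exp_add]
      gcongr))
  have hS : j ^ 4 + 4 * j ^ 3 * qq F ^ (n + 1) + 2 ≤ (3 + 4 * (qq F * K)) * m ^ 7 := by
    have e1 : 1 ≤ m ^ 7 := Nat.one_le_pow _ _ hm1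
    have e2 : j ^ 4 ≤ m ^ 7 := (Nat.pow_le_pow_left hjr 4).trans (Nat.pow_le_pow_right hm1 (by omega))
    have e3 : 4 * j ^ 3 * qq F ^ (n + 1) ≤ 4 * m ^ 3 * (K * m ^ 4 * qq F) := by
      rw [pow_succ (qq F)]
      gcongr
    calc _ ≤ m ^ 7 + 4 * m ^ 3 * (K * m ^ 4 * qq F) + 2 * m ^ 7 := by omega
      _ = _ := by ring
  have hmR : (1 : ℝ) ≤ m := by exact_mod_cast hm1
  have h7 : ((j ^ 4 + 4 * j ^ 3 * qq F ^ (n + 1) + 2 : ℕ) : ℝ) ^ k ≤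
      ((3 + 4 * (qq F * K) : ℕ) : ℝ) ^ k * (m : ℝ) ^ (7 * k + 3) :=
    calc _ ≤ (((3 + 4 * (qq F * K) : ℕ) : ℝ) * (m : ℝ) ^ 7) ^ k := by
          gcongr
          exact_mod_cast hS
      _ ≤ _ := by
          rw [mul_pow, ← pow_mul]
          gcongr
          omega
  have h8 : c2 * (j : ℝ) ^ 3 ≤ c2 * (m : ℝ) ^ (7 * k + 3) :=
    mul_le_mul_of_nonneg_left ((pow_le_pow_left₀ (by positivity) (by exact_mod_cast hjr) 3).trans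
      (pow_le_pow_right₀ hmR (by omega))) h20
  have h9 : η ≤ η * (m : ℝ) ^ (7 * k + 3) := le_mul_of_one_le_right hη.le (one_le_pow₀ hmR)
  have h10 : (2 : ℝ) ^ r * L ≤ (qq F ^ r : ℕ) * L := by
    gcongr
    exact_mod_cast Nat.pow_le_pow_left hq r
  have h11 := hj0 m (hj.trans hjr)
  rw [show (2 : ℝ) ^ m = 2 ^ r * 2 by rw [← hm', pow_succ]] at h11
  linarith

end Pool.Agent.MP_655169_nt
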