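import Pool.Agent.MP_655169_nt.M1
import Pool.Agent.MP_655169_nt.Siegel
import Pool.Agent.MP_655169_nt.Ind

set_option linter.unusedSectionVars false

namespace Pool.Agent.MP_655169_nt

open Polynomial Filter Topology

variable {F C Ω : Type*} [Field F] [Fintype F] [NormedField C] [IsUltrametricDist C]
  [IsAlgClosed C] [Algebra F C] [NormedField Ω] [IsUltrametricDist Ω] [IsAlgClosed Ω]
  [Algebra C Ω] [Algebra F Ω] [IsScalarTower F C Ω] (Z : Sit F C Ω)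

/-- Exponent vectors in a square. -/
noncomputable def M2e (K : ℕ) (w : Fin K × Fin K) : Fin 2 →₀ ℕ :=
  Finsupp.single 0 (w.1 : ℕ) + Finsupp.single 1 (w.2 : ℕ)

theorem M2e_inj (K : ℕ) : Function.Injective (M2e K) := fun v w h => by
  have h0 := DFunLike.congr_fun h 0
  have h1 := DFunLike.congr_fun h 1
  simp only [M2e, Finsupp.add_apply, Finsupp.single_eq_same, ne_eq, zero_ne_one, one_ne_zero,
    not_false_eq_true, Finsupp.single_eq_of_ne, add_zero, zero_add] at h0 h1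
  exact Prod.ext (Fin.ext h0) (Fin.ext h1)

theorem M2e_deg (K : ℕ) (w : Fin K × Fin K) : (M2e K w).degree ≤ 2 * K := by
  have h1 := w.1.2
  have h2 := w.2.2
  rw [M2e, map_add, Finsupp.degree_single, Finsupp.degree_single]
  omega

theorem M2_li (θ x : C) (hi : AlgebraicIndependent F ![θ, x]) (K : ℕ) :
    LinearIndependent F fun w : Fin K × Fin K => θ ^ (w.1 : ℕ) * x ^ (w.2 : ℕ) := by
  have h := (((MvPolynomial.basisMonomials (Fin 2) F).linearIndependent).map'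
    (MvPolynomial.aeval ![θ, x] : MvPolynomial (Fin 2) F →ₐ[F] C).toLinearMap
    (LinearMap.ker_eq_bot.2 hi)).comp (M2e K) (M2e_inj K)
  refine (congrArg (fun v : Fin K × Fin K → C => LinearIndependent F v)
    (_root_.funext fun w => ?_)).mp h
  simp [M2e, MvPolynomial.aeval_monomial, Finsupp.prod_add_index', pow_add]

theorem M2_exp (c L : ℝ) (hL : 0 < L) : ∀ᶠ j : ℕ in atTop, c * (j : ℝ) ^ 12 ≤ L * 2 ^ j := by
  have h := (tendsto_pow_const_div_const_pow_of_one_lt 12 (one_lt_two (α := ℝ))).const_mul c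
  rw [mul_zero] at h
  filter_upwards [h.eventually_le_const hL] with j hj
  rwa [← mul_div_assoc, div_le_iff₀ (by positivity)] at hj

/-- The small nonzero values. -/
theorem Sit.m2 {κ : Type*} (u al : Fin 2 → C) (f : Fin 2 → Ω) (h : ∀ i, Z.Agf (u i) (al i) (f i))
    (hind : ∀ a b : F[X], aeval Z.θ a * u 0 + aeval Z.θ b * u 1 = 0 → a = 0 ∧ b = 0)
    (E : Subfield C) (η cS : ℝ) (hE : Loc F E η cS) (hθ : Z.θ ∈ E) (hu : ∀ i, u i ∈ E) (x : C)
    (hx : x ∈ E) (hi : AlgebraicIndependent F ![Z.θ, x]) (y : κ → C) (hθy : Z.θ ∈ Vs F y 1)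
    (hxy : x ∈ Vs F y 1) (huy : ∀ i, u i ∈ Vs F y 1) (haly : ∀ i, al i ∈ Vs F y 1) (k : ℕ)
    (hm : ∀ (S : ℕ) (w : C), w ∈ Vs F y S → w ≠ 0 → Real.exp (-((S + 2 : ℕ) : ℝ) ^ k) ≤ ‖w‖) :
    ∃ a : ℝ, 0 < a ∧ ∀ᶠ j : ℕ in atTop, ∃ (Q : ℕ) (w : C), j ^ 5 ≤ Q ∧ Q ≤ qq F * j ^ 5 ∧
      w ∈ Vs F y (5 * j ^ 3 * Q) ∧ w ≠ 0 ∧ ‖w‖ ≤ Real.exp (-((j : ℝ) ^ 12 * Q / a)) := by
  obtain ⟨m0, c, hc, hs⟩ := Z.siegel u al f h E η cS hE hθ hu
  obtain ⟨m1, d, hd, hev⟩ := Z.ev u al f h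
  have hη := hE.η_pos
  have hS := hE.cS_pos
  have hq : 2 ≤ qq F := two_le_qq (F := F)
  have hT := Z.hθ
  set M := max ‖Z.θ‖ ‖x‖ with hM
  have hM1 : 1 < M := lt_max_of_lt_left hT
  set c0 := 2 * Real.log M with hc0
  have hc0' : 0 ≤ c0 := mul_nonneg zero_le_two (Real.log_nonneg hM1.le)
  set L := Real.log ‖Z.θ‖ with hL
  have hL0 : 0 < L := Real.log_pos hT
  have hTh : ∀ n : ℕ, ‖Z.θ‖ ^ n = Real.exp (n * L) := fun n => by
    rw [Real.exp_nat_mul, Real.exp_log (by linarith)]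
  have ev : ∀ r : ℝ, ∀ᶠ j : ℕ in atTop, r < j := fun r =>
    tendsto_natCast_atTop_atTop.eventually_gt_atTop r
  refine ⟨12 * cS, by positivity, ?_⟩
  filter_upwards [Z.m1 u al f h E η hη hE.gap hθ hu y k hm c0 (η + c0 + 2 * d),
    eventually_ge_atTop m0, eventually_ge_atTop m1, eventually_ge_atTop 1,
    ev (6 * cS * (c0 + 2 * c + 1)), ev (3 * L / η), ev (12 * cS * η),
    M2_exp (c0 + 2 * c + 1 / (6 * cS)) L hL0] with j j1 j2 j3 j4 j5 j6 j7 j8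
  have hj : (1 : ℝ) ≤ j := by exact_mod_cast j4
  have hp : ∀ a b : ℕ, a ≤ b → (j : ℝ) ^ a ≤ (j : ℝ) ^ b := fun a b => pow_le_pow_right₀ hj
  have hj3 : (1 : ℝ) ≤ (j : ℝ) ^ 3 := one_le_pow₀ hj
  have hcw : ∀ w : (Fin (j ^ 3) × Fin (j ^ 3)) × (Fin (j ^ 3) × Fin (j ^ 3)),
      ‖Z.θ ^ (w.1.1 : ℕ) * x ^ (w.1.2 : ℕ)‖ ≤ Real.exp (c0 * (j : ℝ) ^ 3) := fun w => by
    have h1 := w.1.1.2
    have h2 := w.1.2.2
    calc _ ≤ M ^ (w.1.1 : ℕ) * M ^ (w.1.2 : ℕ) := by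
          rw [norm_mul, norm_pow, norm_pow]
          exact mul_le_mul (pow_le_pow_left₀ (norm_nonneg _) (le_max_left _ _) _)
            (pow_le_pow_left₀ (norm_nonneg _) (le_max_right _ _) _) (by positivity) (by positivity)
      _ ≤ M ^ (2 * j ^ 3) := by rw [← pow_add]; exact pow_le_pow_right₀ hM1.le (by omega)
      _ = _ := by
          rw [← Real.exp_log (show 0 < M by linarith), ← Real.exp_nat_mul, hc0]
          congr 1
          push_cast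
          ring
  have hcE : ∀ w : (Fin (j ^ 3) × Fin (j ^ 3)) × (Fin (j ^ 3) × Fin (j ^ 3)),
      Z.θ ^ (w.1.1 : ℕ) * x ^ (w.1.2 : ℕ) ∈ E := fun w => mul_mem (pow_mem hθ _) (pow_mem hx _)
  obtain ⟨a, ha, hFF⟩ := hs ((Fin (j ^ 3) × Fin (j ^ 3)) × (Fin (j ^ 3) × Fin (j ^ 3))) (j ^ 4)
    (2 * j ^ 3) j (c0 * (j : ℝ) ^ 3) ((j : ℝ) ^ 12 / (6 * cS))
    (fun w => Z.θ ^ (w.1.1 : ℕ) * x ^ (w.1.2 : ℕ)) (fun w => M2e _ w.2) j2 (by positivity)
    (by positivity) (fun w => ⟨hcE w, hcw w⟩) (fun w => M2e_deg _ _) (by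
      simp only [Fintype.card_prod, Fintype.card_fin]
      push_cast
      have e : cS * (c0 * (j : ℝ) ^ 3 + c * (2 * (j : ℝ) ^ 3) + (j : ℝ) ^ 12 / (6 * cS) + 1) =
          cS * ((c0 + 2 * c) * (j : ℝ) ^ 3 + 1) + (j : ℝ) ^ 12 / 6 := by
        field_simp
        ring
      have h1 : 6 * cS * ((c0 + 2 * c) * (j : ℝ) ^ 3 + 1) < (j : ℝ) ^ 12 :=
        calc _ ≤ 6 * cS * (c0 + 2 * c + 1) * (j : ℝ) ^ 3 := by
              rw [mul_assoc (6 * cS)]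
              exact mul_le_mul_of_nonneg_left (by linarith) (by positivity)
          _ < j * (j : ℝ) ^ 3 := mul_lt_mul_of_pos_right j5 (by positivity)
          _ = (j : ℝ) ^ 4 := by ring
          _ ≤ _ := hp 4 12 (by norm_num)
      rw [e]
      calc _ ≤ (3 * ((j : ℝ) ^ 4 + 1)) *
            (cS * ((c0 + 2 * c) * (j : ℝ) ^ 3 + 1) + (j : ℝ) ^ 12 / 6) :=
            mul_le_mul_of_nonneg_right (by linarith) (by positivity)
        _ = ((j : ℝ) ^ 4 + 1) *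
            (3 * (cS * ((c0 + 2 * c) * (j : ℝ) ^ 3 + 1) + (j : ℝ) ^ 12 / 6)) := by ring
        _ < ((j : ℝ) ^ 4 + 1) * (j : ℝ) ^ 12 := mul_lt_mul_of_pos_left (by linarith) (by positivity)
        _ = _ := by ring) (by
      rw [hTh, ← Real.exp_neg, ← Real.exp_add, Real.exp_le_exp]
      push_cast
      have h1 : (2 : ℝ) ^ j ≤ (qq F : ℝ) ^ j :=
        pow_le_pow_left₀ zero_le_two (by exact_mod_cast hq) j
      have h2 := mul_le_mul_of_nonneg_left h1 hL0.le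
      have h3 := mul_le_mul_of_nonneg_left (hp 3 12 (by norm_num)) (show 0 ≤ c0 + 2 * c by positivity)
      have h4 : (j : ℝ) ^ 12 / (6 * cS) = 1 / (6 * cS) * (j : ℝ) ^ 12 := by ring
      linarith)
  set P := aux a (fun w : (Fin (j ^ 3) × Fin (j ^ 3)) × (Fin (j ^ 3) × Fin (j ^ 3)) =>
    Z.θ ^ (w.1.1 : ℕ) * x ^ (w.1.2 : ℕ)) (fun w => M2e _ w.2) with hP
  have hne : Z.FF f P ≠ 0 :=
    Z.ind u al f h hind P (aux_ne a ha _ (M2_li Z.θ x hi _) _ (M2e_inj _))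
  have hbd : Bd P (2 * j ^ 3) (j ^ 4) (c0 * (j : ℝ) ^ 3) :=
    aux_bd a _ _ _ _ hcw fun w => M2e_deg _ _
  have hmem : ∀ e i, (P.coeff e).coeff i ∈ E := aux_mem E hE.const a _ _ hcE
  have hVV : ∀ n, Z.VV u al n P ∈ Vs F y (j ^ 4 + 4 * j ^ 3 * qq F ^ (n + 1)) := fun n => by
    refine Vs_mono y (le_of_eq ?_) (Z.aux_VV y u al hθy huy haly a _ _ (2 * j ^ 3) (2 * j ^ 3)
      (fun w => Vs_mono y ?_ (Vs_mul y (Vs_pow y hθy _) (Vs_pow y hxy _)))
      (fun w => M2e_deg _ _) n)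
    · ring
    · have h1 := w.1.1.2
      have h2 := w.1.2.2
      omega
  have hlow := j1 P hbd hmem hVV hne
  have hQ1 : j ^ 5 ≤ qq F ^ (Nat.log (qq F) (j ^ 5) + 1) := (Nat.lt_pow_succ_log_self hq _).le
  have hQ2 : qq F ^ (Nat.log (qq F) (j ^ 5) + 1) ≤ qq F * j ^ 5 := by
    rw [pow_succ']
    exact Nat.mul_le_mul_left _ (Nat.pow_log_le_self _ (by positivity))
  generalize Nat.log (qq F) (j ^ 5) = n at hQ1 hQ2
  have hQ1' : (j : ℝ) ^ 5 ≤ (qq F ^ (n + 1) : ℕ) := by exact_mod_cast hQ1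
  obtain ⟨w1, w2⟩ := (hev P _ _ _ hbd j j3 n).2 E η hE.gap hθ hu hmem (by
      refine le_trans (mul_le_mul_of_nonneg_right (Real.exp_le_exp.2 ?_) (by positivity)) hlow
      push_cast
      have := mul_le_mul_of_nonneg_left hj3 hη.le
      linarith) (by
      rw [hTh, Real.exp_lt_exp]
      rw [div_lt_iff₀ hη] at j6
      calc _ = 3 * L * (j : ℝ) ^ 4 := by push_cast; ring
        _ < j * η * (j : ℝ) ^ 4 := mul_lt_mul_of_pos_right j6 (by positivity)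
        _ = η * (j : ℝ) ^ 5 := by ring
        _ ≤ _ := mul_le_mul_of_nonneg_left hQ1' hη.le)
  refine ⟨_, Z.VV u al n P, hQ1, hQ2, Vs_mono y ?_ (hVV n), fun h0 => ?_, w2.trans ?_⟩
  · have h1 : j ≤ j ^ 5 := Nat.le_self_pow (by norm_num) j
    have h2 : j ^ 3 * j ≤ j ^ 3 * qq F ^ (n + 1) := Nat.mul_le_mul_left _ (h1.trans hQ1)
    calc _ = j ^ 3 * j + 4 * j ^ 3 * qq F ^ (n + 1) := by ring
      _ ≤ j ^ 3 * qq F ^ (n + 1) + 4 * j ^ 3 * qq F ^ (n + 1) := Nat.add_le_add_right h2 _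
      _ = _ := by ring
  · rw [h0, norm_zero] at w1
    exact absurd w1 (not_le.2 (pow_pos (norm_pos_iff.2 hne) _))
  · refine (pow_le_pow_left₀ (by positivity)
      (mul_le_mul_of_nonneg_right hFF (Real.exp_pos η).le) _).trans ?_
    rw [← Real.exp_add, ← Real.exp_nat_mul, Real.exp_le_exp]
    have h1 : η ≤ (j : ℝ) ^ 12 / (12 * cS) := by
      rw [le_div_iff₀ (by positivity)]
      have := hp 1 12 (by norm_num)
      rw [pow_one] at this
      linarith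
    have h2 : (j : ℝ) ^ 12 / (6 * cS) = 2 * ((j : ℝ) ^ 12 / (12 * cS)) := by
      field_simp
      ring
    calc _ ≤ ((qq F ^ (n + 1) : ℕ) : ℝ) * -((j : ℝ) ^ 12 / (12 * cS)) :=
          mul_le_mul_of_nonneg_left (by linarith) (Nat.cast_nonneg _)
      _ = _ := by ring

end Pool.Agent.MP_655169_nt
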