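import Pool.Agent.MP_655169_nt.M2
import Pool.Agent.MP_655169_nt.HL
import Pool.Agent.MP_655169_nt.LI
import Pool.Agent.MP_655169_nt.GC

set_option linter.unusedSectionVars false

namespace Pool.Agent.MP_655169_nt

open Polynomial Filter Topology

variable {F C Ω : Type*} [Field F] [Fintype F] [NormedField C] [IsUltrametricDist C]
  [IsAlgClosed C] [Algebra F C] [NormedField Ω] [IsUltrametricDist Ω] [IsAlgClosed Ω]
  [Algebra C Ω] [Algebra F Ω] [IsScalarTower F C Ω] (Z : Sit F C Ω)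

theorem Main_pow (c κ S : ℕ) : (c * S + 2) ^ κ + c * S ≤ (S + 2) ^ ((c + 1) * (κ + 1) + 1) := by
  have h1 : c + 1 ≤ (S + 2) ^ c :=
    le_trans (Nat.lt_two_pow_self (n := c)) (Nat.pow_le_pow_left (by omega) c)
  have h2 : c * S + 2 ≤ (S + 2) ^ (c + 1) := by
    rw [pow_succ]
    nlinarith
  have h3 : 0 < (S + 2) ^ (c + 1) := by positivity
  have h4 : (c * S + 2) ^ κ ≤ ((S + 2) ^ (c + 1)) ^ (κ + 1) :=
    le_trans (Nat.pow_le_pow_left h2 κ) (Nat.pow_le_pow_right h3 (by omega))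
  have h5 : (S + 2) ^ (c + 1) ≤ ((S + 2) ^ (c + 1)) ^ (κ + 1) := Nat.le_self_pow (by omega) _
  rw [pow_succ, pow_mul]
  nlinarith

theorem meas {ι : Type*} [Fintype ι] (θ x : C) (hi : AlgebraicIndependent F ![θ, x])
    (y : ι → C) (hy : ∀ i, ∃ d, Alg F ![θ, x] d d (y i))
    (h : ∃ κ : ℕ, ∀ (d : ℕ) (R : MvPolynomial (Fin 2) F), R ≠ 0 → R.totalDegree ≤ d →
      Real.exp (-((d + 2 : ℕ) : ℝ) ^ κ) ≤ ‖MvPolynomial.aeval ![θ, x] R‖) :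
    ∃ k : ℕ, ∀ (S : ℕ) (w : C), w ∈ Vs F (Sum.elim ![θ, x] y) S → w ≠ 0 →
      Real.exp (-((S + 2 : ℕ) : ℝ) ^ k) ≤ ‖w‖ := by
  obtain ⟨κ, hκ⟩ := h
  obtain ⟨c, hc⟩ := red ![θ, x] hi y hy
  refine ⟨(c + 1) * (κ + 1) + 1, fun S w hw h0 => ?_⟩
  by_cases h1 : ‖w‖ ≤ 1
  · obtain ⟨b, hb0, hbd, hb⟩ := hc S w hw h0 h1
    have h2 := (hκ (c * S) b hb0 hbd).trans hb
    have h3 : (((c * S + 2 : ℕ) : ℝ)) ^ κ + c * S ≤ ((S + 2 : ℕ) : ℝ) ^ ((c + 1) * (κ + 1) + 1) := by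
      exact_mod_cast Main_pow c κ S
    have h4 : Real.exp (c * S) * Real.exp (-((S + 2 : ℕ) : ℝ) ^ ((c + 1) * (κ + 1) + 1)) ≤
        Real.exp (c * S) * ‖w‖ := by
      refine le_trans ?_ h2
      rw [← Real.exp_add]
      exact Real.exp_le_exp.2 (by linarith)
    exact le_of_mul_le_mul_left h4 (Real.exp_pos _)
  · refine le_trans ?_ (not_le.1 h1).le
    exact Real.exp_le_one_iff.2 (neg_nonpos.2 (by positivity))

theorem Sit.main1 (u al : Fin 2 → C) (f : Fin 2 → Ω) (h : ∀ i, Z.Agf (u i) (al i) (f i))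
    (hind : ∀ a b : F[X], aeval Z.θ a * u 0 + aeval Z.θ b * u 1 = 0 → a = 0 ∧ b = 0)
    (E : Subfield C) (η cS : ℝ) (hE : Loc F E η cS) (hθ : Z.θ ∈ E) (hu : ∀ i, u i ∈ E) (x : C)
    (hx : x ∈ E) (hi : AlgebraicIndependent F ![Z.θ, x])
    (hua : ∀ i, ∃ d, Alg F ![Z.θ, x] d d (u i)) (hala : ∀ i, ∃ d, Alg F ![Z.θ, x] d d (al i)) :
    False := by
  have hu0 : u 0 ≠ 0 := fun h0 => one_ne_zero (hind 1 0 (by simp [h0])).1
  have h1 := li Z.θ x (u 0) (al 0) Z.hθ (hua 0) (hala 0)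
    (Z.hl (u 0) (al 0) (f 0) (h 0) hu0 E η cS hE hθ (hu 0))
  have hy : ∀ i, ∃ d, Alg F ![Z.θ, x] d d (Sum.elim u al i) := by
    rintro (i | i)
    · exact hua i
    · exact hala i
  obtain ⟨k, hk⟩ := meas Z.θ x hi (Sum.elim u al) hy h1
  obtain ⟨c, hc⟩ := red ![Z.θ, x] hi (Sum.elim u al) hy
  obtain ⟨a, ha, hev⟩ := Z.m2 u al f h hind E η cS hE hθ hu x hx hi
    (Sum.elim ![Z.θ, x] (Sum.elim u al)) (Vs_var _ (Sum.inl 0)) (Vs_var _ (Sum.inl 1))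
    (fun i => Vs_var (Sum.elim ![Z.θ, x] (Sum.elim u al)) (Sum.inr (Sum.inl i)))
    (fun i => Vs_var (Sum.elim ![Z.θ, x] (Sum.elim u al)) (Sum.inr (Sum.inr i))) k hk
  refine gc Z.θ x Z.hθ hi (5 * c * qq F + 2 * a) (by positivity) ?_
  have hj : ∀ᶠ j : ℕ in atTop, 10 * a * c + 1 ≤ (j : ℝ) :=
    tendsto_natCast_atTop_atTop.eventually_ge_atTop _
  filter_upwards [hev, hj] with j hj1 hj2
  obtain ⟨Q, w, hQ1, hQ2, hw, hw0, hwn⟩ := hj1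
  have hac : 0 ≤ 10 * a * c := by positivity
  have hj0 : (1 : ℝ) ≤ j := by linarith
  have hw1 : ‖w‖ ≤ 1 := hwn.trans (Real.exp_le_one_iff.2 (neg_nonpos.2 (by positivity)))
  obtain ⟨b, hb0, hbd, hb⟩ := hc _ w hw hw0 hw1
  refine ⟨b, hb0, ?_, ?_⟩
  · have h2 : b.totalDegree ≤ 5 * c * qq F * j ^ 8 := by
      refine hbd.trans ?_
      calc c * (5 * j ^ 3 * Q) ≤ c * (5 * j ^ 3 * (qq F * j ^ 5)) := by gcongr
        _ = 5 * c * qq F * j ^ 8 := by ring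
    have h3 : (b.totalDegree : ℝ) ≤ 5 * c * qq F * (j : ℝ) ^ 8 := by exact_mod_cast h2
    have h4 : 0 ≤ 2 * a * (j : ℝ) ^ 8 := by positivity
    linarith
  · refine hb.trans ((mul_le_mul_of_nonneg_left hwn (Real.exp_pos _).le).trans ?_)
    rw [← Real.exp_add]
    refine Real.exp_le_exp.2 ?_
    have hQ : (j : ℝ) ^ 5 ≤ Q := by exact_mod_cast hQ1
    have h9 : 10 * a * c ≤ (j : ℝ) ^ 9 := by
      have := le_self_pow₀ hj0 (n := 9) (by norm_num)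
      linarith
    have h5 : (j : ℝ) ^ 17 / (5 * c * qq F + 2 * a) ≤ (j : ℝ) ^ 12 * Q / (2 * a) := by
      have h6 : (j : ℝ) ^ 17 ≤ (j : ℝ) ^ 12 * Q := by
        rw [show (j : ℝ) ^ 17 = (j : ℝ) ^ 12 * (j : ℝ) ^ 5 by ring]
        gcongr
      have h7 : (0 : ℝ) ≤ 5 * c * qq F := by positivity
      gcongr
      linarith
    have h6 : (c : ℝ) * (5 * (j : ℝ) ^ 3 * Q) ≤ (j : ℝ) ^ 12 * Q / (2 * a) := by
      rw [le_div_iff₀ (by positivity)]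
      calc (c : ℝ) * (5 * (j : ℝ) ^ 3 * Q) * (2 * a) = (10 * a * c) * ((j : ℝ) ^ 3 * Q) := by ring
        _ ≤ (j : ℝ) ^ 9 * ((j : ℝ) ^ 3 * Q) := by gcongr
        _ = (j : ℝ) ^ 12 * Q := by ring
    have h7 : (j : ℝ) ^ 12 * Q / a = 2 * ((j : ℝ) ^ 12 * Q / (2 * a)) := by field_simp
    push_cast
    linarith

theorem Sit.main0 (u al : C) (f : Ω) (h : Z.Agf u al f) (hu0 : u ≠ 0) (E : Subfield C)
    (η cS : ℝ) (hE : Loc F E η cS) (hθ : Z.θ ∈ E) (hu : u ∈ E) (hua : ∃ d, Alg F ![Z.θ] d d u)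
    (hala : ∃ d, Alg F ![Z.θ] d d al) : False := by
  obtain ⟨κ, hκ⟩ := Z.hl u al f h hu0 E η cS hE hθ hu
  obtain ⟨d, hd⟩ := hua
  obtain ⟨d', hd'⟩ := hala
  have := hκ (max d d') u al (hd.mono (le_max_left _ _) (le_max_left _ _))
    (hd'.mono (le_max_right _ _) (le_max_right _ _))
  simp only [sub_self, norm_zero, max_self] at this
  exact absurd this (not_le.2 (Real.exp_pos _))

end Pool.Agent.MP_655169_nt
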