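import Pool.Agent.MP_655169_nt.Defs

set_option linter.unusedSectionVars false

namespace Pool.Agent.MP_655169_nt

open Polynomial Filter Topology

variable {F Λ : Type*} [Field F] [Fintype F] [NormedField Λ] [IsUltrametricDist Λ] [Algebra F Λ]

theorem two_le_qq : 2 ≤ qq F := Fintype.one_lt_card

theorem norm_F_eq (a : F) (ha : a ≠ 0) : ‖algebraMap F Λ a‖ = 1 := by
  have h := FiniteField.pow_card_sub_one_eq_one a ha
  have h2 : ‖algebraMap F Λ a‖ ^ (Fintype.card F - 1) = 1 := by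
    rw [← norm_pow, ← map_pow, h, map_one, norm_one]
  have h3 : Fintype.card F - 1 ≠ 0 := by
    have := Fintype.one_lt_card (α := F)
    omega
  exact (pow_eq_one_iff_of_nonneg (norm_nonneg _) h3).1 h2

theorem norm_F_le (a : F) : ‖algebraMap F Λ a‖ ≤ 1 := by
  by_cases ha : a = 0
  · simp [ha]
  · exact (norm_F_eq a ha).le

theorem Norm1_pow (x y : Λ) (M ε : ℝ) (hM : 1 ≤ M) (hx : ‖x‖ ≤ M) (hy : ‖y‖ ≤ M)
    (h : ‖x - y‖ ≤ ε) (k : ℕ) : ‖x ^ k - y ^ k‖ ≤ M ^ k * ε := by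
  have hε : 0 ≤ ε := (norm_nonneg _).trans h
  have hM0 : 0 ≤ M := by linarith
  induction k with
  | zero => simpa using hε
  | succ k ih =>
    have e : x ^ (k + 1) - y ^ (k + 1) = x * (x ^ k - y ^ k) + (x - y) * y ^ k := by ring
    rw [e]
    refine (IsUltrametricDist.norm_add_le_max _ _).trans (max_le ?_ ?_)
    · rw [norm_mul, pow_succ', mul_assoc]
      gcongr
    · rw [norm_mul, norm_pow, mul_comm]
      calc ‖y‖ ^ k * ‖x - y‖ ≤ M ^ k * ε := by gcongr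
        _ ≤ M ^ (k + 1) * ε := by gcongr; omega

theorem Norm1_prod_le {κ : Type*} (z : κ → Λ) (M : ℝ) (hM : 1 ≤ M) (hz : ∀ k, ‖z k‖ ≤ M)
    (e : κ → ℕ) (s : Finset κ) : ‖∏ i ∈ s, z i ^ e i‖ ≤ M ^ (∑ i ∈ s, e i) := by
  rw [norm_prod, ← Finset.prod_pow_eq_pow_sum]
  refine Finset.prod_le_prod (fun _ _ => norm_nonneg _) fun i _ => ?_
  rw [norm_pow]
  gcongr
  exact hz i

theorem Norm1_prod {κ : Type*} (z z' : κ → Λ) (M ε : ℝ) (hM : 1 ≤ M) (hε : 0 ≤ ε)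
    (hz : ∀ k, ‖z k‖ ≤ M) (hz' : ∀ k, ‖z' k‖ ≤ M) (h : ∀ k, ‖z k - z' k‖ ≤ ε) (e : κ → ℕ)
    (s : Finset κ) :
    ‖∏ i ∈ s, z i ^ e i - ∏ i ∈ s, z' i ^ e i‖ ≤ M ^ (∑ i ∈ s, e i) * ε := by
  classical
  have hM0 : 0 ≤ M := by linarith
  induction s using Finset.induction_on with
  | empty => simpa using hε
  | insert a s ha ih =>
    rw [Finset.prod_insert ha, Finset.prod_insert ha, Finset.sum_insert ha]
    have e1 : z a ^ e a * ∏ i ∈ s, z i ^ e i - z' a ^ e a * ∏ i ∈ s, z' i ^ e i =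
        z a ^ e a * (∏ i ∈ s, z i ^ e i - ∏ i ∈ s, z' i ^ e i) +
          (z a ^ e a - z' a ^ e a) * ∏ i ∈ s, z' i ^ e i := by ring
    rw [e1, pow_add]
    refine (IsUltrametricDist.norm_add_le_max _ _).trans (max_le ?_ ?_)
    · rw [norm_mul, norm_pow, mul_assoc]
      gcongr
      exact hz a
    · rw [norm_mul, mul_right_comm]
      exact mul_le_mul (Norm1_pow _ _ M ε hM (hz a) (hz' a) (h a) _)
        (Norm1_prod_le z' M hM hz' e s) (norm_nonneg _) (by positivity)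

theorem norm_eval₂_le {R κ : Type*} [CommRing R] (φ : R →+* Λ) (P : MvPolynomial κ R) (z : κ → Λ)
    (A M : ℝ) (hA0 : 0 ≤ A) (hA : ∀ e, ‖φ (P.coeff e)‖ ≤ A) (hM : 1 ≤ M) (hz : ∀ k, ‖z k‖ ≤ M)
    (d : ℕ) (hd : P.totalDegree ≤ d) : ‖MvPolynomial.eval₂ φ z P‖ ≤ A * M ^ d := by
  rw [MvPolynomial.eval₂_eq]
  refine IsUltrametricDist.norm_sum_le_of_forall_le_of_nonneg (by positivity) fun e he => ?_
  rw [norm_mul]
  refine mul_le_mul (hA e) ((Norm1_prod_le z M hM hz e _).trans ?_) (norm_nonneg _) hA0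
  exact pow_le_pow_right₀ hM ((MvPolynomial.le_totalDegree he).trans hd)

theorem norm_aeval_le {κ : Type*} (z : κ → Λ) (M : ℝ) (hM : 1 ≤ M) (hz : ∀ k, ‖z k‖ ≤ M)
    (b : MvPolynomial κ F) (d : ℕ) (hd : b.totalDegree ≤ d) :
    ‖MvPolynomial.aeval z b‖ ≤ M ^ d := by
  have := norm_eval₂_le (algebraMap F Λ) b z 1 M zero_le_one (fun e => norm_F_le _) hM hz d hd
  rwa [one_mul] at this

theorem lip_eval₂ {R κ : Type*} [CommRing R] (φ : R →+* Λ) (P : MvPolynomial κ R) (z z' : κ → Λ)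
    (A M ε : ℝ) (hA0 : 0 ≤ A) (hA : ∀ e, ‖φ (P.coeff e)‖ ≤ A) (hM : 1 ≤ M) (hε : 0 ≤ ε)
    (hz : ∀ k, ‖z k‖ ≤ M) (hz' : ∀ k, ‖z' k‖ ≤ M) (h : ∀ k, ‖z k - z' k‖ ≤ ε) (d : ℕ)
    (hd : P.totalDegree ≤ d) :
    ‖MvPolynomial.eval₂ φ z P - MvPolynomial.eval₂ φ z' P‖ ≤ A * M ^ d * ε := by
  rw [MvPolynomial.eval₂_eq, MvPolynomial.eval₂_eq, ← Finset.sum_sub_distrib]
  refine IsUltrametricDist.norm_sum_le_of_forall_le_of_nonneg (by positivity) fun e he => ?_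
  rw [← mul_sub, norm_mul, mul_assoc]
  refine mul_le_mul (hA e) ((Norm1_prod z z' M ε hM hε hz hz' h e _).trans ?_) (norm_nonneg _) hA0
  exact mul_le_mul_of_nonneg_right
    (pow_le_pow_right₀ hM ((MvPolynomial.le_totalDegree he).trans hd)) hε

theorem lip_aeval {κ : Type*} (z z' : κ → Λ) (M ε : ℝ) (hM : 1 ≤ M) (hε : 0 ≤ ε)
    (hz : ∀ k, ‖z k‖ ≤ M) (hz' : ∀ k, ‖z' k‖ ≤ M) (h : ∀ k, ‖z k - z' k‖ ≤ ε)
    (b : MvPolynomial κ F) (d : ℕ) (hd : b.totalDegree ≤ d) :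
    ‖MvPolynomial.aeval z b - MvPolynomial.aeval z' b‖ ≤ M ^ d * ε := by
  have := lip_eval₂ (algebraMap F Λ) b z z' 1 M ε zero_le_one (fun e => norm_F_le _) hM hε hz hz'
    h d hd
  rwa [one_mul] at this

theorem lip_poly {R : Type*} [CommRing R] (φ : R →+* Λ) (P : R[X]) (y y' : Λ) (A M : ℝ)
    (hA : ∀ j, ‖φ (P.coeff j)‖ ≤ A) (hM : 1 ≤ M) (hy : ‖y‖ ≤ M) (hy' : ‖y'‖ ≤ M) (d : ℕ)
    (hd : P.natDegree ≤ d) : ‖P.eval₂ φ y - P.eval₂ φ y'‖ ≤ A * M ^ d * ‖y - y'‖ := by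
  have hA0 : 0 ≤ A := (norm_nonneg _).trans (hA 0)
  rw [eval₂_eq_sum_range, eval₂_eq_sum_range, ← Finset.sum_sub_distrib]
  refine IsUltrametricDist.norm_sum_le_of_forall_le_of_nonneg (by positivity) fun j hj => ?_
  rw [← mul_sub, norm_mul, mul_assoc]
  refine mul_le_mul (hA j) ((Norm1_pow y y' M _ hM hy hy' le_rfl j).trans ?_) (norm_nonneg _) hA0
  have : j ≤ d := by
    have := Finset.mem_range.1 hj
    omega
  exact mul_le_mul_of_nonneg_right (pow_le_pow_right₀ hM this) (norm_nonneg _)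

end Pool.Agent.MP_655169_nt
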