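import Pool.Agent.MP_655169_nt.Basic
import Pool.Agent.MP_655169_nt.Trunc
import Pool.Agent.MP_655169_nt.VsL

set_option linter.unusedSectionVars false

namespace Pool.Agent.MP_655169_nt

open Polynomial Filter Topology

variable {F C Ω : Type*} [Field F] [Fintype F] [NormedField C] [IsUltrametricDist C]
  [IsAlgClosed C] [Algebra F C] [NormedField Ω] [IsUltrametricDist Ω] [IsAlgClosed Ω]
  [Algebra C Ω] [Algebra F Ω] [IsScalarTower F C Ω] (Z : Sit F C Ω)

section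

variable {ι W : Type*} [Fintype W] {T : ℕ}

open Classical in
theorem siegel1_coeff (a : Fin (T + 1) × W → F) (cw : W → C) (ew : W → ι →₀ ℕ) (e : ι →₀ ℕ) :
    (aux a cw ew).coeff e = ∑ x : Fin (T + 1) × W,
      if ew x.2 = e then Polynomial.monomial x.1 (algebraMap F C (a x) * cw x.2) else 0 := by
  simp only [aux, MvPolynomial.coeff_sum, MvPolynomial.coeff_monomial]

open Classical in
theorem siegel1_coeff2 (a : Fin (T + 1) × W → F) (cw : W → C) (ew : W → ι →₀ ℕ) (e : ι →₀ ℕ)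
    (j : ℕ) : ((aux a cw ew).coeff e).coeff j = ∑ x : Fin (T + 1) × W,
      if ew x.2 = e ∧ (x.1 : ℕ) = j then algebraMap F C (a x) * cw x.2 else 0 := by
  rw [siegel1_coeff, finsetSum_coeff]
  refine Finset.sum_congr rfl fun x _ => ?_
  by_cases h : ew x.2 = e
  · simp only [h, if_true, true_and, coeff_monomial]
  · simp only [h, if_false, false_and, coeff_zero]

theorem siegel1_prod {κ : Type*} (y : κ → C) (z : ι → C) (Q : ℕ) (hz : ∀ i, z i ∈ Vs F y Q)
    (e : ι →₀ ℕ) : (e.prod fun i k => z i ^ k) ∈ Vs F y (e.degree * Q) := by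
  have h := Vs_aeval y z Q hz (MvPolynomial.monomial e 1) e.degree
    (MvPolynomial.totalDegree_monomial_le _ _)
  rwa [MvPolynomial.aeval_monomial, map_one, one_mul, mul_comm] at h

theorem aux_bd (a : Fin (T + 1) × W → F) (cw : W → C) (ew : W → ι →₀ ℕ) (D : ℕ) (A : ℝ)
    (hc : ∀ w, ‖cw w‖ ≤ Real.exp A) (he : ∀ w, (ew w).degree ≤ D) : Bd (aux a cw ew) D T A := by
  classical
  refine ⟨?_, fun e => ?_, fun e j => ?_⟩
  · exact MvPolynomial.totalDegree_finsetSum_le fun x _ =>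
      (MvPolynomial.totalDegree_monomial_le _ _).trans (he x.2)
  · rw [siegel1_coeff]
    refine natDegree_sum_le_of_forall_le _ _ fun x _ => ?_
    split_ifs
    · exact (natDegree_monomial_le _).trans (Nat.lt_succ_iff.1 x.1.2)
    · simp
  · rw [siegel1_coeff2]
    refine IsUltrametricDist.norm_sum_le_of_forall_le_of_nonneg (Real.exp_pos A).le fun x _ => ?_
    split_ifs
    · rw [norm_mul]
      exact (mul_le_of_le_one_left (norm_nonneg _) (norm_F_le _)).trans (hc _)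
    · rw [norm_zero]
      exact (Real.exp_pos A).le

theorem aux_mem (E : Subfield C) (hF : ∀ a : F, algebraMap F C a ∈ E) (a : Fin (T + 1) × W → F)
    (cw : W → C) (ew : W → ι →₀ ℕ) (hc : ∀ w, cw w ∈ E) (e : ι →₀ ℕ) (j : ℕ) :
    ((aux a cw ew).coeff e).coeff j ∈ E := by
  rw [siegel1_coeff2]
  refine sum_mem fun x _ => ?_
  split_ifs
  exacts [mul_mem (hF _) (hc _), zero_mem _]

theorem aux_ne {W₁ W₂ : Type*} [Fintype W₁] [Fintype W₂] (a : Fin (T + 1) × (W₁ × W₂) → F)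
    (ha : a ≠ 0) (c₁ : W₁ → C) (hc : LinearIndependent F c₁) (e₂ : W₂ → ι →₀ ℕ)
    (he : Function.Injective e₂) : aux a (fun w => c₁ w.1) (fun w => e₂ w.2) ≠ 0 := by
  classical
  refine fun h => ha (funext fun ⟨s, w₁, w₂⟩ => ?_)
  have h1 := siegel1_coeff2 a (fun w => c₁ w.1) (fun w => e₂ w.2) (e₂ w₂) s
  rw [h, MvPolynomial.coeff_zero, coeff_zero, Fintype.sum_prod_type, Finset.sum_eq_single s
    (fun b _ hb => Finset.sum_eq_zero fun w _ => if_neg fun h' => hb (Fin.ext h'.2)) (by simp),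
    Fintype.sum_prod_type] at h1
  refine Fintype.linearIndependent_iff.1 hc (fun w => a (s, w, w₂)) ?_ w₁
  rw [h1]
  refine Finset.sum_congr rfl fun w _ => ?_
  rw [Finset.sum_eq_single w₂ (fun b _ hb => if_neg fun h' => hb (he h'.1)) (by simp),
    if_pos ⟨rfl, rfl⟩, Algebra.smul_def]

theorem Sit.aux_FF (f : ι → Ω) (a : Fin (T + 1) × W → F) (cw : W → C) (ew : W → ι →₀ ℕ) :
    Z.FF f (aux a cw ew) = ∑ x : Fin (T + 1) × W, algebraMap F Ω (a x) * algebraMap C Ω (cw x.2) *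
      Z.t ^ (x.1 : ℕ) * (ew x.2).prod fun i k => f i ^ k := by
  rw [Sit.FF, aux, MvPolynomial.eval₂_sum]
  refine Finset.sum_congr rfl fun x _ => ?_
  rw [MvPolynomial.eval₂_monomial, IsScalarTower.algebraMap_apply F C Ω, ← map_mul,
    ← aeval_monomial]
  rfl

theorem Sit.aux_VV {κ : Type*} (y : κ → C) (u al : ι → C) (hθ : Z.θ ∈ Vs F y 1)
    (hu : ∀ i, u i ∈ Vs F y 1) (hal : ∀ i, al i ∈ Vs F y 1) (a : Fin (T + 1) × W → F)
    (cw : W → C) (ew : W → ι →₀ ℕ) (Dc D : ℕ) (hc : ∀ w, cw w ∈ Vs F y Dc)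
    (he : ∀ w, (ew w).degree ≤ D) (n : ℕ) :
    Z.VV u al n (aux a cw ew) ∈ Vs F y (T + (Dc + D) * qq F ^ (n + 1)) := by
  rw [Sit.VV, aux, MvPolynomial.eval₂_sum]
  refine Submodule.sum_mem _ fun x _ => ?_
  rw [MvPolynomial.eval₂_monomial, ← C_mul_X_pow_eq_monomial, map_mul, map_pow, Z.evt_C, Z.evt_X,
    mul_pow, ← Z.fr_pow, Z.fr_F]
  refine Vs_mono y ?_ (Vs_mul y (Vs_mul y (Vs_mul y (Vs_const y (a x) 0) (Vs_pow y (hc x.2) _))
    (Vs_pow y hθ x.1)) (siegel1_prod y _ _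
      (fun i => Vs_ph y _ two_le_qq hθ (hu i) (hal i) n) (ew x.2)))
  have h1 := Nat.mul_le_mul_right (qq F ^ (n + 1)) (he x.2)
  have h2 := x.1.2
  rw [add_mul]
  omega

end

end Pool.Agent.MP_655169_nt
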