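import Pool.Agent.MP_655169_nt.Norm

set_option linter.unusedSectionVars false

namespace Pool.Agent.MP_655169_nt

open Polynomial Filter Topology

variable {F C Ω : Type*} [Field F] [Fintype F] [NormedField C] [IsUltrametricDist C]
  [IsAlgClosed C] [Algebra F C] [NormedField Ω] [IsUltrametricDist Ω] [IsAlgClosed Ω]
  [Algebra C Ω] [Algebra F Ω] [IsScalarTower F C Ω] (Z : Sit F C Ω)

namespace Sit

theorem norm_alg (Z : Sit F C Ω) (c : C) : ‖algebraMap C Ω c‖ = ‖c‖ := by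
  have h1 := Z.gauss_le (Polynomial.C c) 0
  obtain ⟨j, h2⟩ := Z.gauss_ge (Polynomial.C c)
  rw [aeval_C] at h1 h2
  rw [coeff_C_zero] at h1
  refine le_antisymm (h2.trans ?_) h1
  rw [coeff_C]
  split_ifs <;> simp

theorem norm_t : ‖Z.t‖ = 1 := by
  have h1 := Z.gauss_le X 1
  obtain ⟨j, h2⟩ := Z.gauss_ge X
  rw [aeval_X] at h1 h2
  rw [coeff_X_one, norm_one] at h1
  refine le_antisymm (h2.trans ?_) h1
  rw [coeff_X]
  split_ifs <;> simp

theorem norm_aeval_le (H : C[X]) (A : ℝ) (h : ∀ j, ‖H.coeff j‖ ≤ A) : ‖aeval Z.t H‖ ≤ A := by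
  obtain ⟨j, h2⟩ := Z.gauss_ge H
  exact h2.trans (h j)

theorem aeval_ne (H : C[X]) (h : H ≠ 0) : aeval Z.t H ≠ 0 := by
  intro h0
  apply h
  ext j
  have h1 := Z.gauss_le H j
  rw [h0, norm_zero] at h1
  simpa using h1

theorem norm_sub_t (c : C) (hc : 1 ≤ ‖c‖) : ‖algebraMap C Ω c - Z.t‖ = ‖c‖ := by
  have e : algebraMap C Ω c - Z.t = aeval Z.t (Polynomial.C c - X) := by simp
  rw [e]
  refine le_antisymm (Z.norm_aeval_le _ _ fun j => ?_) ?_
  · rw [coeff_sub, coeff_C, coeff_X]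
    split_ifs with h1 h2 h2
    · omega
    · simp
    · simpa using hc
    · simp
  · have h1 := Z.gauss_le (Polynomial.C c - X) 0
    rwa [coeff_sub, coeff_C_zero, coeff_X_zero, sub_zero] at h1

theorem norm_deriv_le (H : C[X]) : ‖aeval Z.t (derivative H)‖ ≤ ‖aeval Z.t H‖ := by
  refine Z.norm_aeval_le _ _ fun j => ?_
  rw [coeff_derivative, norm_mul]
  have h1 : ‖(j : C) + 1‖ ≤ 1 := by
    simpa using IsUltrametricDist.norm_natCast_le_one C (j + 1)
  exact (mul_le_of_le_one_right (norm_nonneg _) h1).trans (Z.gauss_le H _)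

theorem fr_pow (n : ℕ) (x : C) : (Z.fr ^ n) x = x ^ qq F ^ n := by
  induction n generalizing x with
  | zero => simp
  | succ n ih => rw [pow_succ', RingHom.mul_def, RingHom.comp_apply, ih, Z.fr_eq, ← pow_mul,
      ← pow_succ]

theorem fr_bij : Function.Bijective Z.fr := by
  refine ⟨Z.fr.injective, fun y => ?_⟩
  obtain ⟨x, hx⟩ := IsAlgClosed.exists_pow_nat_eq y (n := qq F) Fintype.card_pos
  exact ⟨x, by rw [Z.fr_eq, hx]⟩

theorem fr_F (n : ℕ) (a : F) : (Z.fr ^ n) (algebraMap F C a) = algebraMap F C a := by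
  rw [Z.fr_pow, ← map_pow, FiniteField.pow_card_pow]

theorem σ_F (a : F) : Z.σ (algebraMap F Ω a) = algebraMap F Ω a := by
  rw [IsScalarTower.algebraMap_apply F C Ω, Z.σ_c, ← map_pow, FiniteField.pow_card]

theorem σ_aeval (H : C[X]) : Z.σ (aeval Z.t H) = aeval Z.t (Z.tw 1 H) := by
  induction H using Polynomial.induction_on' with
  | add p q hp hq => simp only [map_add, hp, hq]
  | monomial n a =>
    simp only [tw, coe_mapRingHom, Polynomial.map_monomial, aeval_monomial, map_mul, map_pow,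
      Z.σ_c, Z.σ_t, pow_one, Z.fr_eq]

theorem σ_cont : Continuous Z.σ := by
  refine continuous_of_continuousAt_zero Z.σ.toAddMonoidHom ?_
  have h0 : qq F ≠ 0 := Fintype.card_ne_zero
  rw [ContinuousAt, map_zero, tendsto_zero_iff_norm_tendsto_zero]
  have h1 : Tendsto (fun y : Ω => ‖y‖ ^ qq F) (𝓝 0) (𝓝 (‖(0 : Ω)‖ ^ qq F)) :=
    (continuous_norm.pow _).tendsto 0
  rw [norm_zero, zero_pow h0] at h1
  exact h1.congr fun y => (Z.σ_norm y).symm

theorem tw_succ (n : ℕ) (H : C[X]) : Z.tw n (Z.tw 1 H) = Z.tw (n + 1) H := by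
  simp only [tw, coe_mapRingHom, Polynomial.map_map]
  rw [pow_one, pow_succ, RingHom.mul_def]

theorem tw_bij : Function.Bijective (Z.tw 1) := by
  simp only [tw, coe_mapRingHom, pow_one]
  exact ⟨Polynomial.map_injective _ Z.fr_bij.1, Polynomial.map_surjective _ Z.fr_bij.2⟩

theorem tw_natDegree (n : ℕ) (H : C[X]) : (Z.tw n H).natDegree = H.natDegree := by
  simp only [tw, coe_mapRingHom]
  exact natDegree_map_eq_of_injective (Z.fr ^ n).injective H

end Sit

end Pool.Agent.MP_655169_nt
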