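import Pool.Agent.MP_655169_nt.SitA

set_option linter.unusedSectionVars false

namespace Pool.Agent.MP_655169_nt

open Polynomial Filter Topology

variable {F C Ω : Type*} [Field F] [Fintype F] [NormedField C] [IsUltrametricDist C]
  [IsAlgClosed C] [Algebra F C] [NormedField Ω] [IsUltrametricDist Ω] [IsAlgClosed Ω]
  [Algebra C Ω] [Algebra F Ω] [IsScalarTower F C Ω] (Z : Sit F C Ω)

theorem SitB_prod (x : C) : x ^ qq F - x = ∏ a : F, (x - algebraMap F C a) := by
  have hm : (X ^ Fintype.card F - X : F[X]).Monic :=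
    monic_X_pow_sub (by rw [degree_X]; exact_mod_cast Fintype.one_lt_card)
  have hd := FiniteField.X_pow_card_sub_X_natDegree_eq F (Fintype.one_lt_card (α := F))
  have hr := FiniteField.roots_X_pow_card_sub_X F
  have h := prod_multiset_X_sub_C_of_monic_of_roots_card_eq hm (by rw [hr, hd]; rfl)
  rw [hr] at h
  have h2 := congrArg (aeval x) h
  rw [map_sub, map_pow, aeval_X] at h2
  rw [← h2]
  change aeval x (∏ a : F, (X - Polynomial.C a)) = _
  simp [map_prod]

theorem near_F (x : C) (h : ‖x ^ qq F - x‖ < 1) : ∃ a : F, ‖x - algebraMap F C a‖ < 1 := by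
  by_contra hc
  push Not at hc
  rw [SitB_prod, norm_prod] at h
  exact absurd h (not_lt.2 (Finset.one_le_prod fun a _ => hc a))

theorem fixed_F (x : C) (h : x ^ qq F = x) : ∃ a : F, x = algebraMap F C a := by
  have h2 := SitB_prod (F := F) x
  rw [h, sub_self] at h2
  obtain ⟨a, -, ha⟩ := Finset.prod_eq_zero_iff.1 h2.symm
  exact ⟨a, sub_eq_zero.1 ha⟩

namespace Sit

theorem evt_C (n : ℕ) (c : C) : Z.evt n (Polynomial.C c) = c ^ qq F ^ (n + 1) := by
  simp [evt, tw, fr_pow]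

theorem evt_X (n : ℕ) : Z.evt n X = Z.θ := by
  simp [evt, tw]

theorem evt_map (n : ℕ) (B : F[X]) : Z.evt n (B.map (algebraMap F C)) = aeval Z.θ B := by
  have : (Z.fr ^ (n + 1)).comp (algebraMap F C) = algebraMap F C := RingHom.ext (Z.fr_F _)
  simp [evt, tw, Polynomial.map_map, this, eval_map_algebraMap]

theorem evt_eq_sum (n : ℕ) (H : C[X]) (N : ℕ) (hN : H.natDegree < N) :
    Z.evt n H = ∑ j ∈ Finset.range N, H.coeff j ^ qq F ^ (n + 1) * Z.θ ^ j := by
  conv_lhs => rw [H.as_sum_range' N hN]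
  rw [map_sum]
  refine Finset.sum_congr rfl fun j _ => ?_
  rw [← C_mul_X_pow_eq_monomial, map_mul, map_pow, evt_C, evt_X]

theorem norm_map_F (B : F[X]) (hB : B ≠ 0) : ‖aeval Z.t (B.map (algebraMap F C))‖ = 1 := by
  apply le_antisymm
  · exact Z.norm_aeval_le _ _ fun j => by rw [coeff_map]; exact norm_F_le _
  · have := Z.gauss_le (B.map (algebraMap F C)) B.natDegree
    rwa [coeff_map, coeff_natDegree, norm_F_eq _ (leadingCoeff_ne_zero.2 hB)] at this

theorem tw_fixed (H : C[X]) (h : Z.tw 1 H = H) : ∃ B : F[X], H = B.map (algebraMap F C) := by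
  have : H ∈ Polynomial.lifts (algebraMap F C) := by
    rw [lifts_iff_coeff_lifts]
    intro j
    have h2 := congrArg (fun G => G.coeff j) h
    simp only [tw, coe_mapRingHom, coeff_map, pow_one, Z.fr_eq] at h2
    obtain ⟨a, ha⟩ := fixed_F (F := F) _ h2
    exact ⟨a, ha.symm⟩
  obtain ⟨B, hB⟩ := (mem_lifts _).1 this
  exact ⟨B, hB.symm⟩

theorem SitB_map (Ψ : F[X][X]) :
    MvPolynomial.aeval Z.zz (Bivariate.equivMvPolynomial F Ψ) =
      aeval Z.t (Ψ.map (aeval Z.θ : F[X] →ₐ[F] C).toRingHom) := by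
  induction Ψ using Polynomial.induction_on with
  | C a =>
    induction a using Polynomial.induction_on with
    | C a => simp [IsScalarTower.algebraMap_apply F C Ω]
    | add a b ha hb => simp only [map_add, Polynomial.map_add, ha, hb]
    | monomial n a ha =>
      simp only [pow_succ, ← mul_assoc, map_mul, Polynomial.map_mul] at ha ⊢
      rw [ha]
      simp [zz]
  | add a b ha hb => simp only [map_add, Polynomial.map_add, ha, hb]
  | monomial n a ha =>
    simp only [pow_succ, ← mul_assoc, map_mul, Polynomial.map_mul] at ha ⊢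
    rw [ha]
    simp [zz]

theorem liou2 (b : MvPolynomial (Fin 2) F) (hb : b ≠ 0) : 1 ≤ ‖MvPolynomial.aeval Z.zz b‖ := by
  obtain ⟨Ψ, rfl⟩ := (Bivariate.equivMvPolynomial F).surjective b
  have h0 : Ψ ≠ 0 := by
    rintro rfl
    simp at hb
  rw [SitB_map]
  refine le_trans ?_ (Z.gauss_le _ Ψ.natDegree)
  rw [coeff_map]
  change 1 ≤ ‖aeval Z.θ Ψ.leadingCoeff‖
  rw [norm_poly Z.θ Z.hθ _ (leadingCoeff_ne_zero.2 h0)]
  exact one_le_pow₀ Z.hθ.le

theorem indep2 : AlgebraicIndependent F Z.zz := by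
  rw [algebraicIndependent_iff]
  intro b hb
  by_contra h0
  have := Z.liou2 b h0
  rw [hb, norm_zero] at this
  exact absurd this (by norm_num)

theorem norm_zz (k : Fin 2) : ‖Z.zz k‖ ≤ ‖Z.θ‖ := by
  fin_cases k
  · exact (Z.norm_alg _).le
  · exact Z.norm_t.le.trans Z.hθ.le

theorem SitB_g (b : MvPolynomial (Fin 2) F) :
    aeval Z.t (MvPolynomial.aeval ![Polynomial.C Z.θ, (X : C[X])] b) =
      MvPolynomial.aeval Z.zz b := by
  induction b using MvPolynomial.induction_on with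
  | C a => simp [IsScalarTower.algebraMap_apply F C Ω]
  | add a b ha hb => simp only [map_add, ha, hb]
  | mul_X a i ha =>
    simp only [map_mul, ha]
    fin_cases i <;> simp [zz]

theorem SitB_deg (b : MvPolynomial (Fin 2) F) :
    (MvPolynomial.aeval ![Polynomial.C Z.θ, (X : C[X])] b).natDegree ≤ b.totalDegree := by
  rw [MvPolynomial.aeval_def, MvPolynomial.eval₂_eq']
  refine natDegree_sum_le_of_forall_le _ _ fun e he => ?_
  rw [Fin.prod_univ_two]
  have h1 := MvPolynomial.le_totalDegree he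
  rw [Finsupp.sum_fintype _ _ (fun _ => rfl), Fin.sum_univ_two] at h1
  have : (algebraMap F C[X]) (b.coeff e) * (Polynomial.C Z.θ ^ e 0 * X ^ e 1) =
      Polynomial.C (algebraMap F C (b.coeff e) * Z.θ ^ e 0) * X ^ e 1 := by
    simp [mul_assoc]
  change ((algebraMap F C[X]) (b.coeff e) * (Polynomial.C Z.θ ^ e 0 * X ^ e 1)).natDegree ≤ _
  rw [this]
  exact (natDegree_C_mul_X_pow_le _ _).trans (by omega)

/-- A polynomial over `F[θ, t]` seen over `C[t]`. -/
theorem exists_psi (Φ : (MvPolynomial (Fin 2) F)[X]) (D : ℕ) (hΦ : Φ ≠ 0) (hD : Deg Φ D) :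
    ∃ Ψ : C[X][X], Ψ ≠ 0 ∧ Ψ.natDegree ≤ D ∧ (∀ j, (Ψ.coeff j).natDegree ≤ D) ∧
      (∀ j, ‖aeval Z.t (Ψ.coeff j)‖ ≤ ‖Z.θ‖ ^ D) ∧ 1 ≤ ‖aeval Z.t Ψ.leadingCoeff‖ ∧
      ∀ y, Z.PW Ψ y = Z.PV Φ y := by
  let g : MvPolynomial (Fin 2) F →+* C[X] :=
    (MvPolynomial.aeval ![Polynomial.C Z.θ, (X : C[X])] : MvPolynomial (Fin 2) F →ₐ[F] C[X])
  have hg : ∀ b, aeval Z.t (g b) = MvPolynomial.aeval Z.zz b := Z.SitB_g
  have hl := Z.liou2 _ (leadingCoeff_ne_zero.2 hΦ)
  have hl0 : g Φ.leadingCoeff ≠ 0 := by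
    intro h
    rw [← hg, h, map_zero, norm_zero] at hl
    exact absurd hl (by norm_num)
  have hlc := leadingCoeff_map_of_leadingCoeff_ne_zero g hl0
  refine ⟨Φ.map g, ?_, natDegree_map_le.trans hD.1, fun j => ?_, fun j => ?_, ?_, fun y => ?_⟩
  · rw [← leadingCoeff_ne_zero, hlc]
    exact hl0
  · rw [coeff_map]
    exact (Z.SitB_deg _).trans (hD.2 j)
  · rw [coeff_map, hg]
    exact MP_655169_nt.norm_aeval_le _ _ Z.hθ.le Z.norm_zz _ _ (hD.2 j)
  · rw [hlc, hg]
    exact hl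
  · rw [PW, PV, eval₂_map]
    congr 1
    exact RingHom.ext hg

end Sit

end Pool.Agent.MP_655169_nt
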