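import Pool.Agent.MP_655169_nt.SitB

set_option linter.unusedSectionVars false

namespace Pool.Agent.MP_655169_nt

open Polynomial Filter Topology

variable {F C Ω : Type*} [Field F] [Fintype F] [NormedField C] [IsUltrametricDist C]
  [IsAlgClosed C] [Algebra F C] [NormedField Ω] [IsUltrametricDist Ω] [IsAlgClosed Ω]
  [Algebra C Ω] [Algebra F Ω] [IsScalarTower F C Ω] (Z : Sit F C Ω)

namespace Sit

theorem trunc1_den_succ (m : ℕ) :
    Z.den (m + 1) = Z.den m * (Polynomial.C (Z.θ ^ qq F ^ m) - X) := by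
  unfold den
  rw [Finset.prod_range_succ]

theorem trunc1_den_zero : Z.den 0 = 1 := by
  unfold den
  simp

theorem trunc1_one_lt (i : ℕ) : 1 < ‖Z.θ ^ qq F ^ i‖ := by
  rw [norm_pow]
  have h2 : 2 ≤ qq F := two_le_qq
  exact one_lt_pow₀ Z.hθ (pow_ne_zero _ (by omega))

theorem trunc1_norm_fac (i : ℕ) :
    ‖algebraMap C Ω (Z.θ ^ qq F ^ i) - Z.t‖ = ‖Z.θ ^ qq F ^ i‖ :=
  Z.norm_sub_t _ (Z.trunc1_one_lt i).le

theorem trunc1_fac_ne (i : ℕ) : algebraMap C Ω (Z.θ ^ qq F ^ i) - Z.t ≠ 0 := by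
  intro h
  have h1 := Z.trunc1_norm_fac i
  have h2 := Z.trunc1_one_lt i
  rw [h, norm_zero] at h1
  linarith

theorem trunc1_aeval_fac (c : C) :
    aeval Z.t (Polynomial.C c - X) = algebraMap C Ω c - Z.t := by
  rw [map_sub, aeval_C, aeval_X]

theorem trunc1_evt_fac (n : ℕ) (c : C) :
    Z.evt n (Polynomial.C c - X) = c ^ qq F ^ (n + 1) - Z.θ := by
  rw [map_sub, Z.evt_C, Z.evt_X]

theorem trunc1_norm_evt_fac (n i : ℕ) :
    ‖(Z.θ ^ qq F ^ i) ^ qq F ^ (n + 1) - Z.θ‖ = ‖Z.θ ^ qq F ^ i‖ ^ qq F ^ (n + 1) := by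
  have h2 : 2 ≤ qq F := two_le_qq
  have hlt : ‖Z.θ‖ < ‖(Z.θ ^ qq F ^ i) ^ qq F ^ (n + 1)‖ := by
    rw [← pow_mul, norm_pow]
    have h1 : 1 < qq F ^ i * qq F ^ (n + 1) := by
      rw [← pow_add]
      exact Nat.one_lt_pow (by omega) (by omega)
    calc ‖Z.θ‖ = ‖Z.θ‖ ^ 1 := (pow_one _).symm
      _ < _ := pow_lt_pow_right₀ Z.hθ h1
  have hne : ‖(Z.θ ^ qq F ^ i) ^ qq F ^ (n + 1)‖ ≠ ‖-Z.θ‖ := by
    rw [norm_neg]; exact hlt.ne'
  rw [sub_eq_add_neg, IsUltrametricDist.norm_add_eq_max_of_norm_ne_norm hne, norm_neg,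
    max_eq_left hlt.le, norm_pow]

theorem trunc1_evt_fac_ne (n i : ℕ) : (Z.θ ^ qq F ^ i) ^ qq F ^ (n + 1) - Z.θ ≠ 0 := by
  intro h
  have h1 := Z.trunc1_norm_evt_fac n i
  have h2 := Z.trunc1_one_lt i
  rw [h, norm_zero] at h1
  have h3 : 0 < ‖Z.θ ^ qq F ^ i‖ ^ qq F ^ (n + 1) := pow_pos (by linarith) _
  linarith

theorem trunc1_fac_deg (c : C) : (Polynomial.C c - X).natDegree ≤ 1 := by
  refine (natDegree_sub_le _ _).trans ?_
  rw [natDegree_C, natDegree_X]
  simp

theorem den_ne (m : ℕ) : aeval Z.t (Z.den m) ≠ 0 := by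
  induction m with
  | zero => rw [trunc1_den_zero, map_one]; exact one_ne_zero
  | succ m ih =>
    rw [trunc1_den_succ, map_mul, trunc1_aeval_fac]
    exact mul_ne_zero ih (Z.trunc1_fac_ne m)

theorem norm_den (m : ℕ) :
    ‖aeval Z.t (Z.den m)‖ = ‖∏ i ∈ Finset.range m, Z.θ ^ qq F ^ i‖ := by
  induction m with
  | zero => rw [trunc1_den_zero, map_one]; simp
  | succ m ih =>
    rw [trunc1_den_succ, map_mul, trunc1_aeval_fac, Finset.prod_range_succ, norm_mul, norm_mul, ih,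
      trunc1_norm_fac]

theorem norm_evt_den (n m : ℕ) :
    ‖Z.evt n (Z.den m)‖ = ‖aeval Z.t (Z.den m)‖ ^ qq F ^ (n + 1) := by
  induction m with
  | zero => rw [trunc1_den_zero, map_one, map_one]; simp
  | succ m ih =>
    rw [trunc1_den_succ, map_mul, map_mul, trunc1_aeval_fac, trunc1_evt_fac, norm_mul, norm_mul, ih,
      trunc1_norm_fac, trunc1_norm_evt_fac, mul_pow]

theorem num_t (u : C) (m : ℕ) : aeval Z.t (Z.num u m) = aeval Z.t (Z.den m) * Z.fm u m := by
  induction m with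
  | zero => simp [num, fm]
  | succ m ih =>
    have hne := Z.trunc1_fac_ne m
    have hf : Z.fm u (m + 1) = Z.fm u m +
        algebraMap C Ω (Z.ee u m) / (algebraMap C Ω (Z.θ ^ qq F ^ m) - Z.t) := by
      unfold fm
      rw [Finset.sum_range_succ]
    rw [num, trunc1_den_succ, map_add, map_mul, map_mul, map_mul, trunc1_aeval_fac, ih, aeval_C, hf]
    generalize algebraMap C Ω (Z.θ ^ qq F ^ m) - Z.t = w at hne
    field_simp

theorem num_evt (u : C) (n m : ℕ) :
    Z.evt n (Z.num u m) = Z.evt n (Z.den m) * Z.phm u n m := by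
  induction m with
  | zero => simp [num, phm]
  | succ m ih =>
    have hne := Z.trunc1_evt_fac_ne n m
    have hf : Z.phm u n (m + 1) = Z.phm u n m + Z.ee u m ^ qq F ^ (n + 1) /
        ((Z.θ ^ qq F ^ m) ^ qq F ^ (n + 1) - Z.θ) := by
      unfold phm
      rw [Finset.sum_range_succ]
    rw [num, trunc1_den_succ, map_add, map_mul, map_mul, map_mul, trunc1_evt_fac, ih, Z.evt_C, hf]
    generalize (Z.θ ^ qq F ^ m) ^ qq F ^ (n + 1) - Z.θ = w at hne
    field_simp

theorem den_deg (m : ℕ) : (Z.den m).natDegree ≤ m := by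
  induction m with
  | zero => rw [trunc1_den_zero]; simp
  | succ m ih =>
    rw [trunc1_den_succ]
    exact natDegree_mul_le.trans (add_le_add ih (trunc1_fac_deg _))

theorem num_deg (u : C) (m : ℕ) : (Z.num u m).natDegree ≤ m := by
  induction m with
  | zero => simp [num]
  | succ m ih =>
    rw [num]
    refine natDegree_add_le_of_degree_le ?_ ?_
    · exact natDegree_mul_le.trans (add_le_add ih (trunc1_fac_deg _))
    · exact (natDegree_C_mul_le _ _).trans ((Z.den_deg m).trans (Nat.le_succ m))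

variable {ι : Type*}

theorem trunc1_degree_le (P : MvPolynomial ι C[X]) (D : ℕ) (hD : P.totalDegree ≤ D)
    (e : ι →₀ ℕ) (he : e ∈ P.support) : e.degree ≤ D := by
  have h := MvPolynomial.le_totalDegree he
  refine le_trans (le_of_eq ?_) (h.trans hD)
  rfl

theorem trunc1_hom {R : Type*} [CommRing R] (g : C[X] →+* R) (u : ι → C) (m D : ℕ) (w : ι → R)
    (hg : ∀ i, g (Z.num (u i) m) = g (Z.den m) * w i)
    (P : MvPolynomial ι C[X]) (hD : P.totalDegree ≤ D) :
    g (Z.HH u m D P) = g (Z.den m) ^ D * MvPolynomial.eval₂ g w P := by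
  unfold HH
  rw [map_sum, MvPolynomial.eval₂_eq, Finset.mul_sum]
  refine Finset.sum_congr rfl fun e he => ?_
  have hle := trunc1_degree_le P D hD e he
  have hprod : g (e.prod fun i k => Z.num (u i) m ^ k) =
      g (Z.den m) ^ e.degree * ∏ i ∈ e.support, w i ^ e i := by
    unfold Finsupp.prod
    rw [map_prod, Finsupp.degree_apply, ← Finset.prod_pow_eq_pow_sum, ← Finset.prod_mul_distrib]
    refine Finset.prod_congr rfl fun i _ => ?_
    rw [map_pow, hg, mul_pow]
  have hpow : g (Z.den m) ^ D = g (Z.den m) ^ e.degree * g (Z.den m) ^ (D - e.degree) := by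
    rw [← pow_add, Nat.add_sub_cancel' hle]
  rw [map_mul, map_mul, map_pow, hprod, hpow]
  ring

theorem trunc1_HH_subset (u : ι → C) (m D : ℕ) (P : MvPolynomial ι C[X]) (s : Finset (ι →₀ ℕ))
    (hs : P.support ⊆ s) :
    Z.HH u m D P = ∑ e ∈ s,
      P.coeff e * (e.prod fun i k => Z.num (u i) m ^ k) * Z.den m ^ (D - e.degree) := by
  unfold HH
  refine Finset.sum_subset hs fun e _ he => ?_
  rw [MvPolynomial.notMem_support_iff.mp he, zero_mul, zero_mul]

theorem trunc1_mem_iff (E : Subfield C) (H : C[X]) :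
    H ∈ (Polynomial.mapRingHom E.subtype).range ↔ ∀ j, H.coeff j ∈ E := by
  constructor
  · rintro ⟨G, rfl⟩ j
    rw [coe_mapRingHom, coeff_map]
    exact (G.coeff j).2
  · intro h
    have h1 : H ∈ Polynomial.lifts E.subtype := by
      rw [Polynomial.lifts_iff_coeff_lifts]
      intro j
      exact ⟨⟨H.coeff j, h j⟩, rfl⟩
    obtain ⟨G, hG⟩ := (Polynomial.mem_lifts H).mp h1
    exact ⟨G, hG⟩

theorem trunc1_C_mem (E : Subfield C) (c : C) (hc : c ∈ E) :
    Polynomial.C c ∈ (Polynomial.mapRingHom E.subtype).range :=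
  ⟨Polynomial.C ⟨c, hc⟩, by simp⟩

theorem trunc1_X_mem (E : Subfield C) : (X : C[X]) ∈ (Polynomial.mapRingHom E.subtype).range :=
  ⟨X, by simp⟩

theorem trunc1_den_mem (E : Subfield C) (hθ : Z.θ ∈ E) (m : ℕ) :
    Z.den m ∈ (Polynomial.mapRingHom E.subtype).range := by
  unfold den
  exact Subring.prod_mem _ fun i _ =>
    Subring.sub_mem _ (trunc1_C_mem E _ (pow_mem hθ _)) (trunc1_X_mem E)

theorem trunc1_ee_mem (E : Subfield C) (hθ : Z.θ ∈ E) (u : C) (hu : u ∈ E) (i : ℕ) :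
    Z.ee u i ∈ E := by
  unfold ee
  refine div_mem (pow_mem hu _) ?_
  unfold carlitzD
  exact prod_mem fun j _ => sub_mem (pow_mem hθ _) (pow_mem hθ _)

theorem trunc1_num_mem (E : Subfield C) (hθ : Z.θ ∈ E) (u : C) (hu : u ∈ E) (m : ℕ) :
    Z.num u m ∈ (Polynomial.mapRingHom E.subtype).range := by
  induction m with
  | zero => rw [num]; exact Subring.zero_mem _
  | succ m ih =>
    rw [num]
    exact Subring.add_mem _
      (Subring.mul_mem _ ih
        (Subring.sub_mem _ (trunc1_C_mem E _ (pow_mem hθ _)) (trunc1_X_mem E)))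
      (Subring.mul_mem _ (trunc1_C_mem E _ (Z.trunc1_ee_mem E hθ u hu m))
        (Z.trunc1_den_mem E hθ m))

theorem HH_t (u : ι → C) (m D : ℕ) (P : MvPolynomial ι C[X]) (hD : P.totalDegree ≤ D) :
    aeval Z.t (Z.HH u m D P) = aeval Z.t (Z.den m) ^ D * Z.FF (fun i => Z.fm (u i) m) P := by
  exact Z.trunc1_hom (aeval Z.t : C[X] →ₐ[C] Ω).toRingHom u m D (fun i => Z.fm (u i) m)
    (fun i => Z.num_t (u i) m) P hD

theorem HH_evt (u : ι → C) (n m D : ℕ) (P : MvPolynomial ι C[X]) (hD : P.totalDegree ≤ D) :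
    Z.evt n (Z.HH u m D P) = Z.evt n (Z.den m) ^ D *
      MvPolynomial.eval₂ (Z.evt n) (fun i => Z.phm (u i) n m) P := by
  exact Z.trunc1_hom (Z.evt n) u m D (fun i => Z.phm (u i) n m)
    (fun i => Z.num_evt (u i) n m) P hD

theorem HH_deg (u : ι → C) (m D T : ℕ) (P : MvPolynomial ι C[X]) (hD : P.totalDegree ≤ D)
    (hT : ∀ e, (P.coeff e).natDegree ≤ T) : (Z.HH u m D P).natDegree ≤ T + D * m := by
  unfold HH
  refine natDegree_sum_le_of_forall_le _ _ fun e he => ?_
  have hle := trunc1_degree_le P D hD e he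
  have h1 : (e.prod fun i k => Z.num (u i) m ^ k).natDegree ≤ e.degree * m := by
    unfold Finsupp.prod
    refine (natDegree_prod_le _ _).trans ?_
    rw [Finsupp.degree_apply, Finset.sum_mul]
    refine Finset.sum_le_sum fun i _ => ?_
    exact natDegree_pow_le.trans (Nat.mul_le_mul_left _ (Z.num_deg _ _))
  have h2 : (Z.den m ^ (D - e.degree)).natDegree ≤ (D - e.degree) * m :=
    natDegree_pow_le.trans (Nat.mul_le_mul_left _ (Z.den_deg _))
  have h3 : e.degree * m + (D - e.degree) * m = D * m := by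
    rw [← add_mul, Nat.add_sub_cancel' hle]
  have h4 := hT e
  refine natDegree_mul_le.trans ((add_le_add natDegree_mul_le h2).trans ?_)
  omega

theorem HH_mem (E : Subfield C) (hθ : Z.θ ∈ E) (u : ι → C) (hu : ∀ i, u i ∈ E) (m D : ℕ)
    (P : MvPolynomial ι C[X]) (hP : ∀ e j, (P.coeff e).coeff j ∈ E) (j : ℕ) :
    (Z.HH u m D P).coeff j ∈ E := by
  refine (trunc1_mem_iff E _).mp ?_ j
  unfold HH
  refine Subring.sum_mem _ fun e _ => ?_
  refine Subring.mul_mem _ (Subring.mul_mem _ ((trunc1_mem_iff E _).mpr (hP e)) ?_)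
    (Subring.pow_mem _ (Z.trunc1_den_mem E hθ m) _)
  unfold Finsupp.prod
  exact Subring.prod_mem _ fun i _ =>
    Subring.pow_mem _ (Z.trunc1_num_mem E hθ (u i) (hu i) m) _

theorem HH_add (u : ι → C) (m D : ℕ) (P P' : MvPolynomial ι C[X]) :
    Z.HH u m D (P + P') = Z.HH u m D P + Z.HH u m D P' := by
  classical
  rw [Z.trunc1_HH_subset u m D (P + P') (P.support ∪ P'.support) MvPolynomial.support_add,
    Z.trunc1_HH_subset u m D P (P.support ∪ P'.support) Finset.subset_union_left,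
    Z.trunc1_HH_subset u m D P' (P.support ∪ P'.support) Finset.subset_union_right,
    ← Finset.sum_add_distrib]
  refine Finset.sum_congr rfl fun e _ => ?_
  rw [MvPolynomial.coeff_add]
  ring

theorem HH_C_mul (u : ι → C) (m D : ℕ) (c : C[X]) (P : MvPolynomial ι C[X]) :
    Z.HH u m D (MvPolynomial.C c * P) = c * Z.HH u m D P := by
  have hs : (MvPolynomial.C c * P).support ⊆ P.support := by
    intro e he
    rw [MvPolynomial.mem_support_iff] at he ⊢
    intro h
    apply he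
    rw [MvPolynomial.coeff_C_mul, h, mul_zero]
  rw [Z.trunc1_HH_subset u m D _ P.support hs, Z.trunc1_HH_subset u m D P P.support subset_rfl,
    Finset.mul_sum]
  refine Finset.sum_congr rfl fun e _ => ?_
  rw [MvPolynomial.coeff_C_mul]
  ring

end Sit

end Pool.Agent.MP_655169_nt
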