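import Pool.Agent.MP_655169_nt.Norm

set_option linter.unusedSectionVars false

namespace Pool.Agent.MP_655169_nt

open Polynomial Filter Topology

variable {E : Type*} [NormedField E] [IsUltrametricDist E] [CompleteSpace E]

theorem Weier1_closed (L : Subfield E) (hL : IsClosed (L : Set E)) (θ : E) (hθ : 1 < ‖θ‖)
    (hθL : θ ∈ L) (V : Submodule L E) [FiniteDimensional L V] : IsClosed (V : Set E) := by
  let _ : NontriviallyNormedField L :=
    { (inferInstance : NormedField L) with non_trivial := ⟨⟨θ, hθL⟩, hθ⟩ }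
  have : CompleteSpace L := hL.completeSpace_coe
  have : ContinuousSMul L E :=
    ⟨(continuous_subtype_val.comp continuous_fst).mul continuous_snd⟩
  exact V.closed_of_finiteDimensional

theorem Weier1_sum {L : Subfield E} (V : Submodule L E) {ι : Type*} (s : Finset ι) (x : ι → E)
    {b : ℝ} (hb : 0 ≤ b) (h : ∀ i ∈ s, ∃ v ∈ V, ‖x i - v‖ ≤ b) :
    ∃ v ∈ V, ‖∑ i ∈ s, x i - v‖ ≤ b := by
  choose! v hv hx using h
  refine ⟨∑ i ∈ s, v i, V.sum_mem hv, ?_⟩
  rw [← Finset.sum_sub_distrib]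
  exact IsUltrametricDist.norm_sum_le_of_forall_le_of_nonneg hb hx

theorem Weier1_smul {L : Subfield E} (V : Submodule L E) (c : L) {x : E} {b b' : ℝ}
    (h : ∃ v ∈ V, ‖x - v‖ ≤ b) (hb : ‖(c : E)‖ * b ≤ b') : ∃ v ∈ V, ‖c • x - v‖ ≤ b' := by
  obtain ⟨v, hv, hx⟩ := h
  refine ⟨c • v, V.smul_mem c hv, ?_⟩
  rw [← smul_sub, Subfield.smul_def, smul_eq_mul, norm_mul]
  exact (mul_le_mul_of_nonneg_left hx (norm_nonneg _)).trans hb

theorem Weier1_approx (L : Subfield E) (l : E) (ρ ε γ : ℝ) (hρ : 0 < ρ) (hl : ‖l‖ ≤ ρ) (hε : 0 < ε)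
    (hγ : 0 < γ) (N : ℕ) (G : ℕ → L[X]) (h1 : ∀ m, ‖((G m).coeff N : E)‖ * ρ ^ N = γ)
    (h2 : ∀ m k, ‖((G m).coeff k : E)‖ * ρ ^ k ≤ γ)
    (h3 : ∀ m k, N < k → ‖((G m).coeff k : E)‖ * ρ ^ k ≤ ε * γ)
    (h4 : Tendsto (fun m => aeval l (G m)) atTop (𝓝 0)) (V : Submodule L E)
    (hV : ∀ k < N, l ^ k ∈ V) (r k : ℕ) : ∃ v ∈ V, ‖l ^ k - v‖ ≤ ε ^ r * ρ ^ k := by
  have hp : ∀ k, ‖l ^ k‖ ≤ ρ ^ k := fun k => by
    rw [norm_pow]; exact pow_le_pow_left₀ (norm_nonneg _) hl k
  induction r generalizing k with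
  | zero => exact ⟨0, V.zero_mem, by simpa using hp k⟩
  | succ r ihr =>
    induction k using Nat.strong_induction_on with
    | _ k ihk =>
      rcases lt_or_ge k N with hk | hk
      · exact ⟨l ^ k, hV k hk, by rw [sub_self, norm_zero]; positivity⟩
      obtain ⟨j, rfl⟩ := Nat.exists_eq_add_of_le hk
      obtain ⟨m, hm⟩ := ((tendsto_zero_iff_norm_tendsto_zero.1 h4).eventually
        (gt_mem_nhds (show 0 < ε ^ (r + 1) * γ by positivity))).exists
      have hN : (G m).coeff N ≠ 0 := fun e => by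
        have := h1 m
        rw [e] at this
        simp at this
        exact hγ.ne this
      have hN' : N ∈ Finset.range ((G m).natDegree + 1) :=
        Finset.mem_range.2 (Nat.lt_succ_of_le (le_natDegree_of_ne_zero hN))
      obtain ⟨v, hv, a1⟩ := Weier1_sum V ((Finset.range ((G m).natDegree + 1)).erase N)
        (fun i => (G m).coeff i • l ^ (i + j)) (b := ε ^ (r + 1) * γ * ρ ^ j) (by positivity)
        fun i hi => by
          rcases lt_or_gt_of_ne (Finset.ne_of_mem_erase hi) with e | e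
          · refine Weier1_smul V _ (ihk (i + j) (by omega)) ?_
            calc _ = ε ^ (r + 1) * (‖((G m).coeff i : E)‖ * ρ ^ i) * ρ ^ j := by ring
              _ ≤ _ := by gcongr; exact h2 m i
          · refine Weier1_smul V _ (ihr (i + j)) ?_
            calc _ = ε ^ r * (‖((G m).coeff i : E)‖ * ρ ^ i) * ρ ^ j := by ring
              _ ≤ ε ^ r * (ε * γ) * ρ ^ j := by gcongr _ * ?_ * _; exact h3 m i e
              _ = _ := by ring
      have a2 : (G m).coeff N • l ^ (N + j) - -v = aeval l (G m) * l ^ j -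
          (∑ i ∈ (Finset.range ((G m).natDegree + 1)).erase N, (G m).coeff i • l ^ (i + j) - v) := by
        rw [aeval_eq_sum_range, Finset.sum_mul, ← Finset.add_sum_erase _ _ hN']
        simp only [smul_mul_assoc, ← pow_add]
        ring
      have a3 : ‖(G m).coeff N • l ^ (N + j) - -v‖ ≤ ε ^ (r + 1) * γ * ρ ^ j := by
        rw [a2, sub_eq_add_neg]
        refine (IsUltrametricDist.norm_add_le_max _ _).trans (max_le ?_ (by rwa [norm_neg]))
        rw [norm_mul]
        exact mul_le_mul hm.le (hp j) (norm_nonneg _) (by positivity)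
      have a4 := Weier1_smul V ((G m).coeff N)⁻¹ ⟨-v, V.neg_mem hv, a3⟩
        (b' := ε ^ (r + 1) * ρ ^ (N + j)) (by
          have a5 : ‖((G m).coeff N : E)‖ ≠ 0 := by simpa using hN
          rw [← h1 m, Subfield.coe_inv, norm_inv, pow_add ρ]
          exact le_of_eq (by field_simp))
      rwa [inv_smul_smul₀ hN] at a4

/-- Approximate zeros of distinguished polynomials are algebraic. -/
theorem weier_alg (L : Subfield E) (hL : IsClosed (L : Set E)) (θ : E) (hθ : 1 < ‖θ‖)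
    (hθL : θ ∈ L) (l : E) (ρ ε γ : ℝ) (hρ : 0 < ρ) (hl : ‖l‖ ≤ ρ) (hε : ε < 1) (hγ : 0 < γ)
    (N : ℕ) (G : ℕ → L[X]) (h1 : ∀ m, ‖((G m).coeff N : E)‖ * ρ ^ N = γ)
    (h2 : ∀ m k, ‖((G m).coeff k : E)‖ * ρ ^ k ≤ γ)
    (h3 : ∀ m k, N < k → ‖((G m).coeff k : E)‖ * ρ ^ k ≤ ε * γ)
    (h4 : Tendsto (fun m => aeval l (G m)) atTop (𝓝 0)) : IsAlgebraic L l := by
  set V : Submodule L E := Submodule.span L (Set.range fun i : Fin N => l ^ (i : ℕ))
  have : FiniteDimensional L V := Module.Finite.span_of_finite L (Set.finite_range _)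
  have e0 : (0 : ℝ) < max ε (1 / 2) := lt_max_of_lt_right (by norm_num)
  have e1 : max ε (1 / 2) < 1 := max_lt hε (by norm_num)
  have key := fun r => Weier1_approx L l ρ _ γ hρ hl e0 hγ N G h1 h2
    (fun m k hk => (h3 m k hk).trans (mul_le_mul_of_nonneg_right (le_max_left _ _) hγ.le)) h4 V
    (fun k hk => Submodule.subset_span ⟨⟨k, hk⟩, rfl⟩) r N
  have hmem : l ^ N ∈ V := by
    refine (Weier1_closed L hL θ hθ hθL V).closure_subset (Metric.mem_closure_iff.2 fun e he => ?_)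
    have a1 := (tendsto_pow_atTop_nhds_zero_of_lt_one e0.le e1).mul_const (ρ ^ N)
    rw [zero_mul] at a1
    obtain ⟨r, hr⟩ := (a1.eventually (gt_mem_nhds he)).exists
    obtain ⟨v, hv, a2⟩ := key r
    exact ⟨v, hv, by rw [dist_eq_norm]; exact a2.trans_lt hr⟩
  obtain ⟨c, hc⟩ := (Submodule.mem_span_range_iff_exists_fun L).1 hmem
  refine ⟨X ^ N - ∑ i : Fin N, C (c i) * X ^ (i : ℕ),
    (monic_X_pow_sub (degree_sum_fin_lt c)).ne_zero, ?_⟩
  simp only [map_sub, map_pow, aeval_X, map_sum, map_mul, aeval_C, ← Algebra.smul_def, hc, sub_self]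

end Pool.Agent.MP_655169_nt
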