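import Pool.Agent.MP_655169_nt.Eval
import Pool.Agent.MP_655169_nt.Inv1

set_option linter.unusedSectionVars false

namespace Pool.Agent.MP_655169_nt

open Polynomial Filter Topology

variable {F C Ω : Type*} [Field F] [Fintype F] [NormedField C] [IsUltrametricDist C]
  [IsAlgClosed C] [Algebra F C] [NormedField Ω] [IsUltrametricDist Ω] [IsAlgClosed Ω]
  [Algebra C Ω] [Algebra F Ω] [IsScalarTower F C Ω] (Z : Sit F C Ω)

theorem ZE2_kappa (K : ℝ) : ∃ k : ℕ, K * (k + 3) ≤ 2 ^ k := by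
  obtain ⟨j, hj⟩ := exists_nat_ge (3 * K)
  have h : (j : ℝ) + 1 ≤ 2 ^ j := by exact_mod_cast Nat.lt_two_pow_self
  refine ⟨j + j, ?_⟩
  have : (0 : ℝ) ≤ j := j.cast_nonneg
  rw [pow_add]
  push_cast
  nlinarith [mul_le_mul h h (by positivity) (by positivity)]

theorem ZE2_num {τ μ μ' ν c q m1 k D N : ℝ} (hτ : 0 ≤ τ) (hμ : 0 ≤ μ) (hμ' : 0 ≤ μ') (hν : 0 ≤ ν)
    (hc : 0 ≤ c) (hq : 0 ≤ q) (hm : 0 ≤ m1) (hk : 0 ≤ k) (hD : 0 ≤ D) (hN : N = D + 2) :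
    (τ * D ^ 2 + (μ + c) * D) + τ * (D + D * (m1 + (k + 2) * N)) +
      (q * (τ * D ^ 2) + τ * D + μ' * D) + ν * D + 1 ≤
      (τ * (4 + m1 + q) + μ + c + μ' + ν + 1) * (k + 3) * N ^ 2 := by
  have h1 : D ≤ (k + 3) * N ^ 2 := by subst hN; nlinarith [mul_nonneg hk (sq_nonneg (D + 2))]
  have h2 : D ^ 2 ≤ (k + 3) * N ^ 2 := by subst hN; nlinarith [mul_nonneg hk (sq_nonneg (D + 2))]
  have h3 : D * ((k + 2) * N) ≤ (k + 3) * N ^ 2 := by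
    subst hN; nlinarith [mul_nonneg hk hD, mul_nonneg hk (sq_nonneg D)]
  have h4 : 1 ≤ (k + 3) * N ^ 2 := by subst hN; nlinarith [mul_nonneg hk (sq_nonneg (D + 2))]
  rw [mul_assoc _ (k + 3)]
  generalize (k + 3) * N ^ 2 = S at *
  nlinarith [mul_le_mul_of_nonneg_left h1 hτ, mul_le_mul_of_nonneg_left h2 hτ,
    mul_le_mul_of_nonneg_left h3 hτ, mul_le_mul_of_nonneg_left h1 (mul_nonneg hτ hm),
    mul_le_mul_of_nonneg_left h2 (mul_nonneg hτ hq), mul_le_mul_of_nonneg_left h1 hμ,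
    mul_le_mul_of_nonneg_left h1 hc, mul_le_mul_of_nonneg_left h1 hμ',
    mul_le_mul_of_nonneg_left h1 hν]

theorem Sit.ze2 (u al : C) (f : Ω) (h : Z.Agf u al f) (hu : u ≠ 0) :
    ∃ κ : ℕ, ∀ (D : ℕ) (Φ : (MvPolynomial (Fin 2) F)[X]) (a : C) (ξ : Ω), Φ ≠ 0 → Deg Φ D →
      Z.PV Φ ξ = 0 → Z.Sol a ξ → ‖f - ξ‖ ≤ Real.exp (-((D + 2 : ℕ) : ℝ) ^ κ) →
      ‖al - a‖ ≤ Real.exp (-((D + 2 : ℕ) : ℝ) ^ κ) → False := by
  obtain ⟨m0, c, hc, hev⟩ := Z.ev (ι := Unit) (fun _ => u) (fun _ => al) (fun _ => f) fun _ => h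
  have hθ := Z.hθ
  obtain ⟨τ, hτ, eτ⟩ : ∃ τ, 0 < τ ∧ ‖Z.θ‖ = Real.exp τ :=
    ⟨_, Real.log_pos hθ, (Real.exp_log (by linarith)).symm⟩
  obtain ⟨μ, hμ, eμ⟩ : ∃ μ, 0 ≤ μ ∧ ‖f‖ + 1 = Real.exp μ :=
    ⟨_, Real.log_nonneg (by simp), (Real.exp_log (by positivity)).symm⟩
  obtain ⟨μ', hμ', eμ'⟩ : ∃ μ, 0 ≤ μ ∧ ‖al‖ + ‖u‖ + 1 = Real.exp μ :=
    ⟨_, Real.log_nonneg (by simp; positivity), (Real.exp_log (by positivity)).symm⟩
  have u0 : 0 < min 1 ‖u‖ := lt_min one_pos (norm_pos_iff.2 hu)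
  obtain ⟨ν, hν, eν⟩ : ∃ ν, 0 ≤ ν ∧ min 1 ‖u‖ = Real.exp (-ν) :=
    ⟨-Real.log (min 1 ‖u‖), neg_nonneg.2 (Real.log_nonpos u0.le (min_le_left _ _)), by
      rw [neg_neg, Real.exp_log u0]⟩
  obtain ⟨k0, hk0⟩ : ∃ k0 : ℕ, 1 ≤ τ * 2 ^ k0 := by
    obtain ⟨k0, hk⟩ := pow_unbounded_of_one_lt τ⁻¹ (one_lt_two (α := ℝ))
    exact ⟨k0, by rw [← div_le_iff₀' hτ, one_div]; exact hk.le⟩
  obtain ⟨k, hk⟩ := ZE2_kappa (τ * (4 + (m0 + k0 : ℕ) + qq F) + μ + c + μ' + ν + 1)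
  refine ⟨k + 2, fun D Φ a ξ hΦ hD h0 hs h1 h2 => ?_⟩
  have num := ZE2_num (N := (D + 2 : ℕ)) hτ.le hμ hμ' hν hc (qq F).cast_nonneg
    (m0 + k0).cast_nonneg k.cast_nonneg D.cast_nonneg (by simp)
  set N : ℕ := D + 2 with hN
  set L : ℝ := (N : ℝ) ^ (k + 2) with hL
  have N2 : (2 : ℝ) ≤ N := by rw [hN]; push_cast; linarith [D.cast_nonneg (α := ℝ)]
  replace num := num.trans ((mul_le_mul_of_nonneg_right (hk.trans
    (pow_le_pow_left₀ zero_le_two N2 k)) (sq_nonneg _)).trans_eq (pow_add _ _ _).symm)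
  rw [← hL] at num
  have L0 : Real.exp (-L) ≤ 1 := Real.exp_le_one_iff.2 (neg_nonpos.2 (by positivity))
  obtain ⟨Ψ, p0, p1, p2, p3, p4, p5⟩ := Z.exists_psi Φ D hΦ hD
  obtain ⟨Ψ0, d0, d1, -, B, hB, d2, d3⟩ := Z.inv1 ξ a hs Ψ p0 ((p5 ξ).trans h0)
  have r : Ψ0.natDegree ≤ D := (natDegree_le_of_dvd d0 p0).trans p1
  have b := Z.dvd_bd Ψ0 Ψ d0 p0 D _ (one_le_pow₀ hθ.le) p2 p3 p4 (d2 ▸ Z.norm_map_F B hB)
  have b2 : ∀ j, ‖aeval Z.t (Ψ0.coeff j)‖ ≤ Real.exp (τ * D ^ 2) := fun j =>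
    (b j).2.trans ((pow_le_pow_right₀ (one_le_pow₀ hθ.le) p1).trans_eq (by
      rw [eτ, ← Real.exp_nat_mul, ← Real.exp_nat_mul]; congr 1; ring))
  have bd : Bd ((MvPolynomial.uniqueAlgEquiv C[X] Unit).symm Ψ0) D D (τ * D ^ 2) := by
    refine ⟨Finset.sup_le fun e he => ?_, fun e => ?_, fun e j => ?_⟩
    · rw [MvPolynomial.mem_support_iff, MvPolynomial.coeff_uniqueAlgEquiv_symm] at he
      rw [Finsupp.sum_fintype _ _ fun _ => rfl]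
      simpa using (le_natDegree_of_ne_zero he).trans r
    · rw [MvPolynomial.coeff_uniqueAlgEquiv_symm]
      exact (b _).1
    · rw [MvPolynomial.coeff_uniqueAlgEquiv_symm]
      exact (Z.gauss_le _ _).trans (b2 _)
  have e1 : ‖Z.PW Ψ0 f‖ ≤ Real.exp (τ * D ^ 2 + (μ + c) * D - L) := by
    have := lip_poly (aeval Z.t : C[X] →ₐ[C] Ω).toRingHom Ψ0 f ξ _ (‖f‖ + 1) b2 (by simp) (by simp)
      (by linarith [norm_sub_norm_le ξ f, norm_sub_rev f ξ]) D r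
    rw [show Ψ0.eval₂ _ ξ = 0 from d1, sub_zero, eμ] at this
    refine this.trans ((mul_le_mul_of_nonneg_left h1 (by positivity)).trans ?_)
    rw [← Real.exp_nat_mul, ← Real.exp_add, ← Real.exp_add]
    exact Real.exp_le_exp.2 (by nlinarith [mul_nonneg hc D.cast_nonneg])
  have e2 := (hev _ D D _ bd (m0 + k0 + (k + 2) * N) (by omega) 0).1
    (Real.exp (τ * D ^ 2 + (μ + c) * D - L))
    (by rwa [FF, MvPolynomial.eval₂_const_uniqueAlgEquiv_symm]) (by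
      have q1 : 2 ^ k0 * N ^ (k + 2) ≤ qq F ^ (m0 + k0 + (k + 2) * N) :=
        calc 2 ^ k0 * N ^ (k + 2) ≤ 2 ^ k0 * (2 ^ N) ^ (k + 2) :=
              Nat.mul_le_mul_left _ (Nat.pow_le_pow_left Nat.lt_two_pow_self.le _)
          _ = 2 ^ (k0 + (k + 2) * N) := by rw [← pow_mul, ← pow_add, mul_comm]
          _ ≤ 2 ^ (m0 + k0 + (k + 2) * N) := Nat.pow_le_pow_right two_pos (by omega)
          _ ≤ _ := Nat.pow_le_pow_left two_le_qq _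
      have q2 : (2 : ℝ) ^ k0 * L ≤ (qq F ^ (m0 + k0 + (k + 2) * N) : ℕ) := by
        rw [hL]; exact_mod_cast q1
      rw [eτ, ← Real.exp_nat_mul, ← Real.exp_neg, ← Real.exp_add]
      have : 0 ≤ L := by positivity
      exact Real.exp_le_exp.2 (by nlinarith [mul_nonneg hμ D.cast_nonneg]))
  rw [VV, MvPolynomial.eval₂_uniqueAlgEquiv_symm] at e2
  have D0 : (0 : ℝ) ≤ D := D.cast_nonneg
  have n1 : 0 ≤ τ * D ^ 2 + (μ + c) * D := by positivity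
  have n2 : 0 ≤ τ * (D + D * ((m0 + k0 : ℕ) + (k + 2) * N)) := by positivity
  have n3 : 0 ≤ qq F * (τ * D ^ 2) + τ * D + μ' * D := by positivity
  have n4 : 0 ≤ ν * D := by positivity
  replace e2 : ‖Ψ0.eval₂ (Z.evt 0) (al - u)‖ ≤ Real.exp (-(ν * D) - 1) := by
    refine e2.trans ((mul_le_mul_of_nonneg_right (pow_le_of_le_one (Real.exp_pos _).le
      (Real.exp_le_one_iff.2 (by linarith)) (by have := two_le_qq (F := F); positivity))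
      (by positivity)).trans ?_)
    rw [eτ, ← Real.exp_nat_mul, ← Real.exp_add]
    refine Real.exp_le_exp.2 ?_
    push_cast at num ⊢
    linarith
  have e3 : ‖Ψ0.eval₂ (Z.evt 0) (a + -u) - Ψ0.eval₂ (Z.evt 0) (al - u)‖ ≤
      Real.exp (-(ν * D) - 1) := by
    refine (lip_poly (Z.evt 0) Ψ0 _ _ (Real.exp (τ * D ^ 2) ^ qq F * ‖Z.θ‖ ^ D) (‖al‖ + ‖u‖ + 1)
      (fun j => (Z.evt_le 0 _ D (b j).1).trans (by
        simp only [zero_add, pow_one]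
        gcongr
        exact b2 j)) (by simp; positivity)
      (by linarith [norm_add_le a (-u), norm_neg u, norm_sub_norm_le a al, norm_sub_rev a al])
      (by linarith [norm_sub_le al u]) D r).trans ?_
    rw [show a + -u - (al - u) = -(al - a) by ring, norm_neg]
    refine (mul_le_mul_of_nonneg_left h2 (by positivity)).trans ?_
    rw [eτ, eμ', ← Real.exp_nat_mul, ← Real.exp_nat_mul, ← Real.exp_nat_mul, ← Real.exp_add,
      ← Real.exp_add, ← Real.exp_add]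
    exact Real.exp_le_exp.2 (by linarith)
  have e4 : Real.exp (-(ν * D)) ≤ ‖Ψ0.eval₂ (Z.evt 0) (a + -u)‖ := by
    rw [d3, norm_mul, norm_poly _ hθ B hB, norm_pow, norm_neg, ← neg_mul, mul_comm,
      Real.exp_nat_mul, ← eν]
    exact ((pow_le_pow_of_le_one u0.le (min_le_left _ _) r).trans (pow_le_pow_left₀ u0.le
      (min_le_right _ _) _)).trans (le_mul_of_one_le_left (by positivity) (one_le_pow₀ hθ.le))
  have e5 := norm_sub_norm_le (Ψ0.eval₂ (Z.evt 0) (a + -u)) (Ψ0.eval₂ (Z.evt 0) (al - u))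
  have e6 : Real.exp (-(ν * D)) = Real.exp (-(ν * D) - 1) * Real.exp 1 := by
    rw [← Real.exp_add, sub_add_cancel]
  nlinarith [Real.exp_pos (-(ν * D) - 1), Real.exp_one_gt_d9]

end Pool.Agent.MP_655169_nt
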