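import Pool.Agent.MP_655169_nt.ZE1
import Pool.Agent.MP_655169_nt.ZE2

set_option linter.unusedSectionVars false

namespace Pool.Agent.MP_655169_nt

open Polynomial Filter Topology

variable {F C Ω : Type*} [Field F] [Fintype F] [NormedField C] [IsUltrametricDist C]
  [IsAlgClosed C] [Algebra F C] [NormedField Ω] [IsUltrametricDist Ω] [IsAlgClosed Ω]
  [Algebra C Ω] [Algebra F Ω] [IsScalarTower F C Ω] (Z : Sit F C Ω)

theorem Sit.ze (u al : C) (f : Ω) (h : Z.Agf u al f) (hu : u ≠ 0) :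
    ∃ κ : ℕ, ∀ (D d : ℕ) (Φ : (MvPolynomial (Fin 2) F)[X]) (a : C), Φ ≠ 0 → Deg Φ D →
      Alg F ![Z.θ] d d a → ‖al - a‖ ≤ Real.exp (-((D + d + 2 : ℕ) : ℝ) ^ κ) →
      Real.exp (-((D + d + 2 : ℕ) : ℝ) ^ κ) < ‖Z.PV Φ f‖ := by
  obtain ⟨κ₁, h1⟩ := Z.ze1 al f (Sit.Agf.sol Z h)
  obtain ⟨κ₂, h2⟩ := Z.ze2 u al f h hu
  refine ⟨κ₁ + κ₂ + 1, fun D d Φ a hΦ hD ha hal => ?_⟩
  by_contra hc
  have hN : (1 : ℝ) ≤ ((D + d + 2 : ℕ) : ℝ) := by exact_mod_cast (by omega : 1 ≤ D + d + 2)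
  have hD1 : ((D : ℝ) + 1) ≤ ((D + d + 2 : ℕ) : ℝ) := by
    exact_mod_cast (by omega : D + 1 ≤ D + d + 2)
  have hD2 : ((D + 2 : ℕ) : ℝ) ^ κ₂ ≤ ((D + d + 2 : ℕ) : ℝ) ^ (κ₁ + κ₂) :=
    (pow_le_pow_left₀ (Nat.cast_nonneg _) (by exact_mod_cast (by omega : D + 2 ≤ D + d + 2)) κ₂).trans
      (pow_le_pow_right₀ hN (Nat.le_add_left _ _))
  obtain ⟨ξ, k1, k2, k3⟩ := h1 D d Φ a _ hΦ hD ha (pow_le_pow_right₀ hN (by omega)) hal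
    (not_lt.1 hc)
  refine h2 D Φ a ξ hΦ hD k1 k3 (k2.trans ?_) (hal.trans ?_)
  · refine Real.exp_le_exp.2 (neg_le_neg (hD2.trans ?_))
    rw [le_div_iff₀ (by positivity), pow_succ]
    exact mul_le_mul_of_nonneg_left hD1 (by positivity)
  · exact Real.exp_le_exp.2 (neg_le_neg (hD2.trans (pow_le_pow_right₀ hN (Nat.le_succ _))))

end Pool.Agent.MP_655169_nt
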