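import Pool.Agent.MP_655169_nt.SitB
import Pool.Agent.MP_655169_nt.HF

set_option linter.unusedSectionVars false

namespace Pool.Agent.MP_655169_nt

open Polynomial Filter Topology

variable {F C Ω : Type*} [Field F] [Fintype F] [NormedField C] [IsUltrametricDist C]
  [IsAlgClosed C] [Algebra F C] [NormedField Ω] [IsUltrametricDist Ω] [IsAlgClosed Ω]
  [Algebra C Ω] [Algebra F Ω] [IsScalarTower F C Ω] (Z : Sit F C Ω)

theorem ZE1_root (f : Ω) (D : ℕ) (Φ : (MvPolynomial (Fin 2) F)[X]) (L : ℝ) (hΦ : Φ ≠ 0)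
    (hD : Deg Φ D) (hL : 0 < L) (h : ‖Z.PV Φ f‖ ≤ Real.exp (-L)) :
    ∃ ξ, Z.PV Φ ξ = 0 ∧ ‖f - ξ‖ ≤ Real.exp (-(L / (D + 1))) := by
  set g := (MvPolynomial.aeval Z.zz : MvPolynomial (Fin 2) F →ₐ[F] Ω).toRingHom with hg
  have hl : 1 ≤ ‖g Φ.leadingCoeff‖ := Z.liou2 _ (leadingCoeff_ne_zero.2 hΦ)
  have hl0 : g Φ.leadingCoeff ≠ 0 := by
    intro h0
    rw [h0, norm_zero] at hl
    exact absurd hl (by norm_num)
  have hlc := leadingCoeff_map_of_leadingCoeff_ne_zero g hl0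
  have hev : ∀ y, (Φ.map g).eval y = Z.PV Φ y := fun y => eval_map g y
  have h1 : Real.exp (-L) < 1 := Real.exp_lt_one_iff.2 (by linarith)
  have hn : 0 < (Φ.map g).natDegree := by
    by_contra hn
    have h0 : (Φ.map g).natDegree = 0 := by omega
    have := hev f
    rw [eq_C_of_natDegree_eq_zero h0, eval_C, ← h0, coeff_natDegree, hlc] at this
    rw [← this] at h
    linarith
  obtain ⟨ξ, h2, h3⟩ := root_near _ hn f
  refine ⟨ξ, by rw [← hev, h2], ?_⟩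
  rw [hlc, hev] at h3
  have hnD : (Φ.map g).natDegree ≤ D := natDegree_map_le.trans hD.1
  have h4 : ‖f - ξ‖ ^ (Φ.map g).natDegree ≤ Real.exp (-L) :=
    (le_mul_of_one_le_left (by positivity) hl).trans (h3.trans h)
  by_contra hc
  push Not at hc
  have h5 := pow_lt_pow_left₀ hc (Real.exp_pos _).le hn.ne'
  rw [← Real.exp_nat_mul] at h5
  have h6 := Real.exp_lt_exp.1 (h5.trans_le h4)
  have h7 : ((Φ.map g).natDegree : ℝ) ≤ D := by exact_mod_cast hnD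
  have h8 : ((Φ.map g).natDegree : ℝ) * (L / (D + 1)) ≤ L := by
    rw [mul_div_assoc', div_le_iff₀ (by positivity)]
    nlinarith
  linarith

theorem ZE1_alg (D d : ℕ) (Φ : (MvPolynomial (Fin 2) F)[X]) (a : C) (hΦ : Φ ≠ 0) (hD : Deg Φ D)
    (ha : Alg F ![Z.θ] d d a) (ξ : Ω) (h : Z.PV Φ ξ = 0) (J : ℕ)
    (hJ : (qq F * (D + d) + 1) ^ 9 * 9 ≤ J) :
    Alg F Z.zz J (4 * J) (Z.σ ξ - algebraMap C Ω a - (Z.t - algebraMap C Ω Z.θ) * ξ) := by
  have hq := two_le_qq (F := F)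
  have h1 : Alg F Z.zz D D ξ := by
    refine ⟨Φ, hD.1, hD.2, fun h0 => ?_, h⟩
    have := Z.liou2 _ (leadingCoeff_ne_zero.2 hΦ)
    rw [h0, norm_zero] at this
    exact absurd this (by norm_num)
  let σ' : Ω →ₐ[F] Ω := { Z.σ with commutes' := Z.σ_F }
  have h2 : Alg F Z.zz D (qq F * D) (Z.σ ξ) := by
    refine Alg.subst (qq F) (fun k => ?_) (h1.map σ')
    fin_cases k
    · change Z.σ (algebraMap C Ω Z.θ) ∈ _
      rw [Z.σ_c, map_pow]
      have := Vs_pow Z.zz (Vs_var (F := F) Z.zz 0) (qq F)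
      rwa [one_mul] at this
    · change Z.σ Z.t ∈ _
      rw [Z.σ_t]
      exact Vs_mono _ (by omega) (Vs_var (F := F) Z.zz 1)
  have h3 : Alg F Z.zz d d (algebraMap C Ω a) := by
    refine Alg.comp (fun _ : Fin 1 => (0 : Fin 2)) ?_
    have e : (Z.zz ∘ fun _ : Fin 1 => (0 : Fin 2)) = IsScalarTower.toAlgHom F C Ω ∘ ![Z.θ] := by
      funext k
      fin_cases k
      rfl
    rw [e]
    exact ha.map (IsScalarTower.toAlgHom F C Ω)
  have h4 := alg_of_mem Z.zz Z.indep2 ![ξ, Z.σ ξ, algebraMap C Ω a] (qq F * (D + d)) (by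
    intro i
    fin_cases i
    · exact h1.mono (by nlinarith) (by nlinarith)
    · exact h2.mono (by nlinarith) (by nlinarith)
    · exact h3.mono (by nlinarith) (by nlinarith)) J (by simpa using hJ) 2
    (Z.σ ξ - algebraMap C Ω a - (Z.t - algebraMap C Ω Z.θ) * ξ) (by
    set y := Sum.elim Z.zz ![ξ, Z.σ ξ, algebraMap C Ω a]
    refine sub_mem (sub_mem ?_ ?_) ?_
    · exact Vs_mono _ (by omega) (Vs_var y (Sum.inr 1))
    · exact Vs_mono _ (by omega) (Vs_var y (Sum.inr 2))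
    · exact Vs_mul y (S := 1) (S' := 1) (sub_mem (Vs_var y (Sum.inl 1)) (Vs_var y (Sum.inl 0)))
        (Vs_var y (Sum.inr 0)))
  exact h4.mono le_rfl (by simp; omega)

theorem Sit.ze1 (al : C) (f : Ω) (h : Z.Sol al f) :
    ∃ κ : ℕ, ∀ (D d : ℕ) (Φ : (MvPolynomial (Fin 2) F)[X]) (a : C) (L : ℝ), Φ ≠ 0 → Deg Φ D →
      Alg F ![Z.θ] d d a → ((D + d + 2 : ℕ) : ℝ) ^ κ ≤ L → ‖al - a‖ ≤ Real.exp (-L) →
      ‖Z.PV Φ f‖ ≤ Real.exp (-L) →
      ∃ ξ, Z.PV Φ ξ = 0 ∧ ‖f - ξ‖ ≤ Real.exp (-(L / (D + 1))) ∧ Z.Sol a ξ := by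
  have hq := two_le_qq (F := F)
  have hθ := Z.hθ
  have hlog : 0 < Real.log ‖Z.θ‖ := Real.log_pos hθ
  obtain ⟨k, hk⟩ := pow_unbounded_of_one_lt (37 * (qq F : ℝ) ^ 9 * Real.log ‖Z.θ‖)
    (one_lt_two (α := ℝ))
  refine ⟨k + 10, fun D d Φ a L hΦ hD ha hL h1 h2 => ?_⟩
  set N : ℝ := ((D + d + 2 : ℕ) : ℝ) with hN
  have hN2 : 2 ≤ N := by
    rw [hN]
    exact_mod_cast (by omega : 2 ≤ D + d + 2)
  have hL0 : 0 < L := lt_of_lt_of_le (by positivity) hL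
  obtain ⟨ξ, h3, h4⟩ := ZE1_root Z f D Φ L hΦ hD hL0 h2
  refine ⟨ξ, h3, h4, ?_⟩
  set ε := Real.exp (-(L / (D + 1))) with hε
  have hLD : 0 < L / (D + 1) := by positivity
  have hε1 : ε ≤ 1 := Real.exp_le_one_iff.2 (by linarith)
  have hε0 : 0 < ε := Real.exp_pos _
  set η := Z.σ ξ - algebraMap C Ω a - (Z.t - algebraMap C Ω Z.θ) * ξ with hη
  have e : η = -Z.σ (f - ξ) + algebraMap C Ω (al - a) + (Z.t - algebraMap C Ω Z.θ) * (f - ξ) := by
    rw [hη, map_sub, map_sub, h]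
    ring
  have hn : ‖η‖ ≤ ‖Z.θ‖ * ε := by
    have hεθ : ε ≤ ‖Z.θ‖ * ε := le_mul_of_one_le_left hε0.le hθ.le
    rw [e]
    refine (IsUltrametricDist.norm_add_le_max _ _).trans (max_le
      ((IsUltrametricDist.norm_add_le_max _ _).trans (max_le ?_ ?_)) ?_)
    · rw [norm_neg, Z.σ_norm]
      exact ((pow_le_of_le_one (norm_nonneg _) (h4.trans hε1) (by omega)).trans h4).trans hεθ
    · rw [Z.norm_alg]
      refine (h1.trans (Real.exp_le_exp.2 ?_)).trans hεθ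
      have : L / (D + 1) ≤ L := div_le_self hL0.le (by simp)
      linarith
    · rw [norm_mul, norm_sub_rev, Z.norm_sub_t _ hθ.le]
      gcongr
  set J := (qq F * (D + d) + 1) ^ 9 * 9 with hJ
  have hJN : (J : ℝ) ≤ (qq F * N) ^ 9 * 9 := by
    have : qq F * (D + d) + 1 ≤ qq F * (D + d + 2) := by nlinarith
    rw [hJ, hN]
    exact_mod_cast Nat.mul_le_mul_right 9 (Nat.pow_le_pow_left this 9)
  have hbig : (4 * J + 1) * Real.log ‖Z.θ‖ < L / (D + 1) := by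
    have hq1 : (1 : ℝ) ≤ qq F := by exact_mod_cast (by omega : 1 ≤ qq F)
    have a1 : (1 : ℝ) ≤ (qq F * N) ^ 9 := one_le_pow₀ (by nlinarith)
    have a2 : (4 * J + 1) * Real.log ‖Z.θ‖ ≤ 37 * (qq F : ℝ) ^ 9 * Real.log ‖Z.θ‖ * N ^ 9 := by
      have : (4 * J + 1 : ℝ) ≤ 37 * (qq F * N) ^ 9 := by linarith
      calc _ ≤ 37 * (qq F * N) ^ 9 * Real.log ‖Z.θ‖ := by gcongr
        _ = _ := by ring
    have a3 : 37 * (qq F : ℝ) ^ 9 * Real.log ‖Z.θ‖ * N ^ 9 < N ^ k * N ^ 9 :=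
      mul_lt_mul_of_pos_right (hk.trans_le (by gcongr)) (by positivity)
    have a4 : N ^ k * N ^ 9 ≤ L / (D + 1) := by
      rw [le_div_iff₀ (by positivity)]
      have : (D + 1 : ℝ) ≤ N := by
        rw [hN]
        exact_mod_cast (by omega : D + 1 ≤ D + d + 2)
      calc _ ≤ N ^ k * N ^ 9 * N := by gcongr
        _ = N ^ (k + 10) := by ring
        _ ≤ L := hL
    linarith
  have hsm : ‖Z.θ‖ ^ (4 * J) * (‖Z.θ‖ * ε) < 1 := by
    rw [← mul_assoc, ← pow_succ, ← Real.exp_log (one_pos.trans hθ), ← Real.exp_nat_mul, hε,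
      ← Real.exp_add, Real.exp_lt_one_iff]
    push_cast
    linarith
  by_contra hc
  have h0 : η ≠ 0 := by
    intro h0
    apply hc
    rw [Sit.Sol, ← sub_eq_zero, ← h0, hη]
    ring
  have hp : 1 ≤ ‖Z.θ‖ ^ (4 * J) := one_le_pow₀ hθ.le
  have hη1 : ‖η‖ ≤ 1 :=
    hn.trans ((le_mul_of_one_le_left (by positivity) hp).trans hsm.le)
  obtain ⟨b, hb0, -, hb⟩ := norm_step Z.zz ‖Z.θ‖ hθ.le Z.norm_zz J (4 * J) η
    (ZE1_alg Z D d Φ a hΦ hD ha ξ h3 J le_rfl) h0 hη1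
  have := (Z.liou2 b hb0).trans (hb.trans (mul_le_mul_of_nonneg_left hn (by positivity)))
  linarith

end Pool.Agent.MP_655169_nt
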